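import Pool.Agent.MP_5168f5_an.H17S.BeApi

/-! Conditional laws. -/

namespace Pool.Agent.MP_5168f5_an.H17S

open H19 MeasureTheory

namespace CND

variable {Ω β : Type} (P : FP Ω) (φ : Ω → β)

open Classical in
theorem E_cnd {ω : Ω} (h : ω ∈ P.S) (G : Ω → ℝ) : (cnd P φ ω).E G =
    P.E fun a => if φ a = φ ω then G a / P.pr (Setoid.ker φ) ω else 0 := by
  unfold cnd
  rw [dif_pos h]
  unfold FP.E
  simp only
  rw [Finset.sum_filter]
  refine Finset.sum_congr rfl fun a _ => ?_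
  split_ifs
  · ring
  · rw [mul_zero]

theorem mem {ω a : Ω} (h : ω ∈ P.S) : a ∈ (cnd P φ ω).S ↔ a ∈ P.S ∧ φ a = φ ω := by
  unfold cnd
  rw [dif_pos h]
  simp only [Finset.mem_filter]

theorem cong {ω ω' : Ω} (h : ω ∈ P.S) (h' : ω' ∈ P.S) (e : φ ω = φ ω') :
    cnd P φ ω = cnd P φ ω' := by
  have h1 : P.pr (Setoid.ker φ) ω = P.pr (Setoid.ker φ) ω' := P.pr_rel e
  unfold cnd
  rw [dif_pos h, dif_pos h', FP.mk.injEq]
  refine ⟨?_, by simp only [h1]⟩
  ext a
  simp only [Finset.mem_filter, e]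

theorem exp (F : Ω → Ω → ℝ) (hF : ∀ a ∈ P.S, ∀ b ∈ P.S, φ a = φ b → F a = F b) :
    P.E (fun ω => F ω ω) = P.E fun ω => (cnd P φ ω).E (F ω) := by
  classical
  rw [P.E_congr fun ω h => E_cnd P φ h (F ω), P.E_comm]
  refine P.E_congr fun a ha => ?_
  have h1 : P.E (fun ω => if φ a = φ ω then F ω a / P.pr (Setoid.ker φ) ω else 0) =
      P.E fun ω => F a a / P.pr (Setoid.ker φ) a * if Setoid.ker φ ω a then 1 else 0 := by
    refine P.E_congr fun ω hω => ?_
    by_cases h : φ a = φ ω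
    · rw [if_pos h, if_pos (show Setoid.ker φ ω a from h.symm), mul_one, hF a ha ω hω h,
        P.pr_rel (R := Setoid.ker φ) (show Setoid.ker φ a ω from h)]
    · rw [if_neg h, if_neg (show ¬ Setoid.ker φ ω a from fun h' => h (Eq.symm h')), mul_zero]
  rw [h1, P.E_mul]
  exact (div_mul_cancel₀ _ (P.pr_pos _ ha).ne').symm

theorem ent {α : Type} (F : Ω → Ω → α) (hF : ∀ a ∈ P.S, ∀ b ∈ P.S, φ a = φ b → F a = F b) :
    ch P (fun ω => F ω ω) φ = P.E fun ω => hh (cnd P φ ω) (F ω) := by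
  classical
  have h1 := exp P φ (fun ω a => -Real.log ((cnd P φ ω).pr (Setoid.ker (F ω)) a))
    fun a ha b hb e => by rw [cong P φ ha hb e, hF a ha b hb e]
  refine Eq.trans ?_ h1
  unfold ch hh FP.H
  rw [← P.E_sub]
  refine P.E_congr fun ω hω => ?_
  have h2 : (cnd P φ ω).pr (Setoid.ker (F ω)) ω =
      (P.pr (Setoid.ker φ) ω)⁻¹ * P.pr (Setoid.ker fun x => (F x x, φ x)) ω := by
    refine (E_cnd P φ hω _).trans (Eq.trans (P.E_congr fun a ha => ?_) (P.E_mul _ _))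
    by_cases h : φ a = φ ω
    · rw [if_pos h, div_eq_inv_mul]
      by_cases h' : F ω a = F ω ω
      · rw [if_pos (show Setoid.ker (F ω) a ω from h'), if_pos]
        exact Prod.ext ((congrFun (hF a ha ω hω h) a).trans h') h
      · rw [if_neg (show ¬ Setoid.ker (F ω) a ω from h'), if_neg]
        exact fun h2 => h' ((congrFun (hF a ha ω hω h) a).symm.trans (congrArg Prod.fst h2))
    · rw [if_neg h, if_neg, mul_zero]
      exact fun h2 => h (congrArg Prod.snd h2)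
  rw [h2, Real.log_mul (inv_ne_zero (P.pr_pos _ hω).ne') (P.pr_pos _ hω).ne', Real.log_inv]
  ring

end CND

theorem rowCND : Cnd :=
  ⟨fun P φ _ _ h => CND.mem P φ h, fun P φ _ _ h h' e => CND.cong P φ h h' e,
    fun P φ F h => CND.exp P φ F h, fun P φ F h => CND.ent P φ F h⟩

end Pool.Agent.MP_5168f5_an.H17S
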