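import Pool.Agent.MP_5168f5_an.H17S.Defs

/-! Dilates of bodies. -/

namespace Pool.Agent.MP_5168f5_an.H17S

namespace Bd

variable {E : Type} [NormedAddCommGroup E] [NormedSpace ℝ E] {A B C : Bd E} {c c' : ℝ} {x y : E}

theorem le_def : A ≤ B ↔ A.s ⊆ B.s := Iff.rfl

theorem mem_inf : x ∈ (A ⊓ B).s ↔ x ∈ A.s ∧ x ∈ B.s := Iff.rfl

theorem smul_mem (hx : x ∈ A.s) {t : ℝ} (ht : |t| ≤ 1) : t • x ∈ A.s := by
  rcases le_total 0 t with h | h
  · have := A.cv hx A.z0 h (sub_nonneg.2 (le_of_abs_le ht)) (add_sub_cancel t 1)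
    simpa using this
  · have h1 : -t ≤ 1 := by rw [abs_of_nonpos h] at ht; exact ht
    have := A.cv (A.sy x hx) A.z0 (neg_nonneg.2 h) (sub_nonneg.2 h1) (add_sub_cancel (-t) 1)
    simpa using this

theorem in_one : A.In 1 x ↔ x ∈ A.s := by simp [In]

theorem in_zero (A : Bd E) (c : ℝ) : A.In c 0 := by simpa [In] using A.z0

theorem In.mono (h : A.In c x) (hc : 0 < c) (hcc : c ≤ c') : A.In c' x := by
  have hc' : 0 < c' := hc.trans_le hcc
  have h1 := smul_mem h (t := c / c') (by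
    rw [abs_of_pos (div_pos hc hc')]; exact (div_le_one hc').2 hcc)
  have e : (c / c') • c⁻¹ • x = c'⁻¹ • x := by
    rw [smul_smul]; congr 1; field_simp
  rwa [e] at h1

theorem In.of_mem (hx : x ∈ A.s) (hc : 1 ≤ c) : A.In c x := (in_one.2 hx).mono one_pos hc

theorem In.neg (h : A.In c x) : A.In c (-x) := by
  have := A.sy _ h
  simpa [In] using this

theorem In.add (h : A.In c x) (h' : A.In c' y) (hc : 0 < c) (hc' : 0 < c') :
    A.In (c + c') (x + y) := by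
  have hs : 0 < c + c' := add_pos hc hc'
  have h1 := A.cv h h' (a := c / (c + c')) (b := c' / (c + c')) (by positivity) (by positivity)
    (by field_simp)
  have e : (c / (c + c')) • c⁻¹ • x + (c' / (c + c')) • c'⁻¹ • y = (c + c')⁻¹ • (x + y) := by
    rw [smul_smul, smul_smul, smul_add]
    congr 2 <;> field_simp
  rwa [e] at h1

theorem In.sub (h : A.In c x) (h' : A.In c' y) (hc : 0 < c) (hc' : 0 < c') :
    A.In (c + c') (x - y) := by
  rw [sub_eq_add_neg]; exact h.add h'.neg hc hc'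

theorem In.smul (h : A.In c x) {t r : ℝ} (ht : |t| ≤ r) (hr : 0 < r) : A.In (r * c) (t • x) := by
  have h1 := smul_mem h (t := t / r) (by
    rw [abs_div, abs_of_pos hr]; exact (div_le_one hr).2 ht)
  have e : (t / r) • c⁻¹ • x = (r * c)⁻¹ • t • x := by
    rw [smul_smul, smul_smul]; congr 1; rw [mul_inv]; ring
  rwa [e] at h1

theorem In.of_le (h : A.In c x) (hAB : A ≤ B) : B.In c x := hAB h

theorem in_inf : (A ⊓ B).In c x ↔ A.In c x ∧ B.In c x := Iff.rfl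

theorem mem_sup_elim (hx : x ∈ (A ⊔ B).s) : ∃ a ∈ A.s, ∃ b ∈ B.s, x = a + b := by
  have h : convexHull ℝ (A.s ∪ B.s) = convexJoin ℝ A.s B.s :=
    Convex.convexHull_union A.cv B.cv ⟨0, A.z0⟩ ⟨0, B.z0⟩
  have hx' : x ∈ convexJoin ℝ A.s B.s := h ▸ hx
  obtain ⟨a, ha, b, hb, s, t, hs, ht, hst, rfl⟩ := mem_convexJoin.1 hx'
  exact ⟨s • a, smul_mem ha (by rw [abs_of_nonneg hs]; linarith), t • b,
    smul_mem hb (by rw [abs_of_nonneg ht]; linarith), rfl⟩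

theorem In.sup_elim (h : (A ⊔ B).In c x) (hc : 0 < c) :
    ∃ a b, A.In c a ∧ B.In c b ∧ x = a + b := by
  obtain ⟨a, ha, b, hb, e⟩ := mem_sup_elim h
  refine ⟨c • a, c • b, ?_, ?_, ?_⟩
  · simpa [In, smul_smul, hc.ne'] using ha
  · simpa [In, smul_smul, hc.ne'] using hb
  · rw [← smul_add, ← e, smul_smul, mul_inv_cancel₀ hc.ne', one_smul]

theorem In.sup_add (h : A.In c x) (h' : B.In c' y) (hc : 0 < c) (hc' : 0 < c') :
    (A ⊔ B).In (c + c') (x + y) :=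
  (h.of_le le_sup_left).add (h'.of_le le_sup_right) hc hc'

theorem Sub.of_le (h : A ≤ B) (hc : 1 ≤ c) : A.Sub B c := fun _ hx => In.of_mem (h hx) hc

theorem Sub.mono (h : A.Sub B c) (hc : 0 < c) (hcc : c ≤ c') : A.Sub B c' :=
  fun x hx => (h x hx).mono hc hcc

theorem In.of_sub (h : A.In c x) (hAB : A.Sub B c') : B.In (c' * c) x := by
  have := hAB _ h
  unfold In at *
  rwa [smul_smul, ← mul_inv] at this

theorem Sub.trans (h : A.Sub B c) (h' : B.Sub C c') : A.Sub C (c' * c) :=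
  fun x hx => (h x hx).of_sub h'

theorem in_ball {r : ℝ} {hr : 0 < r} (hc : 0 < c) : (ball r hr : Bd E).In c x ↔ ‖x‖ < c * r := by
  simp only [In, ball, mem_ball_zero_iff, norm_smul, norm_inv, Real.norm_eq_abs, abs_of_pos hc]
  rw [inv_mul_lt_iff₀ hc]

/-- Two points with the same value modulo `A` differ by an element of `2 A`. -/
theorem in_of_kap_eq (h : A.kap x = A.kap y) : A.In 2 (x - y) := by
  have h1 := (in_one.2 (A.sub_kap x)).sub (in_one.2 (A.sub_kap y)) one_pos one_pos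
  have e : x - A.kap x - (y - A.kap y) = x - y := by rw [h]; abel
  rw [e] at h1
  simpa [one_add_one_eq_two] using h1

section Map

variable {F : Type} [NormedAddCommGroup F] [NormedSpace ℝ F] [CompleteSpace E] [CompleteSpace F]
  {f : E →L[ℝ] F} {hf : Function.Surjective f}

theorem mem_map {w : F} : w ∈ (A.map f hf).s ↔ ∃ x ∈ A.s, f x = w := Iff.rfl

theorem In.map (h : A.In c x) : (A.map f hf).In c (f x) := ⟨_, h, by simp⟩

theorem In.map_elim {w : F} (h : (A.map f hf).In c w) (hc : 0 < c) :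
    ∃ x, A.In c x ∧ f x = w := by
  obtain ⟨x, hx, e⟩ := h
  refine ⟨c • x, by simpa [In, smul_smul, hc.ne'] using hx, ?_⟩
  rw [map_smul, e, smul_smul, mul_inv_cancel₀ hc.ne', one_smul]

end Map

end Bd

variable {N : ℕ} {c z : ℝ} {U U' T : Bd (V N)} {x : V N × V N}

theorem mem_cyl : x ∈ (cyl z U U').s ↔ x.1 + z • x.2 ∈ U.s ∧ x.2 ∈ U'.s := Iff.rfl

theorem in_cyl : (cyl z U U').In c x ↔ U.In c (x.1 + z • x.2) ∧ U'.In c x.2 := by
  unfold Bd.In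
  rw [mem_cyl, smul_add, smul_comm c⁻¹ z]
  rfl

theorem mem_sq : x ∈ (sq T).s ↔ x.1 ∈ T.s ∧ x.2 ∈ T.s := by simp [sq, mem_cyl]

theorem in_sq : (sq T).In c x ↔ T.In c x.1 ∧ T.In c x.2 := by simp [sq, in_cyl]

theorem sq_mono (h : U ≤ U') : sq U ≤ sq U' := fun _ hx =>
  mem_sq.2 ⟨h (mem_sq.1 hx).1, h (mem_sq.1 hx).2⟩

theorem in_Fd {A : Bd (V N × V N)} {Tm Tp : Bd (V N)} (hA : A.In c x)
    (h1 : Tm.In c (x.1 + z • x.2)) (h2 : Tp.In c x.2) : (Fd A z Tm Tp).In c x.2 := by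
  have h : (A ⊓ cyl z Tm Tp).In c x := Bd.in_inf.2 ⟨hA, in_cyl.2 ⟨h1, h2⟩⟩
  exact Bd.In.map (f := ContinuousLinearMap.snd ℝ (V N) (V N)) (hf := fun y => ⟨(0, y), rfl⟩) h

theorem in_Fd_elim {A : Bd (V N × V N)} {Tm Tp : Bd (V N)} {e : V N}
    (h : (Fd A z Tm Tp).In c e) (hc : 0 < c) :
    ∃ a, A.In c (a, e) ∧ Tm.In c (a + z • e) ∧ Tp.In c e := by
  obtain ⟨x, hx, rfl⟩ := Bd.In.map_elim h hc
  exact ⟨x.1, (Bd.in_inf.1 hx).1, (in_cyl.1 (Bd.in_inf.1 hx).2).1, (in_cyl.1 (Bd.in_inf.1 hx).2).2⟩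

theorem in_Yd {A : Bd (V N × V N)} {Tp : Bd (V N)} (hA : A.In c x)
    (h : Tp.In c (x.1 + z • x.2)) : (Yd A z Tp).In c (x.1 + z • x.2) :=
  Bd.in_inf.2 ⟨Bd.In.map (f := yz z) hA, h⟩

theorem in_Yd_elim {A : Bd (V N × V N)} {Tp : Bd (V N)} {y : V N}
    (h : (Yd A z Tp).In c y) (hc : 0 < c) :
    ∃ x, A.In c x ∧ x.1 + z • x.2 = y ∧ Tp.In c y := by
  obtain ⟨x, hx, e⟩ := Bd.In.map_elim (Bd.in_inf.1 h).1 hc
  exact ⟨x, hx, e, (Bd.in_inf.1 h).2⟩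

theorem mem_bot {u : ℕ} {y : V N} : y ∈ (bot N u).s ↔ ‖y‖ < ((2 : ℝ) ^ u)⁻¹ := mem_ball_zero_iff

theorem mem_top {y : V N} : y ∈ (top N).s ↔ ‖y‖ < 2 := mem_ball_zero_iff

theorem in_bot {u : ℕ} {y : V N} (hc : 0 < c) :
    (bot N u).In c y ↔ ‖y‖ < c * ((2 : ℝ) ^ u)⁻¹ := Bd.in_ball hc

theorem in_top {y : V N} (hc : 0 < c) : (top N).In c y ↔ ‖y‖ < c * 2 := Bd.in_ball hc

theorem two_pow_inv_le (u : ℕ) : ((2 : ℝ) ^ u)⁻¹ ≤ 1 :=
  inv_le_one_of_one_le₀ (one_le_pow₀ (by norm_num))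

theorem bot_le_top (N u : ℕ) : bot N u ≤ top N := fun _ hy =>
  mem_top.2 ((mem_bot.1 hy).trans_le ((two_pow_inv_le u).trans (by norm_num)))

theorem bot_le_seg (u : ℕ) (v : V N) : bot N u ≤ seg u v := fun y hy =>
  ⟨0, by simp, by simpa using hy⟩

theorem seg_le_top (u : ℕ) {v : V N} (hv : ‖v‖ ≤ 1) : seg u v ≤ top N := by
  rintro y ⟨t, ht, hy⟩
  have h1 := mem_bot.1 hy
  have h2 : ‖t • v‖ ≤ 1 := by
    rw [norm_smul, Real.norm_eq_abs]; exact mul_le_one₀ ht (norm_nonneg v) hv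
  have h3 : ‖y‖ ≤ ‖y - t • v‖ + ‖t • v‖ := by simpa using norm_add_le (y - t • v) (t • v)
  have := two_pow_inv_le u
  exact mem_top.2 (by linarith)

theorem in_seg {u : ℕ} {v y : V N} {t : ℝ} (hc : 0 < c) (ht : |t| ≤ c)
    (hy : (bot N u).In c y) : (seg u v).In c (t • v + y) := by
  refine ⟨c⁻¹ * t, ?_, ?_⟩
  · rw [abs_mul, abs_inv, abs_of_pos hc, inv_mul_le_iff₀ hc, mul_one]; exact ht
  · have e : c⁻¹ • (t • v + y) - (c⁻¹ * t) • v = c⁻¹ • y := by module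
    rw [e]; exact hy

theorem self_mem_seg (u : ℕ) (v : V N) : v ∈ (seg u v).s :=
  ⟨1, by simp, by simpa using (bot N u).z0⟩

end Pool.Agent.MP_5168f5_an.H17S
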