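import Pool.Agent.MP_5168f5_an.H17S.ChApi
import Pool.Agent.MP_5168f5_an.H17S.BdApi

/-! Dyadic cells and entropy. -/

namespace Pool.Agent.MP_5168f5_an.H17S

open H19

variable {Ω β : Type} {P : FP Ω} {N : ℕ}

theorem fl_apply (j : ℕ) (x : V N) (i : Fin N) : fl j x i = fl1 j (x i) := rfl

theorem abs_sub_lt_of_fl1_eq {j : ℕ} {x y : ℝ} (h : fl1 j x = fl1 j y) :
    |x - y| < ((2 : ℝ) ^ j)⁻¹ := by
  have h1 := Int.abs_sub_lt_one_of_floor_eq_floor h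
  have h2 : (0 : ℝ) < 2 ^ j := by positivity
  rw [← mul_sub, abs_mul, abs_of_pos h2] at h1
  rw [← one_div, lt_div_iff₀ h2]; linarith

theorem norm_sub_lt_of_fl_eq {j : ℕ} {x y : V N} (h : fl j x = fl j y) :
    ‖x - y‖ < ((2 : ℝ) ^ j)⁻¹ :=
  (pi_norm_lt_iff (by positivity)).2 fun i => abs_sub_lt_of_fl1_eq (congrFun h i)

theorem fl1_nest {j k : ℕ} (hjk : j ≤ k) (x : ℝ) : fl1 j x = fl1 k x / 2 ^ (k - j) := by
  unfold fl1
  have e : (2 : ℝ) ^ j * x = (2 : ℝ) ^ k * x / ((2 ^ (k - j) : ℕ) : ℝ) := by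
    obtain ⟨i, rfl⟩ := Nat.exists_eq_add_of_le hjk
    simp only [Nat.add_sub_cancel_left, pow_add]; push_cast; field_simp
  rw [e, Int.floor_div_natCast]; push_cast; rfl

theorem fl1_eq_of_le {j k : ℕ} (hjk : j ≤ k) {x y : ℝ} (h : fl1 k x = fl1 k y) :
    fl1 j x = fl1 j y := by rw [fl1_nest hjk, fl1_nest hjk y, h]

theorem fl_eq_of_le {j k : ℕ} (hjk : j ≤ k) {x y : V N} (h : fl k x = fl k y) :
    fl j x = fl j y := funext fun i => fl1_eq_of_le hjk (congrFun h i)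

/-- Left end point of the dyadic interval. -/
theorem fl1_le (j : ℕ) (x : ℝ) : ((2 : ℝ) ^ j)⁻¹ * fl1 j x ≤ x := by
  rw [inv_mul_le_iff₀ (by positivity)]; exact Int.floor_le _

theorem lt_fl1 (j : ℕ) (x : ℝ) : x < ((2 : ℝ) ^ j)⁻¹ * fl1 j x + ((2 : ℝ) ^ j)⁻¹ := by
  have h : (0 : ℝ) < 2 ^ j := by positivity
  have h1 := Int.lt_floor_add_one ((2 : ℝ) ^ j * x)
  have e : ((2 : ℝ) ^ j)⁻¹ * fl1 j x + ((2 : ℝ) ^ j)⁻¹ = ((2 : ℝ) ^ j)⁻¹ * (fl1 j x + 1) := by ring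
  rw [e, lt_inv_mul_iff₀ h]; exact h1

theorem fl1_zero_of_box {x : ℝ} (h0 : 0 ≤ x) (h1 : x < 1) : fl1 0 x = 0 := by
  simp [fl1, Int.floor_eq_zero_iff, h0, h1]

theorem fr_eq (j : ℕ) (x : V N) : fr j x = (2 : ℝ) ^ j • x - fun i => (fl j x i : ℝ) := by
  funext i; rfl

theorem fr_box (j : ℕ) (x : V N) (i : Fin N) : 0 ≤ fr j x i ∧ fr j x i < 1 :=
  ⟨Int.fract_nonneg _, Int.fract_lt_one _⟩

theorem fl_fr (i j : ℕ) (x : V N) : fl i (fr j x) = fun t => fl (j + i) x t - 2 ^ i * fl j x t := by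
  funext t
  simp only [fl, fr, Int.fract]
  have e : (2 : ℝ) ^ i * (2 ^ j * x t - (⌊2 ^ j * x t⌋ : ℝ)) =
      2 ^ (j + i) * x t - ((2 ^ i * ⌊(2 : ℝ) ^ j * x t⌋ : ℤ) : ℝ) := by
    push_cast; ring
  rw [e, Int.floor_sub_intCast]

theorem norm_le_one_of_box {x : V N} (h : ∀ i, 0 ≤ x i ∧ x i < 1) : ‖x‖ ≤ 1 :=
  (pi_norm_le_iff_of_nonneg zero_le_one).2 fun i => by
    rw [Real.norm_eq_abs, abs_of_nonneg (h i).1]; exact (h i).2.le

theorem norm_sub_lt_one_of_box {x y : V N} (h : ∀ i, 0 ≤ x i ∧ x i < 1)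
    (h' : ∀ i, 0 ≤ y i ∧ y i < 1) : ‖x - y‖ < 1 :=
  (pi_norm_lt_iff one_pos).2 fun i => by
    rw [Real.norm_eq_abs, Pi.sub_apply, abs_lt]
    constructor <;> linarith [(h i).1, (h i).2, (h' i).1, (h' i).2]

theorem fl1_mem_Icc {j n : ℕ} {x y : ℝ} (h : |x - y| ≤ n * ((2 : ℝ) ^ j)⁻¹) :
    fl1 j x ∈ Finset.Icc (fl1 j y - n) (fl1 j y + n) := by
  have h2 : (0 : ℝ) < 2 ^ j := by positivity
  have h3 : |2 ^ j * x - 2 ^ j * y| ≤ (n : ℝ) := by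
    rw [← mul_sub, abs_mul, abs_of_pos h2]
    calc _ ≤ 2 ^ j * (n * ((2 : ℝ) ^ j)⁻¹) := mul_le_mul_of_nonneg_left h h2.le
      _ = n := by field_simp
  rw [abs_le] at h3
  unfold fl1
  rw [Finset.mem_Icc, ← Int.floor_sub_natCast, ← Int.floor_add_natCast]
  exact ⟨Int.floor_le_floor (by linarith [h3.1]), Int.floor_le_floor (by linarith [h3.2])⟩

/-- A real variable known to `n 2^{-j}` has few dyadic intervals; `j` may depend on `G`. -/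
theorem det_fl1_near {x : Ω → ℝ} {G : Ω → β} {j : Ω → ℕ} {n : ℕ} (hj : Fn P j G)
    (h : ∀ a ∈ P.S, ∀ b ∈ P.S, G a = G b → |x a - x b| ≤ n * ((2 : ℝ) ^ j a)⁻¹) :
    Det P (fun ω => fl1 (j ω) (x ω)) G (2 * n + 1) := by
  intro a ha
  refine ⟨Finset.Icc (fl1 (j a) (x a) - n) (fl1 (j a) (x a) + n), ?_, fun b hb e => ?_⟩
  · rw [Int.card_Icc]
    have : (fl1 (j a) (x a) + n + 1 - (fl1 (j a) (x a) - n)).toNat = 2 * n + 1 := by omega
    rw [this]; push_cast; exact le_rfl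
  · have h1 := h b hb a ha e
    have h2 := hj b hb a ha e
    simp only [h2] at h1 ⊢
    exact fl1_mem_Icc h1

theorem ch_fl1_near {x : Ω → ℝ} {G : Ω → β} {j : Ω → ℕ} {n : ℕ} (hn : n ≤ 60) (hj : Fn P j G)
    (h : ∀ a ∈ P.S, ∀ b ∈ P.S, G a = G b → |x a - x b| ≤ n * ((2 : ℝ) ^ j a)⁻¹) :
    ch P (fun ω => fl1 (j ω) (x ω)) G ≤ 5 := by
  have h1 : (n : ℝ) ≤ 60 := by exact_mod_cast hn
  exact (ch_det (det_fl1_near hj h)).trans (log_le_five (by positivity) (by linarith))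

theorem det_fl_near {x : Ω → V N} {G : Ω → β} {j n : ℕ}
    (h : ∀ a ∈ P.S, ∀ b ∈ P.S, G a = G b → ‖x a - x b‖ ≤ n * ((2 : ℝ) ^ j)⁻¹) :
    Det P (fun ω => fl j (x ω)) G ((2 * n + 1) ^ N) := by
  intro a ha
  refine ⟨Fintype.piFinset fun i => Finset.Icc (fl j (x a) i - n) (fl j (x a) i + n), ?_,
    fun b hb e => Fintype.mem_piFinset.2 fun i => ?_⟩
  · rw [Fintype.card_piFinset]
    have : ∀ i, (Finset.Icc (fl j (x a) i - n) (fl j (x a) i + n)).card = 2 * n + 1 := by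
      intro i; rw [Int.card_Icc]; omega
    simp [this]
  · exact fl1_mem_Icc ((norm_le_pi_norm (x b - x a) i).trans (h b hb a ha e))

/-- A vector known to `n 2^{-j}` (with `n ≤ 60`) costs at most `5 N`. -/
theorem ch_fl_near {x : Ω → V N} {G : Ω → β} {j n : ℕ} (hn : n ≤ 60)
    (h : ∀ a ∈ P.S, ∀ b ∈ P.S, G a = G b → ‖x a - x b‖ ≤ n * ((2 : ℝ) ^ j)⁻¹) :
    ch P (fun ω => fl j (x ω)) G ≤ 5 * N := by
  have h1 : (n : ℝ) ≤ 60 := by exact_mod_cast hn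
  refine (ch_det (det_fl_near h)).trans ?_
  rw [Real.log_pow, mul_comm]
  exact mul_le_mul_of_nonneg_right (log_le_five (by positivity) (by linarith)) (by positivity)

theorem fl1_mem_Ico {j i : ℕ} {x y : ℝ} (h : fl1 j x = fl1 j y) :
    fl1 (j + i) x ∈ Finset.Ico (2 ^ i * fl1 j y) (2 ^ i * fl1 j y + 2 ^ i) := by
  rw [← h, fl1_nest (Nat.le_add_right j i) x, Nat.add_sub_cancel_left, Finset.mem_Ico]
  have h2 : (0 : ℤ) < 2 ^ i := by positivity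
  have h3 := Int.emod_add_mul_ediv (fl1 (j + i) x) (2 ^ i)
  have h4 := Int.emod_nonneg (fl1 (j + i) x) h2.ne'
  have h5 := Int.emod_lt_of_pos (fl1 (j + i) x) h2
  constructor <;> linarith

/-- Refining by `i` binary digits; `j` and `i` may depend on `G`. -/
theorem ch_fl1_refine {x : Ω → ℝ} {G : Ω → β} {j i : Ω → ℕ} (hj : Fn P j G) (hi : Fn P i G)
    (h : Fn P (fun ω => fl1 (j ω) (x ω)) G) :
    ch P (fun ω => fl1 (j ω + i ω) (x ω)) G ≤ P.E fun ω => i ω * lg := by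
  have := ch_detE (P := P) (F := fun ω => fl1 (j ω + i ω) (x ω)) (G := G)
    (fun ω => (2 : ℝ) ^ i ω) ((Fn.comp (fun n : ℕ => (2 : ℝ) ^ n) i).trans hi) fun a ha =>
    ⟨Finset.Ico (2 ^ i a * fl1 (j a) (x a)) (2 ^ i a * fl1 (j a) (x a) + 2 ^ i a), by
      rw [Int.card_Ico, add_sub_cancel_left]
      have : ((2 : ℤ) ^ i a).toNat = 2 ^ i a := by
        rw [show ((2 : ℤ) ^ i a) = ((2 ^ i a : ℕ) : ℤ) by push_cast; rfl, Int.toNat_natCast]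
      rw [this]; push_cast; exact le_rfl, fun b hb e => by
      have h1 := h b hb a ha e
      simp only [hj b hb a ha e, hi b hb a ha e] at h1 ⊢
      exact fl1_mem_Ico h1⟩
  simpa only [log_two_pow] using this

theorem ch_fl_refine {x : Ω → V N} {G : Ω → β} {j i : ℕ} (h : Fn P (fun ω => fl j (x ω)) G) :
    ch P (fun ω => fl (j + i) (x ω)) G ≤ N * i * lg := by
  have h1 : Det P (fun ω => fl (j + i) (x ω)) G (((2 : ℝ) ^ i) ^ N) := by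
    intro a ha
    refine ⟨Fintype.piFinset fun t => Finset.Ico (2 ^ i * fl j (x a) t)
      (2 ^ i * fl j (x a) t + 2 ^ i), ?_, fun b hb e => Fintype.mem_piFinset.2 fun t =>
        fl1_mem_Ico (congrFun (h b hb a ha e) t)⟩
    rw [Fintype.card_piFinset]
    have : ((2 : ℤ) ^ i).toNat = 2 ^ i := by
      rw [show ((2 : ℤ) ^ i) = ((2 ^ i : ℕ) : ℤ) by push_cast; rfl, Int.toNat_natCast]
    simp [this]
  refine (ch_det h1).trans (le_of_eq ?_)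
  rw [Real.log_pow, log_two_pow]; ring

theorem Cfg.X_eq_of_le (c : Cfg N) {j k : ℕ} (hjk : j ≤ k) {a b : c.Ω}
    (h : c.X k a = c.X k b) : c.X j a = c.X j b :=
  Prod.ext (fl_eq_of_le hjk (congrArg Prod.fst h)) (fl_eq_of_le hjk (congrArg Prod.snd h))

theorem Cfg.fn_X_ln (c : Cfg N) (j : ℕ) : Fn c.P (c.X j) c.ln := by
  intro a _ b _ e
  simp only [Cfg.ln, Prod.mk.injEq] at e
  simp only [Cfg.X, e.1, e.2.1]

theorem Cfg.fn_θ_ln (c : Cfg N) : Fn c.P c.θ c.ln := fun _ _ _ _ e => congrArg (·.2.2) e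

/-- The rescaled point. -/
theorem Cfg.zoom_pt (c : Cfg N) (j : ℕ) (ω : c.Ω) : (c.zoom j).pt ω = (2 : ℝ) ^ j • c.pt ω -
    ((fun i => (fl j (c.a ω) i : ℝ)) + c.z ω • fun i => (fl j (c.e ω) i : ℝ)) := by
  change fr j (c.a ω) + c.z ω • fr j (c.e ω) = _
  rw [fr_eq, fr_eq, Cfg.pt]; module

theorem Cfg.zoom_box (c : Cfg N) (h : c.Box) (j : ℕ) : (c.zoom j).Box :=
  fun ω hω => ⟨fr_box j _, fr_box j _, (h ω hω).2.2⟩

end Pool.Agent.MP_5168f5_an.H17S
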