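import Pool.Agent.MP_5168f5_an.H17S.BeApi

/-! Dyadic scales for a set of small Hausdorff dimension. -/

namespace Pool.Agent.MP_5168f5_an.H17S

open H19 MeasureTheory

namespace COV

open Filter Topology Metric
open scoped ENNReal NNReal

theorem pw (d : ℝ) (M : ℕ) :
    (((2 : ℝ) ^ (M + 1))⁻¹) ^ d = ((2 : ℝ) ^ (d * (M + 1)))⁻¹ := by
  rw [Real.inv_rpow (by positivity), ← Real.rpow_natCast, ← Real.rpow_mul (by norm_num), mul_comm]
  push_cast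
  rfl

/-- Choice of the scale of one set of the cover. -/
theorem scale {d δ ε : ℝ} (M₀ : ℕ) (hd : 0 < d) (hε : 0 < ε) (h1 : δ ≤ ((2 : ℝ) ^ M₀)⁻¹) :
    ∃ M, M₀ ≤ M ∧ δ ≤ ((2 : ℝ) ^ M)⁻¹ ∧ (((2 : ℝ) ^ (M + 1))⁻¹) ^ d ≤ |δ| ^ d + ε := by
  classical
  have h0 : 0 ≤ |δ| ^ d := Real.rpow_nonneg (abs_nonneg _) _
  have hex : ∃ k : ℕ, (((2 : ℝ) ^ (M₀ + k + 1))⁻¹) ^ d ≤ |δ| ^ d + ε := by
    obtain ⟨k, hk⟩ := exists_pow_lt_of_lt_one (Real.rpow_pos_of_pos hε d⁻¹)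
      (by norm_num : (2 : ℝ)⁻¹ < 1)
    refine ⟨k, ?_⟩
    have h2 : ((2 : ℝ) ^ (M₀ + k + 1))⁻¹ ≤ ε ^ d⁻¹ := by
      rw [← inv_pow]
      exact (pow_le_pow_of_le_one (by norm_num) (by norm_num) (by omega)).trans hk.le
    have h3 := Real.rpow_le_rpow (by positivity) h2 hd.le
    rw [Real.rpow_inv_rpow hε.le hd.ne'] at h3
    linarith
  refine ⟨M₀ + Nat.find hex, Nat.le_add_right _ _, ?_, Nat.find_spec hex⟩
  rcases h : Nat.find hex with _ | k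
  · exact h1
  · have h2 := Nat.find_min hex (show k < Nat.find hex by omega)
    by_contra h3
    push Not at h3
    have h4 := Real.rpow_le_rpow (by positivity) (h3.le.trans (le_abs_self δ)) hd.le
    exact h2 (h4.trans (by linarith))

theorem cov {X : Type} [MetricSpace X] [Nonempty X] (K : Set X) (d : ℝ) (M₀ : ℕ) (hd : 0 < d)
    (hK : dimH K < ENNReal.ofReal d) : ∃ C : ℕ → Finset X,
    (∀ M, ((C M).card : ℝ) ≤ (2 : ℝ) ^ (d * (M + 1))) ∧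
      ∀ x ∈ K, ∃ M, M₀ ≤ M ∧ ∃ y ∈ C M, dist x y ≤ ((2 : ℝ) ^ M)⁻¹ := by
  classical
  borelize X
  have h0 : μH[(d.toNNReal : ℝ)] K = 0 := hausdorffMeasure_of_dimH_lt hK
  rw [Real.coe_toNNReal _ hd.le, Measure.hausdorffMeasure_apply] at h0
  have hρ : (0 : ℝ≥0∞) < ENNReal.ofReal ((2 : ℝ) ^ M₀)⁻¹ := ENNReal.ofReal_pos.2 (by positivity)
  have h1 := (le_iSup₂ (f := fun (r : ℝ≥0∞) (_ : 0 < r) =>
    ⨅ (t : ℕ → Set X) (_ : K ⊆ ⋃ n, t n) (_ : ∀ n, ediam (t n) ≤ r),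
      ∑' n, ⨆ _ : (t n).Nonempty, ediam (t n) ^ d) _ hρ).trans_lt
    (h0.trans_lt (show (0 : ℝ≥0∞) < ENNReal.ofReal (1 / 2) from ENNReal.ofReal_pos.2 (by norm_num)))
  simp only [iInf_lt_iff] at h1
  obtain ⟨t, ht1, ht2, ht3⟩ := h1
  have hfin : ∀ n, ediam (t n) ≠ ⊤ := fun n => ne_top_of_le_ne_top ENNReal.ofReal_ne_top (ht2 n)
  have hδ : ∀ n, diam (t n) ≤ ((2 : ℝ) ^ M₀)⁻¹ := fun n =>
    ENNReal.toReal_le_of_le_ofReal (by positivity) (ht2 n)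
  choose m m1 m2 m3 using fun n : ℕ =>
    scale (ε := (1 / 2) ^ n / 4) M₀ hd (by positivity) (hδ n)
  choose! p hp using fun (n : ℕ) (h : (t n).Nonempty) => h
  have hsum : ∀ T : Finset ℕ, (∀ n ∈ T, (t n).Nonempty) →
      ∑ n ∈ T, (|diam (t n)| ^ d + (1 / 2) ^ n / 4) ≤ 1 := by
    intro T hT
    have a1 : ∑ n ∈ T, ediam (t n) ^ d ≤ ENNReal.ofReal (1 / 2) := by
      refine le_trans ?_ ((ENNReal.sum_le_tsum T).trans ht3.le)
      exact Finset.sum_le_sum fun n hn => le_iSup (fun _ : (t n).Nonempty => ediam (t n) ^ d)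
        (hT n hn)
    have a2 := ENNReal.toReal_le_of_le_ofReal (by norm_num) a1
    rw [ENNReal.toReal_sum fun n _ => ENNReal.rpow_ne_top_of_nonneg hd.le (hfin n)] at a2
    have a3 : ∑ n ∈ T, |diam (t n)| ^ d = ∑ n ∈ T, (ediam (t n) ^ d).toReal :=
      Finset.sum_congr rfl fun n _ => by
        rw [abs_of_nonneg diam_nonneg, ← ENNReal.toReal_rpow]
        rfl
    have a4 := summable_geometric_two.sum_le_tsum T fun _ _ => by positivity
    rw [tsum_geometric_two] at a4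
    rw [Finset.sum_add_distrib, a3, ← Finset.sum_div]
    linarith
  have hcard : ∀ (M : ℕ) (T : Finset ℕ), (∀ n ∈ T, (t n).Nonempty ∧ m n = M) →
      (T.card : ℝ) ≤ (2 : ℝ) ^ (d * (M + 1)) := by
    intro M T hT
    have a1 := (Finset.sum_le_sum fun n (hn : n ∈ T) => m3 n).trans (hsum T fun n hn => (hT n hn).1)
    rw [Finset.sum_congr rfl fun n hn => by rw [(hT n hn).2, pw], Finset.sum_const, nsmul_eq_mul,
      mul_inv_le_iff₀ (by positivity), one_mul] at a1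
    exact a1
  have hF : ∀ M : ℕ, {n | (t n).Nonempty ∧ m n = M}.Finite := by
    intro M
    by_contra h
    obtain ⟨k, hk⟩ := exists_nat_gt ((2 : ℝ) ^ (d * (M + 1)))
    obtain ⟨T, T1, T2⟩ := Set.Infinite.exists_subset_card_eq h k
    have := hcard M T fun n hn => T1 hn
    rw [T2] at this
    linarith
  refine ⟨fun M => (hF M).toFinset.image p, fun M => ?_, fun x hx => ?_⟩
  · refine le_trans ?_ (hcard M (hF M).toFinset fun n hn => (hF M).mem_toFinset.1 hn)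
    exact_mod_cast Finset.card_image_le
  · obtain ⟨n, hn⟩ := Set.mem_iUnion.1 (ht1 hx)
    refine ⟨m n, m1 n, p n, Finset.mem_image_of_mem _ ((hF _).mem_toFinset.2 ⟨⟨x, hn⟩, rfl⟩), ?_⟩
    exact (dist_le_diam_of_mem' (hfin n) hn (hp n ⟨x, hn⟩)).trans (m2 n)

end COV

theorem rowCOV : Cov := fun _ K d M₀ hd hK => COV.cov K d M₀ hd hK

end Pool.Agent.MP_5168f5_an.H17S
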