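import Pool.Agent.MP_5168f5_an.H17S.BeApi

/-! From graph coordinates to the statement in Euclidean space. -/

namespace Pool.Agent.MP_5168f5_an.H17S

open H19 MeasureTheory

namespace FINAL

abbrev E (N : ℕ) : Type := EuclideanSpace ℝ (Fin (N + 1))

variable {N : ℕ}

/-- graph coordinates of a line -/
noncomputable def Ψ (R : ℝ) (m : Z N) (l : E N × E N) : V N × V N :=
  (fun i => (l.2 i.succ - (l.2 0 + R) * (l.1 i.succ / l.1 0)) / (2 * R) - m i,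
    fun i => l.1 i.succ / l.1 0)

/-- rescaled coordinates of a point -/
noncomputable def Φ (R : ℝ) (m : Z N) (x : E N) : V N × ℝ :=
  (fun i => x i.succ / (2 * R) - m i, (x 0 + R) / (2 * R))

def S (N : ℕ) (R : ℝ) : Set (E N × E N) :=
  (Metric.closedBall 0 1 ∩ {v : E N | 1 / (N + 1 : ℝ) ≤ v 0}) ×ˢ Metric.closedBall 0 R

theorem lip (R : ℝ) (m : Z N) : ∃ C, LipschitzOnWith C (Ψ R m) (S N R) := by
  have h0 : ∀ l ∈ S N R, l.1 0 ≠ 0 := fun l hl =>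
    (lt_of_lt_of_le (by positivity) (show 1 / (N + 1 : ℝ) ≤ l.1 0 from hl.1.2)).ne'
  have h1 : ∀ i : Fin N, ContDiffOn ℝ 1 (fun l : E N × E N => l.1 i.succ / l.1 0) (S N R) :=
    fun i => ContDiffOn.div (by fun_prop) (by fun_prop) h0
  refine ContDiffOn.exists_lipschitzOnWith (n := 1) (ContDiffOn.prodMk
    (contDiffOn_pi.2 fun i => ?_) (contDiffOn_pi.2 h1)) one_ne_zero ?_ ?_
  · exact (((by fun_prop : ContDiffOn ℝ 1 (fun l : E N × E N => l.2 i.succ) _).sub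
      ((by fun_prop : ContDiffOn ℝ 1 (fun l : E N × E N => l.2 0 + R) _).mul (h1 i))).div_const
        _).sub contDiffOn_const
  · refine ((convex_closedBall _ _).inter ?_).prod (convex_closedBall _ _)
    exact convex_halfSpace_ge (f := fun v : E N => v 0) ⟨fun _ _ => rfl, fun _ _ => rfl⟩ _
  · exact ((isCompact_closedBall _ _).inter_right
      (isClosed_le continuous_const (by fun_prop))).prod (isCompact_closedBall _ _)

theorem dim_le (R : ℝ) (m : Z N) (K : Set (E N)) : dimH (Φ R m '' K) ≤ dimH K := by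
  refine ContDiffOn.dimH_image_le (s := Set.univ) (ContDiff.contDiffOn ?_) convex_univ
    (Set.subset_univ _)
  unfold Φ
  fun_prop

theorem dir (e : V N) (he : ∀ i, 0 ≤ e i ∧ e i < 1) :
    ∃ v : E N, ‖v‖ = 1 ∧ 1 / (N + 1 : ℝ) ≤ v 0 ∧ ∀ i : Fin N, v i.succ / v 0 = e i := by
  obtain ⟨w, hw⟩ : ∃ w : E N, w = WithLp.toLp 2 (Fin.cons 1 e) := ⟨_, rfl⟩
  have w0 : w 0 = 1 := by simp [hw]
  have w1 : ∀ i : Fin N, w i.succ = e i := fun i => by simp [hw]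
  have h0 : 0 < ‖w‖ := norm_pos_iff.2 fun h => by simp [h] at w0
  have h1 : ‖w‖ ≤ N + 1 := by
    refine le_of_sq_le_sq ?_ (by positivity)
    rw [EuclideanSpace.real_norm_sq_eq, Fin.sum_univ_succ, w0]
    have h2 : ∑ i : Fin N, w i.succ ^ 2 ≤ ∑ _i : Fin N, (1 : ℝ) := Finset.sum_le_sum fun i _ => by
      rw [w1]
      nlinarith [he i]
    rw [Finset.sum_const, Finset.card_fin, nsmul_eq_mul] at h2
    nlinarith [N.cast_nonneg (α := ℝ)]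
  refine ⟨‖w‖⁻¹ • w, norm_smul_inv_norm (norm_pos_iff.1 h0), ?_, fun i => ?_⟩
  · rw [PiLp.smul_apply, w0, smul_eq_mul, mul_one, one_div]
    exact inv_anti₀ h0 h1
  · rw [PiLp.smul_apply, PiLp.smul_apply, w0, w1, smul_eq_mul, smul_eq_mul]
    field_simp

theorem norm_le {v p : E N} (h : inner ℝ v p = 0) (t : ℝ) : ‖p‖ ≤ ‖p + t • v‖ := by
  refine le_of_sq_le_sq ?_ (norm_nonneg _)
  rw [norm_add_sq_real, real_inner_smul_right, real_inner_comm, h]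
  nlinarith [sq_nonneg ‖t • v‖]

theorem line {K : Set (E N)} {R t₀ : ℝ} (R0 : 0 < R) (hR : ∀ x ∈ K, ‖x‖ < R) (m : Z N)
    {l : E N × E N} (hl : l ∈ S N R) (h : ∀ t ∈ Set.Icc t₀ (t₀ + 1), l.2 + t • l.1 ∈ K) :
    ∃ z₀ : ℝ, 0 ≤ z₀ ∧ z₀ + 1 / (N + 1 : ℝ) / (2 * R) < 1 ∧
      ∀ z ∈ Set.Icc z₀ (z₀ + 1 / (N + 1 : ℝ) / (2 * R)),
        ((Ψ R m l).1 + z • (Ψ R m l).2, z) ∈ Φ R m '' K := by
  have h0 : 1 / (N + 1 : ℝ) ≤ l.1 0 := hl.1.2
  have h1 : 0 < l.1 0 := lt_of_lt_of_le (by positivity) h0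
  have h2 : ∀ t ∈ Set.Icc t₀ (t₀ + 1), |l.2 0 + t * l.1 0| < R := fun t ht =>
    (PiLp.norm_apply_le (l.2 + t • l.1) 0).trans_lt (hR _ (h t ht))
  have h3 := (abs_lt.1 (h2 t₀ ⟨le_rfl, by linarith⟩)).1
  have h4 := (abs_lt.1 (h2 (t₀ + 1) ⟨by linarith, le_rfl⟩)).2
  have R2 : 0 < 2 * R := by positivity
  refine ⟨(l.2 0 + t₀ * l.1 0 + R) / (2 * R), div_nonneg (by linarith) R2.le, ?_, fun z hz => ?_⟩
  · rw [← add_div, div_lt_one R2]
    linarith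
  · obtain ⟨h5, h6⟩ := hz
    rw [div_le_iff₀ R2] at h5
    rw [← add_div, le_div_iff₀ R2] at h6
    refine ⟨_, h ((z * (2 * R) - l.2 0 - R) / l.1 0) ⟨?_, ?_⟩, Prod.ext (funext fun i => ?_) ?_⟩
    · rw [le_div_iff₀ h1]
      linarith
    · rw [div_le_iff₀ h1]
      linarith
    · simp only [Φ, Ψ, PiLp.add_apply, PiLp.smul_apply, Pi.add_apply, Pi.smul_apply, smul_eq_mul]
      field_simp
      ring
    · simp only [Φ, PiLp.add_apply, PiLp.smul_apply, smul_eq_mul]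
      field_simp
      ring

end FINAL

open FINAL in
theorem rowFINAL : SFinal := by
  intro hU hM n K L hn hK hL hdir hP
  obtain ⟨N, rfl⟩ : ∃ N, n = N + 1 := ⟨n - 1, by omega⟩
  obtain ⟨R, R0, hR⟩ := hK.isBounded.exists_pos_norm_lt
  refine ENNReal.le_of_forall_pos_le_add fun ε hε _ => ?_
  obtain ⟨η, η0, h⟩ := hM N ε hε
  obtain ⟨B, hB, hB'⟩ := hP (N + η) (by push_cast; linarith)
  let A : ℕ × Z N → Set (E N × E N) := fun j => {l | l ∈ B j.1 ∧ l ∈ S N R ∧ l ∈ L ∧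
    (∀ i, 0 ≤ (Ψ R j.2 l).1 i ∧ (Ψ R j.2 l).1 i < 1) ∧ ∀ i, 0 ≤ (Ψ R j.2 l).2 i ∧ (Ψ R j.2 l).2 i < 1}
  have h1 : (Set.univ.pi fun _ : Fin N => Set.Ico (0 : ℝ) 1) ⊆
      ⋃ j, Prod.snd '' (Ψ R j.2 '' A j) := by
    intro e he
    have he' : ∀ i, 0 ≤ e i ∧ e i < 1 := fun i => he i trivial
    obtain ⟨v, v1, v2, v3⟩ := dir e he'
    obtain ⟨p, hp⟩ := hdir v v1
    obtain ⟨k, hk⟩ := Set.mem_iUnion.1 (hB hp)
    obtain ⟨-, a2, t₀, a3⟩ := hL _ hp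
    refine Set.mem_iUnion.2 ⟨(k, fun i => ⌊(p i.succ - (p 0 + R) * (v i.succ / v 0)) / (2 * R)⌋),
      _, ⟨(v, p), ⟨hk, ⟨⟨mem_closedBall_zero_iff.2 v1.le, v2⟩, mem_closedBall_zero_iff.2 ?_⟩, hp,
        fun i => ⟨Int.fract_nonneg _, Int.fract_lt_one _⟩, fun i => ?_⟩, rfl⟩, funext v3⟩
    · exact (norm_le a2 t₀).trans (hR _ (a3 t₀ ⟨le_rfl, by linarith⟩)).le
    · have := he' i
      rwa [← v3] at this
  obtain ⟨j, hj⟩ : ∃ j, volume (Prod.snd '' (Ψ R j.2 '' A j)) ≠ 0 := by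
    by_contra h2
    push Not at h2
    have h3 := measure_mono_null h1 (measure_iUnion_null h2)
    rw [Real.volume_pi_Ico] at h3
    simp at h3
  obtain ⟨C, hC⟩ := lip R j.2
  have h2 := h (Φ R j.2 '' K) (Ψ R j.2 '' A j) (1 / (N + 1 : ℝ) / (2 * R)) (by positivity)
    (hU _ (B j.1) (A j) _ C (by positivity) (hB' _) (fun l hl => hl.1)
      (hC.mono fun l hl => hl.2.1)) hj (by
    rintro _ ⟨l, ⟨-, a1, a2, a3, a4⟩, rfl⟩
    obtain ⟨-, -, t₀, a5⟩ := hL l a2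
    exact ⟨a3, a4, line R0 hR j.2 a1 a5⟩)
  have e : (3 * ((N + 1 : ℕ) : ℝ) + 1) / 4 = (N + 1 - N / 4 - ε) + ε := by
    push_cast
    ring
  rw [e]
  refine ENNReal.ofReal_add_le.trans ?_
  rw [ENNReal.ofReal_coe_nnreal]
  exact add_le_add (h2.trans (dim_le R j.2 K)) le_rfl

end Pool.Agent.MP_5168f5_an.H17S
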