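import Pool.Agent.MP_5168f5_an.H17S.BeApi

/-! From the discretised theorem to the Hausdorff dimension. -/

namespace Pool.Agent.MP_5168f5_an.H17S

open H19 MeasureTheory Filter Topology

namespace MEAS

theorem ev_sq {a : ℝ} (ha : 0 < a) (B : ℝ) :
    ∀ᶠ M : ℕ in atTop, B * (M + 2 : ℝ) ^ 2 < (2 : ℝ) ^ (a * M) := by
  have hr : 1 < (2 : ℝ) ^ a := Real.one_lt_rpow (by norm_num) ha
  have h1 := ((tendsto_pow_const_div_const_pow_of_one_lt 2 hr).comp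
    (tendsto_add_atTop_nat 2)).const_mul (B * ((2 : ℝ) ^ a) ^ 2)
  rw [mul_zero] at h1
  filter_upwards [h1.eventually (gt_mem_nhds one_pos)] with M hM
  have h2 : 0 < (2 : ℝ) ^ a := by positivity
  rw [Real.rpow_mul (by norm_num), Real.rpow_natCast]
  simp only [Function.comp, pow_add] at hM
  push_cast at hM
  rw [← div_lt_one (by positivity)]
  refine lt_of_eq_of_lt ?_ hM
  field_simp

theorem ev {a : ℝ} (ha : 0 < a) (B : ℝ) : ∀ᶠ M : ℕ in atTop, B < (2 : ℝ) ^ (a * M) := by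
  filter_upwards [ev_sq ha |B|] with M hM
  refine lt_of_le_of_lt ((le_abs_self B).trans (le_mul_of_one_le_right (abs_nonneg B) ?_)) hM
  have : (0 : ℝ) ≤ M := Nat.cast_nonneg M
  nlinarith

variable {N : ℕ}

/-- the cells near a point -/
noncomputable def box (j n : ℕ) (y : V N) : Finset (Z N) :=
  Fintype.piFinset fun i => Finset.Icc (fl j y i - n) (fl j y i + n)

theorem card_Icc (a : ℤ) (n : ℕ) : (Finset.Icc (a - n) (a + n)).card = 2 * n + 1 := by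
  rw [Int.card_Icc]; omega

theorem card_box (j n : ℕ) (y : V N) : (box j n y).card = (2 * n + 1) ^ N := by
  rw [box, Fintype.card_piFinset]
  simp only [card_Icc, Finset.prod_const, Finset.card_univ, Fintype.card_fin]

theorem mem_box {j n : ℕ} {x y : V N} (h : dist x y ≤ n * ((2 : ℝ) ^ j)⁻¹) :
    fl j x ∈ box j n y :=
  Fintype.mem_piFinset.2 fun i => fl1_mem_Icc ((dist_le_pi_dist x y i).trans h)

theorem cells {A : Set (V N × V N)} {σ : ℝ} (h : UB σ A) : ∃ C : ℝ, ∀ j : ℕ,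
    ∃ T : Finset (Z N × Z N), (T.card : ℝ) ≤ C * (2 : ℝ) ^ (σ * j) ∧
      ∀ g ∈ A, (fl j g.1, fl j g.2) ∈ T := by
  classical
  obtain ⟨C, hC⟩ := h
  refine ⟨3 ^ N * 3 ^ N * C, fun j => ?_⟩
  obtain ⟨F, h1, h2⟩ := hC ((2 : ℝ) ^ j)⁻¹ (by positivity)
    (inv_le_one_of_one_le₀ (one_le_pow₀ (by norm_num)))
  have e : (((2 : ℝ) ^ j)⁻¹) ^ (-σ) = (2 : ℝ) ^ (σ * j) := by
    rw [Real.inv_rpow (by positivity), Real.rpow_neg (by positivity), inv_inv, mul_comm,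
      Real.rpow_mul (by norm_num), Real.rpow_natCast]
  rw [e] at h1
  refine ⟨F.biUnion fun x => box j 1 x.1 ×ˢ box j 1 x.2, ?_, fun g hg => ?_⟩
  · have h3 := Finset.card_biUnion_le_card_mul F (fun x => box j 1 x.1 ×ˢ box j 1 x.2)
      (3 ^ N * 3 ^ N) fun x _ => by rw [Finset.card_product, card_box, card_box]
    have h4 : ((F.biUnion fun x => box j 1 x.1 ×ˢ box j 1 x.2).card : ℝ) ≤
        F.card * (3 ^ N * 3 ^ N) := by exact_mod_cast h3
    calc _ ≤ _ := h4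
      _ ≤ C * (2 : ℝ) ^ (σ * j) * (3 ^ N * 3 ^ N) := by gcongr
      _ = _ := by ring
  · obtain ⟨x, hx, h3⟩ := Set.mem_iUnion₂.1 (h2 hg)
    rw [Metric.mem_ball, Prod.dist_eq, max_lt_iff] at h3
    exact Finset.mem_biUnion.2 ⟨x, hx, Finset.mem_product.2
      ⟨mem_box (by simpa using h3.1.le), mem_box (by simpa using h3.2.le)⟩⟩

theorem pts (M : ℕ) (C : Finset (V N × ℝ)) : ∃ E : Finset (Z N × ℕ),
    (E.card : ℝ) ≤ C.card * (5 ^ N * 5) ∧ ∀ (x : V N) (t : ℕ), (∃ y ∈ C,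
      dist (x, ((2 : ℝ) ^ M)⁻¹ * t) y ≤ 2 * ((2 : ℝ) ^ M)⁻¹) → (fl M x, t) ∈ E := by
  classical
  refine ⟨C.biUnion fun y => box M 2 y.1 ×ˢ
    (Finset.Icc (fl1 M y.2 - (2 : ℕ)) (fl1 M y.2 + (2 : ℕ))).image Int.toNat, ?_, ?_⟩
  · have h3 := Finset.card_biUnion_le_card_mul C (fun y => box M 2 y.1 ×ˢ
      (Finset.Icc (fl1 M y.2 - (2 : ℕ)) (fl1 M y.2 + (2 : ℕ))).image Int.toNat) (5 ^ N * 5)
      fun y _ => by
        rw [Finset.card_product, card_box]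
        exact Nat.mul_le_mul_left _ (Finset.card_image_le.trans (card_Icc _ _).le)
    exact_mod_cast h3
  · rintro x t ⟨y, hy, h⟩
    rw [Prod.dist_eq, max_le_iff] at h
    refine Finset.mem_biUnion.2 ⟨y, hy, Finset.mem_product.2 ⟨mem_box (by simpa using h.1),
      Finset.mem_image.2 ⟨t, ?_, Int.toNat_natCast t⟩⟩⟩
    have h1 : fl1 M (((2 : ℝ) ^ M)⁻¹ * t) = t := by
      rw [fl1, mul_inv_cancel_left₀ (by positivity), Int.floor_natCast]
    rw [← h1]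
    exact fl1_mem_Icc (by simpa [Real.dist_eq] using h.2)

theorem many {b η x : ℝ} {k M : ℕ} (hb : 0 < b) (hx : 0 ≤ x)
    (h1 : b⁻¹ * (M + 2 : ℝ) ^ 2 < (2 : ℝ) ^ (η * M))
    (h2 : b * 2 ^ (k * M) ≤ x * (M + 2 : ℝ) ^ 2) : (2 : ℝ) ^ ((k - η) * M) ≤ x := by
  rw [inv_mul_lt_iff₀ hb] at h1
  have h3 := h2.trans (mul_le_mul_of_nonneg_left h1.le hx)
  rw [mul_left_comm] at h3
  have h4 := le_of_mul_le_mul_left h3 hb
  rw [sub_mul, Real.rpow_sub (by norm_num), div_le_iff₀ (by positivity), ← Nat.cast_mul,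
    Real.rpow_natCast]
  exact h4

end MEAS

open MEAS in
theorem rowMEAS : SMeas := by
  intro hC hP N s hD ε hε
  obtain ⟨η, hη, M₀, hD⟩ := hD (ε / 2) (by linarith)
  refine ⟨η / 2, by linarith, fun K A c hc hU hv hA => ?_⟩
  by_contra hlt
  rw [not_le] at hlt
  set d : ℝ := N + 1 - s - ε with hd
  have hd0 : 0 < d := ENNReal.ofReal_pos.1 (lt_of_le_of_lt zero_le hlt)
  obtain ⟨b, hb, hP⟩ := hP N K A c hc hv fun l hl => (hA l hl).2
  obtain ⟨C₀, hT⟩ := cells hU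
  obtain ⟨M₁, hM₁⟩ := eventually_atTop.1 ((ev_sq hη b⁻¹).and ((ev (half_pos hη) C₀).and
    ((ev (half_pos hε) ((2 : ℝ) ^ d * (5 ^ N * 5))).and (eventually_ge_atTop M₀))))
  obtain ⟨C, h1, h2⟩ := hC N K d M₁ hd0 hlt
  obtain ⟨M, hM, G, Y, g1, g2, g3, g4⟩ := hP M₁ C h2
  obtain ⟨m1, m2, m3, m4⟩ := hM₁ M hM
  obtain ⟨E, e1, e2⟩ := pts M (C M)
  have h3 := hD M m4 G Y E (fun g hg => ⟨(hA g (g1 g hg)).1, (hA g (g1 g hg)).2.1⟩) g2
    (many hb (Nat.cast_nonneg _) m1 g3) (fun j hj => ?_) (fun g hg => ⟨(g4 g hg).1, ?_⟩)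
    fun g hg t ht => e2 _ t ((g4 g hg).2.2 t ht)
  · have h4 : (2 : ℝ) ^ ((N + 1 - s - ε / 2) * M) = 2 ^ (d * M) * 2 ^ (ε / 2 * M) := by
      rw [← Real.rpow_add (by norm_num), hd]; congr 1; ring
    have h5 : (2 : ℝ) ^ (d * (M + 1)) = 2 ^ (d * M) * 2 ^ d := by
      rw [← Real.rpow_add (by norm_num)]; congr 1; ring
    have h6 := h3.trans (e1.trans (mul_le_mul_of_nonneg_right (h1 M) (by positivity)))
    rw [h4, h5, mul_assoc] at h6
    exact absurd (le_of_mul_le_mul_left h6 (by positivity)) (not_le.2 m3)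
  · obtain ⟨T, t1, t2⟩ := hT j
    refine ⟨T, t1.trans ?_, fun g hg => t2 g (g1 g hg)⟩
    refine (mul_le_mul_of_nonneg_right m2.le (by positivity)).trans ?_
    rw [← Real.rpow_add (by norm_num)]
    refine Real.rpow_le_rpow_of_exponent_le (by norm_num) ?_
    have : (j : ℝ) ≤ M := Nat.cast_le.2 hj
    nlinarith
  · have := many (k := 1) hb (Nat.cast_nonneg _) m1 (by simpa using (g4 g hg).2.1)
    simpa using this

end Pool.Agent.MP_5168f5_an.H17S
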