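import Pool.Agent.MP_5168f5_an.H17S.BeApi

/-! Choice of one scale that sees many directions and many heights. -/

namespace Pool.Agent.MP_5168f5_an.H17S

open H19 MeasureTheory

namespace PICK

variable {X : Type} [MeasurableSpace X] (μ : Measure X) {S : Set X}

theorem sum_le (n : ℕ) :
    ∑ M ∈ Finset.range n, (1 : ℝ) / (M + 2 : ℝ) ^ 2 ≤ 1 - 1 / (n + 1 : ℝ) := by
  induction n with
  | zero => simp
  | succ n ih =>
    rw [Finset.sum_range_succ]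
    have : 1 / (n + 2 : ℝ) ^ 2 ≤ 1 / (n + 1) - 1 / (n + 1 + 1) := by
      rw [div_sub_div _ _ (by positivity) (by positivity), div_le_div_iff₀ (by positivity)
        (by positivity)]
      nlinarith [n.cast_nonneg (α := ℝ)]
    push_cast
    linarith

theorem pig (T : ℕ → Set X) {M₀ : ℕ} (h : ∀ x ∈ S, ∃ M, M₀ ≤ M ∧ x ∈ T M) {v : ℝ} (h0 : 0 ≤ v)
    (hv : ENNReal.ofReal v < μ S) :
    ∃ M, M₀ ≤ M ∧ ENNReal.ofReal (v / (M + 2 : ℝ) ^ 2) < μ (T M) := by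
  by_contra hn
  push Not at hn
  refine hv.not_ge ((measure_mono (t := ⋃ M, ⋃ _ : M₀ ≤ M, T M) fun x hx => ?_).trans
    ((measure_iUnion_le _).trans ((ENNReal.tsum_le_tsum
      (g := fun M : ℕ => ENNReal.ofReal (v / (M + 2 : ℝ) ^ 2)) fun M => ?_).trans ?_)))
  · obtain ⟨M, h1, h2⟩ := h x hx
    exact Set.mem_iUnion₂.2 ⟨M, h1, h2⟩
  · by_cases k : M₀ ≤ M
    · simpa [k] using hn M k
    · simp [k]
  · rw [ENNReal.tsum_eq_iSup_nat]
    refine iSup_le fun n => ?_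
    rw [← ENNReal.ofReal_sum_of_nonneg fun _ _ => by positivity]
    refine ENNReal.ofReal_le_ofReal ?_
    simp only [div_eq_mul_one_div v, ← Finset.mul_sum]
    exact mul_le_of_le_one_right h0 ((sum_le n).trans (sub_le_self _ (by positivity)))

theorem cnt {ι : Type} (f : X → ι) (I : Finset ι) (hS : ∀ x ∈ S, f x ∈ I) {r v : ℝ}
    (hr : ∀ k, μ {x ∈ S | f x = k} ≤ ENNReal.ofReal r) (hv : ENNReal.ofReal v < μ S) :
    v ≤ I.card * r := by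
  have h1 : μ S ≤ ENNReal.ofReal (I.card * r) := by
    refine (measure_mono (t := ⋃ k ∈ I, {x ∈ S | f x = k}) fun x hx =>
      Set.mem_iUnion₂.2 ⟨_, hS x hx, hx, rfl⟩).trans ((measure_biUnion_finset_le _ _).trans
      ((Finset.sum_le_card_nsmul _ _ _ fun k _ => hr k).trans_eq ?_))
    rw [nsmul_eq_mul, ENNReal.ofReal_mul (Nat.cast_nonneg _), ENNReal.ofReal_natCast]
  exact ((ENNReal.ofReal_lt_ofReal_iff'.1 (hv.trans_le h1)).1).le

end PICK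

theorem rowPICK : Pick := by
  classical
  intro N K A c c0 hA h
  obtain ⟨β, β0, β1, β2⟩ := ENNReal.lt_iff_exists_real_btwn.1 (pos_iff_ne_zero.2 hA)
  rw [ENNReal.ofReal_pos] at β1
  refine ⟨min (c / 2) β, lt_min (half_pos c0) β1, fun M₀ C hC => ?_⟩
  choose! z z0 z1 z2 using fun l hl => (h l hl).2
  obtain ⟨W, hW⟩ : ∃ W : V N × V N → ℕ → Set ℝ, ∀ l M t, t ∈ W l M ↔
      t ∈ Set.Icc (z l) (z l + c) ∧ ∃ y ∈ C M, dist (l.1 + t • l.2, t) y ≤ ((2 : ℝ) ^ M)⁻¹ :=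
    ⟨fun l M => {t | _}, fun _ _ _ => Iff.rfl⟩
  obtain ⟨M, m0, hM⟩ := PICK.pig volume (S := Prod.snd '' A) (M₀ := M₀) (fun M => Prod.snd ''
      {l ∈ A | ENNReal.ofReal (c / 2 / (M + 2 : ℝ) ^ 2) < volume (W l M)}) (by
    rintro _ ⟨l, hl, rfl⟩
    obtain ⟨M, m0, hM⟩ := PICK.pig volume (S := Set.Icc (z l) (z l + c)) (M₀ := M₀) (W l)
      (fun t ht => (hC _ (z2 l hl t ht)).imp fun M k => ⟨k.1, (hW _ _ _).2 ⟨ht, k.2⟩⟩)
      (half_pos c0).le (by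
        rw [Real.volume_Icc, add_sub_cancel_left]
        exact (ENNReal.ofReal_lt_ofReal_iff c0).2 (half_lt_self c0))
    exact ⟨M, m0, l, ⟨hl, hM⟩, rfl⟩) β0 β2
  generalize hB : {l ∈ A | ENNReal.ofReal (c / 2 / (M + 2 : ℝ) ^ 2) < volume (W l M)} = B at hM
  have hB' : ∀ l ∈ B, l ∈ A ∧ ENNReal.ofReal (c / 2 / (M + 2 : ℝ) ^ 2) < volume (W l M) :=
    fun l hl => (hB ▸ hl :)
  have p2 : (0 : ℝ) < 2 ^ M := by positivity
  have pM : (0 : ℝ) < (M + 2 : ℝ) ^ 2 := by positivity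
  obtain ⟨I, hI⟩ : ∃ I : Finset (Z N), ∀ k, k ∈ I ↔ ∃ l ∈ B, fl M l.2 = k := by
    refine ⟨(Fintype.piFinset fun _ => Finset.Ico 0 (2 ^ M)).filter fun k => ∃ l ∈ B, fl M l.2 = k,
      fun k => Finset.mem_filter.trans (and_iff_right_of_imp ?_)⟩
    rintro ⟨l, hl, rfl⟩
    refine Fintype.mem_piFinset.2 fun i => Finset.mem_Ico.2 ?_
    obtain ⟨h1, h2⟩ := (h l (hB' l hl).1).1 i
    exact ⟨Int.floor_nonneg.2 (by positivity), Int.floor_lt.2 (by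
      push_cast
      exact mul_lt_of_lt_one_right p2 h2)⟩
  have c1 := PICK.cnt volume (fl M) I (r := ((2 : ℝ) ^ M)⁻¹ ^ N)
    (by rintro _ ⟨l, hl, rfl⟩; exact (hI _).2 ⟨l, hl, rfl⟩) (fun k => by
      refine (measure_mono (t := Set.Icc (fun i => ((2 : ℝ) ^ M)⁻¹ * k i)
        fun i => ((2 : ℝ) ^ M)⁻¹ * k i + ((2 : ℝ) ^ M)⁻¹) ?_).trans_eq ?_
      · rintro x ⟨-, rfl⟩
        exact ⟨fun i => fl1_le M (x i), fun i => (lt_fl1 M (x i)).le⟩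
      · rw [Real.volume_Icc_pi, ENNReal.ofReal_pow (by positivity)]
        simp) hM
  choose! g g1 g2 using fun k => (hI k).1
  have mG : ∀ l ∈ I.image g, l ∈ B := fun l hl => by
    obtain ⟨k, hk, rfl⟩ := Finset.mem_image.1 hl
    exact g1 k hk
  refine ⟨M, m0, I.image g,
    fun l => (Finset.range (2 ^ M)).filter fun t => ∃ x ∈ W l M, ⌊2 ^ M * x⌋₊ = t,
    fun l hl => (hB' l (mG l hl)).1, fun l hl l' hl' e => ?_, ?_,
    fun l hl => ⟨Finset.filter_subset _ _, ?_, fun t ht => ?_⟩⟩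
  · obtain ⟨k, hk, rfl⟩ := Finset.mem_image.1 hl
    obtain ⟨k', hk', rfl⟩ := Finset.mem_image.1 hl'
    rw [← g2 k hk, ← g2 k' hk']
    exact congrArg g e
  · rw [Finset.card_image_of_injOn fun k hk k' hk' e => by rw [← g2 k hk, ← g2 k' hk', e]]
    rw [inv_pow, ← pow_mul, ← div_eq_mul_inv, div_le_div_iff₀ pM (by positivity), mul_comm M] at c1
    exact (mul_le_mul_of_nonneg_right (min_le_right _ _) (by positivity)).trans c1
  all_goals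
    have hl' := hB' l (mG l hl)
    have k0 : ∀ x ∈ W l M, 0 ≤ x ∧ x < 1 := fun x hx =>
      ⟨(z0 l hl'.1).trans ((hW _ _ _).1 hx).1.1, ((hW _ _ _).1 hx).1.2.trans_lt (z1 l hl'.1)⟩
    have k1 : ∀ x ∈ W l M, x ∈ Set.Icc (((2 : ℝ) ^ M)⁻¹ * ⌊2 ^ M * x⌋₊)
        (((2 : ℝ) ^ M)⁻¹ * ⌊2 ^ M * x⌋₊ + ((2 : ℝ) ^ M)⁻¹) := fun x hx =>
      ⟨(inv_mul_le_iff₀ p2).2 (Nat.floor_le (mul_nonneg p2.le (k0 x hx).1)), by
        rw [← mul_add_one, le_inv_mul_iff₀ p2]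
        exact (Nat.lt_floor_add_one _).le⟩
  · have c2 := PICK.cnt volume (fun x : ℝ => ⌊2 ^ M * x⌋₊) ((Finset.range (2 ^ M)).filter
        fun t => ∃ x ∈ W l M, ⌊2 ^ M * x⌋₊ = t) (r := ((2 : ℝ) ^ M)⁻¹)
      (fun x hx => Finset.mem_filter.2 ⟨Finset.mem_range.2 ((Nat.floor_lt' (by positivity)).2 (by
        push_cast
        exact mul_lt_of_lt_one_right p2 (k0 x hx).2)), x, hx, rfl⟩) (fun k => by
      refine (measure_mono (t := Set.Icc (((2 : ℝ) ^ M)⁻¹ * k)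
        (((2 : ℝ) ^ M)⁻¹ * k + ((2 : ℝ) ^ M)⁻¹)) ?_).trans_eq ?_
      · rintro x ⟨hx, rfl⟩
        exact k1 x hx
      · rw [Real.volume_Icc, add_sub_cancel_left]) hl'.2
    rw [← div_eq_mul_inv, div_le_div_iff₀ pM p2] at c2
    exact (mul_le_mul_of_nonneg_right (min_le_left _ _) p2.le).trans c2
  · obtain ⟨x, hx, rfl⟩ := (Finset.mem_filter.1 ht).2
    obtain ⟨y, y1, y2⟩ := ((hW _ _ _).1 hx).2
    refine ⟨y, y1, (dist_triangle _ (l.1 + x • l.2, x) _).trans ?_⟩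
    have k2 : dist (((2 : ℝ) ^ M)⁻¹ * ⌊2 ^ M * x⌋₊) x ≤ ((2 : ℝ) ^ M)⁻¹ := by
      rw [Real.dist_eq, abs_le]
      constructor <;> linarith [(k1 x hx).1, (k1 x hx).2, inv_pos.2 p2]
    rw [two_mul, Prod.dist_eq]
    refine add_le_add (max_le ?_ k2) y2
    rw [dist_add_left, dist_eq_norm, ← sub_smul, norm_smul, ← dist_eq_norm]
    exact (mul_le_of_le_one_right dist_nonneg (norm_le_one_of_box (h l hl'.1).1)).trans k2

end Pool.Agent.MP_5168f5_an.H17S
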