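import Pool.Agent.MP_5168f5_an.H17S.BeApi

/-! Sticky Kakeya sets: covering numbers of Lipschitz images. -/

namespace Pool.Agent.MP_5168f5_an.H17S

open H19 MeasureTheory

theorem rowUBMAP : UBmap := by
  classical
  intro X Y _ _ s A B f L _ ⟨C, hC⟩ hB hf
  rcases B.eq_empty_or_nonempty with rfl | ⟨b0, hb0⟩
  · exact ⟨0, fun r _ _ => ⟨∅, by simp, by simp⟩⟩
  have L0 : (0 : ℝ) ≤ L := L.coe_nonneg
  have k0 : (0 : ℝ) < 2 * (L + 1) := by positivity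
  refine ⟨C * (2 * (L + 1)) ^ s, fun r r0 r1 => ?_⟩
  have r2 : 0 < r / (2 * (L + 1)) := div_pos r0 k0
  obtain ⟨F, h1, h2⟩ := hC (r / (2 * (L + 1))) r2 ((div_le_one k0).2 (by linarith))
  have h3 : ∀ x : X, ∃ b ∈ B, ∀ b' ∈ B, b' ∈ Metric.ball x (r / (2 * (L + 1))) →
      b ∈ Metric.ball x (r / (2 * (L + 1))) := fun x => by
    by_cases h : ∃ b ∈ B, b ∈ Metric.ball x (r / (2 * (L + 1)))
    · obtain ⟨b, hb, hx⟩ := h
      exact ⟨b, hb, fun _ _ _ => hx⟩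
    · exact ⟨b0, hb0, fun b' hb hx => (h ⟨b', hb, hx⟩).elim⟩
  choose g g1 g2 using h3
  refine ⟨F.image fun x => f (g x), ?_, ?_⟩
  · refine (Nat.cast_le.2 Finset.card_image_le).trans (h1.trans_eq ?_)
    rw [Real.div_rpow r0.le k0.le, Real.rpow_neg k0.le, div_inv_eq_mul]
    ring
  · rintro _ ⟨b, hb, rfl⟩
    obtain ⟨x, hx, hbx⟩ := Set.mem_iUnion₂.1 (h2 (hB hb))
    refine Set.mem_iUnion₂.2 ⟨f (g x), Finset.mem_image_of_mem _ hx, ?_⟩
    have a1 := hf.dist_le_mul b hb (g x) (g1 x)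
    have a2 := dist_triangle_right b (g x) x
    have a3 := Metric.mem_ball.1 hbx
    have a4 := Metric.mem_ball.1 (g2 x b hb hbx)
    have a5 : (L : ℝ) * dist b (g x) ≤ L * (2 * (r / (2 * (L + 1)))) :=
      mul_le_mul_of_nonneg_left (by linarith) L0
    have a6 : (L + 1 : ℝ) * (2 * (r / (2 * (L + 1)))) = r := by field_simp
    rw [Metric.mem_ball]
    linarith

end Pool.Agent.MP_5168f5_an.H17S
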