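import Pool.Agent.MP_5168f5_an.H17S.BeApi

/-! Row GOODA: the infimum of the admissible losses is `N / 4`. -/

namespace Pool.Agent.MP_5168f5_an.H17S

open H19 MeasureTheory

namespace GOODA

theorem top (N : ℕ) : Good N N := fun ε hε =>
  ⟨1, one_pos, 0, fun M _ c _ => le_trans (mul_nonpos_of_nonpos_of_nonneg
    (mul_nonpos_of_nonpos_of_nonneg (by linarith) (Nat.cast_nonneg M)) lg_pos.le) (ch_nonneg _ _)⟩

theorem lim {N : ℕ} {σ : ℝ} (h : ∀ ε : ℝ, 0 < ε → ∃ s, s ≤ σ + ε ∧ Good N s) : Good N σ := by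
  intro ε hε
  obtain ⟨s, h1, h2⟩ := h (ε / 2) (half_pos hε)
  obtain ⟨η, η0, M₀, h3⟩ := h2 (ε / 2) (half_pos hε)
  exact ⟨η, η0, M₀, fun M hM c hc => le_trans (mul_le_mul_of_nonneg_right
    (mul_le_mul_of_nonneg_right (by linarith) (Nat.cast_nonneg M)) lg_pos.le) (h3 M hM c hc)⟩

theorem big {g C : ℝ} (g0 : 0 < g) (C0 : 0 < C) :
    ∃ U : ℕ, 1 ≤ U ∧ ∀ u : ℕ, U ≤ u → C * Real.log (u + 2) < g / 4 * u := by
  obtain ⟨U, hU⟩ := exists_nat_gt (2 + 8 * C * Real.log (8 * C / g) / g)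
  refine ⟨U + 1, by omega, fun u hu => ?_⟩
  have h1 : (U : ℝ) + 1 ≤ u := by exact_mod_cast hu
  have a0 : 0 < 8 * C / g := by positivity
  have h2 := Real.log_le_sub_one_of_pos (show 0 < ((u : ℝ) + 2) / (8 * C / g) by positivity)
  rw [Real.log_div (by positivity) a0.ne'] at h2
  have h3 : C * (((u : ℝ) + 2) / (8 * C / g)) = g / 8 * (u + 2) := by field_simp
  have h4 : 8 * C * Real.log (8 * C / g) / g < u - 2 := by linarith
  rw [div_lt_iff₀ g0] at h4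
  nlinarith [mul_le_mul_of_nonneg_left h2 C0.le]

theorem step (h1 : Core) (h2 : ExtA) {N : ℕ} {σ : ℝ} (a : N / 4 < σ) (b : σ ≤ N)
    (hG : Good N σ) : ∃ γ : ℝ, 0 < γ ∧ N / 4 ≤ σ - γ ∧ Good N (σ - γ) := by
  have g0 : 0 < σ - N / 4 := sub_pos.2 a
  set g := σ - N / 4 with hg
  obtain ⟨K, C, C0, hC⟩ := h1 N (g / 2) (half_pos g0)
  have γ0 : 0 < min g (g / (32 * C * (K + 1))) := lt_min g0 (by positivity)
  have γ1 := min_le_left g (g / (32 * C * (K + 1)))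
  have γ2 := (le_div_iff₀ (by positivity)).1 (min_le_right g (g / (32 * C * (K + 1))))
  set γ := min g (g / (32 * C * (K + 1)))
  obtain ⟨η, η0, M₀, hE⟩ := h2 N K σ γ (le_trans (by positivity) a.le) b hG γ0
  obtain ⟨U, U1, hU⟩ := big g0 C0
  refine ⟨γ, γ0, by linarith, fun ε hε => ⟨η, η0, max M₀ (U * (K + 1)), fun M hM c hc => ?_⟩⟩
  refine le_trans (mul_le_mul_of_nonneg_right (mul_le_mul_of_nonneg_right
    (show N - (σ - γ) - ε ≤ N - σ + γ by linarith) (Nat.cast_nonneg M)) lg_pos.le)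
    (le_of_not_ge fun k => ?_)
  have e1 := hC c _ σ _ (hE M (le_of_max_le_left hM) c γ γ0.le hc k)
  have u1 : U ≤ M / (K + 1) := (Nat.le_div_iff_mul_le K.succ_pos).2 (le_of_max_le_right hM)
  have e2 := hU _ u1
  have u2 : M < (K + 1) * (M / (K + 1) + 1) := Nat.lt_mul_div_succ M K.succ_pos
  set u := M / (K + 1)
  have u3 : (M : ℝ) ≤ (K + 1) * (u + 1) := by exact_mod_cast u2.le
  have u4 : (1 : ℝ) ≤ u := by exact_mod_cast U1.trans u1
  have u5 : (M : ℝ) ≤ (K + 1) * (2 * u) :=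
    u3.trans (mul_le_mul_of_nonneg_left (by linarith) (by positivity))
  have e3 := mul_le_mul_of_nonneg_left u5 (mul_pos C0 γ0).le
  have e4 := mul_le_mul_of_nonneg_right γ2 (zero_le_one.trans u4)
  have e5 := mul_pos g0 (zero_lt_one.trans_le u4)
  rw [← hg] at e1
  nlinarith

end GOODA

theorem rowGOODA : SGoodA := by
  intro h1 h2 N
  have n0 : (0 : ℝ) ≤ N := Nat.cast_nonneg N
  have hN : (N : ℝ) ∈ {s : ℝ | N / 4 ≤ s ∧ Good N s} := ⟨by linarith, GOODA.top N⟩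
  have hb : BddBelow {s : ℝ | N / 4 ≤ s ∧ Good N s} := ⟨N / 4, fun _ h => h.1⟩
  have a := le_csInf ⟨_, hN⟩ fun s (h : s ∈ {s : ℝ | N / 4 ≤ s ∧ Good N s}) => h.1
  have hG : Good N (sInf {s : ℝ | N / 4 ≤ s ∧ Good N s}) := GOODA.lim fun ε hε => by
    obtain ⟨s, h3, h4⟩ := exists_lt_of_csInf_lt ⟨_, hN⟩ (lt_add_of_pos_right _ hε)
    exact ⟨s, h4.le, h3.2⟩
  rcases a.eq_or_lt with e | e
  · rwa [e]
  · obtain ⟨γ, γ0, h3, h4⟩ := GOODA.step h1 h2 e (csInf_le hb hN) hG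
    have := csInf_le hb ⟨h3, h4⟩
    linarith

end Pool.Agent.MP_5168f5_an.H17S
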