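import Pool.Agent.MP_5168f5_an.H17S.BeApi

/-! An inequality of Brascamp-Lieb type in a lattice. -/

namespace Pool.Agent.MP_5168f5_an.H17S

open H19 MeasureTheory Finset

namespace BL

theorem abel (x : ℕ → ℝ) (n : ℕ) :
    ∑ l ∈ range n, ((n : ℝ) - l) * (x (l + 1) - x l) = ∑ l ∈ range n, (x (l + 1) - x 0) := by
  induction n with
  | zero => simp
  | succ n ih =>
    have e : ∀ l : ℕ, (((n + 1 : ℕ) : ℝ) - l) * (x (l + 1) - x l) =
        ((n : ℝ) - l) * (x (l + 1) - x l) + (x (l + 1) - x l) := fun l => by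
      push_cast
      ring
    simp only [e]
    rw [sum_add_distrib, sum_range_sub, sum_range_succ, ih, sum_range_succ]
    ring

/-- upper bounds for the increments -/
theorem up {x y : ℕ → ℝ} {L : ℕ} {e : ℝ} (hL : 0 < L)
    (h : ∀ l < L, y (l + 1) - y l ≤ (1 - (l : ℝ) / L) * (x (l + 1) - x l) + e) :
    L * (y L - y 0) ≤ ∑ l ∈ range L, (x (l + 1) - x 0) + L * (L * e) := by
  have L0 : (0 : ℝ) < L := by exact_mod_cast hL
  have h1 : ∑ l ∈ range L, L * (y (l + 1) - y l) ≤
      ∑ l ∈ range L, (((L : ℝ) - l) * (x (l + 1) - x l) + L * e) := by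
    refine sum_le_sum fun l hl => ?_
    refine (mul_le_mul_of_nonneg_left (h l (mem_range.1 hl)) L0.le).trans (le_of_eq ?_)
    field_simp
  rwa [← mul_sum, sum_range_sub, sum_add_distrib, abel, sum_const, card_range, nsmul_eq_mul] at h1

/-- lower bounds for the increments -/
theorem low {x y : ℕ → ℝ} {L : ℕ} {e : ℝ} (hL : 0 < L)
    (h : ∀ l < L, (1 - (l + 1 : ℝ) / L) * (x (l + 1) - x l) - e ≤ y (l + 1) - y l) :
    ∑ l ∈ range L, (x (l + 1) - x 0) ≤ L * (y L - y 0) + (x L - x 0) + L * (L * e) := by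
  have L0 : (0 : ℝ) < L := by exact_mod_cast hL
  have h1 : ∑ l ∈ range L, ((L : ℝ) - l) * (x (l + 1) - x l) ≤
      ∑ l ∈ range L, (L * (y (l + 1) - y l) + (x (l + 1) - x l) + L * e) := by
    refine sum_le_sum fun l hl => ?_
    have h2 := mul_le_mul_of_nonneg_left (h l (mem_range.1 hl)) L0.le
    have h3 : L * ((1 - (l + 1 : ℝ) / L) * (x (l + 1) - x l) - e) =
        ((L : ℝ) - l) * (x (l + 1) - x l) - (x (l + 1) - x l) - L * e := by
      field_simp
      ring
    linarith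
  rwa [abel, sum_add_distrib, sum_add_distrib, ← mul_sum, sum_range_sub, sum_range_sub, sum_const,
    card_range, nsmul_eq_mul] at h1

end BL

theorem rowBL : SHN → SBL := by
  intro hHN α ι _ v c lo hi Λ L s B τ β hL hle hΛ hτ vm lip mon vmod cmod hB hs
  obtain ⟨T, T0, TL, Tm, Tb, ha, hb⟩ := hHN v c lo hi Λ L hL hle hΛ vm lip mon
  have L0 : (0 : ℝ) < L := by exact_mod_cast hL
  have h1 : ∀ i ∈ s, L * (c (B i) - c lo) ≤
      ∑ l ∈ range L, (v (B i ⊓ T (l + 1)) - v lo) + L * (L * (3 * (Λ + 1))) := by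
    intro i hi'
    have h2 := BL.up (x := fun l => v (B i ⊓ T l)) (y := fun l => c (B i ⊓ T l))
      (e := 3 * (Λ + 1)) hL fun l hl => by
        have e : B i ⊓ T (l + 1) ⊓ T l = B i ⊓ T l := by rw [inf_assoc, inf_eq_right.2 (Tm l)]
        have a1 := cmod (B i ⊓ T (l + 1)) (T l)
        have a2 := vmod (B i ⊓ T (l + 1)) (T l)
        have a3 := ha l hl (B i ⊓ T (l + 1) ⊔ T l) le_sup_right
          (sup_le (inf_le_right.trans (Tb _).2) (Tb _).2)
        rw [e] at a1 a2
        have a4 : (l : ℝ) / L ≤ 1 := (div_le_one L0).2 (by exact_mod_cast hl.le)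
        have a5 : (0 : ℝ) ≤ (l : ℝ) / L := by positivity
        have a6 := mul_le_mul_of_nonneg_left a2 (sub_nonneg.2 a4)
        nlinarith [mul_nonneg a5 hΛ]
    simpa only [T0, TL, inf_eq_left.2 (hB i hi').2, inf_eq_right.2 (hB i hi').1] using h2
  have h2 := BL.low (x := fun l => v (T l)) (y := fun l => c (T l)) hL hb
  simp only [T0, TL] at h2
  have h3 := sum_le_sum h1
  rw [← mul_sum, sum_add_distrib, sum_comm, sum_const, nsmul_eq_mul] at h3
  have h4 := sum_le_sum fun l (_ : l ∈ range L) => hs (T (l + 1)) (Tb _).1 (Tb _).2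
  rw [sum_add_distrib, ← mul_sum, sum_const, card_range, nsmul_eq_mul] at h4
  have h5 := mul_le_mul_of_nonneg_left h2 hτ
  refine le_of_mul_le_mul_left ?_ L0
  have e : L * (τ * (c hi - c lo) + τ * (v hi - v lo) / L + β + (3 * s.card + τ) * L * (Λ + 1)) =
      τ * (L * (c hi - c lo) + (v hi - v lo) + L * (L * (Λ + 1))) + L * β +
        s.card * (L * (L * (3 * (Λ + 1)))) := by
    field_simp
    ring
  linarith

end Pool.Agent.MP_5168f5_an.H17S
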