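import Pool.Agent.MP_5168f5_an.H17S.Spec

/-! Entropy modulo a random body. -/

namespace Pool.Agent.MP_5168f5_an.H17S

open H19 MeasureTheory

section Be

variable {E : Type} [NormedAddCommGroup E] [NormedSpace ℝ E] [MeasureSpace E] {d : ℝ}
  {Ω β : Type} {P : FP Ω} {G : Ω → β} {A B : Ω → Bd E} {x : Ω → E} {c : ℝ}

theorem Vol.mono (hV : Vol E d) {A B : Bd E} (h : A ≤ B) : A.lv ≤ B.lv := by
  simpa using hV.sub A B 1 one_pos (Bd.Sub.of_le h le_rfl)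

theorem log_twelve_le : Real.log (6 * 2) ≤ 3 := by
  have h1 : Real.log (6 * 2) ≤ Real.log ((2 : ℝ) ^ 4) :=
    Real.log_le_log (by norm_num) (by norm_num)
  have h2 := Real.log_two_lt_d9
  rw [Real.log_pow] at h1
  push_cast at h1; linarith

/-- If `x` is known modulo `c B`, its value modulo `A` costs the volume ratio. -/
theorem Vol.bdet (hV : Vol E d) (hc : 1 ≤ c) (hA : Fn P A G) (hB : Fn P B G)
    (hAB : ∀ ω ∈ P.S, (A ω).Sub (B ω) c)
    (h : ∀ a ∈ P.S, ∀ b ∈ P.S, G a = G b → (B a).In c (x a - x b)) :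
    ch P (fun ω => (A ω).kap (x ω)) G ≤
      P.E (fun ω => (B ω).lv - (A ω).lv) + d * Real.log (6 * c) := by
  have h1 := ch_detE (P := P) (F := fun ω => (A ω).kap (x ω)) (G := G)
    (fun ω => Real.exp ((B ω).lv - (A ω).lv + d * Real.log (6 * c)))
    (fun a ha b hb e => by simp only [hA a ha b hb e, hB a ha b hb e]) fun a ha => by
      obtain ⟨T, h1, h2⟩ := hV.count (A a) (B a) c (x a) hc (hAB a ha)
      refine ⟨T, h1, fun b hb e => ?_⟩
      have h3 := h b hb a ha e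
      rw [hB b hb a ha e] at h3
      simpa only [hA b hb a ha e] using h2 _ h3
  simp only [Real.log_exp] at h1
  rwa [FP.E_add, FP.E_const] at h1

/-- If `x` is known modulo `c A`, its value modulo `A` costs `d log (6 c)`. -/
theorem Vol.bnear (hV : Vol E d) (hc : 1 ≤ c) (hA : Fn P A G)
    (h : ∀ a ∈ P.S, ∀ b ∈ P.S, G a = G b → (A a).In c (x a - x b)) :
    ch P (fun ω => (A ω).kap (x ω)) G ≤ d * Real.log (6 * c) := by
  have := hV.bdet hc hA hA (fun _ _ => Bd.Sub.of_le le_rfl hc) h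
  simpa only [sub_self, FP.E_const, zero_add] using this

/-- The same with `c ≤ 20`. -/
theorem Vol.bnear5 (hV : Vol E d) (hc : 1 ≤ c) (hc' : c ≤ 20) (hA : Fn P A G)
    (h : ∀ a ∈ P.S, ∀ b ∈ P.S, G a = G b → (A a).In c (x a - x b)) :
    ch P (fun ω => (A ω).kap (x ω)) G ≤ 5 * d := by
  refine (hV.bnear hc hA h).trans ?_
  rw [mul_comm]
  exact mul_le_mul_of_nonneg_right (log_le_five (by linarith) (by linarith)) hV.d0

theorem in_two_of_kap {a b : Ω} (hA : A a = A b) (e : (A a).kap (x a) = (A b).kap (x b)) :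
    (A a).In 2 (x a - x b) := by
  rw [← hA] at e; exact Bd.in_of_kap_eq e

theorem Vol.bsub (hV : Vol E d) (hc : 1 ≤ c) (hA : Fn P A G) (hB : Fn P B G)
    (hAB : ∀ ω ∈ P.S, (A ω).Sub (B ω) c) :
    ch P (fun ω => (B ω).kap (x ω)) G ≤
      ch P (fun ω => (A ω).kap (x ω)) G + d * Real.log (6 * (c * 2)) := by
  refine (ch_tri _ (fun ω => (A ω).kap (x ω)) G).trans (add_le_add le_rfl ?_)
  refine hV.bnear (by linarith) (hB.right _) fun a ha b hb e => ?_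
  exact (in_two_of_kap (hA a ha b hb (congrArg Prod.snd e)) (congrArg Prod.fst e)).of_sub
    (hAB a ha)

theorem Vol.bmono (hV : Vol E d) (hA : Fn P A G) (hB : Fn P B G) (hAB : ∀ ω ∈ P.S, A ω ≤ B ω) :
    ch P (fun ω => (B ω).kap (x ω)) (fun ω => ((A ω).kap (x ω), G ω)) ≤ 3 * d := by
  refine (hV.bnear (c := 2) (by norm_num) (hB.right _) fun a ha b hb e => ?_).trans ?_
  · exact (in_two_of_kap (hA a ha b hb (congrArg Prod.snd e)) (congrArg Prod.fst e)).of_le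
      (hAB a ha)
  · rw [mul_comm]; exact mul_le_mul_of_nonneg_right log_twelve_le hV.d0

theorem Vol.blip (hV : Vol E d) (hA : Fn P A G) (hB : Fn P B G) (hAB : ∀ ω ∈ P.S, A ω ≤ B ω) :
    ch P (fun ω => (A ω).kap (x ω)) G ≤
      ch P (fun ω => (B ω).kap (x ω)) G + P.E (fun ω => (B ω).lv - (A ω).lv) + 3 * d := by
  have h1 := ch_tri (P := P) (fun ω => (A ω).kap (x ω)) (fun ω => (B ω).kap (x ω)) G
  have h2 := hV.bdet (x := x) (G := fun ω => ((B ω).kap (x ω), G ω)) (c := 2) (by norm_num)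
    (hA.right _) (hB.right _) (fun ω hω => Bd.Sub.of_le (hAB ω hω) (by norm_num))
    fun a ha b hb e => in_two_of_kap (hB a ha b hb (congrArg Prod.snd e)) (congrArg Prod.fst e)
  have h3 := mul_le_mul_of_nonneg_left log_twelve_le hV.d0
  linarith

theorem Vol.bmod (hV : Vol E d) (hA : Fn P A G) (hB : Fn P B G) :
    ch P (fun ω => (A ω ⊔ B ω).kap (x ω)) G + ch P (fun ω => (A ω ⊓ B ω).kap (x ω)) G ≤
      ch P (fun ω => (A ω).kap (x ω)) G + ch P (fun ω => (B ω).kap (x ω)) G + 9 * d := by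
  have hS : Fn P (fun ω => A ω ⊔ B ω) G := fun a ha b hb e => by
    simp only [hA a ha b hb e, hB a ha b hb e]
  have hI : Fn P (fun ω => A ω ⊓ B ω) G := fun a ha b hb e => by
    simp only [hA a ha b hb e, hB a ha b hb e]
  have h1 := ch_submod (P := P) (G := G)
    (A := fun ω => ((A ω).kap (x ω), (A ω ⊔ B ω).kap (x ω)))
    (B := fun ω => ((B ω).kap (x ω), (A ω ⊔ B ω).kap (x ω)))
    (M := fun ω => (A ω ⊔ B ω).kap (x ω)) ((Fn.snd _ _).left G) ((Fn.snd _ _).left G)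
  rw [ch_chain (fun ω => (A ω).kap (x ω)), ch_chain (fun ω => (B ω).kap (x ω))] at h1
  have h2 := hV.bmono (x := x) hA hS fun _ _ => le_sup_left
  have h3 := hV.bmono (x := x) hB hS fun _ _ => le_sup_right
  have h4 := ch_tri (P := P) (fun ω => (A ω ⊓ B ω).kap (x ω))
    (fun ω => (((A ω).kap (x ω), (A ω ⊔ B ω).kap (x ω)),
      ((B ω).kap (x ω), (A ω ⊔ B ω).kap (x ω)))) G
  have h5 := hV.bnear (x := x) (c := 2) (G := fun ω => ((((A ω).kap (x ω), (A ω ⊔ B ω).kap (x ω)),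
      ((B ω).kap (x ω), (A ω ⊔ B ω).kap (x ω))), G ω)) (by norm_num) (hI.right _)
    fun a ha b hb e => by
      simp only [Prod.mk.injEq] at e
      exact Bd.in_inf.2 ⟨in_two_of_kap (hA a ha b hb e.2) e.1.1.1,
        in_two_of_kap (hB a ha b hb e.2) e.1.2.1⟩
  have h6 := mul_le_mul_of_nonneg_left log_twelve_le hV.d0
  linarith

end Be

variable {N : ℕ} {Ω β : Type} {P : FP Ω}

/-- The dyadic cell is almost determined by the value modulo the small ball. -/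
theorem ch_fl_le_kap (u : ℕ) (x : Ω → V N) (G : Ω → β) :
    ch P (fun ω => fl u (x ω)) G ≤ ch P (fun ω => (bot N u).kap (x ω)) G + 5 * N := by
  refine (ch_tri _ (fun ω => (bot N u).kap (x ω)) G).trans (add_le_add le_rfl ?_)
  refine ch_fl_near (n := 2) (by norm_num) fun a _ b _ e => ?_
  have := (in_bot two_pos).1 (Bd.in_of_kap_eq (congrArg Prod.fst e))
  exact_mod_cast this.le

theorem ch_kap_le_fl (hV : Vol (V N) N) (u : ℕ) (x : Ω → V N) (G : Ω → β) :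
    ch P (fun ω => (bot N u).kap (x ω)) G ≤ ch P (fun ω => fl u (x ω)) G + 5 * N := by
  refine (ch_tri _ (fun ω => fl u (x ω)) G).trans (add_le_add le_rfl ?_)
  refine hV.bnear5 (A := fun _ => bot N u) (c := 1) le_rfl (by norm_num) (fun _ _ _ _ _ => rfl)
    fun a _ b _ e => ?_
  exact Bd.in_one.2 (mem_bot.2 (norm_sub_lt_of_fl_eq (congrArg Prod.fst e)))

theorem sc_le (u : ℕ) (x : ℝ) : sc u x ≤ u + 1 := by
  classical
  exact Nat.find_le (Or.inl (Nat.lt_succ_self u))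

theorem le_abs_of_sc_le {u : ℕ} {x : ℝ} (h : sc u x ≤ u) : ((2 : ℝ) ^ sc u x)⁻¹ ≤ |x| := by
  classical
  have := Nat.find_spec (⟨u + 1, Or.inl (Nat.lt_succ_self u)⟩ :
    ∃ ι : ℕ, u < ι ∨ ((2 : ℝ) ^ ι)⁻¹ ≤ |x|)
  exact this.resolve_left (not_lt.2 h)

theorem abs_lt_of_lt_sc {u i : ℕ} {x : ℝ} (h : i < sc u x) : |x| < ((2 : ℝ) ^ i)⁻¹ := by
  classical
  have := Nat.find_min (⟨u + 1, Or.inl (Nat.lt_succ_self u)⟩ :
    ∃ ι : ℕ, u < ι ∨ ((2 : ℝ) ^ ι)⁻¹ ≤ |x|) h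
  exact lt_of_not_ge fun h1 => this (Or.inr h1)

namespace Cfg

variable (c : Cfg N)

theorem dv_approx (u j : ℕ) (ω ω' : c.Ω) :
    ‖c.dv u j ω ω' - (2 : ℝ) ^ (j * u) • (c.e ω' - c.e ω)‖ < ((2 : ℝ) ^ u)⁻¹ := by
  refine (pi_norm_lt_iff (by positivity)).2 fun i => ?_
  have h2 : (0 : ℝ) < 2 ^ u := by positivity
  have e : (c.dv u j ω ω' - (2 : ℝ) ^ (j * u) • (c.e ω' - c.e ω)) i = ((2 : ℝ) ^ u)⁻¹ *
      (Int.fract ((2 : ℝ) ^ ((j + 1) * u) * c.e ω i) -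
        Int.fract ((2 : ℝ) ^ ((j + 1) * u) * c.e ω' i)) := by
    rw [← Int.self_sub_floor, ← Int.self_sub_floor]
    simp only [dv, fl, Pi.sub_apply, Pi.smul_apply, smul_eq_mul, add_mul, one_mul, pow_add]
    field_simp
    ring
  rw [e, Real.norm_eq_abs, abs_mul, abs_of_pos (inv_pos.2 h2)]
  refine mul_lt_of_lt_one_right (inv_pos.2 h2) ?_
  rw [abs_lt]
  constructor <;> linarith [Int.fract_nonneg ((2 : ℝ) ^ ((j + 1) * u) * c.e ω i),
    Int.fract_lt_one ((2 : ℝ) ^ ((j + 1) * u) * c.e ω i),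
    Int.fract_nonneg ((2 : ℝ) ^ ((j + 1) * u) * c.e ω' i),
    Int.fract_lt_one ((2 : ℝ) ^ ((j + 1) * u) * c.e ω' i)]

theorem dv_le_one (u j : ℕ) {ω ω' : c.Ω} (h : fl (j * u) (c.e ω') = fl (j * u) (c.e ω)) :
    ‖c.dv u j ω ω'‖ ≤ 1 := by
  refine (pi_norm_le_iff_of_nonneg zero_le_one).2 fun i => ?_
  have h2 : (0 : ℝ) < 2 ^ u := by positivity
  have h3 := fl1_mem_Ico (i := u) (congrFun h i)
  have h4 := fl1_mem_Ico (i := u) (rfl : fl1 (j * u) (c.e ω i) = fl1 (j * u) (c.e ω i))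
  rw [Finset.mem_Ico] at h3 h4
  have h5 : |fl1 (j * u + u) (c.e ω' i) - fl1 (j * u + u) (c.e ω i)| ≤ 2 ^ u := by
    rw [abs_le]; constructor <;> linarith [h3.1, h3.2, h4.1, h4.2]
  have h6 : |(fl1 (j * u + u) (c.e ω' i) : ℝ) - fl1 (j * u + u) (c.e ω i)| ≤ 2 ^ u := by
    exact_mod_cast h5
  simp only [dv, fl_apply, add_mul, one_mul]
  rw [Real.norm_eq_abs, abs_mul, abs_of_pos (inv_pos.2 h2), inv_mul_le_iff₀ h2, mul_one]
  exact h6

theorem φ_fn (u K : ℕ) {i j : ℕ} (h : i ≤ j) : Fn c.P (c.φ u K i) (c.φ u K j) := by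
  intro a _ b _ e
  simp only [φ, Prod.mk.injEq] at e ⊢
  exact ⟨e.1, e.2.1, c.X_eq_of_le (Nat.mul_le_mul_right u h) e.2.2.1, e.2.2.2⟩

theorem φ_fn_ln (u K j : ℕ) : Fn c.P (c.φ u K j) fun ω => (c.ln ω, c.z ω) := by
  intro a _ b _ e
  simp only [ln, Prod.mk.injEq] at e
  simp only [φ, pt, X, e.1.1, e.1.2.1, e.1.2.2, e.2]

theorem pt_sub_bp (j : ℕ) (ω : c.Ω) :
    c.pt ω - c.bp j ω = (c.z ω - ((2 : ℝ) ^ j)⁻¹ * fl1 j (c.z ω)) • c.e ω := by
  simp only [pt, bp]; module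

theorem abs_z_sub (j : ℕ) (z : ℝ) : 0 ≤ z - ((2 : ℝ) ^ j)⁻¹ * fl1 j z ∧
    z - ((2 : ℝ) ^ j)⁻¹ * fl1 j z < ((2 : ℝ) ^ j)⁻¹ :=
  ⟨sub_nonneg.2 (fl1_le j z), by linarith [lt_fl1 j z]⟩

/-- Lines in the same cell are close at every height in `[-1, 1]`. -/
theorem norm_line_sub {j : ℕ} {a b : c.Ω} (h : c.X j a = c.X j b) {t : ℝ} (ht : |t| ≤ 1) :
    ‖(c.a a + t • c.e a) - (c.a b + t • c.e b)‖ ≤ 2 * ((2 : ℝ) ^ j)⁻¹ := by
  have h1 := norm_sub_lt_of_fl_eq (congrArg Prod.fst h)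
  have h2 := norm_sub_lt_of_fl_eq (congrArg Prod.snd h)
  have e : (c.a a + t • c.e a) - (c.a b + t • c.e b) = (c.a a - c.a b) + t • (c.e a - c.e b) := by
    module
  have h3 : ‖t • (c.e a - c.e b)‖ ≤ ‖c.e a - c.e b‖ := by
    rw [norm_smul, Real.norm_eq_abs]; exact mul_le_of_le_one_left (norm_nonneg _) ht
  rw [e]
  linarith [norm_add_le (c.a a - c.a b) (t • (c.e a - c.e b))]

/-- The rescaled line with its side information carries the same information as the line. -/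
theorem zoom_ln_iff (j : ℕ) (a b : c.Ω) : (c.zoom j).ln a = (c.zoom j).ln b ↔ c.ln a = c.ln b := by
  change (fr j (c.a a), fr j (c.e a), c.θ a, c.X j a) =
    (fr j (c.a b), fr j (c.e b), c.θ b, c.X j b) ↔ _
  simp only [ln, X, Prod.mk.injEq]
  have key : ∀ x y : V N, fr j x = fr j y → fl j x = fl j y → x = y := by
    intro x y h1 h2
    rw [fr_eq, fr_eq, h2, sub_left_inj] at h1
    exact smul_right_injective _ (by positivity) h1
  constructor
  · rintro ⟨h1, h2, h3, h4, h5⟩; exact ⟨key _ _ h1 h4, key _ _ h2 h5, h3⟩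
  · rintro ⟨h1, h2, h3⟩; simp [h1, h2, h3]

end Cfg

end Pool.Agent.MP_5168f5_an.H17S
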