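import Pool.Agent.MP_5168f5_an.H17S.BeApi

/-! Row COPY: the entropy of the copy given the coarse data of the line. -/

namespace Pool.Agent.MP_5168f5_an.H17S

open H19 MeasureTheory

namespace COPY

variable {N : ℕ} (c : Cfg N)

theorem scale (u j : ℕ) :
    ((2 : ℝ) ^ u)⁻¹ * ((2 : ℝ) ^ (j * u))⁻¹ = ((2 : ℝ) ^ ((j + 1) * u))⁻¹ := by
  rw [← mul_inv, ← pow_add]
  congr 2
  ring

/-- two lines in one tube, at one height: points and base points are equally close -/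
theorem shift (u j : ℕ) {a b : c.Ω} (hz : c.z a = c.z b) (hX : c.X (j * u) a = c.X (j * u) b) :
    ‖(c.pt a - c.pt b) - (c.bp u a - c.bp u b)‖ ≤ ((2 : ℝ) ^ ((j + 1) * u))⁻¹ := by
  have e : (c.pt a - c.pt b) - (c.bp u a - c.bp u b) =
      (c.z b - ((2 : ℝ) ^ u)⁻¹ * fl1 u (c.z b)) • (c.e a - c.e b) := by
    simp only [Cfg.pt, Cfg.bp, hz]
    module
  obtain ⟨h1, h2⟩ := Cfg.abs_z_sub u (c.z b)
  have h3 := norm_sub_lt_of_fl_eq (congrArg Prod.snd hX)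
  rw [e, norm_smul, Real.norm_of_nonneg h1, ← scale]
  exact mul_le_mul h2.le h3.le (norm_nonneg _) (by positivity)

theorem near1 {u K j : ℕ} (hj : j ≤ K) {a b : c.Ω} (h : c.φ u K j a = c.φ u K j b) :
    ‖c.bp u a - c.bp u b‖ ≤ 2 * ((2 : ℝ) ^ ((j + 1) * u))⁻¹ := by
  simp only [Cfg.φ, Prod.mk.injEq] at h
  have h1 := shift c u j h.2.1 h.2.2.1
  have h2 := norm_sub_lt_of_fl_eq
    (fl_eq_of_le (Nat.mul_le_mul_right u (Nat.add_le_add_right hj 1)) h.1)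
  have h3 := norm_sub_le (c.pt a - c.pt b) ((c.pt a - c.pt b) - (c.bp u a - c.bp u b))
  rw [sub_sub_cancel] at h3
  linarith

theorem near2 (hb : c.Box) {u i : ℕ} {a b : c.Ω} (ha : a ∈ c.P.S) (hX : c.X i a = c.X i b)
    (hz : fl1 u (c.z a) = fl1 u (c.z b)) : ‖c.bp u a - c.bp u b‖ ≤ 2 * ((2 : ℝ) ^ i)⁻¹ := by
  unfold Cfg.bp
  rw [← hz]
  refine c.norm_line_sub hX ?_
  obtain ⟨h1, h2⟩ := Cfg.abs_z_sub u (c.z a)
  obtain ⟨h3, h4⟩ := (hb a ha).2.2
  have h5 : ((2 : ℝ) ^ u)⁻¹ ≤ 1 := inv_le_one_of_one_le₀ (one_le_pow₀ one_le_two)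
  rw [abs_le]
  constructor <;> linarith

theorem near3 (u j : ℕ) {a b : c.Ω} (hz : c.z a = c.z b) (hX : c.X (j * u) a = c.X (j * u) b)
    (h : fl ((j + 1) * u) (c.bp u a) = fl ((j + 1) * u) (c.bp u b)) :
    ‖c.pt a - c.pt b‖ ≤ 2 * ((2 : ℝ) ^ ((j + 1) * u))⁻¹ := by
  have h1 := shift c u j hz hX
  have h2 := norm_sub_lt_of_fl_eq h
  have h3 := norm_add_le ((c.pt a - c.pt b) - (c.bp u a - c.bp u b)) (c.bp u a - c.bp u b)
  rw [sub_add_cancel] at h3
  linarith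

theorem near4 (hb : c.Box) {i : ℕ} {a b : c.Ω} (ha : a ∈ c.P.S) (hX : c.X i a = c.X i b)
    (hz : c.z a = c.z b) : ‖c.pt a - c.pt b‖ ≤ 2 * ((2 : ℝ) ^ i)⁻¹ := by
  unfold Cfg.pt
  rw [← hz]
  refine c.norm_line_sub hX ?_
  obtain ⟨h3, h4⟩ := (hb a ha).2.2
  rw [abs_le]
  constructor <;> linarith

/-- the data of a line that the copy shares up to bounded entropy -/
noncomputable def G1 (u j : ℕ) (ω : c.Ω) : Z N × (Z N × Z N) × ℤ × c.T :=
  (fl ((j + 1) * u) (c.bp u ω), c.X (j * u) ω, fl1 u (c.z ω), c.θ ω)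

/-- the same with the exact height -/
noncomputable def G3 (u j : ℕ) (ω : c.Ω) : Z N × (Z N × Z N) × ℝ × c.T :=
  (fl ((j + 1) * u) (c.pt ω), c.X (j * u) ω, c.z ω, c.θ ω)

end COPY

open COPY in
theorem rowCOPY : Copy := by
  intro N c u K j s Λ Ω' Q π π' hE hj hP
  have hle : j * u ≤ (j + 1) * u := Nat.mul_le_mul_right u (Nat.le_succ j)
  have hN : (0 : ℝ) ≤ N := Nat.cast_nonneg N
  have hbig := hE.big
  have s0 := ch_tri' (P := Q) (fun x => c.X ((j + 1) * u) (π' x))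
    (fun x => (c.X ((j + 1) * u) (π x), fl1 u (c.z (π x)), c.θ (π x))) fun x => G1 c u j (π' x)
  have s1 : ch Q (fun x => G1 c u j (π' x))
      (fun x => (c.X ((j + 1) * u) (π x), fl1 u (c.z (π x)), c.θ (π x))) ≤ 5 * N := by
    refine (ch_mono (F' := fun x => fl ((j + 1) * u) (c.bp u (π' x))) fun a ha b hb e => ?_).trans
      (ch_fl_near (n := 6) (by norm_num) fun a ha b hb e => ?_)
    · have h1 := (hP.mem a ha).2.2
      have h2 := (hP.mem b hb).2.2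
      simp only [Cfg.φ, Prod.mk.injEq] at h1 h2 e
      simp only [G1, Prod.mk.injEq]
      refine ⟨e.1, ?_, ?_, ?_⟩
      · rw [h1.2.2.1, h2.2.2.1]
        exact c.X_eq_of_le hle e.2.1
      · rw [h1.2.1, h2.2.1]
        exact e.2.2.1
      · rw [h1.2.2.2, h2.2.2.2]
        exact e.2.2.2
    · simp only [Prod.mk.injEq] at e
      have h1 := near1 c hj (hP.mem a ha).2.2
      have h2 := near1 c hj (hP.mem b hb).2.2.symm
      have h3 := near2 c hE.box (hP.mem a ha).1 e.1 e.2.1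
      have h4 := norm_sub_le_norm_sub_add_norm_sub (c.bp u (π' a)) (c.bp u (π a)) (c.bp u (π' b))
      have h5 := norm_sub_le_norm_sub_add_norm_sub (c.bp u (π a)) (c.bp u (π b)) (c.bp u (π' b))
      push_cast
      linarith
  have s2 := hP.ch_copy (c.X ((j + 1) * u)) (G1 c u j)
  have s3 := ch_info (P := c.P) (ξ := c.z) (L := c.ln) (G := c.θ) (h := fun ω => fl1 u (c.z ω))
    (G' := G1 c u j) (f := c.X ((j + 1) * u)) c.fn_θ_ln ((Fn.comp (fl1 u) c.z).left _)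
    (fun a _ b _ e => by
      simp only [G1, Prod.mk.injEq] at e ⊢
      exact e.2.2)
    (fun a _ b _ e => by
      simp only [Cfg.ln, Prod.mk.injEq] at e
      simp only [G1, Cfg.bp, Cfg.X, e.1.1, e.1.2.1, e.1.2.2, e.2])
    ((c.fn_X_ln _).left _)
  have s3' := hE.inf
  have s4 := ch_tri' (P := c.P) (c.X ((j + 1) * u)) (fun ω => (c.z ω, G1 c u j ω)) (G3 c u j)
  have s5 : ch c.P (G3 c u j) (fun ω => (c.z ω, G1 c u j ω)) ≤ 5 * N := by
    refine (ch_mono (F' := fun ω => fl ((j + 1) * u) (c.pt ω)) fun a _ b _ e => ?_).trans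
      (ch_fl_near (n := 2) (by norm_num) fun a _ b _ e => ?_)
    · simp only [G1, G3, Prod.mk.injEq] at e ⊢
      tauto
    · simp only [G1, Prod.mk.injEq] at e
      exact_mod_cast near3 c u j e.1 e.2.2.1 e.2.1
  have s6 := ch_symm (P := c.P) (c.X ((j + 1) * u)) (fun ω => fl ((K + 1) * u) (c.pt ω)) (G3 c u j)
  have s7 : ch c.P (fun ω => fl ((K + 1) * u) (c.pt ω)) (G3 c u j) ≤
      ch c.P (fun ω => fl ((K + 1) * u) (c.pt ω))
        fun ω => (fl ((j + 1) * u) (c.pt ω), c.z ω, c.θ ω) :=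
    ch_anti fun a _ b _ e => by
      simp only [G3, Prod.mk.injEq] at e ⊢
      tauto
  have s8 := hE.up (j + 1) (K + 1) (Nat.add_le_add_right hj 1) le_rfl
  have s9 := hE.low (j + 1) (K + 1) (Nat.add_le_add_right hj 1) le_rfl
  have s10 := ch_tri' (P := c.P) (fun ω => fl ((K + 1) * u) (c.pt ω))
    (fun ω => (c.X ((j + 1) * u) ω, c.z ω, c.θ ω)) fun ω => (c.X ((j + 1) * u) ω, G3 c u j ω)
  have s11 : ch c.P (fun ω => (c.X ((j + 1) * u) ω, G3 c u j ω))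
      (fun ω => (c.X ((j + 1) * u) ω, c.z ω, c.θ ω)) ≤ 5 * N := by
    refine (ch_mono (F' := fun ω => fl ((j + 1) * u) (c.pt ω)) fun a _ b _ e => ?_).trans
      (ch_fl_near (n := 2) (by norm_num) fun a ha b _ e => ?_)
    · simp only [G3, Prod.mk.injEq] at e ⊢
      exact ⟨e.2.1, e.1, c.X_eq_of_le hle e.2.1, e.2.2⟩
    · simp only [Prod.mk.injEq] at e
      exact_mod_cast near4 c hE.box ha e.1 e.2.1
  have s12 : ch c.P (c.X ((j + 1) * u)) (fun ω => (fl ((K + 1) * u) (c.pt ω), G3 c u j ω)) ≤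
      ch c.P (c.X ((j + 1) * u)) (c.φ u K j) :=
    ch_anti fun a _ b _ e => by
      simp only [G3, Cfg.φ, Prod.mk.injEq] at e ⊢
      tauto
  linarith

end Pool.Agent.MP_5168f5_an.H17S
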