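import Pool.Agent.MP_5168f5_an.H17S.BeApi

namespace Pool.Agent.MP_5168f5_an.H17S

open H19 MeasureTheory

theorem rowCORE : SCore := by
  intro hM hP hA N ε hε
  have l1 : 1 / 2 < lg := lt_trans (by norm_num) Real.log_two_gt_d9
  obtain ⟨K, hK⟩ := exists_nat_gt (2 * (N : ℝ) ^ 2 / ε)
  obtain ⟨C, hC, h⟩ := hM N (ε * lg) (by positivity)
  refine ⟨K, ε + 2 + 80 * (K + 1) ^ 2 * (N + 1) + C * (7 * (K + 1)) + C, by positivity,
    fun c u s Λ hE => ?_⟩
  obtain ⟨k, hk, h1⟩ := hP N c u K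
  have h2 := h _ _ _ _ u _ _ (hA N c u K k s Λ hE hk h1)
  have hΛ : 1 ≤ Λ := by
    have := hE.big
    have : (0 : ℝ) ≤ N := Nat.cast_nonneg _
    linarith
  have hl : 0 ≤ Real.log (u + 2) := Real.log_nonneg (by
    have : (0 : ℝ) ≤ u := Nat.cast_nonneg _
    linarith)
  have h3 : (N : ℝ) * (N * (u + 1) * lg / (K + 1)) ≤ ε / 2 * ((u + 1) * lg) := by
    rw [div_lt_iff₀ hε] at hK
    rw [← mul_div_assoc, div_le_iff₀ (by positivity)]
    have : 0 ≤ ((u : ℝ) + 1) * lg := by positivity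
    nlinarith
  generalize Real.log (u + 2) = y at *
  have a1 : 0 ≤ 80 * ((K : ℝ) + 1) ^ 2 * (N + 1) := by positivity
  have a2 : 0 ≤ C * (7 * ((K : ℝ) + 1)) := by positivity
  have h4 : (s - N / 4 - ε) * u * (2 * lg) ≤ ε * lg + (2 + C) * y +
      (80 * (K + 1) ^ 2 * (N + 1) + C * (7 * (K + 1))) * Λ := by linarith
  generalize 80 * ((K : ℝ) + 1) ^ 2 * (N + 1) = p at *
  generalize C * (7 * ((K : ℝ) + 1)) = q at *
  refine le_of_mul_le_mul_right (h4.trans ?_) (by positivity : 0 < 2 * lg)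
  have b1 : 0 ≤ (2 + C) * y := by positivity
  have b2 : 0 ≤ (p + q) * Λ := by positivity
  have b3 : 0 ≤ (2 + C) * Λ * lg := by positivity
  have b4 : 0 ≤ (ε + p + q) * y * lg := by positivity
  have b5 : ε * lg ≤ ε * lg * Λ := le_mul_of_one_le_right (by positivity) hΛ
  have b6 : 0 ≤ ε * lg := by positivity
  nlinarith [mul_le_mul_of_nonneg_left l1.le b1, mul_le_mul_of_nonneg_left l1.le b2]

end Pool.Agent.MP_5168f5_an.H17S
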