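import Pool.Agent.MP_5168f5_an.H17S.Defs

/-! Conditional entropy calculus. -/

namespace Pool.Agent.MP_5168f5_an.H17S

open H19

variable {Ω α α' β β' γ δ : Type} {P : FP Ω}

theorem Fn.rfl (F : Ω → α) : Fn P F F := fun _ _ _ _ h => h

theorem Fn.trans {F : Ω → α} {G : Ω → β} {K : Ω → γ} (h : Fn P F G) (h' : Fn P G K) :
    Fn P F K := fun a ha b hb e => h a ha b hb (h' a ha b hb e)

theorem Fn.pair {F : Ω → α} {F' : Ω → α'} {G : Ω → β} (h : Fn P F G) (h' : Fn P F' G) :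
    Fn P (fun ω => (F ω, F' ω)) G := fun a ha b hb e =>
  Prod.ext (h a ha b hb e) (h' a ha b hb e)

theorem Fn.fst (F : Ω → α) (G : Ω → β) : Fn P F fun ω => (F ω, G ω) :=
  fun _ _ _ _ e => congrArg Prod.fst e

theorem Fn.snd (F : Ω → α) (G : Ω → β) : Fn P G fun ω => (F ω, G ω) :=
  fun _ _ _ _ e => congrArg Prod.snd e

theorem Fn.left {F : Ω → α} {G : Ω → β} (h : Fn P F G) (K : Ω → γ) :
    Fn P F fun ω => (G ω, K ω) := h.trans (Fn.fst G K)

theorem Fn.right {F : Ω → α} {G : Ω → β} (h : Fn P F G) (K : Ω → γ) :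
    Fn P F fun ω => (K ω, G ω) := h.trans (Fn.snd K G)

theorem Fn.comp (g : α → β) (F : Ω → α) : Fn P (fun ω => g (F ω)) F :=
  fun _ _ _ _ e => congrArg g e

theorem hh_mono {f : Ω → α} {g : Ω → β} (h : Fn P f g) : hh P f ≤ hh P g :=
  P.H_mono fun a ha b hb e => h a ha b hb e

theorem hh_congr {f : Ω → α} {g : Ω → β} (h : Fn P f g) (h' : Fn P g f) : hh P f = hh P g :=
  le_antisymm (hh_mono h) (hh_mono h')

theorem hh_nonneg (f : Ω → α) : 0 ≤ hh P f := P.H_nonneg _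

theorem hh_unit : hh P (fun _ => ()) = 0 := by
  rw [← P.H_top]
  exact P.H_congr fun _ _ _ _ => by simp [Setoid.ker_def, Setoid.top_def]

theorem ch_unit (F : Ω → α) : ch P F (fun _ => ()) = hh P F := by
  unfold ch
  rw [hh_unit, sub_zero]
  exact hh_congr ((Fn.rfl F).pair fun _ _ _ _ _ => rfl) (Fn.fst _ _)

theorem hh_submod {A : Ω → α} {B : Ω → β} {M : Ω → γ} (hA : Fn P M A) (hB : Fn P M B) :
    hh P (fun ω => (A ω, B ω)) + hh P M ≤ hh P A + hh P B :=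
  P.submod _ _ _ _ (fun _ _ _ _ h1 h2 => Prod.ext h1 h2) hA hB

theorem ch_nonneg (F : Ω → α) (G : Ω → β) : 0 ≤ ch P F G :=
  sub_nonneg.2 (hh_mono (Fn.snd F G))

theorem ch_chain (F : Ω → α) (F' : Ω → α') (G : Ω → β) :
    ch P (fun ω => (F ω, F' ω)) G = ch P F G + ch P F' fun ω => (F ω, G ω) := by
  unfold ch
  have : hh P (fun ω => ((F ω, F' ω), G ω)) = hh P (fun ω => (F' ω, F ω, G ω)) :=
    hh_congr (fun a _ b _ e => by simp only [Prod.mk.injEq] at e ⊢; tauto)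
      (fun a _ b _ e => by simp only [Prod.mk.injEq] at e ⊢; tauto)
  rw [this]; ring

theorem ch_mono {F : Ω → α} {F' : Ω → α'} {G : Ω → β} (h : Fn P F fun ω => (F' ω, G ω)) :
    ch P F G ≤ ch P F' G :=
  sub_le_sub_right (hh_mono (h.pair (Fn.snd F' G))) _

theorem ch_anti {F : Ω → α} {G : Ω → β} {G' : Ω → β'} (h : Fn P G G') :
    ch P F G' ≤ ch P F G := by
  have h1 := hh_submod (P := P) (A := fun ω => (F ω, G ω)) (B := G') (M := G) (Fn.snd F G) h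
  have h2 : hh P (fun ω => (F ω, G' ω)) ≤ hh P (fun ω => ((F ω, G ω), G' ω)) :=
    hh_mono fun a _ b _ e => by simp only [Prod.mk.injEq] at e ⊢; tauto
  unfold ch; linarith

/-- Both monotonicities at once. -/
theorem ch_le {F : Ω → α} {F' : Ω → α'} {G : Ω → β} {G' : Ω → β'}
    (h : Fn P F fun ω => (F' ω, G ω)) (h' : Fn P G' G) : ch P F G ≤ ch P F' G' :=
  (ch_mono h).trans (ch_anti h')

theorem ch_congr {F : Ω → α} {F' : Ω → α'} {G : Ω → β} {G' : Ω → β'}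
    (h : Fn P F fun ω => (F' ω, G ω)) (h' : Fn P F' fun ω => (F ω, G' ω))
    (k : Fn P G G') (k' : Fn P G' G) : ch P F G = ch P F' G' :=
  le_antisymm (ch_le h k') (ch_le h' k)

theorem ch_zero {F : Ω → α} {G : Ω → β} (h : Fn P F G) : ch P F G = 0 := by
  unfold ch
  rw [hh_congr (h.pair (Fn.rfl G)) (Fn.snd F G), sub_self]

theorem ch_le_hh (F : Ω → α) (G : Ω → β) : ch P F G ≤ hh P F := by
  rw [← ch_unit]; exact ch_anti fun _ _ _ _ _ => rfl

theorem ch_tri (F : Ω → α) (F' : Ω → α') (G : Ω → β) :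
    ch P F G ≤ ch P F' G + ch P F fun ω => (F' ω, G ω) := by
  rw [← ch_chain]; exact ch_mono ((Fn.snd F' F).left G)

theorem ch_tri' (F : Ω → α) (G : Ω → β) (G' : Ω → β') :
    ch P F G ≤ ch P F G' + ch P G' G := by
  have h1 := ch_tri (P := P) F G' G
  have h2 : ch P F (fun ω => (G' ω, G ω)) ≤ ch P F G' := ch_anti (Fn.fst G' G)
  linarith

theorem ch_subadd (F : Ω → α) (F' : Ω → α') (G : Ω → β) :
    ch P (fun ω => (F ω, F' ω)) G ≤ ch P F G + ch P F' G := by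
  rw [ch_chain]; exact add_le_add le_rfl (ch_anti (Fn.snd F G))

theorem ch_submod {A : Ω → α} {B : Ω → β} {M : Ω → γ} {G : Ω → δ}
    (hA : Fn P M fun ω => (A ω, G ω)) (hB : Fn P M fun ω => (B ω, G ω)) :
    ch P (fun ω => (A ω, B ω)) G + ch P M G ≤ ch P A G + ch P B G := by
  have h1 := hh_submod (P := P) (A := fun ω => (A ω, G ω)) (B := fun ω => (B ω, G ω))
    (M := fun ω => (M ω, G ω)) (hA.pair (Fn.snd A G)) (hB.pair (Fn.snd B G))
  have h2 : hh P (fun ω => ((A ω, B ω), G ω)) ≤ hh P (fun ω => ((A ω, G ω), (B ω, G ω))) :=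
    hh_mono fun a _ b _ e => by simp only [Prod.mk.injEq] at e ⊢; tauto
  unfold ch; linarith

/-- Symmetry of mutual information. -/
theorem ch_symm (F : Ω → α) (F' : Ω → α') (G : Ω → β) :
    ch P F G - ch P F (fun ω => (F' ω, G ω)) = ch P F' G - ch P F' fun ω => (F ω, G ω) := by
  have h1 := ch_chain (P := P) F F' G
  have h2 := ch_chain (P := P) F' F G
  have h3 : ch P (fun ω => (F ω, F' ω)) G = ch P (fun ω => (F' ω, F ω)) G :=
    le_antisymm (ch_mono fun a _ b _ e => by simp only [Prod.mk.injEq] at e ⊢; tauto)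
      (ch_mono fun a _ b _ e => by simp only [Prod.mk.injEq] at e ⊢; tauto)
  linarith

/-- Data processing. `L` determines `G`; `h` is a function of `(ξ, G)`; `G'` determines `h` and
`G`; `G'` and `f` are functions of `(L, h)`. Then forgetting `ξ` costs at most `I(L; ξ | G)`. -/
theorem ch_info {ε ζ : Type} {ξ : Ω → α} {L : Ω → β} {G : Ω → γ} {h : Ω → δ} {G' : Ω → ε}
    {f : Ω → ζ} (hG : Fn P G L) (hh1 : Fn P h fun ω => (ξ ω, G ω))
    (h2 : Fn P (fun ω => (h ω, G ω)) G') (h3 : Fn P G' fun ω => (L ω, h ω))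
    (h4 : Fn P f fun ω => (L ω, h ω)) :
    ch P f G' ≤ ch P f (fun ω => (ξ ω, G' ω)) + (ch P ξ G - ch P ξ L) := by
  have e1 := ch_symm (P := P) f ξ G'
  have e2 : ch P ξ G' ≤ ch P ξ fun ω => (h ω, G ω) := ch_anti h2
  have e3 : ch P ξ (fun ω => (L ω, h ω)) ≤ ch P ξ fun ω => (f ω, G' ω) := ch_anti (h4.pair h3)
  have e4 := ch_symm (P := P) ξ L fun ω => (h ω, G ω)
  have e5 : ch P ξ (fun ω => (L ω, h ω, G ω)) = ch P ξ (fun ω => (L ω, h ω)) :=
    le_antisymm (ch_anti fun a _ b _ e => by simp only [Prod.mk.injEq] at e ⊢; tauto)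
      (ch_anti ((Fn.fst L h).pair ((Fn.snd L h).pair (hG.left h))))
  have e6 : ch P L (fun ω => (h ω, G ω)) ≤ ch P L G := ch_anti (Fn.snd h G)
  have e7 : ch P L (fun ω => (ξ ω, G ω)) ≤ ch P L fun ω => (ξ ω, h ω, G ω) :=
    ch_anti ((Fn.fst ξ G).pair (hh1.pair (Fn.snd ξ G)))
  have e8 := ch_symm (P := P) ξ L G
  have e9 : ch P ξ L ≤ ch P ξ fun ω => (L ω, G ω) := ch_anti ((Fn.rfl L).pair hG)
  linarith

/-- Data processing for a function `f` of `ξ`. -/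
theorem ch_info' {ξ : Ω → α} {L : Ω → β} {G : Ω → γ} {f : Ω → δ} (hG : Fn P G L)
    (hf : Fn P f fun ω => (ξ ω, G ω)) : ch P f G ≤ ch P f L + (ch P ξ G - ch P ξ L) := by
  have e1 := ch_chain (P := P) f ξ G
  have e2 := ch_chain (P := P) f ξ L
  have e3 : ch P ξ G ≤ ch P (fun ω => (f ω, ξ ω)) G := ch_mono ((Fn.snd f ξ).left G)
  have e3' : ch P (fun ω => (f ω, ξ ω)) G ≤ ch P ξ G := ch_mono (hf.pair (Fn.fst ξ G))
  have e4 : ch P ξ L ≤ ch P (fun ω => (f ω, ξ ω)) L := ch_mono ((Fn.snd f ξ).left L)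
  have e5 : ch P ξ (fun ω => (f ω, L ω)) ≤ ch P ξ fun ω => (f ω, G ω) :=
    ch_anti ((Fn.fst f L).pair (hG.right f))
  linarith

theorem ch_detE {F : Ω → α} {G : Ω → β} (B : Ω → ℝ) (hB : Fn P B G)
    (h : ∀ a ∈ P.S, ∃ T : Finset α, (T.card : ℝ) ≤ B a ∧ ∀ b ∈ P.S, G b = G a → F b ∈ T) :
    ch P F G ≤ P.E fun ω => Real.log (B ω) := by
  have := P.count (Setoid.ker fun ω => (F ω, G ω)) (Setoid.ker G) F B
    (fun a _ b _ h1 h2 => Prod.ext h2 h1) hB h
  unfold ch hh; linarith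

theorem ch_det {F : Ω → α} {G : Ω → β} {B : ℝ} (h : Det P F G B) : ch P F G ≤ Real.log B := by
  have := ch_detE (P := P) (F := F) (G := G) (fun _ => B) (fun _ _ _ _ _ => rfl) h
  rwa [FP.E_const] at this

theorem ch_label {ι : Ω → ℕ} {I : ℕ} (h : ∀ ω ∈ P.S, ι ω ≤ I) (G : Ω → β) :
    ch P ι G ≤ Real.log (I + 1) :=
  ch_det fun _ _ => ⟨Finset.range (I + 1), by simp, fun b hb _ =>
    Finset.mem_range.2 (Nat.lt_succ_of_le (h b hb))⟩

/-- Counting with a scale label. -/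
theorem ch_scale {F : Ω → α} {G : Ω → β} {ι : Ω → ℕ} {I : ℕ} (hι : ∀ ω ∈ P.S, ι ω ≤ I)
    (B : ℕ → ℝ) (h : ∀ a ∈ P.S, ∃ T : Finset α, (T.card : ℝ) ≤ B (ι a) ∧
      ∀ b ∈ P.S, G b = G a → ι b = ι a → F b ∈ T) :
    ch P F G ≤ Real.log (I + 1) + P.E fun ω => Real.log (B (ι ω)) := by
  refine (ch_tri F ι G).trans (add_le_add (ch_label hι G) ?_)
  refine ch_detE (fun ω => B (ι ω)) ((Fn.comp B ι).left G) fun a ha => ?_
  obtain ⟨T, h1, h2⟩ := h a ha
  exact ⟨T, h1, fun b hb e => h2 b hb (congrArg Prod.snd e) (congrArg Prod.fst e)⟩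

/-- Variables with the same law have the same entropy. -/
theorem hh_law {Ω₁ Ω₂ : Type} {Q₁ : FP Ω₁} {Q₂ : FP Ω₂} (f₁ : Ω₁ → α) (f₂ : Ω₂ → α)
    (h : ∀ F : α → ℝ, Q₁.E (fun x => F (f₁ x)) = Q₂.E fun x => F (f₂ x)) :
    hh Q₁ f₁ = hh Q₂ f₂ := by
  classical
  have h1 : ∀ x, Q₁.pr (Setoid.ker f₁) x = Q₂.E fun y => if f₂ y = f₁ x then 1 else 0 := by
    intro x
    rw [← h fun v => if v = f₁ x then 1 else 0]
    exact Q₁.E_congr fun a _ => by simp only [Setoid.ker_def]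
  have h2 : ∀ x, Q₂.pr (Setoid.ker f₂) x = Q₂.E fun y => if f₂ y = f₂ x then 1 else 0 :=
    fun x => Q₂.E_congr fun a _ => by simp only [Setoid.ker_def]
  unfold hh FP.H
  simp only [h1, h2]
  exact h fun v => -Real.log (Q₂.E fun y => if f₂ y = v then 1 else 0)

theorem ch_law {Ω₁ Ω₂ : Type} {Q₁ : FP Ω₁} {Q₂ : FP Ω₂} (ψ₁ : Ω₁ → γ) (ψ₂ : Ω₂ → γ)
    (h : ∀ F : γ → ℝ, Q₁.E (fun x => F (ψ₁ x)) = Q₂.E fun x => F (ψ₂ x)) (f : γ → α)
    (g : γ → β) : ch Q₁ (fun x => f (ψ₁ x)) (fun x => g (ψ₁ x)) =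
      ch Q₂ (fun x => f (ψ₂ x)) fun x => g (ψ₂ x) := by
  unfold ch
  rw [hh_law (Q₁ := Q₁) (Q₂ := Q₂) (fun x => (f (ψ₁ x), g (ψ₁ x)))
      (fun x => (f (ψ₂ x), g (ψ₂ x))) fun F => h fun v => F (f v, g v),
    hh_law (Q₁ := Q₁) (Q₂ := Q₂) (fun x => g (ψ₁ x)) (fun x => g (ψ₂ x))
      fun F => h fun v => F (g v)]

theorem Pair.ch_base {Ω' : Type} {φ : Ω → γ} {Q : FP Ω'} {π π' : Ω' → Ω}
    (h : Pair P φ Q π π') (f : Ω → α) (g : Ω → β) :
    ch Q (fun x => f (π x)) (fun x => g (π x)) = ch P f g :=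
  ch_law (Q₂ := P) π id h.base f g

theorem Pair.ch_swap {Ω' : Type} {φ : Ω → γ} {Q : FP Ω'} {π π' : Ω' → Ω}
    (h : Pair P φ Q π π') (f : Ω → Ω → α) (g : Ω → Ω → β) :
    ch Q (fun x => f (π x) (π' x)) (fun x => g (π x) (π' x)) =
      ch Q (fun x => f (π' x) (π x)) fun x => g (π' x) (π x) :=
  ch_law (fun x => (π x, π' x)) (fun x => (π' x, π x))
    (fun F => h.swap fun a b => F (a, b)) (fun v => f v.1 v.2) fun v => g v.1 v.2

theorem Pair.ch_copy {Ω' : Type} {φ : Ω → γ} {Q : FP Ω'} {π π' : Ω' → Ω}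
    (h : Pair P φ Q π π') (f : Ω → α) (g : Ω → β) :
    ch Q (fun x => f (π' x)) (fun x => g (π' x)) = ch P f g :=
  (h.ch_swap (fun _ b => f b) fun _ b => g b).trans (h.ch_base f g)

/-- Subadditivity over a finite family. -/
theorem ch_pi_le {J : Type} [DecidableEq J] (I : Finset J) (f : J → Ω → α) (d : α) (G : Ω → β) :
    ch P (fun ω j => if j ∈ I then f j ω else d) G ≤ ∑ j ∈ I, ch P (f j) G := by
  induction I using Finset.induction_on with
  | empty => simp only [Finset.notMem_empty, if_false, Finset.sum_empty]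
             exact (ch_zero fun _ _ _ _ _ => rfl).le
  | insert i I hi ih =>
    rw [Finset.sum_insert hi]
    refine le_trans (ch_mono (F' := fun ω => (f i ω, fun j => if j ∈ I then f j ω else d)) ?_)
      ((ch_subadd _ _ G).trans (add_le_add le_rfl ih))
    intro a _ b _ e
    simp only [Prod.mk.injEq] at e
    funext j
    by_cases h1 : j = i
    · subst h1; simp [e.1.1]
    · have := congrFun e.1.2 j
      simpa [Finset.mem_insert, h1] using this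

theorem lg_pos : 0 < lg := Real.log_pos (by norm_num)

theorem lg_lt_one : lg < 1 := by
  have := Real.log_two_lt_d9; unfold lg; linarith

theorem log_two_pow (j : ℕ) : Real.log ((2 : ℝ) ^ j) = j * lg := Real.log_pow 2 j

theorem log_le_five {x : ℝ} (hx : 0 < x) (h : x ≤ 128) : Real.log x ≤ 5 := by
  have h1 : Real.log x ≤ Real.log ((2 : ℝ) ^ 7) := Real.log_le_log hx (by norm_num; exact h)
  have h2 := Real.log_two_lt_d9
  rw [Real.log_pow] at h1
  push_cast at h1; linarith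

end Pool.Agent.MP_5168f5_an.H17S
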