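import Pool.Agent.MP_5168f5_an.H17S.BeApi

/-! From the entropy bound to the discretised theorem. -/

namespace Pool.Agent.MP_5168f5_an.H17S

open H19 MeasureTheory

namespace DISC

theorem log_rpow_two (x : ℝ) : Real.log ((2 : ℝ) ^ x) = x * lg := Real.log_rpow two_pos x

theorem le_log {x y : ℝ} (h : (2 : ℝ) ^ x ≤ y) : x * lg ≤ Real.log y := by
  rw [← log_rpow_two]
  exact Real.log_le_log (by positivity) h

theorem ch_ext {Ω β : Type} (P : FP Ω) (T : Ω → Finset β) (hT : ∀ ω ∈ P.S, (T ω).Nonempty) :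
    ch (P.ext T hT) Prod.snd Prod.fst = P.E fun ω => Real.log (T ω).card := by
  unfold ch hh
  rw [P.H_ext_new T hT ⊥ _ (fun x y => by simp [Setoid.ker_def, and_comm])
      (fun a _ b _ e => by rw [show a = b by simpa using e]),
    P.H_ext_old T hT ⊥ _ fun x y => by simp [Setoid.ker_def]]
  ring

theorem fl1_nat (M t : ℕ) : fl1 M (((2 : ℝ) ^ M)⁻¹ * t) = t := by
  rw [fl1, mul_inv_cancel_left₀ (by positivity), Int.floor_natCast]

/-- The uniform line with a uniform height. -/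
noncomputable def cfg {N : ℕ} (M : ℕ) (P : FP ((V N × V N) × ℕ)) : Cfg N where
  Ω := (V N × V N) × ℕ
  T := Unit
  P := P
  a := fun x => x.1.1
  e := fun x => x.1.2
  z := fun x => ((2 : ℝ) ^ M)⁻¹ * x.2
  θ := fun _ => ()

end DISC

open DISC in
theorem rowDISC : SDisc := by
  intro N s hg ε hε
  obtain ⟨η, hη, M₀, h⟩ := hg (ε / 2) (by positivity)
  obtain ⟨κ, k0, k1, k2⟩ : ∃ κ : ℝ, 0 < κ ∧ κ ≤ η ∧ κ ≤ ε / 2 :=
    ⟨min η (ε / 2), lt_min hη (by positivity), min_le_left _ _, min_le_right _ _⟩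
  refine ⟨κ, k0, M₀, fun M hM G Y E hbox hinj hG hT hY hE => ?_⟩
  have pos : ∀ {x : ℝ} {n : ℕ}, (2 : ℝ) ^ x ≤ n → 0 < n := fun {x n} a => by
    exact_mod_cast (Real.rpow_pos_of_pos two_pos x).trans_le a
  have G0 : G.Nonempty := Finset.card_pos.1 (pos hG)
  have Y0 : ∀ g ∈ (FP.unif G G0).S, (Y g).Nonempty := fun g hg => Finset.card_pos.1 (pos (hY g hg).2)
  have E0 : 0 < E.card := by
    obtain ⟨g, hg⟩ := G0
    obtain ⟨t, ht⟩ := Finset.card_pos.1 (pos (hY g hg).2)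
    exact Finset.card_pos.2 ⟨_, hE g hg t ht⟩
  have mem : ∀ x ∈ ((FP.unif G G0).ext Y Y0).S, x.1 ∈ G ∧ x.2 ∈ Y x.1 := fun x hx =>
    (FP.mem_ext _ Y Y0 x).1 hx
  have hA : (1 - κ) * M * lg ≤ ch ((FP.unif G G0).ext Y Y0) Prod.snd Prod.fst := by
    rw [ch_ext, ← (FP.unif G G0).E_const ((1 - κ) * M * lg)]
    exact FP.E_mono _ fun g hg => le_log (hY g hg).2
  have hB : (N - κ) * M * lg ≤ hh ((FP.unif G G0).ext Y Y0) fun x => fl M x.1.2 := by
    unfold hh
    rw [FP.H_ext_old _ Y Y0 (Setoid.ker fun g : V N × V N => fl M g.2) _ fun x y => Iff.rfl,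
      ← (FP.unif G G0).H_congr (R := ⊥) fun a ha b hb =>
        ⟨fun e => hinj ha hb e, fun e => by rw [show a = b from e]⟩, FP.H_unif]
    exact le_log hG
  generalize (FP.unif G G0).ext Y Y0 = P at mem hA hB
  have ml : 0 ≤ M * lg := mul_nonneg (Nat.cast_nonneg M) lg_pos.le
  have kl : κ * (M * lg) ≤ η * (M * lg) := mul_le_mul_of_nonneg_right k1 ml
  have kl' : κ * (M * lg) ≤ ε / 2 * (M * lg) := mul_le_mul_of_nonneg_right k2 ml
  have p2 : (0 : ℝ) < 2 ^ M := by positivity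
  have zi : ∀ {a b : ℕ}, ((2 : ℝ) ^ M)⁻¹ * a = ((2 : ℝ) ^ M)⁻¹ * b → a = b := fun e => by
    exact_mod_cast mul_left_cancel₀ (inv_pos.2 p2).ne' e
  have ok : (cfg M P).OK M η := by
    refine ⟨fun x hx => ⟨(hbox _ (mem x hx).1).1, (hbox _ (mem x hx).1).2, ?_, ?_⟩, ?_, fun j hj => ?_, ?_, ?_⟩
    · exact mul_nonneg (inv_pos.2 p2).le (Nat.cast_nonneg _)
    · refine (inv_mul_lt_iff₀ p2).2 ?_
      rw [mul_one]
      exact_mod_cast Finset.mem_range.1 ((hY _ (mem x hx).1).1 (mem x hx).2)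
    · refine le_trans ?_ (hB.trans (ch_unit _).ge)
      linarith
    · obtain ⟨T, a, b⟩ := hT j hj
      have d : ch P (fun x => (fl j x.1.1, fl j x.1.2)) (fun _ => ()) ≤ _ :=
        ch_det fun _ _ => ⟨T, a, fun y hy _ => b _ (mem y hy).1⟩
      rw [log_rpow_two] at d
      refine le_trans d ?_
      linarith
    · have a : ch P Prod.snd (fun _ => ()) ≤ Real.log ((2 : ℝ) ^ M) :=
        ch_det fun _ _ => ⟨Finset.range (2 ^ M), by simp, fun y hy _ => (hY _ (mem y hy).1).1 (mem y hy).2⟩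
      rw [log_two_pow] at a
      have b : ch P (cfg M P).z (cfg M P).θ ≤ ch P Prod.snd (fun _ => ()) :=
        ch_mono fun x _ y _ e => congrArg (fun t : ℕ => ((2 : ℝ) ^ M)⁻¹ * t) (congrArg Prod.fst e)
      have d : ch P Prod.snd Prod.fst ≤ ch P (cfg M P).z (cfg M P).ln :=
        ch_le (fun x _ y _ e => zi (congrArg Prod.fst e))
          fun x _ y _ e => congrArg (fun g : V N × V N => (g.1, g.2, ())) e
      change ch P (cfg M P).z (cfg M P).θ ≤ ch P (cfg M P).z (cfg M P).ln + _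
      linarith
    · have d : ch P Prod.snd Prod.fst ≤ ch P (fun x => fl1 M (((2 : ℝ) ^ M)⁻¹ * x.2)) fun _ => () :=
        ch_le (fun x _ y _ e => by
          have := congrArg Prod.fst e
          simp only [fl1_nat] at this
          exact_mod_cast this) fun _ _ _ _ _ => rfl
      refine le_trans ?_ (hA.trans d)
      linarith
  have a : (N - s - ε / 2) * M * lg ≤ ch P (fun x => fl M ((cfg M P).pt x))
      fun x => ((cfg M P).z x, (cfg M P).θ x) := h M hM _ ok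
  have b : ch P (fun x => (fl M ((cfg M P).pt x), x.2)) (fun _ => ()) ≤ Real.log E.card :=
    ch_det fun _ _ => ⟨E, le_rfl, fun y hy _ => hE _ (mem y hy).1 _ (mem y hy).2⟩
  rw [ch_unit] at b
  have d : hh P (fun x => (fl M ((cfg M P).pt x), (cfg M P).z x, (cfg M P).θ x)) ≤
      hh P fun x => (fl M ((cfg M P).pt x), x.2) :=
    hh_mono fun x _ y _ e => congrArg (fun v : Z N × ℕ => (v.1, ((2 : ℝ) ^ M)⁻¹ * (v.2 : ℝ), ())) e
  have e : ch P Prod.snd Prod.fst ≤ hh P fun x => ((cfg M P).z x, (cfg M P).θ x) :=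
    (ch_le_hh _ _).trans (hh_mono fun x _ y _ e => zi (congrArg Prod.fst e))
  unfold ch at a
  rw [← Real.log_le_log_iff (by positivity) (by exact_mod_cast E0), log_rpow_two]
  linarith

end Pool.Agent.MP_5168f5_an.H17S
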