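import Pool.Agent.MP_5168f5_an.H19.Ent

/-! Sticky Kakeya sets: definitions (bodies, entropy, configurations). -/

namespace Pool.Agent.MP_5168f5_an.H17S

open H19 MeasureTheory

/-- Coordinates with the sup norm. -/
abbrev V (N : ℕ) : Type := Fin N → ℝ

/-- Integer vectors. -/
abbrev Z (N : ℕ) : Type := Fin N → ℤ

/-- An open bounded symmetric convex set. -/
structure Bd (E : Type) [NormedAddCommGroup E] [NormedSpace ℝ E] where
  s : Set E
  op : IsOpen s
  cv : Convex ℝ s
  sy : ∀ x ∈ s, -x ∈ s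
  z0 : (0 : E) ∈ s
  bd : Bornology.IsBounded s

namespace Bd

variable {E : Type} [NormedAddCommGroup E] [NormedSpace ℝ E]

theorem ext' {A B : Bd E} (h : A.s = B.s) : A = B := by
  cases A; cases B; cases h; rfl

/-- Intersection. -/
def meet (A B : Bd E) : Bd E where
  s := A.s ∩ B.s
  op := A.op.inter B.op
  cv := A.cv.inter B.cv
  sy := fun x hx => ⟨A.sy x hx.1, B.sy x hx.2⟩
  z0 := ⟨A.z0, B.z0⟩
  bd := A.bd.subset Set.inter_subset_left

/-- Convex hull of the union. -/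
def join (A B : Bd E) : Bd E where
  s := convexHull ℝ (A.s ∪ B.s)
  op := (A.op.union B.op).convexHull
  cv := convex_convexHull ℝ _
  sy := by
    intro x hx
    have h : convexHull ℝ (A.s ∪ B.s) ⊆ {y | -y ∈ convexHull ℝ (A.s ∪ B.s)} := by
      refine convexHull_min ?_ ?_
      · rintro y (hy | hy)
        · exact subset_convexHull ℝ _ (Or.inl (A.sy y hy))
        · exact subset_convexHull ℝ _ (Or.inr (B.sy y hy))
      · intro y hy w hw a b ha hb hab
        have := convex_convexHull ℝ (A.s ∪ B.s) hy hw ha hb hab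
        simpa [add_comm] using this
    exact h hx
  z0 := subset_convexHull ℝ _ (Or.inl A.z0)
  bd := isBounded_convexHull.2 (A.bd.union B.bd)

instance : Lattice (Bd E) where
  le A B := A.s ⊆ B.s
  le_refl _ := Set.Subset.refl _
  le_trans _ _ _ := Set.Subset.trans
  le_antisymm _ _ h1 h2 := ext' (Set.Subset.antisymm h1 h2)
  sup := join
  le_sup_left _ _ := fun _ hx => subset_convexHull ℝ _ (Or.inl hx)
  le_sup_right _ _ := fun _ hx => subset_convexHull ℝ _ (Or.inr hx)
  sup_le _ _ C h1 h2 := convexHull_min (Set.union_subset h1 h2) C.cv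
  inf := meet
  inf_le_left _ _ := Set.inter_subset_left
  inf_le_right _ _ := Set.inter_subset_right
  le_inf _ _ _ h1 h2 := Set.subset_inter h1 h2

/-- `x` lies in the dilate `c A`. -/
def In (A : Bd E) (c : ℝ) (x : E) : Prop := c⁻¹ • x ∈ A.s

/-- `A` lies in the dilate `c B`. -/
def Sub (A B : Bd E) (c : ℝ) : Prop := ∀ x ∈ A.s, B.In c x

/-- Logarithm of the volume. -/
noncomputable def lv [MeasureSpace E] (A : Bd E) : ℝ := Real.log (volume A.s).toReal

/-- The open ball. -/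
def ball (r : ℝ) (hr : 0 < r) : Bd E where
  s := Metric.ball 0 r
  op := Metric.isOpen_ball
  cv := convex_ball 0 r
  sy := fun x hx => by simpa using hx
  z0 := Metric.mem_ball_self hr
  bd := Metric.isBounded_ball

/-- Image under a surjective linear map. -/
def map {F : Type} [NormedAddCommGroup F] [NormedSpace ℝ F] [CompleteSpace E] [CompleteSpace F]
    (A : Bd E) (f : E →L[ℝ] F) (hf : Function.Surjective f) : Bd F where
  s := f '' A.s
  op := f.isOpenMap hf _ A.op
  cv := A.cv.linear_image (f : E →ₗ[ℝ] F)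
  sy := by
    rintro _ ⟨x, hx, rfl⟩
    exact ⟨-x, A.sy x hx, by simp⟩
  z0 := ⟨0, A.z0, by simp⟩
  bd := f.lipschitz.isBounded_image A.bd

theorem exists_net (A : Bd E) : ∃ k : E → E, (∀ x, x - k x ∈ A.s) ∧
    ∀ x y, k x - k y ∈ A.s → k x = k y := by
  obtain ⟨M, hM⟩ := zorn_subset {M : Set E | ∀ x ∈ M, ∀ y ∈ M, x - y ∈ A.s → x = y} (by
    intro c hc hch
    refine ⟨⋃₀ c, ?_, fun s hs => Set.subset_sUnion_of_mem hs⟩
    rintro x ⟨s, hs, hx⟩ y ⟨t, ht, hy⟩ hxy
    rcases hch.total hs ht with h | h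
    · exact hc ht x (h hx) y hy hxy
    · exact hc hs x hx y (h hy) hxy)
  have h : ∀ x, ∃ y ∈ M, x - y ∈ A.s := by
    intro x
    by_contra hn
    push Not at hn
    have hx : insert x M ∈ {M : Set E | ∀ x ∈ M, ∀ y ∈ M, x - y ∈ A.s → x = y} := by
      rintro a (rfl | ha) b (rfl | hb) hab
      · rfl
      · exact absurd hab (hn b hb)
      · exact absurd (by simpa using A.sy _ hab) (hn a ha)
      · exact hM.prop a ha b hb hab
    have := hM.le_of_ge hx (Set.subset_insert x M) (Set.mem_insert x M)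
    exact hn x this (by simpa using A.z0)
  choose k hk1 hk2 using h
  exact ⟨k, hk2, fun x y hxy => hM.prop _ (hk1 x) _ (hk1 y) hxy⟩

/-- Rounding to a maximal `A`-separated set: the value of `x` modulo `A`. -/
noncomputable def kap (A : Bd E) : E → E := A.exists_net.choose

theorem sub_kap (A : Bd E) (x : E) : x - A.kap x ∈ A.s := A.exists_net.choose_spec.1 x

theorem kap_sep (A : Bd E) (x y : E) (h : A.kap x - A.kap y ∈ A.s) : A.kap x = A.kap y :=
  A.exists_net.choose_spec.2 x y h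

end Bd

variable {N : ℕ}

/-- Lines `(a, e)` whose position at height `z` is in `U` and whose direction is in `U'`. -/
def cyl (z : ℝ) (U U' : Bd (V N)) : Bd (V N × V N) where
  s := {x | x.1 + z • x.2 ∈ U.s ∧ x.2 ∈ U'.s}
  op := (U.op.preimage (by fun_prop)).inter (U'.op.preimage continuous_snd)
  cv := by
    intro x hx y hy a b ha hb hab
    refine ⟨?_, U'.cv hx.2 hy.2 ha hb hab⟩
    have := U.cv hx.1 hy.1 ha hb hab
    have e : (a • x + b • y).1 + z • (a • x + b • y).2 =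
        a • (x.1 + z • x.2) + b • (y.1 + z • y.2) := by
      simp only [Prod.fst_add, Prod.snd_add, Prod.smul_fst, Prod.smul_snd]
      module
    rw [e]; exact this
  sy := by
    intro x hx
    refine ⟨?_, U'.sy _ hx.2⟩
    have := U.sy _ hx.1
    have e : (-x).1 + z • (-x).2 = -(x.1 + z • x.2) := by
      simp only [Prod.fst_neg, Prod.snd_neg]; module
    rw [e]; exact this
  z0 := ⟨by simpa using U.z0, U'.z0⟩
  bd := by
    obtain ⟨r, hr⟩ := U.bd.exists_norm_le
    obtain ⟨r', hr'⟩ := U'.bd.exists_norm_le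
    refine isBounded_iff_forall_norm_le.2 ⟨max (r + |z| * r') r', fun x hx => ?_⟩
    rw [Prod.norm_def]
    refine max_le_max ?_ (hr' _ hx.2)
    have e : x.1 = (x.1 + z • x.2) - z • x.2 := by module
    rw [e]
    refine (norm_sub_le _ _).trans (add_le_add (hr _ hx.1) ?_)
    rw [norm_smul, Real.norm_eq_abs]
    exact mul_le_mul_of_nonneg_left (hr' _ hx.2) (abs_nonneg z)

/-- The product `T × T`. -/
def sq (T : Bd (V N)) : Bd (V N × V N) := cyl 0 T T

/-- Position at height `z`. -/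
noncomputable def yz (z : ℝ) : (V N × V N) →L[ℝ] V N :=
  ContinuousLinearMap.fst ℝ _ _ + z • ContinuousLinearMap.snd ℝ _ _

theorem yz_apply (z : ℝ) (x : V N × V N) : yz z x = x.1 + z • x.2 := rfl

/-- Directions of the lines of `A` that pass through `Tm` at height `z`. -/
noncomputable def Fd (A : Bd (V N × V N)) (z : ℝ) (Tm Tp : Bd (V N)) : Bd (V N) :=
  (A ⊓ cyl z Tm Tp).map (ContinuousLinearMap.snd ℝ _ _) fun y => ⟨(0, y), rfl⟩

/-- Positions at height `z` of the lines of `A`, cut to `Tp`. -/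
noncomputable def Yd (A : Bd (V N × V N)) (z : ℝ) (Tp : Bd (V N)) : Bd (V N) :=
  A.map (yz z) (fun y => ⟨(y, 0), by simp [yz_apply]⟩) ⊓ Tp

/-- The ball of radius `2^{-u}`. -/
noncomputable def bot (N u : ℕ) : Bd (V N) := Bd.ball ((2 : ℝ) ^ u)⁻¹ (by positivity)

/-- The ball of radius 2. -/
noncomputable def top (N : ℕ) : Bd (V N) := Bd.ball 2 (by norm_num)

/-- The `2^{-u}` neighbourhood of the segment from `-v` to `v`. -/
noncomputable def seg (u : ℕ) (v : V N) : Bd (V N) where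
  s := {y | ∃ t : ℝ, |t| ≤ 1 ∧ y - t • v ∈ (bot N u).s}
  op := by
    have : {y | ∃ t : ℝ, |t| ≤ 1 ∧ y - t • v ∈ (bot N u).s} =
        ⋃ t : ℝ, ⋃ _ : |t| ≤ 1, (fun y => y - t • v) ⁻¹' (bot N u).s := by
      ext y; simp
    rw [this]
    exact isOpen_iUnion fun t => isOpen_iUnion fun _ => (bot N u).op.preimage (by fun_prop)
  cv := by
    rintro x ⟨t, ht, hx⟩ y ⟨r, hr, hy⟩ a b ha hb hab
    refine ⟨a * t + b * r, ?_, ?_⟩
    · rw [abs_le] at *
      constructor <;> nlinarith [ht.1, ht.2, hr.1, hr.2]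
    · have := (bot N u).cv hx hy ha hb hab
      have e : a • x + b • y - (a * t + b * r) • v = a • (x - t • v) + b • (y - r • v) := by
        module
      rw [e]; exact this
  sy := by
    rintro x ⟨t, ht, hx⟩
    refine ⟨-t, by simpa using ht, ?_⟩
    have e : -x - (-t) • v = -(x - t • v) := by module
    rw [e]; exact (bot N u).sy _ hx
  z0 := ⟨0, by simp, by simpa using (bot N u).z0⟩
  bd := by
    obtain ⟨r, hr⟩ := (bot N u).bd.exists_norm_le
    refine isBounded_iff_forall_norm_le.2 ⟨r + ‖v‖, ?_⟩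
    rintro x ⟨t, ht, hx⟩
    have e : x = (x - t • v) + t • v := by module
    rw [e]
    refine (norm_add_le _ _).trans (add_le_add (hr _ hx) ?_)
    rw [norm_smul, Real.norm_eq_abs]
    exact mul_le_of_le_one_left (norm_nonneg v) ht

/-- `log 2`. -/
noncomputable def lg : ℝ := Real.log 2

/-- The dyadic cell of side `2^{-j}`. -/
noncomputable def fl (j : ℕ) (x : V N) : Z N := fun i => ⌊(2 : ℝ) ^ j * x i⌋

/-- The dyadic interval of length `2^{-j}`. -/
noncomputable def fl1 (j : ℕ) (z : ℝ) : ℤ := ⌊(2 : ℝ) ^ j * z⌋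

/-- Position inside the dyadic cell, rescaled to the unit cube. -/
noncomputable def fr (j : ℕ) (x : V N) : V N := fun i => Int.fract ((2 : ℝ) ^ j * x i)

section Entropy

variable {Ω : Type}

/-- Entropy of a random variable. -/
noncomputable def hh {β : Type} (P : FP Ω) (f : Ω → β) : ℝ := P.H (Setoid.ker f)

/-- Conditional entropy of `F` given `G`. -/
noncomputable def ch {α β : Type} (P : FP Ω) (F : Ω → α) (G : Ω → β) : ℝ :=
  hh P (fun ω => (F ω, G ω)) - hh P G

/-- `F` is a function of `G` on the support. -/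
def Fn {α β : Type} (P : FP Ω) (F : Ω → α) (G : Ω → β) : Prop :=
  ∀ a ∈ P.S, ∀ b ∈ P.S, G a = G b → F a = F b

/-- On each fibre of `G` the variable `F` takes at most `B` values. -/
def Det {α β : Type} (P : FP Ω) (F : Ω → α) (G : Ω → β) (B : ℝ) : Prop :=
  ∀ a ∈ P.S, ∃ T : Finset α, (T.card : ℝ) ≤ B ∧ ∀ b ∈ P.S, G b = G a → F b ∈ T

open Classical in
/-- The conditional law given the value of `φ` at `ω`. -/
noncomputable def cnd {β : Type} (P : FP Ω) (φ : Ω → β) (ω : Ω) : FP Ω :=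
  if h : ω ∈ P.S then
    { S := P.S.filter fun a => φ a = φ ω
      p := fun a => P.p a / P.pr (Setoid.ker φ) ω
      pos := fun a ha => div_pos (P.pos a (Finset.mem_filter.1 ha).1) (P.pr_pos _ h)
      sum_one := by
        rw [← Finset.sum_div, div_eq_one_iff_eq (P.pr_pos _ h).ne', Finset.sum_filter]
        unfold FP.pr FP.E
        refine Finset.sum_congr rfl fun a _ => ?_
        by_cases h1 : φ a = φ ω <;> simp [h1, Setoid.ker_def] }
  else P

open Classical in
/-- A point `ω` with copies `g j`, independent given `ω`, the copy `g j` having the conditional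
law given the value of `φ j` at `ω`. -/
noncomputable def star {β J : Type} [Fintype J] (P : FP Ω) (φ : J → Ω → β) :
    FP (Ω × (J → Ω)) where
  S := (P.S.sigma fun ω => Fintype.piFinset fun j => (cnd P (φ j) ω).S).map
    (Equiv.sigmaEquivProd Ω (J → Ω)).toEmbedding
  p := fun x => P.p x.1 * ∏ j, (cnd P (φ j) x.1).p (x.2 j)
  pos := by
    intro x hx
    simp only [Finset.mem_map, Finset.mem_sigma] at hx
    obtain ⟨y, hy, rfl⟩ := hx
    exact mul_pos (P.pos _ hy.1) (Finset.prod_pos fun j _ =>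
      (cnd P (φ j) y.1).pos _ (Fintype.mem_piFinset.1 hy.2 j))
  sum_one := by
    rw [Finset.sum_map, Finset.sum_sigma, ← P.sum_one]
    refine Finset.sum_congr rfl fun ω _ => ?_
    simp only [Equiv.coe_toEmbedding, Equiv.sigmaEquivProd_apply]
    rw [← Finset.mul_sum, ← Finset.prod_univ_sum (fun j => (cnd P (φ j) ω).S)
      fun j a => (cnd P (φ j) ω).p a]
    simp [FP.sum_one]

/-- `π x` and `π' x` are conditionally independent copies given `φ`. -/
structure Pair {β Ω' : Type} (P : FP Ω) (φ : Ω → β) (Q : FP Ω') (π π' : Ω' → Ω) : Prop where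
  mem : ∀ x ∈ Q.S, π x ∈ P.S ∧ π' x ∈ P.S ∧ φ (π' x) = φ (π x)
  base : ∀ F : Ω → ℝ, Q.E (fun x => F (π x)) = P.E F
  swap : ∀ F : Ω → Ω → ℝ, Q.E (fun x => F (π x) (π' x)) = Q.E (fun x => F (π' x) (π x))
  mkv : ∀ {γ δ : Type} (f : Ω → γ) (G : Ω → δ), Fn P φ G →
    ch Q (fun x => f (π' x)) (fun x => G (π x)) = ch P f φ

end Entropy

/-- A random line `(a, e)`, a random height `z` and side information `θ`. -/
structure Cfg (N : ℕ) where
  Ω : Type
  T : Type
  P : FP Ω
  a : Ω → V N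
  e : Ω → V N
  z : Ω → ℝ
  θ : Ω → T

namespace Cfg

variable (c : Cfg N)

/-- All coordinates lie in `[0, 1)`. -/
def Box : Prop := ∀ ω ∈ c.P.S, (∀ i, 0 ≤ c.a ω i ∧ c.a ω i < 1) ∧
  (∀ i, 0 ≤ c.e ω i ∧ c.e ω i < 1) ∧ 0 ≤ c.z ω ∧ c.z ω < 1

/-- The point of the line at the random height. -/
def pt (ω : c.Ω) : V N := c.a ω + c.z ω • c.e ω

/-- The line at resolution `2^{-j}`. -/
noncomputable def X (j : ℕ) (ω : c.Ω) : Z N × Z N := (fl j (c.a ω), fl j (c.e ω))

/-- The line and the side information. -/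
def ln (ω : c.Ω) : V N × V N × c.T := (c.a ω, c.e ω, c.θ ω)

/-- Rescale the tube of width `2^{-j}` to unit size. -/
noncomputable def zoom (j : ℕ) : Cfg N where
  Ω := c.Ω
  T := c.T × Z N × Z N
  P := c.P
  a := fun ω => fr j (c.a ω)
  e := fun ω => fr j (c.e ω)
  z := c.z
  θ := fun ω => (c.θ ω, c.X j ω)

/-- A sticky configuration at scale `2^{-M}` with error `η`. -/
structure OK (M : ℕ) (η : ℝ) : Prop where
  box : c.Box
  dir : (N - η) * M * lg ≤ ch c.P (fun ω => fl M (c.e ω)) c.θ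
  stk : ∀ j ≤ M, ch c.P (c.X j) c.θ ≤ (N * j + η * M) * lg
  inf : ch c.P c.z c.θ ≤ ch c.P c.z c.ln + η * M * lg
  hgt : (1 - η) * M * lg ≤ ch c.P (fun ω => fl1 M (c.z ω)) c.θ

/-- An extremal configuration on the scales `2^{-ku}`, `k ≤ K + 1`, with error `Λ`. -/
structure Ext (u K : ℕ) (s Λ : ℝ) : Prop where
  box : c.Box
  big : 10 * (N + 1 : ℝ) ≤ Λ
  dir : ∀ k ≤ K, N * u * lg - Λ ≤
    ch c.P (fun ω => fl ((k + 1) * u) (c.e ω)) fun ω => (c.θ ω, c.X (k * u) ω)
  inf : ch c.P c.z c.θ ≤ ch c.P c.z c.ln + Λ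
  hgt : ∀ j ≤ (K + 1) * u, j * lg - Λ ≤ ch c.P (fun ω => fl1 j (c.z ω)) c.θ
  up : ∀ k l, k ≤ l → l ≤ K + 1 →
    ch c.P (fun ω => fl (l * u) (c.pt ω)) (fun ω => (fl (k * u) (c.pt ω), c.z ω, c.θ ω)) ≤
      (N - s) * (l - k) * u * lg + Λ
  low : ∀ k l, k ≤ l → l ≤ K + 1 → (N - s) * (l - k) * u * lg - Λ ≤
    ch c.P (fun ω => fl (l * u) (c.pt ω)) fun ω => (c.X (k * u) ω, c.z ω, c.θ ω)

/-- One height with a body `W` that is a grain and contains the directions through a point. -/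
structure Pack {δ : Type} (ξ : c.Ω → δ) (W : c.Ω → Bd (V N)) (u : ℕ) (A Λ : ℝ) : Prop where
  box : c.Box
  big : 10 * (N + 1 : ℝ) ≤ Λ
  fW : Fn c.P W fun ω => (ξ ω, c.θ ω)
  fz : Fn c.P c.z fun ω => (ξ ω, c.θ ω)
  wb : ∀ ω ∈ c.P.S, bot N u ≤ W ω ∧ W ω ≤ top N
  dir : N * u * lg - Λ ≤ ch c.P (fun ω => fl u (c.e ω)) c.θ
  inf : ch c.P ξ c.θ ≤ ch c.P ξ c.ln + Λ
  hgt : u * lg - Λ ≤ ch c.P (fun ω => fl1 u (c.z ω)) c.ln
  grain : ch c.P (fun ω => (W ω).kap (c.pt ω)) (fun ω => (ξ ω, c.θ ω)) +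
    c.P.E (fun ω => (W ω).lv - (bot N u).lv) ≤ A
  plane : ch c.P (fun ω => (fl u (c.pt ω), (W ω).kap (c.e ω))) (fun ω => (ξ ω, c.θ ω)) ≤ A

/-- The data shared by a line and its copy of level `j`. -/
noncomputable def φ (u K j : ℕ) (ω : c.Ω) : Z N × ℝ × (Z N × Z N) × c.T :=
  (fl ((K + 1) * u) (c.pt ω), c.z ω, c.X (j * u) ω, c.θ ω)

/-- Rescaled difference of the directions of `ω'` and `ω` at level `j`. -/
noncomputable def dv (u j : ℕ) (ω ω' : c.Ω) : V N := fun i =>
  ((2 : ℝ) ^ u)⁻¹ * ((fl ((j + 1) * u) (c.e ω') i : ℝ) - (fl ((j + 1) * u) (c.e ω) i : ℝ))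

/-- The space with one copy for each level, the levels above `k` frozen at `k`. -/
noncomputable def St (u K k : ℕ) : FP (c.Ω × (Fin (K + 1) → c.Ω)) :=
  star c.P fun j : Fin (K + 1) => c.φ u K (min j k)

/-- The copy of level `j`. -/
def cp (K : ℕ) (j : ℕ) (x : c.Ω × (Fin (K + 1) → c.Ω)) : c.Ω :=
  if h : j < K + 1 then x.2 ⟨j, h⟩ else x.1

/-- The body spanned by the directions of the copies of level below `k`. -/
noncomputable def Wk (u K : ℕ) (x : c.Ω × (Fin (K + 1) → c.Ω)) : ℕ → Bd (V N)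
  | 0 => bot N u
  | k + 1 => Wk u K x k ⊔ seg u (c.dv u k x.1 (c.cp K k x))

/-- The coarse lines of the copies of level below `k`. -/
noncomputable def Dk (u K k : ℕ) (x : c.Ω × (Fin (K + 1) → c.Ω)) : Fin (K + 1) → Z N × Z N :=
  fun j => if (j : ℕ) < k then c.X ((j + 1) * u) (x.2 j) else 0

/-- The configuration of level `k` on the space with copies. -/
noncomputable def Lv (u K k : ℕ) : Cfg N where
  Ω := c.Ω × (Fin (K + 1) → c.Ω)
  T := c.T × Z N × Z N
  P := c.St u K k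
  a := fun x => (c.zoom (k * u)).a x.1
  e := fun x => (c.zoom (k * u)).e x.1
  z := fun x => c.z x.1
  θ := fun x => (c.zoom (k * u)).θ x.1

end Cfg

/-- Sticky configurations lose at most `s` dimensions in the slices. -/
def Good (N : ℕ) (s : ℝ) : Prop :=
  ∀ ε : ℝ, 0 < ε → ∃ η : ℝ, 0 < η ∧ ∃ M₀ : ℕ, ∀ M, M₀ ≤ M → ∀ c : Cfg N, c.OK M η →
    (N - s - ε) * M * lg ≤ ch c.P (fun ω => fl M (c.pt ω)) fun ω => (c.z ω, c.θ ω)

end Pool.Agent.MP_5168f5_an.H17S
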