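import Pool.Agent.MP_5168f5_an.H17S.BeApi

namespace Pool.Agent.MP_5168f5_an.H17S

open H19 MeasureTheory

namespace EXTA

variable {N : ℕ}

theorem zoom_le (c : Cfg N) (j i : ℕ) :
    ch c.P (fun ω => fl i ((c.zoom j).pt ω)) (fun ω => (c.z ω, c.θ ω, c.X j ω)) ≤
      ch c.P (fun ω => fl (j + i) (c.pt ω)) (fun ω => (c.X j ω, c.z ω, c.θ ω)) + 5 * N := by
  refine (ch_tri _ (fun ω => fl (j + i) (c.pt ω)) _).trans (add_le_add (ch_anti ?_) ?_)
  · intro a _ b _ e
    simp only [Prod.mk.injEq] at e ⊢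
    tauto
  · refine ch_fl_near (n := 1) (by norm_num) fun a _ b _ e => ?_
    simp only [Prod.mk.injEq, Cfg.X] at e
    have h1 := norm_sub_lt_of_fl_eq e.1
    have h2 : (c.zoom j).pt a - (c.zoom j).pt b = (2 : ℝ) ^ j • (c.pt a - c.pt b) := by
      rw [Cfg.zoom_pt, Cfg.zoom_pt, e.2.1, e.2.2.2.1, e.2.2.2.2]
      module
    have h3 : (0 : ℝ) < 2 ^ j := by positivity
    rw [h2, norm_smul, Real.norm_of_nonneg h3.le, Nat.cast_one, one_mul]
    refine (mul_le_mul_of_nonneg_left h1.le h3.le).trans (le_of_eq ?_)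
    rw [pow_add]
    field_simp

theorem pt_near (c : Cfg N) (hb : c.Box) (j : ℕ) :
    ch c.P (fun ω => fl j (c.pt ω)) (fun ω => (c.X j ω, c.z ω, c.θ ω)) ≤ 5 * N := by
  refine ch_fl_near (n := 2) (by norm_num) fun a ha b _ e => ?_
  simp only [Prod.mk.injEq] at e
  have h1 := (hb a ha).2.2
  have := c.norm_line_sub e.1 (t := c.z a) (abs_le.2 ⟨by linarith [h1.1], h1.2.le⟩)
  simp only [Cfg.pt, ← e.2.1]
  exact_mod_cast this

theorem split (c : Cfg N) {i j : ℕ} (h : i ≤ j) {β : Type} (G : c.Ω → β) :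
    ch c.P (fun ω => fl i (c.pt ω)) G +
      ch c.P (fun ω => fl j (c.pt ω)) (fun ω => (fl i (c.pt ω), G ω)) ≤
      ch c.P (fun ω => fl j (c.pt ω)) G := by
  rw [← ch_chain]
  refine ch_mono fun a _ b _ e => ?_
  simp only [Prod.mk.injEq] at e ⊢
  exact ⟨fl_eq_of_le h e.1, e.1⟩

end EXTA

open EXTA in
theorem rowEXTA : SExtA := by
  intro hZ N K s ε hs0 hsN hG hε
  obtain ⟨η₀, hη₀, M₁, hM₁⟩ := hG (ε / 8) (by positivity)
  have hK : (0 : ℝ) < K + 1 := by positivity
  refine ⟨min (η₀ / (4 * (K + 1))) (ε / 8), lt_min (by positivity) (by positivity),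
    max ((K + 1) * (M₁ + 1)) ⌈4 * (20 * (N + 1) + N * K) / ε⌉₊, fun M hM c γ hγ hc hpt => ?_⟩
  set η := min (η₀ / (4 * (K + 1))) (ε / 8) with hη
  have hη1 : η ≤ η₀ / (4 * (K + 1)) := min_le_left _ _
  have hη2 : η ≤ ε / 8 := min_le_right _ _
  have hη0 : 0 < η := lt_min (by positivity) (by positivity)
  set u := M / (K + 1) with hu
  have hu1 : M₁ + 1 ≤ u := (Nat.le_div_iff_mul_le (Nat.succ_pos K)).2
    (by rw [mul_comm]; exact (le_max_left _ _).trans hM)
  have hu2 : (K + 1) * u ≤ M := Nat.mul_div_le _ _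
  have hu3 : M ≤ (K + 1) * u + K := by
    have := Nat.div_add_mod M (K + 1)
    have : M % (K + 1) < K + 1 := Nat.mod_lt M (Nat.succ_pos K)
    rw [hu]
    omega
  have hM0 : (0 : ℝ) ≤ M := Nat.cast_nonneg M
  have hN0 : (0 : ℝ) ≤ N := Nat.cast_nonneg N
  have hK0 : (0 : ℝ) ≤ K := Nat.cast_nonneg K
  have hbig : 4 * (20 * (N + 1) + N * K) ≤ ε * M := by
    have h1 : 4 * (20 * (N + 1) + N * K) / ε ≤ (M : ℝ) :=
      (Nat.le_ceil _).trans (by exact_mod_cast (le_max_right _ _).trans hM)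
    rwa [div_le_iff₀ hε, mul_comm (M : ℝ)] at h1
  have hNK : (0 : ℝ) ≤ N * K := mul_nonneg hN0 hK0
  have hγM : 0 ≤ γ * M := mul_nonneg hγ hM0
  have hl0 := lg_pos
  have hl1 := lg_lt_one
  have hηM : η * M * lg ≤ ε / 8 * M :=
    (mul_le_of_le_one_right (mul_nonneg hη0.le hM0) hl1.le).trans
      (mul_le_mul_of_nonneg_right hη2 hM0)
  have hεM : 0 ≤ ε * M := mul_nonneg hε.le hM0
  have hup : (0 : ℝ) < u := by exact_mod_cast (by omega)
  have low : ∀ j i : ℕ, j + i ≤ M → (i = 0 ∨ u ≤ i) → (N - s) * i * lg - ε / 8 * M - 5 * N ≤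
      ch c.P (fun ω => fl (j + i) (c.pt ω)) fun ω => (c.X j ω, c.z ω, c.θ ω) := by
    rintro j i h1 (rfl | h2)
    · refine le_trans ?_ (ch_nonneg _ _)
      push_cast
      linarith
    have h3 : (M : ℝ) ≤ 2 * (K + 1) * u := by
      have : M ≤ 2 * (K + 1) * u := by nlinarith
      exact_mod_cast this
    have h4 : (u : ℝ) ≤ i := by exact_mod_cast h2
    have h5 : 2 * η * M ≤ η₀ * i := by
      rw [le_div_iff₀ (by positivity)] at hη1
      calc 2 * η * M ≤ 2 * η * (2 * (K + 1) * u) :=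
            mul_le_mul_of_nonneg_left h3 (by positivity)
        _ = η * (4 * (K + 1)) * u := by ring
        _ ≤ η₀ * i := mul_le_mul hη1 h4 hup.le hη₀.le
    have h6 := (hM₁ i (by omega) _ (hZ N c M i j η η₀ hc h1 h5)).trans (zoom_le c j i)
    have h7 : (i : ℝ) ≤ M := by exact_mod_cast (by omega)
    have h8 : ε / 8 * i * lg ≤ ε / 8 * M :=
      (mul_le_of_le_one_right (by positivity) hl1.le).trans
        (mul_le_mul_of_nonneg_left h7 (by positivity))
    linarith
  have low' : ∀ k l, k ≤ l → l ≤ K + 1 → (N - s) * (l - k) * u * lg - ε / 8 * M - 5 * N ≤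
      ch c.P (fun ω => fl (l * u) (c.pt ω)) fun ω => (c.X (k * u) ω, c.z ω, c.θ ω) := by
    intro k l h1 h2
    obtain ⟨d, rfl⟩ := Nat.exists_eq_add_of_le h1
    have := low (k * u) (d * u) (by nlinarith) (by
      rcases d with _ | d
      · exact Or.inl (Nat.zero_mul _)
      · exact Or.inr (by nlinarith))
    rw [← add_mul] at this
    push_cast at this ⊢
    linarith
  refine ⟨hc.box, by linarith, fun k hk => ?_, by linarith [hc.inf], fun j hj => ?_,
    fun k l h1 h2 => ?_, fun k l h1 h2 => le_trans (by linarith) (low' k l h1 h2)⟩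
  · have h1 := (hZ N c M u (k * u) η (2 * η * M / u) hc (by nlinarith)
      (by rw [div_mul_cancel₀ _ hup.ne'])).dir
    have h2 : ch c.P (fun ω => fl u (fr (k * u) (c.e ω))) (fun ω => (c.θ ω, c.X (k * u) ω)) ≤
        ch c.P (fun ω => fl ((k + 1) * u) (c.e ω)) fun ω => (c.θ ω, c.X (k * u) ω) := by
      refine ch_mono fun a _ b _ e => ?_
      simp only [Prod.mk.injEq, Cfg.X, add_mul, one_mul] at e
      simp only [fl_fr, e.1, e.2.2.2]
    have h3 := h1.trans h2
    have e : (N - 2 * η * M / u) * u * lg = N * u * lg - 2 * (η * M * lg) := by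
      field_simp
    linarith
  · obtain ⟨d, hd⟩ := Nat.exists_eq_add_of_le (hj.trans hu2)
    have h1 := hc.hgt
    have h2 := ch_tri (P := c.P) (fun ω => fl1 M (c.z ω)) (fun ω => fl1 j (c.z ω)) c.θ
    have h3 := ch_fl1_refine (P := c.P) (x := c.z) (G := fun ω => (fl1 j (c.z ω), c.θ ω))
      (j := fun _ => j) (i := fun _ => d) (fun _ _ _ _ _ => rfl) (fun _ _ _ _ _ => rfl)
      (Fn.fst _ _)
    rw [FP.E_const, ← hd] at h3
    have e : (M : ℝ) = j + d := by exact_mod_cast hd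
    have e' : (M : ℝ) * lg = j * lg + d * lg := by rw [e]; ring
    linarith
  · have a1 := split c (Nat.mul_le_mul_right u h1) fun ω => (c.z ω, c.θ ω)
    have a2 := split c (Nat.mul_le_mul_right u h2) fun ω => (c.z ω, c.θ ω)
    have a3 : ch c.P (fun ω => fl ((K + 1) * u) (c.pt ω)) (fun ω => (c.z ω, c.θ ω)) ≤
        ch c.P (fun ω => fl M (c.pt ω)) fun ω => (c.z ω, c.θ ω) :=
      ch_mono fun a _ b _ e => fl_eq_of_le hu2 (congrArg Prod.fst e)
    have a4 := (low' 0 k (Nat.zero_le _) (h1.trans h2)).trans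
      (ch_anti (G := fun ω => (c.z ω, c.θ ω)) (Fn.snd _ _))
    have a5 := (low' l (K + 1) h2 le_rfl).trans (ch_tri _ (fun ω => fl (l * u) (c.pt ω)) _)
    have a6 := pt_near c hc.box (l * u)
    have a7 : ch c.P (fun ω => fl ((K + 1) * u) (c.pt ω))
        (fun ω => (fl (l * u) (c.pt ω), c.X (l * u) ω, c.z ω, c.θ ω)) ≤
        ch c.P (fun ω => fl ((K + 1) * u) (c.pt ω))
          fun ω => (fl (l * u) (c.pt ω), c.z ω, c.θ ω) := ch_anti fun a _ b _ e => by
      simp only [Prod.mk.injEq] at e ⊢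
      tauto
    have a8 : (M : ℝ) ≤ (K + 1) * u + K := by exact_mod_cast hu3
    have a9 : (N - s) * M * lg ≤ (N - s) * (K + 1) * u * lg + N * K := by
      have b1 : (N - s) * M * lg ≤ (N - s) * ((K + 1) * u + K) * lg :=
        mul_le_mul_of_nonneg_right (mul_le_mul_of_nonneg_left a8 (by linarith)) hl0.le
      have b2 : (N - s) * K * lg ≤ N * K :=
        (mul_le_of_le_one_right (mul_nonneg (by linarith) hK0) hl1.le).trans
          (mul_le_mul_of_nonneg_right (by linarith) hK0)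
      linarith
    have a10 : γ * M * lg ≤ γ * M := mul_le_of_le_one_right hγM hl1.le
    push_cast at a4 a5
    linarith

end Pool.Agent.MP_5168f5_an.H17S
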