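import Pool.Agent.MP_5168f5_an.H17S.BeApi

/-! The lattice inequality for a random line. -/

namespace Pool.Agent.MP_5168f5_an.H17S

open H19 MeasureTheory

namespace FIB

section Gen

variable {E : Type} [NormedAddCommGroup E] [NormedSpace ℝ E] [MeasureSpace E] {d : ℝ}
  {Ω β : Type} {P : FP Ω} {x : Ω → E}

theorem fn_const {α : Type} (A : α) (G : Ω → β) : Fn P (fun _ => A) G := fun _ _ _ _ _ => rfl

theorem hh_le_add {α : Type} (F : Ω → α) (G : Ω → β) : hh P F ≤ hh P G + ch P F G := by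
  have h1 : hh P F ≤ hh P fun ω => (F ω, G ω) := hh_mono (Fn.fst F G)
  unfold ch; linarith

theorem near (hV : Vol E d) (A : Bd E) (G : Ω → β)
    (h : ∀ a ∈ P.S, ∀ b ∈ P.S, G a = G b → A.In 2 (x a - x b)) :
    hh P (fun ω => A.kap (x ω)) ≤ hh P G + 5 * d :=
  (hh_le_add _ G).trans (add_le_add le_rfl
    (hV.bnear5 (A := fun _ => A) (c := 2) (by norm_num) (by norm_num) (fn_const A G) h))

theorem sub2 (hV : Vol E d) (A B : Bd E) (h : A.Sub B 2) :
    hh P (fun ω => B.kap (x ω)) ≤ hh P (fun ω => A.kap (x ω)) + 5 * d := by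
  have h1 := hV.bsub (P := P) (x := x) (G := fun _ => ()) (A := fun _ => A) (B := fun _ => B)
    (c := 2) (by norm_num) (fn_const A _) (fn_const B _) fun _ _ => h
  rw [ch_unit, ch_unit] at h1
  have h2 : Real.log (6 * (2 * 2)) ≤ 5 := log_le_five (by norm_num) (by norm_num)
  have h3 := mul_le_mul_of_nonneg_left h2 hV.d0
  linarith

theorem lip (hV : Vol E d) (A B : Bd E) (h : A ≤ B) :
    hh P (fun ω => A.kap (x ω)) ≤ hh P (fun ω => B.kap (x ω)) + (B.lv - A.lv) + 3 * d := by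
  have h1 := hV.blip (P := P) (x := x) (G := fun _ => ()) (A := fun _ => A) (B := fun _ => B)
    (fn_const A _) (fn_const B _) fun _ _ => h
  rwa [ch_unit, ch_unit, FP.E_const] at h1

theorem modl (hV : Vol E d) (A B : Bd E) :
    hh P (fun ω => (A ⊔ B).kap (x ω)) + hh P (fun ω => (A ⊓ B).kap (x ω)) ≤
      hh P (fun ω => A.kap (x ω)) + hh P (fun ω => B.kap (x ω)) + 9 * d := by
  have h1 := hV.bmod (P := P) (x := x) (G := fun _ => ()) (A := fun _ => A) (B := fun _ => B)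
    (fn_const A _) (fn_const B _)
  rwa [ch_unit, ch_unit, ch_unit, ch_unit] at h1

theorem whole (hV : Vol E d) (A B : Bd E) (hAB : A ≤ B)
    (h : ∀ a ∈ P.S, ∀ b ∈ P.S, x a - x b ∈ B.s) :
    hh P (fun ω => A.kap (x ω)) ≤ (B.lv - A.lv) + 5 * d := by
  have h1 := hV.bdet (P := P) (x := x) (G := fun _ => ()) (A := fun _ => A) (B := fun _ => B)
    (c := 1) le_rfl (fn_const A _) (fn_const B _) (fun _ _ => Bd.Sub.of_le hAB le_rfl)
    fun a ha b hb _ => Bd.in_one.2 (h a ha b hb)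
  rw [ch_unit, FP.E_const] at h1
  have h2 : Real.log (6 * 1) ≤ 5 := log_le_five (by norm_num) (by norm_num)
  have h3 := mul_le_mul_of_nonneg_left h2 hV.d0
  linarith

end Gen

variable {N : ℕ} {Ω : Type} {P : FP Ω} {a e : Ω → V N}

theorem line_sub (z : ℝ) (ω ω' : Ω) :
    ((a ω, e ω) - (a ω', e ω')).1 + z • ((a ω, e ω) - (a ω', e ω')).2 =
      (a ω + z • e ω) - (a ω' + z • e ω') := by
  simp only [Prod.fst_sub, Prod.snd_sub]; module

theorem cyl_top (hV : Vol (V N × V N) (2 * N)) (he : ∀ ω ∈ P.S, ∀ i, 0 ≤ e ω i ∧ e ω i < 1)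
    (z : ℝ) (W : Bd (V N)) :
    hh P (fun ω => (cyl z W (top N)).kap (a ω, e ω)) ≤
      hh P (fun ω => W.kap (a ω + z • e ω)) + 5 * (2 * N) := by
  refine near hV _ _ fun ω hω ω' hω' h => in_cyl.2 ⟨?_, ?_⟩
  · rw [line_sub]; exact Bd.in_of_kap_eq h
  · have := norm_sub_lt_one_of_box (he ω hω) (he ω' hω')
    exact (in_top two_pos).2 (this.trans (by norm_num))

theorem cyl_bot (hV : Vol (V N × V N) (2 * N)) (u : ℕ) (z : ℝ) (W : Bd (V N)) :
    hh P (fun ω => (cyl z (bot N u) W).kap (a ω, e ω)) ≤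
      hh P (fun ω => (fl u (a ω + z • e ω), W.kap (e ω))) + 5 * (2 * N) := by
  refine near hV _ _ fun ω _ ω' _ h => in_cyl.2 ⟨?_, ?_⟩
  · rw [line_sub]
    exact Bd.In.of_mem (mem_bot.2 (norm_sub_lt_of_fl_eq (congrArg Prod.fst h))) (by norm_num)
  · exact Bd.in_of_kap_eq (congrArg Prod.snd h)

theorem eta_sq (hV : Vol (V N) N) (T₀ T : Bd (V N)) (h : T₀ ≤ T) :
    hh P (fun ω => T₀.kap (e ω)) ≤
      hh P (fun ω => (sq T).kap (a ω, e ω)) + (T.lv - T₀.lv) + 8 * N := by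
  have h1 := lip (P := P) (x := e) hV T₀ T h
  have h2 := near (P := P) (x := e) hV T (fun ω => (sq T).kap (a ω, e ω))
    fun ω _ ω' _ h => (in_sq.1 (Bd.in_of_kap_eq h)).2
  linarith

theorem le_total_sum {m : ℕ} (f : Fin m → Fin m → ℕ) {i j : Fin m} (h : i ≠ j) :
    f i j ≤ ∑ i, ∑ j ∈ Finset.univ.erase i, f i j := by
  have h1 : f i j ≤ ∑ j ∈ Finset.univ.erase i, f i j :=
    Finset.single_le_sum (f := fun j => f i j) (fun _ _ => Nat.zero_le _)
      (Finset.mem_erase.2 ⟨h.symm, Finset.mem_univ j⟩)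
  exact h1.trans (Finset.single_le_sum (f := fun i => ∑ j ∈ Finset.univ.erase i, f i j)
    (fun _ _ => Nat.zero_le _) (Finset.mem_univ i))

theorem log_eight (I : ℕ) : Real.log (8 / ((2 : ℝ) ^ I)⁻¹) ≤ I + 3 := by
  have e : 8 / ((2 : ℝ) ^ I)⁻¹ = 2 ^ (I + 3) := by rw [div_inv_eq_mul, pow_add]; ring
  rw [e, log_two_pow]
  have h1 := lg_lt_one
  have h2 : (0 : ℝ) ≤ ((I + 3 : ℕ) : ℝ) := Nat.cast_nonneg _
  have h3 := mul_le_mul_of_nonneg_left h1.le h2
  push_cast at h3 ⊢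
  linarith

end FIB

open FIB in
theorem rowFIB : SFib := by
  intro hV hV2 hL N m L u Ω P a e z W hm hL0 he hz hW
  obtain ⟨h1, h2⟩ := hV N
  have h3 := (hV2 N).tb u
  obtain ⟨I, hI⟩ : ∃ I : ℕ, I = ∑ i, ∑ j ∈ Finset.univ.erase i, sc u (z i - z j) := ⟨_, rfl⟩
  have hIR : ∑ i, ∑ j ∈ Finset.univ.erase i, (sc u (z i - z j) : ℝ) = I := by
    rw [hI]; push_cast; rfl
  have hle : ∀ i j, i ≠ j → sc u (z i - z j) ≤ I := fun i j hij => by
    rw [hI]; exact le_total_sum (fun i j => sc u (z i - z j)) hij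
  rw [hIR]
  have hN : (0 : ℝ) ≤ N := Nat.cast_nonneg N
  have hm0 : (0 : ℝ) ≤ m := Nat.cast_nonneg m
  have hI0 : (0 : ℝ) ≤ I := Nat.cast_nonneg I
  have hu0 : (0 : ℝ) ≤ u := Nat.cast_nonneg u
  have hL1 : (1 : ℝ) ≤ L := by exact_mod_cast hL0
  have hL2 : (1 : ℝ) ≤ (L : ℝ) ^ 2 := one_le_pow₀ hL1
  have hNI : 0 ≤ (N : ℝ) * I := mul_nonneg hN hI0
  have hQ : (N : ℝ) * (1 + I) ≤ (L : ℝ) ^ 2 * ((N + 1) * (1 + I)) := by
    have : (N : ℝ) * (1 + I) ≤ (N + 1) * (1 + I) := by nlinarith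
    exact this.trans (le_mul_of_one_le_left (by positivity) hL2)
  have hQm := mul_le_mul_of_nonneg_left hQ hm0
  have hmN : 0 ≤ (m : ℝ) * N := mul_nonneg hm0 hN
  have hmNI : 0 ≤ (m : ℝ) * (N * I) := mul_nonneg hm0 hNI
  by_cases hc : ∀ i j, i ≠ j → sc u (z i - z j) ≤ u
  · have hs : ∀ i j, i ≠ j → ((2 : ℝ) ^ I)⁻¹ ≤ |z i - z j| := fun i j hij =>
      (inv_anti₀ (by positivity) (pow_le_pow_right₀ (by norm_num) (hle i j hij))).trans
        (le_abs_of_sc_le (hc i j hij))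
    have hΛ : 20 * (N : ℝ) + 1 ≤ 20 * (N + 1) * (1 + I) := by nlinarith
    have hlog : N * (Real.log (8 / ((2 : ℝ) ^ I)⁻¹) + 3) ≤ 20 * (N + 1) * (1 + I) := by
      have := mul_le_mul_of_nonneg_left (log_eight I) hN
      nlinarith
    have key := hL N m L z ((2 : ℝ) ^ I)⁻¹ (hh P fun ω => (bot N u).kap (e ω))
      (20 * (N + 1) * (1 + I)) (bot N u) (top N) W (fun A => hh P fun ω => A.kap (a ω, e ω))
      hm hL0 (by positivity) (two_pow_inv_le I) hz hs (by linarith) hlog hW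
      (fun A => hh_nonneg _)
      (fun A B h => (sub2 (x := fun ω => (a ω, e ω)) h2 A B h).trans (by linarith))
      (fun A B h => (lip (x := fun ω => (a ω, e ω)) h2 A B h).trans (by linarith))
      (fun A B => (modl (x := fun ω => (a ω, e ω)) h2 A B).trans (by linarith))
      (fun T h _ => (eta_sq (a := a) h1 _ T h).trans (by linarith))
    have hsum : ∑ i, (hh P (fun ω => (cyl (z i) (W i) (top N)).kap (a ω, e ω)) +
        hh P (fun ω => (cyl (z i) (bot N u) (W i)).kap (a ω, e ω)) +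
          ((W i).lv - (bot N u).lv)) ≤
        ∑ i, ((hh P (fun ω => (W i).kap (a ω + z i • e ω)) +
          hh P (fun ω => (fl u (a ω + z i • e ω), (W i).kap (e ω))) +
            ((W i).lv - (bot N u).lv)) + 20 * N) := Finset.sum_le_sum fun i _ => by
      have k1 := cyl_top (a := a) h2 he (z i) (W i)
      have k2 := cyl_bot (P := P) (a := a) (e := e) h2 u (z i) (W i)
      linarith
    rw [Finset.sum_add_distrib (g := fun _ => 20 * (N : ℝ)), Finset.sum_const, Finset.card_univ,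
      Fintype.card_fin, nsmul_eq_mul] at hsum
    rw [h3] at key
    nlinarith
  · push Not at hc
    obtain ⟨i, j, hij, hlt⟩ := hc
    have huI : (u : ℝ) + 1 ≤ I := by exact_mod_cast (Nat.succ_le_of_lt hlt).trans (hle i j hij)
    have k1 := whole (P := P) (x := e) h1 (bot N u) (top N) (bot_le_top N u)
      fun ω hω ω' hω' => mem_top.2
        ((norm_sub_lt_one_of_box (he ω hω) (he ω' hω')).trans (by norm_num))
    rw [h3] at k1
    have k2 : N * (u + 1) * lg ≤ (N : ℝ) * I :=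
      (mul_le_of_le_one_right (by positivity) lg_lt_one.le).trans
        (mul_le_mul_of_nonneg_left huI hN)
    have k3 : 0 ≤ ∑ i, (hh P (fun ω => (W i).kap (a ω + z i • e ω)) +
        hh P (fun ω => (fl u (a ω + z i • e ω), (W i).kap (e ω))) +
          ((W i).lv - (bot N u).lv)) := Finset.sum_nonneg fun i _ =>
      add_nonneg (add_nonneg (hh_nonneg _) (hh_nonneg _)) (sub_nonneg.2 (h1.mono (hW i).1))
    have k4 : 0 ≤ (4 * (m : ℝ) / L + 8) * (N * (u + 1) * lg) := by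
      have := lg_pos
      positivity
    have k5 := mul_le_mul_of_nonneg_left (k1.trans (add_le_add k2 le_rfl)) hm0
    nlinarith

end Pool.Agent.MP_5168f5_an.H17S
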