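import Pool.Agent.MP_5168f5_an.H17S.BeApi

/-! The direction of a copy of lower level is a grain direction. -/

namespace Pool.Agent.MP_5168f5_an.H17S

open H19 MeasureTheory

namespace FULL

variable {N : ℕ}

open Classical in
/-- Dyadic size of a vector in units of `2^{-u}`. -/
noncomputable def nu (u : ℕ) (v : V N) : ℕ :=
  Nat.find (⟨u, Or.inl le_rfl⟩ : ∃ ν : ℕ, u ≤ ν ∨ ‖v‖ ≤ 2 ^ ν * ((2 : ℝ) ^ u)⁻¹)

theorem nu_le (u : ℕ) (v : V N) : nu u v ≤ u := by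
  classical
  exact Nat.find_le (Or.inl le_rfl)

theorem norm_le_nu (u : ℕ) {v : V N} (hv : ‖v‖ ≤ 1) : ‖v‖ ≤ 2 ^ nu u v * ((2 : ℝ) ^ u)⁻¹ := by
  classical
  rcases Nat.find_spec (⟨u, Or.inl le_rfl⟩ :
    ∃ ν : ℕ, u ≤ ν ∨ ‖v‖ ≤ 2 ^ ν * ((2 : ℝ) ^ u)⁻¹) with h | h
  · have e : nu u v = u := le_antisymm (nu_le u v) h
    rw [e, mul_inv_cancel₀ (by positivity)]; exact hv
  · exact h

theorem lt_norm_nu {u i : ℕ} {v : V N} (h : i < nu u v) : 2 ^ i * ((2 : ℝ) ^ u)⁻¹ < ‖v‖ := by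
  classical
  have := Nat.find_min (⟨u, Or.inl le_rfl⟩ :
    ∃ ν : ℕ, u ≤ ν ∨ ‖v‖ ≤ 2 ^ ν * ((2 : ℝ) ^ u)⁻¹) h
  exact lt_of_not_ge fun h1 => this (Or.inr h1)

/-- Position of the height inside its dyadic interval. -/
noncomputable def lam (n : ℕ) (z : ℝ) : ℝ := 2 ^ n * (z - ((2 : ℝ) ^ n)⁻¹ * fl1 n z)

theorem lam_mem (n : ℕ) (z : ℝ) : 0 ≤ lam n z ∧ lam n z < 1 := by
  have h := Cfg.abs_z_sub n z
  have h2 : (0 : ℝ) < 2 ^ n := by positivity
  refine ⟨mul_nonneg h2.le h.1, ?_⟩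
  have := mul_lt_mul_of_pos_left h.2 h2
  rwa [mul_inv_cancel₀ h2.ne'] at this

theorem scaled_lt {b u : ℕ} {v w : V N} (h : fl (b + u) v = fl (b + u) w) :
    ‖(2 : ℝ) ^ b • (v - w)‖ ≤ ((2 : ℝ) ^ u)⁻¹ := by
  have h1 := norm_sub_lt_of_fl_eq h
  have h2 : (0 : ℝ) < 2 ^ b := by positivity
  rw [norm_smul, Real.norm_eq_abs, abs_of_pos h2]
  calc _ ≤ 2 ^ b * ((2 : ℝ) ^ (b + u))⁻¹ := mul_le_mul_of_nonneg_left h1.le h2.le
    _ = _ := by rw [pow_add]; field_simp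

variable (c : Cfg N)

theorem err_le {u K j n : ℕ} {ω ω' : c.Ω} (hb : n + j * u + u ≤ (K + 1) * u)
    (h : c.φ u K j ω' = c.φ u K j ω) :
    ‖(2 : ℝ) ^ (n + j * u) • (c.bp n ω' - c.bp n ω) + lam n (c.z ω) • c.dv u j ω ω'‖ ≤
      2 * ((2 : ℝ) ^ u)⁻¹ := by
  simp only [Cfg.φ, Prod.mk.injEq] at h
  have h1 := scaled_lt (fl_eq_of_le hb h.1)
  have h2 := c.dv_approx u j ω ω'
  have h3 := lam_mem n (c.z ω)
  have e : (2 : ℝ) ^ (n + j * u) • (c.bp n ω' - c.bp n ω) + lam n (c.z ω) • c.dv u j ω ω' =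
      (2 : ℝ) ^ (n + j * u) • (c.pt ω' - c.pt ω) +
        lam n (c.z ω) • (c.dv u j ω ω' - (2 : ℝ) ^ (j * u) • (c.e ω' - c.e ω)) := by
    simp only [Cfg.bp, Cfg.pt, lam, h.2.1, pow_add]
    module
  rw [e]
  have h4 : ‖lam n (c.z ω) • (c.dv u j ω ω' - (2 : ℝ) ^ (j * u) • (c.e ω' - c.e ω))‖ ≤
      ((2 : ℝ) ^ u)⁻¹ := by
    rw [norm_smul, Real.norm_eq_abs, abs_of_nonneg h3.1]
    exact (mul_le_of_le_one_left (norm_nonneg _) h3.2.le).trans h2.le
  linarith [norm_add_le ((2 : ℝ) ^ (n + j * u) • (c.pt ω' - c.pt ω))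
    (lam n (c.z ω) • (c.dv u j ω ω' - (2 : ℝ) ^ (j * u) • (c.e ω' - c.e ω)))]

theorem y_sub {u b n : ℕ} (hn : u ≤ n) {ω ω' : c.Ω} (hX : c.X b ω = c.X b ω')
    (hI : fl1 n (c.z ω) = fl1 n (c.z ω')) :
    ‖(c.zoom b).pt ω - (c.zoom b).pt ω' - (2 : ℝ) ^ b • (c.bp n ω - c.bp n ω')‖ ≤
      2 * ((2 : ℝ) ^ u)⁻¹ := by
  have key : ∀ ω : c.Ω, ‖(c.z ω - ((2 : ℝ) ^ n)⁻¹ * fl1 n (c.z ω)) • fr b (c.e ω)‖ ≤
      ((2 : ℝ) ^ u)⁻¹ := by
    intro ω
    have h1 := Cfg.abs_z_sub n (c.z ω)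
    have h2 := norm_le_one_of_box (fr_box b (c.e ω))
    have h3 : ((2 : ℝ) ^ n)⁻¹ ≤ ((2 : ℝ) ^ u)⁻¹ :=
      inv_anti₀ (by positivity) (pow_le_pow_right₀ (by norm_num) hn)
    rw [norm_smul, Real.norm_eq_abs, abs_of_nonneg h1.1]
    exact (mul_le_of_le_one_right h1.1 h2).trans (h1.2.le.trans h3)
  simp only [Cfg.X, Prod.mk.injEq] at hX
  have e : (c.zoom b).pt ω - (c.zoom b).pt ω' - (2 : ℝ) ^ b • (c.bp n ω - c.bp n ω') =
      (c.z ω - ((2 : ℝ) ^ n)⁻¹ * fl1 n (c.z ω)) • fr b (c.e ω) -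
        (c.z ω' - ((2 : ℝ) ^ n)⁻¹ * fl1 n (c.z ω')) • fr b (c.e ω') := by
    rw [c.zoom_pt, c.zoom_pt, fr_eq, fr_eq]
    simp only [Cfg.bp, Cfg.pt, hX.1, hX.2, hI]
    module
  rw [e]
  linarith [norm_sub_le ((c.z ω - ((2 : ℝ) ^ n)⁻¹ * fl1 n (c.z ω)) • fr b (c.e ω))
    ((c.z ω' - ((2 : ℝ) ^ n)⁻¹ * fl1 n (c.z ω')) • fr b (c.e ω')), key ω, key ω']

theorem z_close {u n : ℕ} {z z' : ℝ} {v : V N} (hI : fl1 n z = fl1 n z')
    (h : ‖(lam n z - lam n z') • v‖ ≤ 6 * ((2 : ℝ) ^ u)⁻¹) :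
    |z - z'| ≤ (12 : ℕ) * ((2 : ℝ) ^ (n + nu u v))⁻¹ := by
  have h2 : (0 : ℝ) < 2 ^ n := by positivity
  have e : z - z' = ((2 : ℝ) ^ n)⁻¹ * (lam n z - lam n z') := by
    simp only [lam, hI]; field_simp; ring
  have key : |lam n z - lam n z'| ≤ 12 * ((2 : ℝ) ^ nu u v)⁻¹ := by
    rcases Nat.eq_zero_or_pos (nu u v) with h0 | h0
    · rw [h0, abs_le]
      constructor <;> norm_num <;>
        linarith [(lam_mem n z).1, (lam_mem n z).2, (lam_mem n z').1, (lam_mem n z').2]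
    · obtain ⟨i, hi⟩ : ∃ i, nu u v = i + 1 := ⟨nu u v - 1, by omega⟩
      have h3 := lt_norm_nu (u := u) (i := i) (v := v) (by omega)
      rw [norm_smul, Real.norm_eq_abs] at h
      have h4 : (0 : ℝ) < ((2 : ℝ) ^ u)⁻¹ := by positivity
      have h5 : (0 : ℝ) < 2 ^ i := by positivity
      have h6 : |lam n z - lam n z'| * 2 ^ i * ((2 : ℝ) ^ u)⁻¹ ≤ 6 * ((2 : ℝ) ^ u)⁻¹ := by
        rw [mul_assoc]
        exact (mul_le_mul_of_nonneg_left h3.le (abs_nonneg _)).trans h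
      have h7 := le_of_mul_le_mul_right h6 h4
      rw [hi, pow_succ, ← div_eq_mul_inv, le_div_iff₀ (by positivity)]
      linarith
  rw [e, abs_mul, abs_of_pos (inv_pos.2 h2), pow_add, mul_inv]
  push_cast
  calc _ ≤ ((2 : ℝ) ^ n)⁻¹ * (12 * ((2 : ℝ) ^ nu u v)⁻¹) :=
        mul_le_mul_of_nonneg_left key (inv_pos.2 h2).le
    _ = _ := by ring

end FULL

open FULL in
theorem rowFULL : SFull := by
  intro hV hV2 h1 h2 N c u K j k s Λ Ω' Q π π' hE hjk hk hP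
  have F1 := h1 N c u K j k s Λ Ω' Q π π' hE hjk hk hP
  have F2 := h2 N c u K j k s Λ Ω' Q π π' hE hjk hk hP
  have hVN := (hV N).1
  have big := hE.big
  obtain ⟨n, hn⟩ : ∃ n, n = (k - j) * u := ⟨_, rfl⟩
  have e0 : k * u = n + j * u := by rw [hn, ← add_mul]; congr 1; omega
  have e1 : (k + 1) * u = n + j * u + u := by rw [add_mul, e0, one_mul]
  have e2 : (k - j + 1) * u = n + u := by rw [add_mul, one_mul, hn]
  have hun : u ≤ n := by rw [hn]; exact Nat.le_mul_of_pos_left u (by omega)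
  have hb : n + j * u + u ≤ (K + 1) * u := by rw [← e1]; exact Nat.mul_le_mul_right u (by omega)
  rw [← hn] at F1
  rw [e2, ← hn] at F2
  have ht : (0 : ℝ) < ((2 : ℝ) ^ u)⁻¹ := by positivity
  set Γ : Ω' → c.T × (Z N × Z N) × (Z N × Z N) × ℤ := fun x => (c.θ (π x), c.X (k * u) (π x),
    c.X ((j + 1) * u) (π' x), fl1 n (c.z (π x))) with hΓ
  set dv : Ω' → V N := fun x => c.dv u j (π x) (π' x) with hdv
  set G : Ω' → Z N := fun x => fl ((k + 1) * u) (c.bp n (π x)) with hG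
  set Gt : Ω' → Z N := fun x => fl ((k + 1) * u) (c.bp n (π' x)) with hGt
  set y : Ω' → V N := fun x => (c.zoom (k * u)).pt (π x) with hy
  set Zs : Ω' → V N := fun x => (seg u (dv x)).kap (y x) with hZs
  have fdv : Fn Q dv Γ := by
    intro a _ b _ e
    simp only [hΓ, Prod.mk.injEq] at e
    have e3 := congrArg Prod.snd
      (c.X_eq_of_le (Nat.mul_le_mul_right u (show j + 1 ≤ k from hjk)) e.2.1)
    have e4 := congrArg Prod.snd e.2.2.1
    simp only [Cfg.X] at e3 e4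
    funext i
    simp only [hdv, Cfg.dv, e3, e4]
  have fseg : Fn Q (fun x => seg u (dv x)) Γ := (Fn.comp (seg u) dv).trans fdv
  have fnu : Fn Q (fun x => nu u (dv x)) Γ := (Fn.comp (nu u) dv).trans fdv
  have d1 : ∀ x ∈ Q.S, ‖dv x‖ ≤ 1 := fun x hx =>
    c.dv_le_one u j (congrArg (fun w => w.2.2.1.2) (hP.mem x hx).2.2)
  have er : ∀ x ∈ Q.S, ‖(2 : ℝ) ^ (k * u) • (c.bp n (π' x) - c.bp n (π x)) +
      lam n (c.z (π x)) • dv x‖ ≤ 2 * ((2 : ℝ) ^ u)⁻¹ := fun x hx => by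
    rw [e0]; exact err_le c hb (hP.mem x hx).2.2
  have ys : ∀ a b, Γ a = Γ b → ‖y a - y b - (2 : ℝ) ^ (k * u) • (c.bp n (π a) - c.bp n (π b))‖ ≤
      2 * ((2 : ℝ) ^ u)⁻¹ := fun a b e => by
    simp only [hΓ, Prod.mk.injEq] at e
    exact y_sub c hun e.2.1 e.2.2.2
  have gs : ∀ a b, G a = G b → ‖(2 : ℝ) ^ (k * u) • (c.bp n (π a) - c.bp n (π b))‖ ≤
      ((2 : ℝ) ^ u)⁻¹ := fun a b e => by
    simp only [hG, add_mul, one_mul] at e
    exact scaled_lt e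
  have gt : ∀ a b, Gt a = Gt b → ‖(2 : ℝ) ^ (k * u) • (c.bp n (π' a) - c.bp n (π' b))‖ ≤
      ((2 : ℝ) ^ u)⁻¹ := fun a b e => by
    simp only [hGt, add_mul, one_mul] at e
    exact scaled_lt e
  -- the difference of the two base points along a fibre
  have df : ∀ a ∈ Q.S, ∀ b ∈ Q.S, Γ a = Γ b →
      ‖(2 : ℝ) ^ (k * u) • (c.bp n (π' a) - c.bp n (π' b)) -
        (2 : ℝ) ^ (k * u) • (c.bp n (π a) - c.bp n (π b)) +
        (lam n (c.z (π a)) - lam n (c.z (π b))) • dv a‖ ≤ 4 * ((2 : ℝ) ^ u)⁻¹ := by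
    intro a ha b hb e
    have h3 := er a ha
    have h4 := er b hb
    rw [← fdv a ha b hb e] at h4
    have e3 : (2 : ℝ) ^ (k * u) • (c.bp n (π' a) - c.bp n (π' b)) -
        (2 : ℝ) ^ (k * u) • (c.bp n (π a) - c.bp n (π b)) +
        (lam n (c.z (π a)) - lam n (c.z (π b))) • dv a =
        ((2 : ℝ) ^ (k * u) • (c.bp n (π' a) - c.bp n (π a)) + lam n (c.z (π a)) • dv a) -
        ((2 : ℝ) ^ (k * u) • (c.bp n (π' b) - c.bp n (π b)) + lam n (c.z (π b)) • dv a) := by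
      module
    rw [e3]
    linarith [norm_sub_le
      ((2 : ℝ) ^ (k * u) • (c.bp n (π' a) - c.bp n (π a)) + lam n (c.z (π a)) • dv a)
      ((2 : ℝ) ^ (k * u) • (c.bp n (π' b) - c.bp n (π b)) + lam n (c.z (π b)) • dv a)]
  have s1 : ch Q (fun x => fl1 (n + u) (c.z (π x)))
      (fun x => (c.ln (π x), c.X ((j + 1) * u) (π' x), fl1 n (c.z (π x)))) ≤
      ch Q (fun x => fl1 (n + u) (c.z (π x))) fun x => (G x, Γ x) := by
    refine ch_anti fun a _ b _ e => ?_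
    simp only [Cfg.ln, Prod.mk.injEq] at e
    simp only [hG, hΓ, Cfg.bp, Cfg.X, e.1.1, e.1.2.1, e.1.2.2, e.2.2, Prod.mk.injEq, true_and,
      and_true]
    simpa only [Cfg.X, Prod.mk.injEq] using e.2.1
  have s2 := ch_tri (P := Q) (fun x => fl1 (n + u) (c.z (π x)))
    (fun x => fl1 (n + nu u (dv x)) (c.z (π x))) fun x => (G x, Γ x)
  have s3 : ch Q (fun x => fl1 (n + u) (c.z (π x)))
      (fun x => (fl1 (n + nu u (dv x)) (c.z (π x)), G x, Γ x)) ≤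
      u * lg - Q.E fun x => (nu u (dv x) : ℝ) * lg := by
    have f1 : Fn Q (fun x => nu u (dv x))
        (fun x => (fl1 (n + nu u (dv x)) (c.z (π x)), G x, Γ x)) := (fnu.right _).right _
    have := ch_fl1_refine (P := Q) (x := fun x => c.z (π x))
      (G := fun x => (fl1 (n + nu u (dv x)) (c.z (π x)), G x, Γ x))
      (j := fun x => n + nu u (dv x)) (i := fun x => u - nu u (dv x))
      ((Fn.comp (fun t => n + t) _).trans f1) ((Fn.comp (fun t => u - t) _).trans f1)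
      (Fn.fst _ _)
    have e3 : ∀ x, n + nu u (dv x) + (u - nu u (dv x)) = n + u := fun x => by
      have := nu_le u (dv x); omega
    simp only [e3] at this
    refine this.trans (le_of_eq ?_)
    rw [← Q.E_const (u * lg), ← FP.E_sub]
    refine Q.E_congr fun x _ => ?_
    rw [Nat.cast_sub (nu_le u (dv x))]; ring
  have s4 := ch_tri (P := Q) (fun x => fl1 (n + nu u (dv x)) (c.z (π x))) Gt fun x => (G x, Γ x)
  have s5 : ch Q (fun x => fl1 (n + nu u (dv x)) (c.z (π x))) (fun x => (Gt x, G x, Γ x)) ≤ 5 := by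
    refine ch_fl1_near (n := 12) (by norm_num)
      ((Fn.comp (fun t => n + t) _).trans ((fnu.right _).right _)) fun a ha b hb e => ?_
    simp only [Prod.mk.injEq] at e
    refine z_close (congrArg (fun w => w.2.2.2) e.2.2) ?_
    have h3 := df a ha b hb e.2.2
    have h4 := gt a b e.1
    have h5 := gs a b e.2.1
    set A := (2 : ℝ) ^ (k * u) • (c.bp n (π' a) - c.bp n (π' b))
    set B := (2 : ℝ) ^ (k * u) • (c.bp n (π a) - c.bp n (π b))
    set D := (lam n (c.z (π a)) - lam n (c.z (π b))) • dv a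
    have e3 : D = (A - B + D) - A + B := by abel
    rw [e3]
    linarith [norm_add_le (A - B + D - A) B, norm_sub_le (A - B + D) A]
  have s6 := ch_tri' (P := Q) Gt (fun x => (G x, Γ x)) fun x => (Zs x, Γ x)
  have s7 : ch Q (fun x => (Zs x, Γ x)) (fun x => (G x, Γ x)) ≤ 5 * N := by
    refine le_trans (ch_mono (F' := Zs) ((Fn.fst _ _).pair ((Fn.snd _ _).right _))) ?_
    refine hVN.bnear5 (c := 4) (by norm_num) (by norm_num) (fseg.right _) fun a _ b _ e => ?_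
    simp only [Prod.mk.injEq] at e
    refine Bd.In.of_le ((in_bot (by norm_num)).2 ?_) (bot_le_seg u _)
    have h3 := ys a b e.2
    have h4 := gs a b e.1
    set B := (2 : ℝ) ^ (k * u) • (c.bp n (π a) - c.bp n (π b))
    have e3 : y a - y b = (y a - y b - B) + B := by abel
    rw [e3]
    linarith [norm_add_le (y a - y b - B) B]
  have s8 := ch_symm (P := Q) Gt Zs Γ
  have s9 : ch Q Zs (fun x => (Gt x, Γ x)) ≤ 5 * N := by
    refine hVN.bnear5 (c := 8) (by norm_num) (by norm_num) (fseg.right _) fun a ha b hb e => ?_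
    simp only [Prod.mk.injEq] at e
    have h3 := ys a b e.2
    have h4 := gt a b e.1
    have h5 := df a ha b hb e.2
    have h6 : |lam n (c.z (π a)) - lam n (c.z (π b))| ≤ 8 := by
      rw [abs_le]
      constructor <;> linarith [(lam_mem n (c.z (π a))).1, (lam_mem n (c.z (π a))).2,
        (lam_mem n (c.z (π b))).1, (lam_mem n (c.z (π b))).2]
    set A := (2 : ℝ) ^ (k * u) • (c.bp n (π' a) - c.bp n (π' b))
    set B := (2 : ℝ) ^ (k * u) • (c.bp n (π a) - c.bp n (π b))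
    have e3 : y a - y b = (lam n (c.z (π a)) - lam n (c.z (π b))) • dv a +
        ((y a - y b - B) + A - (A - B + (lam n (c.z (π a)) - lam n (c.z (π b))) • dv a)) := by
      abel
    rw [e3]
    refine in_seg (by norm_num) h6 ((in_bot (by norm_num)).2 ?_)
    linarith [norm_sub_le (y a - y b - B + A)
      (A - B + (lam n (c.z (π a)) - lam n (c.z (π b))) • dv a), norm_add_le (y a - y b - B) A]
  have s10 : Q.E (fun x => (seg u (dv x)).lv - (bot N u).lv) ≤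
      Q.E (fun x => (nu u (dv x) : ℝ) * lg) + (N + 2) := by
    rw [← Q.E_const (N + 2 : ℝ), ← FP.E_add]
    refine Q.E_mono fun x hx => ?_
    linarith [(hV2 N).segU u (nu u (dv x)) (dv x) (norm_le_nu u (d1 x hx))]
  have s11 : ch Q Zs (fun x => (c.z (π x), c.X ((j + 1) * u) (π' x),
      (c.zoom (k * u)).θ (π x))) ≤ ch Q Zs Γ := by
    refine ch_anti fun a _ b _ e => ?_
    have e3 : c.θ (π a) = c.θ (π b) := congrArg (fun w => w.2.2.1) e
    have e4 : c.X (k * u) (π a) = c.X (k * u) (π b) := congrArg (fun w => w.2.2.2) e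
    have e5 : c.z (π a) = c.z (π b) := congrArg Prod.fst e
    have e6 : c.X ((j + 1) * u) (π' a) = c.X ((j + 1) * u) (π' b) := congrArg (fun w => w.2.1) e
    simp only [hΓ, e3, e4, e5, e6]
  have hN : (0 : ℝ) ≤ N := Nat.cast_nonneg N
  linarith

end Pool.Agent.MP_5168f5_an.H17S
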