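import Pool.Agent.MP_5168f5_an.H17S.BeApi

/-! Sticky Kakeya sets: the base point of a copy has small conditional entropy. -/

namespace Pool.Agent.MP_5168f5_an.H17S

open H19 MeasureTheory

namespace FULL1

variable {N : ℕ} (c : Cfg N)

theorem anti {i j : ℕ} (h : i ≤ j) : ((2 : ℝ) ^ j)⁻¹ ≤ ((2 : ℝ) ^ i)⁻¹ :=
  inv_anti₀ (by positivity) (pow_le_pow_right₀ (by norm_num) h)

theorem key (r i : ℕ) {a b : c.Ω} (hz : c.z a = c.z b) (he : c.X i a = c.X i b) :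
    ‖(c.pt a - c.pt b) - (c.bp r a - c.bp r b)‖ ≤ ((2 : ℝ) ^ (r + i))⁻¹ := by
  have e : (c.pt a - c.pt b) - (c.bp r a - c.bp r b) =
      (c.z a - ((2 : ℝ) ^ r)⁻¹ * fl1 r (c.z a)) • (c.e a - c.e b) := by
    rw [sub_sub_sub_comm, c.pt_sub_bp, c.pt_sub_bp, ← hz, smul_sub]
  obtain ⟨h1, h2⟩ := Cfg.abs_z_sub r (c.z a)
  rw [e, norm_smul, Real.norm_of_nonneg h1, pow_add, mul_inv]
  exact mul_le_mul h2.le (norm_sub_lt_of_fl_eq (congrArg Prod.snd he)).le (norm_nonneg _)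
    (by positivity)

theorem bp_near (r i m : ℕ) {a b : c.Ω} (hz : c.z a = c.z b) (he : c.X i a = c.X i b)
    (hm : m ≤ r + i) (h : ‖c.pt a - c.pt b‖ ≤ ((2 : ℝ) ^ m)⁻¹) :
    ‖c.bp r a - c.bp r b‖ ≤ 2 * ((2 : ℝ) ^ m)⁻¹ := by
  have h1 := (key c r i hz he).trans (anti hm)
  have h2 := norm_sub_norm_le (c.bp r a - c.bp r b) (c.pt a - c.pt b)
  rw [norm_sub_rev (c.bp r a - c.bp r b)] at h2
  linarith

theorem pt_near (r i m : ℕ) {a b : c.Ω} (hz : c.z a = c.z b) (he : c.X i a = c.X i b)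
    (hm : m ≤ r + i) (h : ‖c.bp r a - c.bp r b‖ ≤ ((2 : ℝ) ^ m)⁻¹) :
    ‖c.pt a - c.pt b‖ ≤ 2 * ((2 : ℝ) ^ m)⁻¹ := by
  have h1 := (key c r i hz he).trans (anti hm)
  have h2 := norm_sub_norm_le (c.pt a - c.pt b) (c.bp r a - c.bp r b)
  linarith

theorem bp_cell (hb : c.Box) (r m : ℕ) {a b : c.Ω} (ha : a ∈ c.P.S)
    (hz : fl1 r (c.z a) = fl1 r (c.z b)) (he : c.X m a = c.X m b) :
    ‖c.bp r a - c.bp r b‖ ≤ 2 * ((2 : ℝ) ^ m)⁻¹ := by
  obtain ⟨h1, h2⟩ := Cfg.abs_z_sub r (c.z a)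
  obtain ⟨-, -, h3, h4⟩ := hb a ha
  have h5 := anti (Nat.zero_le r)
  rw [pow_zero, inv_one] at h5
  unfold Cfg.bp
  rw [← hz]
  exact c.norm_line_sub he (abs_le.2 ⟨by linarith, by linarith⟩)

end FULL1

open FULL1 in
theorem rowFULL1 : Full1 := by
  intro N c u K j k s Λ Ω' Q π π' hE hjk hk hP
  have r0 : (k - j) * u + j * u = k * u := by rw [← add_mul, Nat.sub_add_cancel hjk.le]
  have r1 : (k - j) * u + (j + 1) * u = (k + 1) * u := by rw [← add_mul]; congr 1; omega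
  have r2 : k * u ≤ (k + 1) * u := Nat.mul_le_mul_right u (Nat.le_succ k)
  have r3 : k * u ≤ (K + 1) * u := Nat.mul_le_mul_right u (by omega)
  generalize (k - j) * u = r at r0 r1 ⊢
  have mem : ∀ x ∈ Q.S, π x ∈ c.P.S ∧ fl ((K + 1) * u) (c.pt (π' x)) = fl ((K + 1) * u) (c.pt (π x)) ∧
      c.z (π' x) = c.z (π x) ∧ c.X (j * u) (π' x) = c.X (j * u) (π x) ∧ c.θ (π' x) = c.θ (π x) :=
    fun x hx => by
      obtain ⟨h1, -, h2⟩ := hP.mem x hx
      simp only [Cfg.φ, Prod.mk.injEq] at h2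
      exact ⟨h1, h2⟩
  let f : c.Ω → Z N := fun ω => fl ((k + 1) * u) (c.bp r ω)
  let g : c.Ω → Z N × (Z N × Z N) × ℤ × c.T := fun ω =>
    (fl (k * u) (c.bp r ω), c.X ((j + 1) * u) ω, fl1 r (c.z ω), c.θ ω)
  let G : Ω' → c.T × (Z N × Z N) × (Z N × Z N) × ℤ := fun x =>
    (c.θ (π x), c.X (k * u) (π x), c.X ((j + 1) * u) (π' x), fl1 r (c.z (π x)))
  have s1 := ch_tri' (P := Q) (fun x => f (π' x)) G fun x => g (π' x)
  have s2 : ch Q (fun x => g (π' x)) G ≤ ch Q (fun x => fl (k * u) (c.bp r (π' x))) G :=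
    ch_mono fun a ha b hb e => by
      obtain ⟨-, -, a1, -, a2⟩ := mem a ha
      obtain ⟨-, -, b1, -, b2⟩ := mem b hb
      simp only [g, G, Prod.mk.injEq, a1, a2, b1, b2] at e ⊢
      tauto
  have s3 : ch Q (fun x => fl (k * u) (c.bp r (π' x))) G ≤ 5 * N :=
    ch_fl_near (n := 6) (by norm_num) fun a ha b hb e => by
      obtain ⟨a0, a1, a2, a3, -⟩ := mem a ha
      obtain ⟨-, b1, b2, b3, -⟩ := mem b hb
      simp only [G, Prod.mk.injEq] at e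
      have h1 := bp_near c r _ _ a2 a3 r0.ge ((norm_sub_lt_of_fl_eq a1).le.trans (anti r3))
      have h2 := bp_near c r _ _ b2 b3 r0.ge ((norm_sub_lt_of_fl_eq b1).le.trans (anti r3))
      have h3 := bp_cell c hE.box r _ a0 e.2.2.2 e.2.1
      rw [← dist_eq_norm] at h1 h2 h3 ⊢
      have h4 := dist_triangle4_right (c.bp r (π' a)) (c.bp r (π' b)) (c.bp r (π a)) (c.bp r (π b))
      push_cast
      linarith
  have s4 := hP.ch_copy f g
  have s5 := ch_info (P := c.P) (ξ := c.z) (L := c.ln) (G := c.θ) (h := fun ω => fl1 r (c.z ω))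
    (G' := g) (f := f) c.fn_θ_ln ((Fn.comp (fl1 r) c.z).left _)
    (fun a _ b _ e => by simp only [g, Prod.mk.injEq] at e ⊢; tauto)
    (fun a _ b _ e => by
      simp only [Cfg.ln, Prod.mk.injEq] at e
      simp only [g, Cfg.bp, Cfg.X, e.1.1, e.1.2.1, e.1.2.2, e.2])
    (fun a _ b _ e => by
      simp only [Cfg.ln, Prod.mk.injEq] at e
      simp only [f, Cfg.bp, e.1.1, e.1.2.1, e.2])
  have s6 := ch_tri (P := c.P) f (fun ω => fl ((k + 1) * u) (c.pt ω)) fun ω => (c.z ω, g ω)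
  have s7 : ch c.P f (fun ω => (fl ((k + 1) * u) (c.pt ω), c.z ω, g ω)) ≤ 5 * N :=
    ch_fl_near (n := 2) (by norm_num) fun a _ b _ e => by
      simp only [g, Prod.mk.injEq] at e
      exact_mod_cast bp_near c r _ _ e.2.1 e.2.2.2.1 r1.ge (norm_sub_lt_of_fl_eq e.1).le
  have s8 := ch_tri' (P := c.P) (fun ω => fl ((k + 1) * u) (c.pt ω)) (fun ω => (c.z ω, g ω))
    fun ω => (fl (k * u) (c.pt ω), c.z ω, c.θ ω)
  have s9 : ch c.P (fun ω => (fl (k * u) (c.pt ω), c.z ω, c.θ ω)) (fun ω => (c.z ω, g ω)) ≤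
      ch c.P (fun ω => fl (k * u) (c.pt ω)) fun ω => (c.z ω, g ω) :=
    ch_mono fun a _ b _ e => by simp only [g, Prod.mk.injEq] at e ⊢; tauto
  have s10 : ch c.P (fun ω => fl (k * u) (c.pt ω)) (fun ω => (c.z ω, g ω)) ≤ 5 * N :=
    ch_fl_near (n := 2) (by norm_num) fun a _ b _ e => by
      simp only [g, Prod.mk.injEq] at e
      exact_mod_cast pt_near c r _ _ e.1 e.2.2.1 (r2.trans r1.ge) (norm_sub_lt_of_fl_eq e.2.1).le
  have s11 := hE.up k (k + 1) (Nat.le_succ k) (by omega)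
  rw [Nat.cast_succ, add_sub_cancel_left, mul_one] at s11
  have s12 := hE.inf
  have s13 := hE.big
  have s14 : (0 : ℝ) ≤ N := Nat.cast_nonneg N
  change ch Q (fun x => f (π' x)) G ≤ _
  linarith

end Pool.Agent.MP_5168f5_an.H17S
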