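import Pool.Agent.MP_5168f5_an.H17S.BeApi

/-! The height keeps its entropy when a coarse copy of the line is known. -/

namespace Pool.Agent.MP_5168f5_an.H17S

open H19 MeasureTheory

theorem rowFULL2 : SFull2 := by
  intro hc N c u K j k s Λ Ω' Q π π' hE jk kK hP
  have cp := hc N c u K j s Λ Ω' Q π π' hE (by omega) hP
  have uk : u ≤ (k - j) * u := Nat.le_mul_of_pos_left u (by omega)
  have sy := ch_symm (P := Q) (fun x => fl1 ((k - j + 1) * u) (c.z (π x)))
    (fun x => c.X ((j + 1) * u) (π' x)) fun x => (c.ln (π x), fl1 ((k - j) * u) (c.z (π x)))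
  have a1 := (ch_anti (G' := fun x => (c.ln (π x), fl1 ((k - j) * u) (c.z (π x))))
    fun a _ b _ e => by
      simp only [Cfg.ln, Prod.mk.injEq] at e
      simp only [Cfg.X, e.1.1, e.1.2.1, e.1.2.2, fl1_eq_of_le uk e.2]).trans cp
  have a2 := (hP.mkv (c.X ((j + 1) * u)) _ (c.φ_fn_ln u K j)).ge.trans
    (ch_anti (G := fun x => (fl1 ((k - j + 1) * u) (c.z (π x)), c.ln (π x),
      fl1 ((k - j) * u) (c.z (π x)))) fun a _ b _ e => by
        simp only [Prod.mk.injEq] at e
        simp only [e.1, e.2])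
  have a3 := hP.ch_base (fun ω => fl1 ((k - j + 1) * u) (c.z ω))
    fun ω => (c.ln ω, fl1 ((k - j) * u) (c.z ω))
  have a4 := ch_tri' (P := c.P) (fun ω => fl1 ((k - j + 1) * u) (c.z ω)) c.ln
    fun ω => (c.ln ω, fl1 ((k - j) * u) (c.z ω))
  have a5 : ch c.P (fun ω => (c.ln ω, fl1 ((k - j) * u) (c.z ω))) c.ln ≤ ((k - j) * u : ℕ) * lg := by
    have := ch_fl1_refine (P := c.P) (x := c.z) (G := c.ln) (j := fun _ => 0)
      (i := fun _ => (k - j) * u) (fun _ _ _ _ _ => rfl) (fun _ _ _ _ _ => rfl) fun a ha b hb _ =>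
        (fl1_zero_of_box (hE.box a ha).2.2.1 (hE.box a ha).2.2.2).trans
          (fl1_zero_of_box (hE.box b hb).2.2.1 (hE.box b hb).2.2.2).symm
    rw [FP.E_const] at this
    refine (ch_mono fun a _ b _ e => ?_).trans this
    simp only [zero_add, Prod.mk.injEq] at e ⊢
    exact e.symm
  have a6 := ch_info' (P := c.P) (ξ := c.z) c.fn_θ_ln
    ((Fn.comp (fl1 ((k - j + 1) * u)) c.z).left c.θ)
  have a7 := hE.hgt ((k - j + 1) * u) (Nat.mul_le_mul_right u (by omega))
  have a8 := hE.inf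
  have a9 : (0 : ℝ) ≤ Λ := le_trans (by positivity) hE.big
  rw [add_mul, Nat.cast_add, one_mul, add_mul] at a7
  refine le_trans ?_ (ch_anti (G' := fun x => (c.X ((j + 1) * u) (π' x), c.ln (π x),
    fl1 ((k - j) * u) (c.z (π x)))) fun a _ b _ e => by
      simp only [Prod.mk.injEq] at e ⊢
      tauto)
  simp only [add_mul, one_mul] at *
  linarith

end Pool.Agent.MP_5168f5_an.H17S
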