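import Pool.Agent.MP_5168f5_an.H17S.BeApi

/-! The body spanned by the directions of the copies is a grain. -/

namespace Pool.Agent.MP_5168f5_an.H17S

open H19 MeasureTheory

namespace GRAIN

variable {N : ℕ}

/-- The conditioning of level `k`. -/
noncomputable def Zk (c : Cfg N) (u K k : ℕ) (x : c.Ω × (Fin (K + 1) → c.Ω)) :
    (ℝ × (Fin (K + 1) → Z N × Z N)) × (c.zoom (k * u)).T :=
  ((c.z x.1, c.Dk u K k x), (c.zoom (k * u)).θ x.1)

theorem zk_eq {c : Cfg N} {u K k : ℕ} {a b : c.Ω × (Fin (K + 1) → c.Ω)}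
    (e : Zk c u K k a = Zk c u K k b) : c.z a.1 = c.z b.1 ∧ c.Dk u K k a = c.Dk u K k b ∧
      c.θ a.1 = c.θ b.1 ∧ c.X (k * u) a.1 = c.X (k * u) b.1 :=
  ⟨congrArg (·.1.1) e, congrArg (·.1.2) e, congrArg (·.2.1) e, congrArg (·.2.2) e⟩

theorem zk_mk {c : Cfg N} {u K k : ℕ} {a b : c.Ω × (Fin (K + 1) → c.Ω)}
    (h1 : c.z a.1 = c.z b.1) (h2 : c.Dk u K k a = c.Dk u K k b) (h3 : c.θ a.1 = c.θ b.1)
    (h4 : c.X (k * u) a.1 = c.X (k * u) b.1) : Zk c u K k a = Zk c u K k b :=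
  Prod.ext (Prod.ext h1 h2) (Prod.ext h3 h4)

theorem zoom_sub (c : Cfg N) (j : ℕ) {a b : c.Ω} (hz : c.z a = c.z b) (hX : c.X j a = c.X j b) :
    (c.zoom j).pt a - (c.zoom j).pt b = (2 : ℝ) ^ j • (c.pt a - c.pt b) := by
  have h1 : fl j (c.a a) = fl j (c.a b) := congrArg Prod.fst hX
  have h2 : fl j (c.e a) = fl j (c.e b) := congrArg Prod.snd hX
  rw [c.zoom_pt, c.zoom_pt, h1, h2, hz]
  module

theorem norm_zoom_sub (c : Cfg N) (j : ℕ) {a b : c.Ω} (hz : c.z a = c.z b)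
    (hX : c.X j a = c.X j b) :
    ‖(c.zoom j).pt a - (c.zoom j).pt b‖ = (2 : ℝ) ^ j * ‖c.pt a - c.pt b‖ := by
  rw [zoom_sub c j hz hX, norm_smul, Real.norm_eq_abs, abs_of_pos (by positivity)]

theorem base (s1 : Star1) (c : Cfg N) (u K k : ℕ) {α β : Type} (f : c.Ω → α) (g : c.Ω → β) :
    ch (c.St u K k) (fun x => f x.1) (fun x => g x.1) = ch c.P f g :=
  ch_law (Q₂ := c.P) Prod.fst id (s1.base c.P _) f g

theorem pow_split (k u : ℕ) :
    ((2 : ℝ) ^ ((k + 1) * u))⁻¹ = ((2 : ℝ) ^ (k * u))⁻¹ * ((2 : ℝ) ^ u)⁻¹ := by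
  rw [add_mul, one_mul, pow_add, mul_inv]

theorem low (s1 : Star1) (lv : LvA) {c : Cfg N} {u K k : ℕ} {s Λ : ℝ} (h : c.Ext u K s Λ)
    (hk : k ≤ K) : (N - s) * u * lg - Λ - 10 * N - 6 * (K + 1) * Λ ≤
      ch (c.St u K k) (fun x => (bot N u).kap ((c.zoom (k * u)).pt x.1)) (Zk c u K k) := by
  have h1 := ch_fl_le_kap (P := c.St u K k) u (fun x => (c.zoom (k * u)).pt x.1) (Zk c u K k)
  have h2 := ch_symm (P := c.St u K k) (fun x => fl u ((c.zoom (k * u)).pt x.1)) (c.Dk u K k)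
    fun x => (c.X (k * u) x.1, c.z x.1, c.θ x.1)
  have h3 : ch (c.St u K k) (fun x => fl u ((c.zoom (k * u)).pt x.1))
      (fun x => (c.Dk u K k x, c.X (k * u) x.1, c.z x.1, c.θ x.1)) ≤
      ch (c.St u K k) (fun x => fl u ((c.zoom (k * u)).pt x.1)) (Zk c u K k) :=
    ch_anti fun a _ b _ e => by
      simp only [Prod.mk.injEq] at e
      exact zk_mk e.2.2.1 e.1 e.2.2.2 e.2.1
  have h4 : ch (c.St u K k) (c.Dk u K k) (fun x => (c.ln x.1, c.z x.1)) ≤
      ch (c.St u K k) (c.Dk u K k)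
        fun x => (fl u ((c.zoom (k * u)).pt x.1), c.X (k * u) x.1, c.z x.1, c.θ x.1) :=
    ch_anti fun a _ b _ e => by
      simp only [Cfg.ln, Prod.mk.injEq] at e
      have hX : c.X (k * u) a.1 = c.X (k * u) b.1 := by simp only [Cfg.X, e.1.1, e.1.2.1]
      have hp : c.pt a.1 = c.pt b.1 := by simp only [Cfg.pt, e.1.1, e.1.2.1, e.2]
      have hy : (c.zoom (k * u)).pt a.1 = (c.zoom (k * u)).pt b.1 := by
        rw [← sub_eq_zero, zoom_sub c _ e.2 hX, hp, sub_self, smul_zero]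
      exact Prod.ext (congrArg (fl u) hy) (Prod.ext hX (Prod.ext e.2 e.1.2.2))
  have h5 := lv N c u K k k s Λ h hk le_rfl
  have h6 := ch_tri (P := c.St u K k) (fun x => fl ((k + 1) * u) (c.pt x.1))
    (fun x => fl u ((c.zoom (k * u)).pt x.1)) fun x => (c.X (k * u) x.1, c.z x.1, c.θ x.1)
  have h7 : ch (c.St u K k) (fun x => fl ((k + 1) * u) (c.pt x.1))
      (fun x => (fl u ((c.zoom (k * u)).pt x.1), c.X (k * u) x.1, c.z x.1, c.θ x.1)) ≤ 5 * N := by
    refine ch_fl_near (n := 1) (by norm_num) fun a _ b _ e => ?_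
    simp only [Prod.mk.injEq] at e
    have h8 := norm_sub_lt_of_fl_eq e.1
    rw [norm_zoom_sub c _ e.2.2.1 e.2.1] at h8
    rw [pow_split, Nat.cast_one, one_mul, le_inv_mul_iff₀ (by positivity)]
    exact h8.le
  have h9 := base s1 c u K k (fun ω => fl ((k + 1) * u) (c.pt ω))
    fun ω => (c.X (k * u) ω, c.z ω, c.θ ω)
  have h10 := h.low k (k + 1) (Nat.le_succ k) (Nat.succ_le_succ hk)
  have e : ((k + 1 : ℕ) : ℝ) - k = 1 := by push_cast; ring
  rw [e, mul_one] at h10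
  linarith

theorem up (hV : Vol (V N) N) (s1 : Star1) {c : Cfg N} {u K k : ℕ} {s Λ : ℝ}
    (h : c.Ext u K s Λ) (hk : k ≤ K) :
    ch (c.St u K k) (fun x => (bot N u).kap ((c.zoom (k * u)).pt x.1)) (Zk c u K k) ≤
      (N - s) * u * lg + Λ + 15 * N := by
  have h1 := ch_kap_le_fl (P := c.St u K k) hV u (fun x => (c.zoom (k * u)).pt x.1) (Zk c u K k)
  have h2 := ch_tri (P := c.St u K k) (fun x => fl u ((c.zoom (k * u)).pt x.1))
    (fun x => fl ((k + 1) * u) (c.pt x.1)) (Zk c u K k)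
  have h3 : ch (c.St u K k) (fun x => fl u ((c.zoom (k * u)).pt x.1))
      (fun x => (fl ((k + 1) * u) (c.pt x.1), Zk c u K k x)) ≤ 5 * N := by
    refine ch_fl_near (n := 1) (by norm_num) fun a _ b _ e => ?_
    have h8 := norm_sub_lt_of_fl_eq (congrArg Prod.fst e)
    have h9 := zk_eq (congrArg Prod.snd e)
    rw [norm_zoom_sub c _ h9.1 h9.2.2.2, Nat.cast_one, one_mul, ← le_inv_mul_iff₀ (by positivity),
      ← pow_split]
    exact h8.le
  have h4 := ch_tri' (P := c.St u K k) (fun x => fl ((k + 1) * u) (c.pt x.1)) (Zk c u K k)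
    fun x => (fl (k * u) (c.pt x.1), c.z x.1, c.θ x.1)
  have h5 : ch (c.St u K k) (fun x => (fl (k * u) (c.pt x.1), c.z x.1, c.θ x.1)) (Zk c u K k) ≤
      ch (c.St u K k) (fun x => fl (k * u) (c.pt x.1)) (Zk c u K k) :=
    ch_mono fun a _ b _ e => by
      have h9 := zk_eq (congrArg Prod.snd e)
      have h8 := congrArg Prod.fst e
      exact Prod.ext h8 (Prod.ext h9.1 h9.2.2.1)
  have h6 : ch (c.St u K k) (fun x => fl (k * u) (c.pt x.1)) (Zk c u K k) ≤ 5 * N := by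
    refine ch_fl_near (n := 2) (by norm_num) fun a ha b _ e => ?_
    have h9 := zk_eq e
    have hb := (h.box a.1 ((s1.mem c.P _ a).1 ha).1).2.2
    have h10 := c.norm_line_sub (t := c.z a.1) h9.2.2.2 (by rw [abs_of_nonneg hb.1]; exact hb.2.le)
    rw [Cfg.pt, Cfg.pt, ← h9.1]
    exact_mod_cast h10
  have h7 := base s1 c u K k (fun ω => fl ((k + 1) * u) (c.pt ω))
    fun ω => (fl (k * u) (c.pt ω), c.z ω, c.θ ω)
  have h10 := h.up k (k + 1) (Nat.le_succ k) (Nat.succ_le_succ hk)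
  have e : ((k + 1 : ℕ) : ℝ) - k = 1 := by push_cast; ring
  rw [e, mul_one] at h10
  linarith

theorem full (s2 : Star2) (fu : Full) {c : Cfg N} {u K k j : ℕ} {s Λ : ℝ} (h : c.Ext u K s Λ)
    (hk : k ≤ K) (hj : j < k) :
    ch (c.St u K k) (fun x => (seg u (c.dv u j x.1 (c.cp K j x))).kap ((c.zoom (k * u)).pt x.1))
        (Zk c u K k) +
      (c.St u K k).E (fun x => (seg u (c.dv u j x.1 (c.cp K j x))).lv - (bot N u).lv) ≤
      (N - s) * u * lg + 20 * Λ := by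
  have hK : j < K + 1 := by omega
  have hp : Pair c.P (c.φ u K (min j k)) (c.St u K k) Prod.fst fun x => x.2 ⟨j, hK⟩ :=
    s2.pair c.P (fun i : Fin (K + 1) => c.φ u K (min i k)) ⟨j, hK⟩
  rw [min_eq_left hj.le] at hp
  have h1 := fu N c u K j k s Λ _ _ _ _ h hj hk hp
  have hc : ∀ x, c.cp K j x = x.2 ⟨j, hK⟩ := fun x => dif_pos hK
  simp only [hc]
  refine le_trans (add_le_add (ch_anti fun a _ b _ e => ?_) le_rfl) h1
  have h9 := zk_eq e
  have h2 := congrFun h9.2.1 ⟨j, hK⟩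
  simp only [Cfg.Dk, if_pos hj] at h2
  exact Prod.ext h9.1 (Prod.ext h2 (Prod.ext h9.2.2.1 h9.2.2.2))

theorem step (hV : Vol (V N) N) (s1 : Star1) (s2 : Star2) (wk : WkA) (fu : Full) (lv : LvA)
    {c : Cfg N} {u K k : ℕ} {s Λ : ℝ} (h : c.Ext u K s Λ) (hk : k ≤ K) (j : ℕ) (hj : j ≤ k) :
    ch (c.St u K k) (fun x => (c.Wk u K x j).kap ((c.zoom (k * u)).pt x.1)) (Zk c u K k) +
      (c.St u K k).E (fun x => (c.Wk u K x j).lv - (bot N u).lv) ≤
      ch (c.St u K k) (fun x => (bot N u).kap ((c.zoom (k * u)).pt x.1)) (Zk c u K k) +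
        j * (30 * (K + 1) * Λ) := by
  have w := wk N c u K k hk
  induction j with
  | zero =>
    simp only [Cfg.Wk, sub_self, FP.E_const, Nat.cast_zero, zero_mul, le_refl]
  | succ j ih =>
    have hj' : j < k := hj
    have ih' := ih hj'.le
    have hA : Fn (c.St u K k) (fun x => c.Wk u K x j) (Zk c u K k) := fun a _ b _ e =>
      w.fW j hj'.le a b (zk_eq e).2.1 (zk_eq e).2.2.2
    have hB : Fn (c.St u K k) (fun x => seg u (c.dv u j x.1 (c.cp K j x))) (Zk c u K k) :=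
      fun a _ b _ e => congrArg (seg u) (w.fd j hj' a b (zk_eq e).2.1 (zk_eq e).2.2.2)
    have hI : Fn (c.St u K k) (fun x => c.Wk u K x j ⊓ seg u (c.dv u j x.1 (c.cp K j x)))
        (Zk c u K k) := fun a ha b hb e => congrArg₂ (· ⊓ ·) (hA a ha b hb e) (hB a ha b hb e)
    have h1 := hV.bmod (x := fun x => (c.zoom (k * u)).pt x.1) hA hB
    have h2 := hV.blip (x := fun x => (c.zoom (k * u)).pt x.1) (A := fun _ => bot N u)
      (fun _ _ _ _ _ => rfl) hI fun x hx =>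
        le_inf (w.wb x hx j (by omega)).1 (bot_le_seg u _)
    have h3 : (c.St u K k).E (fun x =>
          ((c.Wk u K x j ⊔ seg u (c.dv u j x.1 (c.cp K j x))).lv - (bot N u).lv) +
          ((c.Wk u K x j ⊓ seg u (c.dv u j x.1 (c.cp K j x))).lv - (bot N u).lv)) ≤
        (c.St u K k).E fun x => (((c.Wk u K x j).lv - (bot N u).lv) +
          ((seg u (c.dv u j x.1 (c.cp K j x))).lv - (bot N u).lv)) + 3 * N :=
      FP.E_mono _ fun x _ => by
        linarith [hV.mod1 (c.Wk u K x j) (seg u (c.dv u j x.1 (c.cp K j x)))]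
    rw [FP.E_add, FP.E_add, FP.E_add, FP.E_const] at h3
    have h4 := full s2 fu h hk hj'
    have h5 := low s1 lv h hk
    have h6 := h.big
    have h7 : (0 : ℝ) ≤ N := Nat.cast_nonneg N
    have h8 : (0 : ℝ) ≤ K * Λ := mul_nonneg (Nat.cast_nonneg K) (by linarith)
    simp only [Cfg.Wk]
    push_cast
    linarith

end GRAIN

theorem rowGRAIN : SGrain := by
  intro sv s1 s2 wk fu lv N c u K k s Λ h hk
  have h1 := GRAIN.step (sv N).1 s1 s2 wk fu lv h hk k le_rfl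
  have h2 := GRAIN.up (sv N).1 s1 h hk
  have h6 := h.big
  have h7 : (0 : ℝ) ≤ N := Nat.cast_nonneg N
  have hΛ : 0 ≤ Λ := by linarith
  have h0 : (0 : ℝ) ≤ K := Nat.cast_nonneg K
  have h8 : (k : ℝ) ≤ K := by exact_mod_cast hk
  have h9 : (k : ℝ) * (30 * (K + 1) * Λ) ≤ (K + 1) * (30 * (K + 1) * Λ) :=
    mul_le_mul_of_nonneg_right (by linarith) (by positivity)
  have h10 : 1 * Λ ≤ ((K : ℝ) + 1) ^ 2 * Λ :=
    mul_le_mul_of_nonneg_right (by nlinarith) hΛ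
  change ch (c.St u K k) _ (GRAIN.Zk c u K k) + _ ≤ _
  linarith

end Pool.Agent.MP_5168f5_an.H17S
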