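import Pool.Agent.MP_5168f5_an.H17S.BeApi

/-! A chain along which the slope of one function against another decreases. -/

namespace Pool.Agent.MP_5168f5_an.H17S

open H19 MeasureTheory

namespace HN

theorem near {α : Type} (f : α → ℝ) {S : Set α} (hS : S.Nonempty) {B : ℝ} (h : ∀ b ∈ S, f b ≤ B) :
    ∃ a ∈ S, ∀ b ∈ S, f b ≤ f a + 1 := by
  obtain ⟨_, ⟨a, ha, rfl⟩, h1⟩ := exists_lt_of_lt_csSup (hS.image f) (sub_one_lt (sSup (f '' S)))
  refine ⟨a, ha, fun b hb => ?_⟩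
  have := le_csSup (s := f '' S) ⟨B, Set.forall_mem_image.2 h⟩ ⟨b, hb, rfl⟩
  linarith

end HN

theorem rowHN : SHN := by
  intro α _ v c lo hi Λ L hL hlo hΛ hv h1 h2
  have hL' : (0 : ℝ) < L := Nat.cast_pos.2 hL
  have hn : ∀ (l : ℕ) (a : Set.Icc lo hi), ∃ a' : Set.Icc lo hi, a.1 ≤ a'.1 ∧
      (L ≤ l + 1 → a'.1 = hi) ∧ (l + 1 < L → ∀ b, a.1 ≤ b → b ≤ hi →
        c b - (1 - (l + 1 : ℝ) / L) * v b ≤ c a' - (1 - (l + 1 : ℝ) / L) * v a' + 1) := by
    intro l a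
    rcases le_or_gt L (l + 1) with h | h
    · exact ⟨⟨hi, hlo, le_rfl⟩, a.2.2, fun _ => rfl, fun h' => absurd h h'.not_ge⟩
    · have h3 : 0 ≤ 1 - (l + 1 : ℝ) / L := by
        rw [sub_nonneg, div_le_one hL']
        exact_mod_cast h.le
      obtain ⟨a', ha, h4⟩ := HN.near (fun b => c b - (1 - (l + 1 : ℝ) / L) * v b)
        (Set.nonempty_Icc.2 a.2.2) (B := c hi + Λ - (1 - (l + 1 : ℝ) / L) * v lo) fun b hb =>
          sub_le_sub (h2 b hi (a.2.1.trans hb.1) hb.2 le_rfl)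
            (mul_le_mul_of_nonneg_left (hv _ _ (a.2.1.trans hb.1)) h3)
      exact ⟨⟨a', a.2.1.trans ha.1, ha.2⟩, ha.1, fun h' => absurd h' h.not_ge,
        fun _ b hb hb' => h4 b ⟨hb, hb'⟩⟩
  choose nx n1 n2 n3 using hn
  let T : ℕ → Set.Icc lo hi := fun l => Nat.rec ⟨lo, le_rfl, hlo⟩ nx l
  have e : ∀ l, T (l + 1) = nx l (T l) := fun _ => rfl
  refine ⟨fun l => (T l).1, rfl, ?_, fun l => n1 l (T l), fun l => (T l).2, fun l hl b hb hb' => ?_,
    fun l hl => ?_⟩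
  · obtain ⟨l, rfl⟩ := Nat.exists_eq_add_one.2 hL
    exact n2 l (T l) le_rfl
  · beta_reduce
    cases l with
    | zero =>
      have := h1 _ b (T 0).2.1 hb hb'
      rw [Nat.cast_zero, zero_div, sub_zero, one_mul]
      linarith
    | succ l =>
      have := n3 l (T l) hl b ((n1 l (T l)).trans hb) hb'
      rw [Nat.cast_succ, e]
      linarith
  · beta_reduce
    rcases (Nat.succ_le_of_lt hl).eq_or_lt with h | h
    · have h3 : (l + 1 : ℝ) = L := by exact_mod_cast h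
      have := h2 _ _ (T l).2.1 (n1 l (T l)) (T (l + 1)).2.2
      rw [h3, div_self hL'.ne', sub_self, zero_mul, e]
      linarith
    · have := n3 l (T l) h _ le_rfl (T l).2.2
      rw [e]
      linarith

end Pool.Agent.MP_5168f5_an.H17S
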