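import Pool.Agent.MP_5168f5_an.H17S.BeApi

/-! Row INC: inclusions between the bodies attached to `A`. -/

namespace Pool.Agent.MP_5168f5_an.H17S

open H19 MeasureTheory

namespace INC

open Bd

variable {N : ℕ} {Tm Tp : Bd (V N)} {A : Bd (V N × V N)}

theorem cast {E : Type} [NormedAddCommGroup E] [NormedSpace ℝ E] {B : Bd E} {c c' : ℝ} {x y : E}
    (h : B.In c x) (hc : 0 < c) (hcc : c ≤ c') (e : x = y) : B.In c' y := e ▸ h.mono hc hcc

theorem pos0 (h1 : sq Tm ≤ A) {c : ℝ} {y : V N} (h : Tm.In c y) : A.In c (y, 0) :=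
  In.of_le (in_sq.2 ⟨h, in_zero _ _⟩) h1

theorem key (h1 : sq Tm ≤ A) {z : ℝ} {e : V N} (h : e ∈ (Fd A z Tm Tp).s) :
    A.In 2 (-(z • e), e) ∧ e ∈ Tp.s := by
  obtain ⟨a, a1, a2, a3⟩ := in_Fd_elim (in_one.2 h) one_pos
  exact ⟨cast (a1.sub (pos0 h1 a2) one_pos one_pos) (by norm_num) (by norm_num) (by simp),
    in_one.1 a3⟩

theorem yin (h2 : A ≤ sq Tp) {z : ℝ} (hz : |z| ≤ 1) {x : V N × V N} (h : x ∈ A.s) :
    (Yd A z Tp).In 2 (x.1 + z • x.2) := by
  obtain ⟨a, b⟩ := mem_sq.1 (h2 h)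
  exact in_Yd (In.of_mem h one_le_two) (cast ((in_one.2 a).add (in_one.2 (smul_mem b hz))
    one_pos one_pos) (by norm_num) (by norm_num) rfl)

theorem ab {a b : ℝ} (ha : a ∈ Set.Icc (0 : ℝ) 1) (hb : b ∈ Set.Icc (0 : ℝ) 1) : |a - b| ≤ 1 :=
  abs_le.2 ⟨by linarith [ha.1, hb.2], by linarith [ha.2, hb.1]⟩

theorem ab1 {a : ℝ} (ha : a ∈ Set.Icc (0 : ℝ) 1) : |a| ≤ 1 :=
  abs_le.2 ⟨by linarith [ha.1], ha.2⟩

theorem quo {s t d : ℝ} (hs : 0 < s) (hd : s ≤ |d|) (ht : |t| ≤ 1) : |t / d| ≤ 1 / s := by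
  rw [abs_div]
  exact div_le_div₀ zero_le_one ht hs hd

end INC

open INC Bd in
theorem rowINC : SInc := by
  intro N Tm Tp A h0 h1 h2
  have yb : ∀ z : ℝ, Tm ≤ Yd A z Tp := fun z y hy => by
    have := in_Yd (z := z) (pos0 h1 (in_one.2 hy)) (Tp := Tp) (in_one.2 (by simpa using h0 hy))
    simpa using in_one.1 this
  refine ⟨fun z hz => ⟨fun e he => ?_, fun e he => (key h1 he).2⟩, fun z => ⟨yb z, inf_le_right⟩,
    fun z x hx => ?_, fun z x hx => ?_, fun z K x hx => ?_, fun z W K hz hW hK x hx => ?_,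
    fun z W M hM x hx => ?_, fun s a b c hs hab ha hb hc e he => ?_,
    fun s a b c hs hab ha hb hc y hy => ?_, fun s a b hs hab ha hb e he => ?_⟩
  · exact in_one.1 (in_Fd (x := (-(z • e), e))
      (in_one.2 (h1 (mem_sq.2 ⟨Tm.sy _ (smul_mem he hz), he⟩))) (by simpa using in_zero Tm 1)
      (in_one.2 (h0 he)))
  · obtain ⟨a, a1, a2, a3⟩ := in_Fd_elim (in_one.2 hx.2) one_pos
    refine in_inf.2 ⟨?_, In.of_mem ⟨hx.1, in_one.1 a3⟩ (by norm_num)⟩
    exact cast (a1.add (pos0 h1 ((in_one.2 hx.1).sub a2 one_pos one_pos)) one_pos (by norm_num))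
      (by norm_num) (by norm_num) (Prod.ext (by simp) (by simp))
  · obtain ⟨b, b1, b2, -⟩ := in_Yd_elim (in_one.2 hx.1) one_pos
    have b3 : (cyl z Tm Tp).In (1 + 1) (x - b) := in_cyl.2 ⟨by
      have e : (x - b).1 + z • (x - b).2 = (x.1 + z • x.2) - (b.1 + z • b.2) := by
        simp only [Prod.fst_sub, Prod.snd_sub]
        module
      rw [e, b2, sub_self]
      exact in_zero _ _, (in_one.2 hx.2).sub (in_sq.1 (b1.of_le h2)).2 one_pos one_pos⟩
    exact cast (b1.sup_add b3 one_pos (by norm_num)) (by norm_num) (by norm_num) (by simp)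
  · exact ⟨hx.2.1, in_one.1 (in_Fd (in_one.2 hx.1.2) (in_one.2 hx.2.1) (in_one.2 hx.2.2))⟩
  · obtain ⟨b, hb, p, hp, rfl⟩ := mem_sup_elim hx
    have e : b.1 + z • b.2 + (p.1 + z • p.2) = (b + p).1 + z • (b + p).2 := by
      simp only [Prod.fst_add, Prod.snd_add]
      module
    refine in_cyl.2 ⟨in_inf.2 ⟨?_, ?_⟩, ?_⟩
    · exact cast ((in_cyl.1 (hK b hb.1)).1.add (in_one.2 (hW hp.1)) (by norm_num) one_pos)
        (by norm_num) (by norm_num) e
    · exact cast ((yin h2 hz hb.2).add (in_one.2 (yb z hp.1)) (by norm_num) one_pos)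
        (by norm_num) (by norm_num) e
    · exact cast ((in_one.2 (mem_sq.1 (h2 hb.2)).2).add (in_one.2 hp.2) one_pos one_pos)
        (by norm_num) (by norm_num) rfl
  · obtain ⟨m1, m2⟩ := in_cyl.1 (hM x hx.1)
    exact in_cyl.2 ⟨m1, in_inf.2 ⟨m2, in_Fd (In.of_mem hx.2 (by norm_num)) m1
      (In.of_mem (mem_sq.1 (h2 hx.2)).2 (by norm_num))⟩⟩
  · obtain ⟨a1, a2⟩ := key h1 he.1
    obtain ⟨b1, -⟩ := key h1 he.2
    have d : a - b ≠ 0 := abs_pos.1 (hs.trans_le hab)
    have s1 : 1 ≤ 1 / s := one_le_one_div hs (hab.trans (ab ha hb))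
    have e6 : 6 / s = 6 * (1 / s) := by ring
    have k := a1.add ((b1.sub a1 two_pos two_pos).smul (quo hs hab (ab ha hc)) (by positivity))
      two_pos (by positivity)
    refine in_Fd (x := (-(c • e), e)) (cast k (by positivity) (by linarith) ?_)
      (by simpa using in_zero Tm _) (In.of_mem a2 (by linarith))
    refine Prod.ext ?_ (by simp)
    simp only [Prod.fst_add, Prod.smul_fst, Prod.fst_sub]
    match_scalars
    field_simp
    ring
  · obtain ⟨x, x1, rfl, -⟩ := in_Yd_elim (in_one.2 hy) one_pos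
    have d : a - b ≠ 0 := abs_pos.1 (hs.trans_le hab)
    refine cast (((yin h2 (ab1 ha) (in_one.1 x1)).smul (quo hs hab (ab hc hb))
      (by positivity)).sup_add ((yin h2 (ab1 hb) (in_one.1 x1)).smul (quo hs hab (ab ha hc))
      (by positivity)) (by positivity) (by positivity)) (by positivity) (le_of_eq (by ring)) ?_
    match_scalars <;> field_simp <;> ring
  · obtain ⟨a1, a2⟩ := key h1 he
    have d : a - b ≠ 0 := abs_pos.1 (hs.trans_le hab)
    have k := in_Yd (z := b) a1 (Tp := Tp) (cast (in_one.2 (smul_mem a2 (ab hb ha))) one_pos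
      one_le_two (by
        show _ = -(a • e) + b • e
        module))
    refine cast (k.smul (quo (t := -1) hs hab (by simp)) (by positivity)) (by positivity)
      (le_of_eq (by ring)) ?_
    show _ • (-(a • e) + b • e) = e
    match_scalars
    field_simp
    ring

end Pool.Agent.MP_5168f5_an.H17S
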