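import Pool.Agent.MP_5168f5_an.H17S.BeApi

/-! The direction keeps its entropy given the data of many heights. -/

namespace Pool.Agent.MP_5168f5_an.H17S

open H19 MeasureTheory

theorem rowINFO : SInfo := by
  intro s1 s2 N c δ ξ W u m A Λ h
  obtain ⟨ω₀, -⟩ : c.P.S.Nonempty :=
    Finset.nonempty_of_sum_ne_zero (by rw [c.P.sum_one]; exact one_ne_zero)
  have hv : (fun (x : c.Ω × (Fin m → c.Ω)) (j : Fin m) =>
      if j ∈ (Finset.univ : Finset (Fin m)) then ξ (x.2 j) else ξ ω₀) =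
      fun x j => ξ (x.2 j) := by
    funext x j
    rw [if_pos (Finset.mem_univ j)]
  have e1 := ch_symm (P := c.Hs m) (fun x => fl u (c.e x.1)) (fun x j => ξ (x.2 j))
    fun x => c.θ x.1
  have e2 : ch (c.Hs m) (fun x => fl u (c.e x.1)) (fun x => c.θ x.1) =
      ch c.P (fun ω => fl u (c.e ω)) c.θ :=
    ch_law (Q₂ := c.P) Prod.fst id (s1.base c.P fun _ : Fin m => c.ln)
      (fun ω => fl u (c.e ω)) c.θ
  have e3 := ch_pi_le (P := c.Hs m) Finset.univ (fun (j : Fin m) x => ξ (x.2 j)) (ξ ω₀)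
    fun x => c.θ x.1
  have e4 : ∀ j : Fin m, ch (c.Hs m) (fun x => ξ (x.2 j)) (fun x => c.θ x.1) ≤ ch c.P ξ c.θ := by
    intro j
    refine le_trans (ch_anti (G := fun x : c.Ω × (Fin m → c.Ω) => c.θ (x.2 j)) ?_)
      ((s2.pair c.P (fun _ : Fin m => c.ln) j).ch_copy ξ c.θ).le
    intro a ha b hb e
    have h1 := congrArg (fun v => v.2.2) (((s1.mem c.P (fun _ : Fin m => c.ln) a).1 ha).2 j).2
    have h2 := congrArg (fun v => v.2.2) (((s1.mem c.P (fun _ : Fin m => c.ln) b).1 hb).2 j).2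
    exact h1.trans (e.trans h2.symm)
  have e5 := s2.ind c.P (fun _ : Fin m => c.ln) Finset.univ (fun _ => ξ) (ξ ω₀) c.ln
    fun _ _ => Fn.rfl _
  have e6 : ch (c.Hs m) (fun x j => ξ (x.2 j)) (fun x => c.ln x.1) ≤
      ch (c.Hs m) (fun x j => ξ (x.2 j)) fun x => (fl u (c.e x.1), c.θ x.1) :=
    ch_anti fun a _ b _ e => congrArg (fun v : V N × V N × c.T => (fl u v.2.1, v.2.2)) e
  have e7 : ch (c.Hs m) (fun x => fl u (c.e x.1)) (fun x => (fun j => ξ (x.2 j), c.θ x.1)) ≤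
      ch (c.Hs m) (fun x => fl u (c.e x.1)) fun x => (c.θ x.1, fun j => ξ (x.2 j)) :=
    ch_anti fun a _ b _ e => congrArg Prod.swap e
  have e8 := ch_fl_le_kap (P := c.Hs m) u (fun x => c.e x.1)
    fun x => (c.θ x.1, fun j => ξ (x.2 j))
  rw [hv] at e3 e5
  have e9 := e3.trans (Finset.sum_le_sum fun j _ => e4 j)
  simp only [Finset.sum_const, Finset.card_univ, Fintype.card_fin, nsmul_eq_mul] at e5 e9
  have e10 := mul_le_mul_of_nonneg_left h.inf (Nat.cast_nonneg (α := ℝ) m)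
  have e11 := h.dir
  have e12 := h.big
  have e13 : (0 : ℝ) ≤ N := Nat.cast_nonneg N
  have e14 : (m : ℝ) * ch c.P ξ c.ln ≤ ch (c.Hs m) (fun x j => ξ (x.2 j)) fun x => c.ln x.1 := e5
  linarith

end Pool.Agent.MP_5168f5_an.H17S
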