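import Pool.Agent.MP_5168f5_an.H17S.BeApi

/-! The lattice inequality. -/

namespace Pool.Agent.MP_5168f5_an.H17S

open H19 MeasureTheory

namespace LAT

open Finset

theorem abel (x : ℕ → ℝ) (n : ℕ) :
    ∑ l ∈ range n, ((n : ℝ) - l) * (x (l + 1) - x l) = ∑ l ∈ range n, (x (l + 1) - x 0) := by
  induction n with
  | zero => simp
  | succ n ih =>
    have e : ∑ l ∈ range (n + 1), (((n + 1 : ℕ) : ℝ) - l) * (x (l + 1) - x l) =
        ∑ l ∈ range (n + 1), (((n : ℝ) - l) * (x (l + 1) - x l) + (x (l + 1) - x l)) :=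
      sum_congr rfl fun l _ => by push_cast; ring
    rw [e, sum_add_distrib, sum_range_sub x, sum_range_succ, ih, sum_range_succ]
    ring

theorem abel' (x : ℕ → ℝ) {L : ℕ} (hL : 0 < L) :
    ∑ l ∈ range L, (1 - (l : ℝ) / L) * (x (l + 1) - x l) =
      (∑ l ∈ range L, (x (l + 1) - x 0)) / L := by
  have : (0 : ℝ) < L := by exact_mod_cast hL
  rw [← abel, sum_div]
  refine sum_congr rfl fun l _ => ?_
  field_simp

variable {N : ℕ} {z : ℝ} {T W U T₀ T₁ Tm Tp : Bd (V N)}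

theorem smul_in (hz : z ∈ Set.Icc (0 : ℝ) 1) {y : V N} (hy : y ∈ T.s) : T.In 1 (z • y) :=
  Bd.in_one.2 (Bd.smul_mem hy (by rw [abs_of_nonneg hz.1]; exact hz.2))

theorem pos2 (hz : z ∈ Set.Icc (0 : ℝ) 1) {x : V N × V N} (hx : x ∈ (sq T).s) :
    T.In 2 (x.1 + z • x.2) :=
  ((Bd.in_one.2 (mem_sq.1 hx).1).add (smul_in hz (mem_sq.1 hx).2) one_pos one_pos).mono
    (by norm_num) (by norm_num)

theorem pos_add (z : ℝ) (a b : V N × V N) :
    (a + b).1 + z • (a + b).2 = (a.1 + z • a.2) + (b.1 + z • b.2) := by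
  simp only [Prod.fst_add, Prod.snd_add]
  module

theorem subK (hz : z ∈ Set.Icc (0 : ℝ) 1) (h : Tm ≤ Tp) :
    ((cyl z W T₁ ⊓ sq Tp) ⊔ sq Tm).Sub (cyl z ((W ⊓ Tp) ⊔ Tm) Tp) 4 := by
  intro x hx
  obtain ⟨a, ⟨ha, ha'⟩, b, hb, rfl⟩ := Bd.mem_sup_elim hx
  refine in_cyl.2 ⟨?_, ?_⟩
  · rw [pos_add]
    exact ((Bd.in_inf.2 ⟨Bd.In.of_mem ha.1 one_le_two, pos2 hz ha'⟩).sup_add (pos2 hz hb) two_pos
      two_pos).mono (by norm_num) (by norm_num)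
  · exact ((Bd.in_one.2 (mem_sq.1 ha').2).add (Bd.in_one.2 (h (mem_sq.1 hb).2)) one_pos
      one_pos).mono (by norm_num) (by norm_num)

theorem subM (hz : z ∈ Set.Icc (0 : ℝ) 1) (h : T₀ ≤ Tm) :
    ((cyl z T₀ W ⊓ sq Tp) ⊔ sq Tm).Sub (cyl z Tm ((W ⊓ Tp) ⊔ Tm)) 4 := by
  intro x hx
  obtain ⟨a, ⟨ha, ha'⟩, b, hb, rfl⟩ := Bd.mem_sup_elim hx
  refine in_cyl.2 ⟨?_, ?_⟩
  · rw [pos_add]
    exact ((Bd.in_one.2 (h ha.1)).add (pos2 hz hb) one_pos two_pos).mono (by norm_num) (by norm_num)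
  · exact ((Bd.in_one.2 (Bd.mem_inf.2 ⟨ha.2, (mem_sq.1 ha').2⟩)).sup_add
      (Bd.in_one.2 (mem_sq.1 hb).2) one_pos one_pos).mono (by norm_num) (by norm_num)

theorem subE (hz : z ∈ Set.Icc (0 : ℝ) 1) (h : W ≤ T) (h' : U ≤ T) :
    (cyl z W U).Sub (cyl z W U ⊓ sq T) 2 := by
  intro x hx
  refine Bd.in_inf.2 ⟨Bd.In.of_mem hx one_le_two, in_sq.2 ⟨?_, Bd.In.of_mem (h' hx.2) one_le_two⟩⟩
  have := (Bd.in_one.2 (h hx.1)).sub (smul_in hz (h' hx.2)) one_pos one_pos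
  rw [add_sub_cancel_right] at this
  exact this.mono (by norm_num) (by norm_num)

theorem semi (hV : Vol (V N) N) (h : Tm ≤ U) :
    (((W ⊓ Tp) ⊔ Tm) ⊓ U).lv - Tm.lv ≤ (W ⊓ U).lv - (W ⊓ Tm).lv + 5 * N := by
  have a : (((W ⊓ Tp) ⊔ Tm) ⊓ U).Sub ((W ⊓ U) ⊔ Tm) 3 := by
    intro x hx
    obtain ⟨a, ha, b, hb, rfl⟩ := Bd.mem_sup_elim hx.1
    have e := (Bd.in_one.2 hx.2).sub (Bd.in_one.2 (h hb)) one_pos one_pos
    rw [add_sub_cancel_right] at e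
    exact ((Bd.in_inf.2 ⟨Bd.In.of_mem ha.1 (by norm_num), e⟩).sup_add (Bd.in_one.2 hb) (by norm_num)
      one_pos).mono (by norm_num) (by norm_num)
  have b := hV.sub _ _ 3 (by norm_num) a
  have c := hV.mod1 (W ⊓ U) Tm
  have d : (W ⊓ Tm).lv ≤ ((W ⊓ U) ⊓ Tm).lv := hV.mono (le_inf (inf_le_inf_left W h) inf_le_right)
  have e : Real.log 3 ≤ 2 := (Real.log_le_sub_one_of_pos (by norm_num)).trans (by norm_num)
  have f : (N : ℝ) * Real.log 3 ≤ N * 2 := mul_le_mul_of_nonneg_left e (Nat.cast_nonneg N)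
  linarith

theorem lip (hV : Vol (V N) N) {a b : Bd (V N)} (h : a ≤ b) :
    (W ⊓ b).lv - (W ⊓ a).lv ≤ b.lv - a.lv + 3 * N := by
  have c := hV.mod2 (W ⊓ b) a
  have d : ((W ⊓ b) ⊔ a).lv ≤ b.lv := hV.mono (sup_le inf_le_right h)
  have e : ((W ⊓ b) ⊓ a).lv ≤ (W ⊓ a).lv := hV.mono (inf_le_inf_right a inf_le_left)
  linarith

theorem step (hV1 : Vol (V N) N) (hV2 : Vol (V N × V N) (2 * N)) (hC : Vol2 N) (hBL : SBL)
    (h6 : Six) {m L : ℕ} {z : Fin m → ℝ} {s Λ μ : ℝ} {W : Fin m → Bd (V N)}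
    {h : Bd (V N × V N) → ℝ} (hm : 5 ≤ m) (hL : 0 < L) (hs : 0 < s) (hs1 : s ≤ 1)
    (hz : ∀ i, z i ∈ Set.Icc (0 : ℝ) 1) (hzz : ∀ i j, i ≠ j → s ≤ |z i - z j|) (hΛ : 1 ≤ Λ)
    (hN : N * (Real.log (8 / s) + 3) ≤ Λ) (h5 : 5 * (N : ℝ) ≤ Λ)
    (h1 : ∀ A B, A.Sub B 2 → h B ≤ h A + Λ) (h2 : ∀ A B, A ≤ B → h A ≤ h B + (B.lv - A.lv) + Λ)
    (h3 : ∀ A B, h (A ⊔ B) + h (A ⊓ B) ≤ h A + h B + Λ) (μ0 : 0 ≤ μ) (μ1 : μ ≤ 1)
    (t0 : T₀ ≤ Tm) (tm : Tm ≤ Tp)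
    (ss : ∀ U, Tm ≤ U → U ≤ Tp →
      ∑ i, ((W i ⊓ U).lv - (W i ⊓ Tm).lv) ≤ m * (μ * (U.lv - Tm.lv) + 2 * Λ)) :
    ∑ i, ((h (cyl (z i) (W i) T₁ ⊓ sq Tm) - h (cyl (z i) (W i) T₁ ⊓ sq Tp)) +
      (h (cyl (z i) T₀ (W i) ⊓ sq Tm) - h (cyl (z i) T₀ (W i) ⊓ sq Tp))) ≤
      m * (1 / 2 + μ) * (h (sq Tm) - h (sq Tp)) + (3 * m / L + 8) * (Tp.lv - Tm.lv) +
        61 * m * L * Λ := by
  have m0 : (0 : ℝ) ≤ m := Nat.cast_nonneg m
  have L1 : (1 : ℝ) ≤ L := by exact_mod_cast hL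
  have N0 : (0 : ℝ) ≤ N := Nat.cast_nonneg N
  have st : sq Tm ≤ sq Tp := sq_mono tm
  set K : Fin m → Bd (V N × V N) := fun i => (cyl (z i) (W i) T₁ ⊓ sq Tp) ⊔ sq Tm with hK
  set M : Fin m → Bd (V N × V N) := fun i => (cyl (z i) T₀ (W i) ⊓ sq Tp) ⊔ sq Tm with hM
  have six := fun A => h6 N m z s μ (3 * Λ) Λ Tm Tp (fun i => (W i ⊓ Tp) ⊔ Tm) K M A hm hs hs1 hz hzz
    μ0 μ1 hN tm (fun i => ⟨le_sup_right, sup_le inf_le_right tm⟩) (fun i => subK (hz i) tm)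
    (fun i => subM (hz i) t0) (fun U a b => by
      have e : ∑ i, ((((W i ⊓ Tp) ⊔ Tm) ⊓ U).lv - Tm.lv) ≤
          ∑ i, (((W i ⊓ U).lv - (W i ⊓ Tm).lv) + Λ) :=
        sum_le_sum fun i _ => (semi hV1 a).trans (by linarith)
      rw [sum_add_distrib, sum_const, card_univ, Fintype.card_fin, nsmul_eq_mul] at e
      linarith [ss U a b])
  have bl := hBL (fun A : Bd (V N × V N) => A.lv) (fun A => -h A) (sq Tm) (sq Tp) (2 * Λ) L
    (univ : Finset (Fin m ⊕ Fin m)) (Sum.elim K M) (m * (1 / 2 + μ))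
    (m * (2 * (3 * Λ) + 30 * Λ) + 8 * (Tp.lv - Tm.lv)) hL st (by linarith) (by positivity)
    (fun a b e => hV2.mono e) (fun a b _ e _ => by linarith [h2 a b e])
    (fun a b _ e _ => by linarith [h1 a b (Bd.Sub.of_le e one_le_two)])
    (fun a b => by linarith [hV2.mod1 a b]) (fun a b => by linarith [h3 a b])
    (by rintro (i | i) _ <;> exact ⟨le_sup_right, sup_le inf_le_right st⟩)
    (fun A a b => by
      have := six A a b
      rw [sum_add_distrib] at this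
      rw [Fintype.sum_sum_type]
      simp only [Sum.elim_inl, Sum.elim_inr]
      linarith)
  rw [Fintype.sum_sum_type, ← sum_add_distrib, card_univ, Fintype.card_sum, Fintype.card_fin] at bl
  simp only [Sum.elim_inl, Sum.elim_inr, sq, hC.cyl] at bl
  have sub : ∀ X, h (X ⊓ sq Tm) - h (X ⊓ sq Tp) ≤ -h ((X ⊓ sq Tp) ⊔ sq Tm) - -h (sq Tm) + Λ := by
    intro X
    have := h3 (X ⊓ sq Tp) (sq Tm)
    rw [inf_assoc, inf_eq_right.2 st] at this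
    linarith
  have e : ∑ i, ((h (cyl (z i) (W i) T₁ ⊓ sq Tm) - h (cyl (z i) (W i) T₁ ⊓ sq Tp)) +
      (h (cyl (z i) T₀ (W i) ⊓ sq Tm) - h (cyl (z i) T₀ (W i) ⊓ sq Tp))) ≤
      ∑ i, (((-h (K i) - -h (sq Tm)) + (-h (M i) - -h (sq Tm))) + 2 * Λ) :=
    sum_le_sum fun i _ => by linarith [sub (cyl (z i) (W i) T₁), sub (cyl (z i) T₀ (W i))]
  rw [sum_add_distrib (g := fun _ => 2 * Λ), sum_const, card_univ, Fintype.card_fin,
    nsmul_eq_mul] at e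
  have R0 : 0 ≤ Tp.lv - Tm.lv := sub_nonneg.2 (hV1.mono tm)
  have a1 : m * (1 / 2 + μ) * (Tp.lv + Tp.lv - (Tm.lv + Tm.lv)) / L ≤
      3 * m / L * (Tp.lv - Tm.lv) := by
    rw [div_mul_eq_mul_div]
    refine div_le_div_of_nonneg_right ?_ (by linarith)
    nlinarith [mul_nonneg (mul_nonneg m0 R0) (sub_nonneg.2 μ1)]
  have a2 : (3 * ((m + m : ℕ) : ℝ) + m * (1 / 2 + μ)) * L * (2 * Λ + 1) ≤ 15 / 2 * m * L * (3 * Λ) := by
    refine mul_le_mul (mul_le_mul_of_nonneg_right ?_ (by linarith)) (by linarith) (by linarith)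
      (by positivity)
    push_cast
    nlinarith [mul_nonneg m0 (sub_nonneg.2 μ1)]
  have a3 : m * Λ ≤ m * L * Λ :=
    mul_le_mul_of_nonneg_right (le_mul_of_one_le_right m0 L1) (by linarith)
  have a4 : 0 ≤ m * Λ := by positivity
  simp only [sq] at e ⊢
  linarith

end LAT

open LAT Finset

theorem rowLAT : SLat := by
  intro hV hC hHN hBL h6 N m L z s η Λ T₀ T₁ W h hm hL hs hs1 hz hzz hΛ hN hW h0 h1 h2 h3 h4
  obtain ⟨hV1, hV2⟩ := hV N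
  have m0 : (0 : ℝ) < m := by exact_mod_cast (by omega : 0 < m)
  have L1 : (1 : ℝ) ≤ L := by exact_mod_cast hL
  have N0 : (0 : ℝ) ≤ N := Nat.cast_nonneg N
  have h5 : 5 * (N : ℝ) ≤ Λ := by
    have a : Real.log ((2 : ℝ) ^ 3) ≤ Real.log (8 / s) :=
      Real.log_le_log (by norm_num) (by rw [le_div_iff₀ hs]; linarith)
    have b := Real.log_two_gt_d9
    rw [Real.log_pow] at a
    push_cast at a
    nlinarith
  have t01 : T₀ ≤ T₁ := (hW ⟨0, by omega⟩).1.trans (hW ⟨0, by omega⟩).2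
  have cs : ∀ c : ℝ, ∑ _i : Fin m, c = m * c := fun c => by
    rw [sum_const, card_univ, Fintype.card_fin, nsmul_eq_mul]
  obtain ⟨T, T0, TL, Tm, Tb, Ta, Tc⟩ := hHN (fun A : Bd (V N) => A.lv)
    (fun U => (∑ i, (W i ⊓ U).lv) / m) T₀ T₁ Λ L hL t01 (by linarith) (fun a b e => hV1.mono e)
    (fun a b _ e _ => by
      rw [← sub_div, ← sum_sub_distrib, div_le_iff₀' m0, ← cs]
      exact sum_le_sum fun i _ => (lip hV1 e).trans (by linarith))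
    (fun a b _ e _ => by
      have : (∑ i, (W i ⊓ a).lv) / m ≤ (∑ i, (W i ⊓ b).lv) / m :=
        div_le_div_of_nonneg_right (sum_le_sum fun i _ => hV1.mono (inf_le_inf_left _ e)) m0.le
      linarith)
  have st := sum_le_sum (s := range L) fun l hl => step (T₀ := T₀) (T₁ := T₁) (Tm := T l)
    (Tp := T (l + 1)) (W := W) (μ := 1 - (l : ℝ) / L) hV1 hV2 (hC N) hBL h6 hm hL hs hs1 hz hzz hΛ hN
    h5 h1 h2 h3
    (by
      rw [sub_nonneg, div_le_one (by linarith)]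
      exact_mod_cast (mem_range.1 hl).le)
    (sub_le_self _ (by positivity)) (Tb l).1 (Tm l) (fun U a b => by
      have := Ta l (mem_range.1 hl) U a (b.trans (Tb _).2)
      rw [← sub_div, ← sum_sub_distrib, div_le_iff₀' m0] at this
      exact this.trans (mul_le_mul_of_nonneg_left (by linarith) m0.le))
  have e1 : ∑ l ∈ range L, ∑ i, ((h (cyl (z i) (W i) T₁ ⊓ sq (T l)) -
      h (cyl (z i) (W i) T₁ ⊓ sq (T (l + 1)))) + (h (cyl (z i) T₀ (W i) ⊓ sq (T l)) -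
      h (cyl (z i) T₀ (W i) ⊓ sq (T (l + 1))))) =
      ∑ i, ((h (cyl (z i) (W i) T₁ ⊓ sq T₀) - h (cyl (z i) (W i) T₁ ⊓ sq T₁)) +
        (h (cyl (z i) T₀ (W i) ⊓ sq T₀) - h (cyl (z i) T₀ (W i) ⊓ sq T₁))) := by
    rw [sum_comm]
    refine sum_congr rfl fun i _ => ?_
    rw [sum_add_distrib, sum_range_sub' fun l => h (cyl (z i) (W i) T₁ ⊓ sq (T l)),
      sum_range_sub' fun l => h (cyl (z i) T₀ (W i) ⊓ sq (T l)), T0, TL]
  have e2 : ∑ l ∈ range L, (m * (1 / 2 + (1 - (l : ℝ) / L)) * (h (sq (T l)) - h (sq (T (l + 1)))) +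
      (3 * m / L + 8) * ((T (l + 1)).lv - (T l).lv) + 61 * m * L * Λ) =
      m / 2 * (h (sq T₀) - h (sq T₁)) +
        m * ((∑ l ∈ range L, (-h (sq (T (l + 1))) - -h (sq (T 0)))) / L) +
        (3 * m / L + 8) * (T₁.lv - T₀.lv) + L * (61 * m * L * Λ) := by
    rw [sum_add_distrib, sum_add_distrib, ← mul_sum, sum_range_sub fun l => (T l).lv, sum_const,
      card_range, nsmul_eq_mul, ← abel' (fun l => -h (sq (T l))) hL, ← T0, ← TL,
      ← sum_range_sub' fun l => h (sq (T l)), mul_sum, mul_sum, ← sum_add_distrib]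
    congr 2
    exact sum_congr rfl fun l _ => by ring
  rw [e1, e2] at st
  have e3 : ∑ i, (2 * h (sq T₀) - 4 * Λ - (h (cyl (z i) (W i) T₁) + h (cyl (z i) T₀ (W i)))) ≤
      ∑ i, ((h (cyl (z i) (W i) T₁ ⊓ sq T₀) - h (cyl (z i) (W i) T₁ ⊓ sq T₁)) +
        (h (cyl (z i) T₀ (W i) ⊓ sq T₀) - h (cyl (z i) T₀ (W i) ⊓ sq T₁))) :=
    sum_le_sum fun i _ => by
      linarith [h1 _ _ (Bd.Sub.of_le (inf_le_right (a := cyl (z i) (W i) T₁) (b := sq T₀)) one_le_two),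
        h1 _ _ (Bd.Sub.of_le (inf_le_right (a := cyl (z i) T₀ (W i)) (b := sq T₀)) one_le_two),
        h1 _ _ (subE (hz i) (hW i).2 le_rfl), h1 _ _ (subE (hz i) t01 (hW i).2)]
  rw [sum_sub_distrib, cs] at e3
  have e4 : (∑ l ∈ range L, (-h (sq (T (l + 1))) - -h (sq (T 0)))) / L ≤
      h (sq T₀) - η + Λ + (∑ l ∈ range L, ((T (l + 1)).lv - (T 0).lv)) / L := by
    have : ∑ l ∈ range L, (-h (sq (T (l + 1))) - -h (sq (T 0))) ≤
        ∑ l ∈ range L, ((h (sq T₀) - η + Λ) + ((T (l + 1)).lv - (T 0).lv)) :=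
      sum_le_sum fun l _ => by
        rw [T0]
        linarith [h4 _ (Tb (l + 1)).1 (Tb (l + 1)).2]
    rw [sum_add_distrib, sum_const, card_range, nsmul_eq_mul] at this
    rw [div_le_iff₀ (by linarith), add_mul, div_mul_cancel₀ _ (by linarith)]
    linarith
  have e5 : m * ((∑ l ∈ range L, ((T (l + 1)).lv - (T 0).lv)) / L) ≤
      ∑ i, ((W i).lv - T₀.lv) + m * (L * (Λ + 1)) + m / L * (T₁.lv - T₀.lv) := by
    have a : ∑ l ∈ range L, (1 - (l : ℝ) / L) * ((T (l + 1)).lv - (T l).lv) ≤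
        ∑ l ∈ range L, (((∑ i, (W i ⊓ T (l + 1)).lv) / m - (∑ i, (W i ⊓ T l).lv) / m) + (Λ + 1) +
          1 / L * ((T (l + 1)).lv - (T l).lv)) :=
      sum_le_sum fun l hl => by
        have := Tc l (mem_range.1 hl)
        rw [add_div] at this
        linarith
    rw [abel' (fun l => (T l).lv) hL, sum_add_distrib, sum_add_distrib, ← mul_sum,
      sum_range_sub fun l => (T l).lv, sum_range_sub fun l => (∑ i, (W i ⊓ T l).lv) / m, sum_const,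
      card_range, nsmul_eq_mul, TL, ← sub_div, ← sum_sub_distrib] at a
    have b : ∑ i, ((W i ⊓ T₁).lv - (W i ⊓ T 0).lv) = ∑ i, ((W i).lv - T₀.lv) :=
      sum_congr rfl fun i _ => by rw [T0, inf_eq_left.2 (hW i).2, inf_eq_right.2 (hW i).1]
    have c := mul_le_mul_of_nonneg_left a m0.le
    rw [b, mul_add, mul_add, mul_div_cancel₀ _ m0.ne'] at c
    refine c.trans (le_of_eq ?_)
    rw [T0]
    ring
  have e6 := mul_le_mul_of_nonneg_left e4 m0.le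
  have e7 := mul_le_mul_of_nonneg_left (h4 T₀ le_rfl t01) m0.le
  have e8 := mul_nonneg m0.le (h0 (sq T₁))
  have a0 : 0 ≤ m * Λ := by positivity
  have a1 : m * Λ ≤ m * Λ * L := le_mul_of_one_le_right a0 L1
  have a2 : m * Λ * L ≤ m * Λ * L * L := le_mul_of_one_le_right (by positivity) L1
  have a3 : (m : ℝ) * L ≤ m * L * Λ := le_mul_of_one_le_right (by positivity) hΛ
  have a4 : (4 * m / L + 8) * (T₁.lv - T₀.lv) =
      (3 * m / L + 8) * (T₁.lv - T₀.lv) + m / L * (T₁.lv - T₀.lv) := by ring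
  rw [sum_add_distrib, a4]
  linarith

end Pool.Agent.MP_5168f5_an.H17S
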