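import Pool.Agent.MP_5168f5_an.H17S.BeApi

/-! The coarse copies say little about the line. -/

namespace Pool.Agent.MP_5168f5_an.H17S

open H19 MeasureTheory

theorem rowLVA : SLvA := by
  intro _ h2 hC N c u K k l s Λ hE hk hl
  have hΛ : 0 ≤ Λ := le_trans (by positivity) hE.big
  have hD : c.Dk u K k = fun x j => if j ∈ Finset.univ.filter (fun j : Fin (K + 1) => (j : ℕ) < k)
      then c.X ((j + 1) * u) (x.2 j) else 0 := by
    funext x j
    simp only [Cfg.Dk, Finset.mem_filter, Finset.mem_univ, true_and]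
  have h3 := h2.ind c.P (fun j : Fin (K + 1) => c.φ u K (min j k))
    (Finset.univ.filter fun j : Fin (K + 1) => (j : ℕ) < k) (fun j => c.X ((j + 1) * u)) 0
    (fun ω => (c.ln ω, c.z ω)) fun j _ => c.φ_fn_ln u K _
  have h4 := ch_pi_le (P := c.St u K k) (Finset.univ.filter fun j : Fin (K + 1) => (j : ℕ) < k)
    (fun j x => c.X ((j + 1) * u) (x.2 j)) 0 fun x => (c.X (l * u) x.1, c.z x.1, c.θ x.1)
  have h5 : ∀ j ∈ Finset.univ.filter fun j : Fin (K + 1) => (j : ℕ) < k,
      ch (c.St u K k) (fun x => c.X ((j + 1) * u) (x.2 j))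
        (fun x => (c.X (l * u) x.1, c.z x.1, c.θ x.1)) ≤
      ch c.P (c.X ((j + 1) * u)) (c.φ u K (min j k)) + 6 * Λ := by
    intro j hj
    have hjk : (j : ℕ) < k := (Finset.mem_filter.1 hj).2
    have hp : Pair c.P (c.φ u K (min j k)) (c.St u K k) Prod.fst fun x => x.2 j :=
      h2.pair c.P (fun j : Fin (K + 1) => c.φ u K (min j k)) j
    rw [min_eq_left hjk.le] at hp ⊢
    refine le_trans (ch_anti fun a _ b _ e => ?_)
      (hC N c u K j s Λ _ _ _ _ hE (hjk.le.trans hk) hp)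
    simp only [Prod.mk.injEq] at e ⊢
    exact ⟨c.X_eq_of_le (Nat.mul_le_mul_right u (Nat.succ_le_of_lt (hjk.trans_le hl))) e.1,
      by rw [e.2.1], e.2.2⟩
  have h6 := Finset.sum_le_sum h5
  rw [Finset.sum_add_distrib, Finset.sum_const, nsmul_eq_mul] at h6
  have h7 : ((Finset.univ.filter fun j : Fin (K + 1) => (j : ℕ) < k).card : ℝ) ≤ K + 1 := by
    have h := Finset.card_le_univ (Finset.univ.filter fun j : Fin (K + 1) => (j : ℕ) < k)
    rw [Fintype.card_fin] at h
    exact_mod_cast h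
  have h8 := mul_le_mul_of_nonneg_right h7 (by positivity : 0 ≤ 6 * Λ)
  rw [hD]
  refine h4.trans (h6.trans (add_le_add h3 (h8.trans_eq ?_)))
  ring

end Pool.Agent.MP_5168f5_an.H17S
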