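import Pool.Agent.MP_5168f5_an.H17S.BeApi

/-! The lattice inequality averaged over many heights on one line. -/

namespace Pool.Agent.MP_5168f5_an.H17S

open H19 MeasureTheory

namespace MULTI

variable {N : ℕ} {c : Cfg N} {δ : Type} {ξ : c.Ω → δ} {W : c.Ω → Bd (V N)} {u m : ℕ} {A Λ : ℝ}

/-- The side information and the data of all copies. -/
def zv (ξ : c.Ω → δ) (m : ℕ) (x : c.Ω × (Fin m → c.Ω)) : c.T × (Fin m → δ) :=
  (c.θ x.1, fun i => ξ (x.2 i))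

theorem supp (h1 : Star1) {x : c.Ω × (Fin m → c.Ω)} (hx : x ∈ (c.Hs m).S) (i : Fin m) :
    x.2 i ∈ c.P.S ∧ c.a (x.2 i) = c.a x.1 ∧ c.e (x.2 i) = c.e x.1 ∧ c.θ (x.2 i) = c.θ x.1 := by
  obtain ⟨k1, k2⟩ := ((h1.mem c.P (fun _ : Fin m => c.ln) x).1 hx).2 i
  simp only [Cfg.ln, Prod.mk.injEq] at k2
  exact ⟨k1, k2⟩

theorem fn_zv (h1 : Star1) (i : Fin m) :
    Fn (c.Hs m) (fun x => (ξ (x.2 i), c.θ (x.2 i))) (zv ξ m) := by
  intro x hx y hy e
  simp only [zv, Prod.mk.injEq] at e ⊢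
  exact ⟨congrFun e.2 i, by rw [(supp h1 hx i).2.2.2, (supp h1 hy i).2.2.2, e.1]⟩

/-- The mean entropy on the fibres of a variable attached to one copy. -/
theorem term (h0 : Cnd) (h1 : Star1) (h2 : Star2) (hp : c.Pack ξ W u A Λ) (i : Fin m) {α : Type}
    (f : Bd (V N) → ℝ → V N → V N → α) :
    (c.Hs m).E (fun x => hh (cnd (c.Hs m) (zv ξ m) x)
        fun y => f (W (x.2 i)) (c.z (x.2 i)) (c.a y.1) (c.e y.1)) ≤
      ch c.P (fun ω => f (W ω) (c.z ω) (c.a ω) (c.e ω)) fun ω => (ξ ω, c.θ ω) := by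
  rw [← h0.ent (c.Hs m) (zv ξ m)
    (fun x y => f (W (x.2 i)) (c.z (x.2 i)) (c.a y.1) (c.e y.1)) fun x hx y hy e => by
      have k := fn_zv h1 i x hx y hy e
      rw [hp.fW _ (supp h1 hx i).1 _ (supp h1 hy i).1 k,
        hp.fz _ (supp h1 hx i).1 _ (supp h1 hy i).1 k],
    ← (h2.pair c.P (fun _ : Fin m => c.ln) i).ch_copy]
  refine ch_le (fun x hx y hy e => ?_) (fn_zv h1 i)
  have k := congrArg Prod.fst e
  obtain ⟨-, k1, k2, -⟩ := supp h1 hx i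
  obtain ⟨-, k3, k4, -⟩ := supp h1 hy i
  simp only [k1, k2, k3, k4] at k
  exact k

theorem E_copy (h2 : Star2) (i : Fin m) (F : c.Ω → ℝ) :
    (c.Hs m).E (fun x => F (x.2 i)) = c.P.E F :=
  ((h2.pair c.P (fun _ : Fin m => c.ln) i).swap fun _ b => F b).trans
    ((h2.pair c.P (fun _ : Fin m => c.ln) i).base F)

theorem sc_sum (h3 : Sep) (hp : c.Pack ξ W u A Λ) :
    (c.Hs m).E (fun x => ∑ i, ∑ j ∈ Finset.univ.erase i,
      (sc u (c.z (x.2 i) - c.z (x.2 j)) : ℝ)) ≤ m * (m * (4 * (Λ + Real.log (u + 2)))) := by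
  have hl : 0 ≤ Real.log (u + 2) :=
    Real.log_nonneg (by have : (0 : ℝ) ≤ u := Nat.cast_nonneg u; linarith)
  have hN : (0 : ℝ) ≤ N := Nat.cast_nonneg N
  have hb := hp.big
  have hg : 1 / 2 < lg := by have := Real.log_two_gt_d9; unfold lg; linarith
  have key : ∀ i j : Fin m, i ≠ j → (c.Hs m).E
      (fun x => (sc u (c.z (x.2 i) - c.z (x.2 j)) : ℝ)) ≤ 4 * (Λ + Real.log (u + 2)) := by
    intro i j hij
    have k1 := h3 N c δ ξ W u m A Λ i j hp hij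
    have k2 : 0 ≤ (c.Hs m).E (fun x => (sc u (c.z (x.2 i) - c.z (x.2 j)) : ℝ)) :=
      (c.Hs m).E_nonneg fun _ _ => Nat.cast_nonneg _
    nlinarith
  rw [FP.E_sum]
  refine (Finset.sum_le_card_nsmul _ _ (m * (4 * (Λ + Real.log (u + 2)))) fun i _ => ?_).trans
    (by simp)
  rw [FP.E_sum]
  refine (Finset.sum_le_card_nsmul _ _ (4 * (Λ + Real.log (u + 2))) fun j hj =>
    key i j (Finset.ne_of_mem_erase hj).symm).trans ?_
  rw [nsmul_eq_mul]
  refine mul_le_mul_of_nonneg_right ?_ (by linarith)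
  exact_mod_cast (Finset.card_le_univ _).trans (Fintype.card_fin m).le

theorem mean (h0 : Cnd) (h1 : Star1) (h2 : Star2) (h3 : Sep) (h4 : Info) (h5 : Fib)
    (hp : c.Pack ξ W u A Λ) (hm : 5 ≤ m) :
    3 / 2 * (N * u * lg - (m + 2) * Λ) * m ≤ m * (2 * A) + 12 * (N * (u + 1) * lg) +
      2100 * m * m ^ 2 * (N + 1) * (1 + m * (m * (4 * (Λ + Real.log (u + 2))))) := by
  have hm0 : (0 : ℝ) < m := by exact_mod_cast (by omega : 0 < m)
  have k1 := (c.Hs m).E_mono fun x hx => h5 N m m u _ (cnd (c.Hs m) (zv ξ m) x)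
    (fun y => c.a y.1) (fun y => c.e y.1) (fun i => c.z (x.2 i)) (fun i => W (x.2 i)) hm
    (by omega)
    (fun y hy => (hp.box _ ((h1.mem c.P (fun _ : Fin m => c.ln) y).1
      ((h0.mem _ _ _ _ hx).1 hy).1).1).2.1)
    (fun i => ⟨(hp.box _ (supp h1 hx i).1).2.2.1, (hp.box _ (supp h1 hx i).1).2.2.2.le⟩)
    fun i => hp.wb _ (supp h1 hx i).1
  have k2 : (c.Hs m).E (fun x => 3 / 2 * hh (cnd (c.Hs m) (zv ξ m) x)
      (fun y => (bot N u).kap (c.e y.1)) * m) =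
      3 / 2 * m * ch (c.Hs m) (fun x => (bot N u).kap (c.e x.1)) (zv ξ m) := by
    rw [h0.ent (c.Hs m) (zv ξ m) (fun _ y => (bot N u).kap (c.e y.1)) fun _ _ _ _ _ => rfl,
      ← FP.E_mul]
    exact (c.Hs m).E_congr fun x _ => by ring
  have k3 : N * u * lg - (m + 2) * Λ ≤
      ch (c.Hs m) (fun x => (bot N u).kap (c.e x.1)) (zv ξ m) := h4 N c δ ξ W u m A Λ hp
  have k4 : ∀ i : Fin m, (c.Hs m).E (fun x =>
      hh (cnd (c.Hs m) (zv ξ m) x) (fun y => (W (x.2 i)).kap (c.a y.1 + c.z (x.2 i) • c.e y.1)) +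
      hh (cnd (c.Hs m) (zv ξ m) x)
        (fun y => (fl u (c.a y.1 + c.z (x.2 i) • c.e y.1), (W (x.2 i)).kap (c.e y.1))) +
      ((W (x.2 i)).lv - (bot N u).lv)) ≤ 2 * A := by
    intro i
    have j1 := term h0 h1 h2 hp i fun B t a e => B.kap (a + t • e)
    have j2 := term h0 h1 h2 hp i fun B t a e => (fl u (a + t • e), B.kap e)
    have j3 := E_copy h2 i fun ω => (W ω).lv - (bot N u).lv
    have j4 := hp.grain
    have j5 := hp.plane
    rw [FP.E_add, FP.E_add, j3]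
    unfold Cfg.pt at j4 j5
    linarith
  have k5 := sc_sum (m := m) h3 hp
  rw [k2, FP.E_add, FP.E_add, FP.E_const, FP.E_mul, FP.E_add, FP.E_const, FP.E_sum] at k1
  have k6 := Finset.sum_le_card_nsmul _ _ _ fun i (_ : i ∈ Finset.univ) => k4 i
  rw [Finset.card_univ, Fintype.card_fin, nsmul_eq_mul] at k6
  have k7 : (4 * m / m + 8 : ℝ) = 12 := by field_simp; norm_num
  rw [k7] at k1
  have k8 := mul_le_mul_of_nonneg_left (add_le_add_right k5 1)
    (show (0 : ℝ) ≤ 2100 * m * m ^ 2 * (N + 1) by positivity)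
  have k9 := mul_le_mul_of_nonneg_left k3 (show (0 : ℝ) ≤ 3 / 2 * m by positivity)
  linarith

end MULTI

theorem rowMULTI : SMulti := by
  intro h0 h1 h2 h3 h4 h5 N ε hε
  obtain ⟨n, hn⟩ := exists_nat_ge (12 * N / ε)
  rw [div_le_iff₀ hε] at hn
  obtain ⟨m, hm, hm'⟩ : ∃ m : ℕ, 5 ≤ m ∧ 12 * (N : ℝ) ≤ m * ε :=
    ⟨n + 5, by omega, by push_cast; nlinarith⟩
  have hm5 : (5 : ℝ) ≤ m := by exact_mod_cast hm
  have hN : (0 : ℝ) ≤ N := Nat.cast_nonneg N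
  refine ⟨ε + 3 / 2 * (m + 2) + 2100 * m ^ 2 * (N + 1) * (1 + 4 * m ^ 2), by positivity,
    fun c δ ξ W u A Λ hp => ?_⟩
  have k1 := MULTI.mean h0 h1 h2 h3 h4 h5 hp hm
  have hu : (0 : ℝ) ≤ u := Nat.cast_nonneg u
  have hl : 0 ≤ Real.log (u + 2) := Real.log_nonneg (by linarith)
  have hb := hp.big
  have hD : 1 ≤ Λ + Real.log (u + 2) := by linarith
  generalize Real.log (u + 2) = l at k1 hl hD ⊢
  have k2 : 12 * (N * (u + 1) * lg) ≤ m * (ε * u + ε * (Λ + l)) := by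
    have j1 : 12 * (N * (u + 1) * lg) ≤ 12 * (N * (u + 1)) := by
      have := mul_le_mul_of_nonneg_left lg_lt_one.le
        (show (0 : ℝ) ≤ N * (u + 1) by positivity)
      linarith
    have j2 := mul_le_mul_of_nonneg_right hm' (show (0 : ℝ) ≤ u + 1 by positivity)
    have j3 := mul_le_mul_of_nonneg_left hD (show (0 : ℝ) ≤ m * ε by positivity)
    linarith
  have k3 := mul_le_mul_of_nonneg_left hD
    (show (0 : ℝ) ≤ 2100 * m * m ^ 2 * (N + 1) by positivity)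
  have k4 := mul_nonneg (show (0 : ℝ) ≤ 3 / 2 * (m + 2) * m by positivity) hl
  refine le_of_mul_le_mul_left ?_ (show (0 : ℝ) < m by linarith)
  linarith

end Pool.Agent.MP_5168f5_an.H17S
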