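import Pool.Agent.MP_5168f5_an.H17S.BeApi

/-! Row PACKA: the configuration of one level is a packed configuration. -/

namespace Pool.Agent.MP_5168f5_an.H17S

open H19 MeasureTheory

namespace PACKA

variable {N : ℕ} (c : Cfg N) (u K k : ℕ)

theorem base (h1 : Star1) {α β : Type} (f : c.Ω → α) (g : c.Ω → β) :
    ch (c.St u K k) (fun x => f x.1) (fun x => g x.1) = ch c.P f g :=
  ch_law (Q₂ := c.P) Prod.fst id (h1.base c.P _) f g

theorem dir (h1 : Star1) :
    ch c.P (fun ω => fl ((k + 1) * u) (c.e ω)) (fun ω => (c.θ ω, c.X (k * u) ω)) ≤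
      ch (c.St u K k) (fun x => fl u (fr (k * u) (c.e x.1))) fun x => (c.θ x.1, c.X (k * u) x.1) := by
  rw [base c u K k h1 (fun ω => fl u (fr (k * u) (c.e ω))) fun ω => (c.θ ω, c.X (k * u) ω)]
  refine ch_mono fun a _ b _ e => ?_
  simp only [Prod.mk.injEq, Cfg.X] at e
  obtain ⟨e1, -, -, e2⟩ := e
  rw [fl_fr, fl_fr, e2] at e1
  rw [Nat.succ_mul]
  exact funext fun t => sub_left_inj.1 (congrFun e1 t)

theorem inf (h1 : Star1) (hL : LvA) {s Λ : ℝ} (hE : c.Ext u K s Λ) (hk : k ≤ K) :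
    ch (c.St u K k) (fun x => (c.z x.1, c.Dk u K k x)) (fun x => (c.θ x.1, c.X (k * u) x.1)) ≤
      ch (c.St u K k) (fun x => (c.z x.1, c.Dk u K k x)) (fun x => (c.zoom (k * u)).ln x.1) +
        (Λ + 6 * (K + 1) * Λ) := by
  rw [ch_chain, ch_chain]
  have a1 : ch (c.St u K k) (fun x => c.z x.1) (fun x => (c.θ x.1, c.X (k * u) x.1)) ≤
      ch (c.St u K k) (fun x => c.z x.1) (fun x => c.θ x.1) := ch_anti (Fn.fst _ _)
  have a2 := base c u K k h1 c.z c.θ
  have a3 := base c u K k h1 c.z c.ln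
  have a4 : ch (c.St u K k) (fun x => c.z x.1) (fun x => c.ln x.1) ≤
      ch (c.St u K k) (fun x => c.z x.1) (fun x => (c.zoom (k * u)).ln x.1) :=
    ch_anti fun a _ b _ e => (c.zoom_ln_iff _ _ _).2 e
  have a5 : ch (c.St u K k) (c.Dk u K k) (fun x => (c.z x.1, c.θ x.1, c.X (k * u) x.1)) ≤
      ch (c.St u K k) (c.Dk u K k) (fun x => (c.X (k * u) x.1, c.z x.1, c.θ x.1)) :=
    ch_anti fun a _ b _ e => by simp only [Prod.mk.injEq] at e ⊢; tauto
  have a6 := hL N c u K k k s Λ hE hk le_rfl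
  have a7 : ch (c.St u K k) (c.Dk u K k) (fun x => (c.ln x.1, c.z x.1)) ≤
      ch (c.St u K k) (c.Dk u K k) (fun x => (c.z x.1, (c.zoom (k * u)).ln x.1)) :=
    ch_anti fun a _ b _ e =>
      Prod.ext (congrArg Prod.snd e) ((c.zoom_ln_iff _ _ _).2 (congrArg Prod.fst e))
  linarith [hE.inf]

theorem hgt (h1 : Star1) {s Λ : ℝ} (hE : c.Ext u K s Λ) :
    u * lg - 2 * Λ ≤
      ch (c.St u K k) (fun x => fl1 u (c.z x.1)) (fun x => (c.zoom (k * u)).ln x.1) := by
  have a1 := hE.hgt u (Nat.le_mul_of_pos_left u (Nat.succ_pos K))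
  have a2 := ch_info' (P := c.P) (ξ := c.z) (L := c.ln) (G := c.θ) (f := fun ω => fl1 u (c.z ω))
    c.fn_θ_ln ((Fn.comp (fl1 u) c.z).left c.θ)
  have a3 := base c u K k h1 (fun ω => fl1 u (c.z ω)) c.ln
  have a4 : ch (c.St u K k) (fun x => fl1 u (c.z x.1)) (fun x => c.ln x.1) ≤
      ch (c.St u K k) (fun x => fl1 u (c.z x.1)) (fun x => (c.zoom (k * u)).ln x.1) :=
    ch_anti fun a _ b _ e => (c.zoom_ln_iff _ _ _).2 e
  linarith [hE.inf]

end PACKA

theorem rowPACKA : SPackA := by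
  intro h1 hW hL hG hP N c u K k s Λ hE hk hp
  have hN : (0 : ℝ) ≤ N := Nat.cast_nonneg N
  have hK : (0 : ℝ) ≤ K := Nat.cast_nonneg K
  have hΛ : 0 ≤ Λ := by linarith [hE.big]
  have hKΛ : 0 ≤ K * Λ := mul_nonneg hK hΛ
  have hl : 0 ≤ Real.log (u + 2) := Real.log_nonneg (by linarith [Nat.cast_nonneg (α := ℝ) u])
  have hq : 0 ≤ (N : ℝ) * (N * (u + 1) * lg / (K + 1)) := by have := lg_pos; positivity
  have w := hW N c u K k hk
  refine ⟨fun x hx => c.zoom_box hE.box (k * u) x.1 ((h1.mem _ _ x).1 hx).1, by linarith [hE.big],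
    fun a _ b _ e => ?_, fun a _ b _ e => congrArg (·.1.1) e,
    fun x hx => w.wb x hx k (Nat.le_succ k), ?_, ?_, ?_, ?_, ?_⟩
  · exact w.fW k le_rfl a b (congrArg (·.1.2) e) (congrArg (·.2.2) e)
  · exact le_trans (by linarith [hE.dir k hk]) (PACKA.dir c u K k h1)
  · exact (PACKA.inf c u K k h1 hL hE hk).trans (add_le_add le_rfl (by linarith))
  · exact le_trans (by linarith) (PACKA.hgt c u K k h1 hE)
  · refine (hG N c u K k s Λ hE hk).trans ?_
    have : 0 ≤ 40 * ((K : ℝ) + 1) ^ 2 * N * Λ := by positivity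
    linarith
  · refine (hP N c u K k s Λ hE hk).trans ?_
    have a1 := mul_le_mul_of_nonneg_left hp hN
    have a2 : 0 ≤ ((K : ℝ) + 1) * (2 * K + 1) * (N + 1) * Λ := by positivity
    linarith

end Pool.Agent.MP_5168f5_an.H17S
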