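import Pool.Agent.MP_5168f5_an.H17S.BeApi

/-! Sticky Kakeya sets: a level at which the span of the directions grows little. -/

namespace Pool.Agent.MP_5168f5_an.H17S

open H19 MeasureTheory

namespace PIGEON

variable {N : ℕ} (c : Cfg N) (u K : ℕ)

theorem wk_dep (ω : c.Ω) (g g' : Fin (K + 1) → c.Ω) (k : ℕ)
    (h : ∀ j : Fin (K + 1), (j : ℕ) < k → g j = g' j) :
    c.Wk u K (ω, g) k = c.Wk u K (ω, g') k := by
  induction k with
  | zero => rfl
  | succ k ih =>
    have e : c.cp K k (ω, g) = c.cp K k (ω, g') := by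
      unfold Cfg.cp
      split_ifs with hk
      · exact h ⟨k, hk⟩ k.lt_succ_self
      · rfl
    simp only [Cfg.Wk, ih fun j hj => h j (hj.trans k.lt_succ_self), e]

theorem shift (S : Star1) (k : ℕ) :
    (c.St u K (k + 1)).E (fun x => (c.Wk u K x (k + 1)).lv) =
      (c.St u K k).E fun x => (c.Wk u K x (k + 1)).lv := by
  refine S.dep c.P (fun j : Fin (K + 1) => c.φ u K (min j (k + 1)))
    (fun j : Fin (K + 1) => c.φ u K (min j k)) {j | (j : ℕ) < k + 1}
    (fun x => (c.Wk u K x (k + 1)).lv) (fun j hj => ?_) fun ω g g' h => ?_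
  · have hj' : (j : ℕ) < k + 1 := hj
    simp only [min_eq_left hj'.le, min_eq_left (Nat.le_of_lt_succ hj')]
  · exact congrArg Bd.lv (wk_dep c u K ω g g' (k + 1) h)

end PIGEON

open PIGEON in
theorem rowPIGEON : SPigeon := by
  intro hV hV2 S hW N c u K
  have hsum : ∑ k ∈ Finset.range (K + 1),
      (c.St u K k).E (fun x => (c.Wk u K x (k + 1)).lv - (c.Wk u K x k).lv) ≤
      ∑ _k ∈ Finset.range (K + 1), N * (u + 1) * lg / (K + 1) := by
    have h1 : ∀ k ∈ Finset.range (K + 1),
        (c.St u K k).E (fun x => (c.Wk u K x (k + 1)).lv - (c.Wk u K x k).lv) =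
          (c.St u K (k + 1)).E (fun x => (c.Wk u K x (k + 1)).lv) -
            (c.St u K k).E fun x => (c.Wk u K x k).lv := fun k _ => by
      rw [FP.E_sub, shift c u K S]
    have h2 : (c.St u K K).E (fun x => (c.Wk u K x (K + 1)).lv) ≤ (top N).lv :=
      (FP.E_mono _ fun x hx =>
        (hV N).1.mono ((hW N c u K K le_rfl).wb x hx (K + 1) le_rfl).2).trans_eq (FP.E_const _ _)
    have h3 : (c.St u K 0).E (fun x => (c.Wk u K x 0).lv) = (bot N u).lv :=
      (c.St u K 0).E_const (bot N u).lv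
    have h4 : (K : ℝ) + 1 ≠ 0 := by positivity
    rw [Finset.sum_congr rfl h1,
      Finset.sum_range_sub fun k => (c.St u K k).E fun x => (c.Wk u K x k).lv, shift c u K S, h3,
      Finset.sum_const, Finset.card_range, nsmul_eq_mul, Nat.cast_succ, mul_div_cancel₀ _ h4,
      ← (hV2 N).tb u]
    linarith
  obtain ⟨k, hk, h⟩ := Finset.exists_le_of_sum_le ⟨0, by simp⟩ hsum
  exact ⟨k, Nat.le_of_lt_succ (Finset.mem_range.1 hk), h⟩

end Pool.Agent.MP_5168f5_an.H17S
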