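import Pool.Agent.MP_5168f5_an.H17S.BeApi

/-! The plane bound at one level. -/

namespace Pool.Agent.MP_5168f5_an.H17S

open H19 MeasureTheory

namespace PLANE

variable {N : ℕ} (c : Cfg N)

theorem zsub {j : ℕ} {a b : c.Ω} (hX : c.X j a = c.X j b) (hz : c.z a = c.z b) :
    (c.zoom j).pt a - (c.zoom j).pt b = (2 : ℝ) ^ j • (c.pt a - c.pt b) := by
  have h1 : fl j (c.a a) = fl j (c.a b) := congrArg Prod.fst hX
  have h2 : fl j (c.e a) = fl j (c.e b) := congrArg Prod.snd hX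
  rw [c.zoom_pt, c.zoom_pt, h1, h2, hz]
  module

theorem nrm (j : ℕ) (v : V N) : ‖(2 : ℝ) ^ j • v‖ = 2 ^ j * ‖v‖ := by
  rw [norm_smul, Real.norm_eq_abs, abs_of_pos (by positivity)]

theorem pw (k u : ℕ) : (2 : ℝ) ^ (k * u) * ((2 : ℝ) ^ ((k + 1) * u))⁻¹ = ((2 : ℝ) ^ u)⁻¹ := by
  rw [add_mul, one_mul, pow_add]
  field_simp

theorem psub (hb : c.Box) {j : ℕ} {a b : c.Ω} (ha : a ∈ c.P.S) (hX : c.X j a = c.X j b)
    (hz : c.z a = c.z b) : ‖c.pt a - c.pt b‖ ≤ 2 * ((2 : ℝ) ^ j)⁻¹ := by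
  have h := c.norm_line_sub hX (t := c.z a)
    (abs_le.2 ⟨by linarith [(hb a ha).2.2.1], (hb a ha).2.2.2.le⟩)
  unfold Cfg.pt
  rwa [← hz]

end PLANE

open PLANE in
theorem rowPLANE : SPlane := by
  intro hV hS hW hL hP N c u K k s Λ hE hk
  have wk := hW N c u K k hk
  have mem : ∀ x ∈ (c.St u K k).S, x.1 ∈ c.P.S := fun x hx => ((hS.mem _ _ x).1 hx).1
  have base : ∀ {α β : Type} (f : c.Ω → α) (g : c.Ω → β),
      ch (c.St u K k) (fun x => f x.1) (fun x => g x.1) = ch c.P f g := fun f g =>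
    ch_law (Q₂ := c.P) Prod.fst id (hS.base c.P _) f g
  have hp : (0 : ℝ) < 2 ^ (k * u) := by positivity
  have hku : k * u ≤ (k + 1) * u := Nat.mul_le_mul_right u k.le_succ
  set Q := c.St u K k
  set D := c.Dk u K k
  let y : c.Ω × (Fin (K + 1) → c.Ω) → V N := fun x => (c.zoom (k * u)).pt x.1
  let F : c.Ω × (Fin (K + 1) → c.Ω) → V N := fun x => (c.Wk u K x k).kap (fr (k * u) (c.e x.1))
  let p : ℕ → c.Ω × (Fin (K + 1) → c.Ω) → Z N := fun l x => fl (l * u) (c.pt x.1)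
  let Zk := fun x : c.Ω × (Fin (K + 1) → c.Ω) => ((c.z x.1, D x), c.θ x.1, c.X (k * u) x.1)
  let G1 := fun x => (fl u (y x), Zk x)
  let G3 := fun x : c.Ω × (Fin (K + 1) → c.Ω) => (c.X ((k + 1) * u) x.1, c.z x.1, c.θ x.1)
  let H := fun (l : ℕ) (x : c.Ω × (Fin (K + 1) → c.Ω)) => (p l x, c.z x.1, c.θ x.1)
  have near : ∀ {β : Type} (G : c.Ω × (Fin (K + 1) → c.Ω) → β) (l n : ℕ), n ≤ 60 →
      (∀ a ∈ Q.S, ∀ b ∈ Q.S, G a = G b → ‖c.pt a.1 - c.pt b.1‖ ≤ n * ((2 : ℝ) ^ (l * u))⁻¹) →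
      ch Q (p l) G ≤ 5 * N := fun G l n hn h =>
    ch_fl_near (x := fun x : c.Ω × (Fin (K + 1) → c.Ω) => c.pt x.1) hn h
  change ch Q (fun x => (fl u (y x), F x)) Zk ≤ _
  have a1 := ch_tri (P := Q) (fun x => fl u (y x)) (p (k + 1)) Zk
  have a2 : ch Q (fun x => fl u (y x)) (fun x => (p (k + 1) x, Zk x)) ≤ 5 * N :=
    ch_fl_near (x := y) (n := 1) (by norm_num) fun a _ b _ e => by
      simp only [Zk, Prod.mk.injEq] at e
      rw [zsub c e.2.2.2 e.2.1.1, nrm, Nat.cast_one, one_mul, ← pw k u]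
      exact mul_le_mul_of_nonneg_left (norm_sub_lt_of_fl_eq e.1).le hp.le
  have a3 := ch_tri' (P := Q) (p (k + 1)) Zk (H k)
  have a4 : ch Q (H k) Zk ≤ 5 * N := by
    refine le_trans (ch_mono (F' := p k) fun a _ b _ e => ?_)
      (near Zk k 2 (by norm_num) fun a ha b _ e => ?_)
    · simp only [Zk, H, Prod.mk.injEq] at e ⊢
      tauto
    · simp only [Zk, Prod.mk.injEq] at e
      exact_mod_cast psub c hE.box (mem a ha) e.2.2 e.1.1
  have a5 : ch Q (p (k + 1)) (H k) ≤ _ :=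
    ((base _ _).le.trans (hE.up k (k + 1) k.le_succ (by omega)) :)
  have b1 := ch_symm (P := Q) F (p (K + 1)) G1
  have b2 : ch Q F (fun x => (c.φ u K k x.1, D x)) ≤ _ := hP N c u K k hk
  have b2' : ch Q F (fun x => (p (K + 1) x, G1 x)) ≤ ch Q F fun x => (c.φ u K k x.1, D x) :=
    ch_anti fun a _ b _ e => by
      simp only [G1, Zk, p, Cfg.φ, Prod.mk.injEq] at e ⊢
      tauto
  have b3 := ch_tri' (P := Q) (p (K + 1)) G1 (H (k + 1))
  have b4 : ch Q (H (k + 1)) G1 ≤ 5 * N := by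
    refine le_trans (ch_mono (F' := p (k + 1)) fun a _ b _ e => ?_)
      (near G1 (k + 1) 1 (by norm_num) fun a ha b _ e => ?_)
    · simp only [G1, Zk, H, Prod.mk.injEq] at e ⊢
      tauto
    · simp only [G1, Zk, Prod.mk.injEq] at e
      have h := norm_sub_lt_of_fl_eq e.1
      rw [zsub c e.2.2.2 e.2.1.1, nrm, ← pw k u] at h
      rw [Nat.cast_one, one_mul]
      exact (lt_of_mul_lt_mul_left h hp.le).le
  have b5 : ch Q (p (K + 1)) (H (k + 1)) ≤ _ :=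
    ((base _ _).le.trans (hE.up (k + 1) (K + 1) (by omega) le_rfl) :)
  have c1 := ch_tri' (P := Q) (p (K + 1)) (fun x => (D x, G3 x)) fun x => (F x, G1 x)
  have c2 : ch Q (fun x => (F x, G1 x)) (fun x => (D x, G3 x)) ≤ 5 * N + 5 * N := by
    refine le_trans (ch_mono (F' := fun x => (F x, fl u (y x))) fun a _ b _ e => ?_)
      (le_trans (ch_subadd F (fun x => fl u (y x)) _) (add_le_add ?_ ?_))
    · simp only [G1, G3, Zk, Prod.mk.injEq] at e ⊢
      have := c.X_eq_of_le hku e.2.2.1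
      tauto
    · refine ((hV N).1.bnear5 (P := Q) (G := fun x => (D x, G3 x)) (A := fun x => c.Wk u K x k)
        (x := fun x : c.Ω × (Fin (K + 1) → c.Ω) => fr (k * u) (c.e x.1)) (c := 1) le_rfl (by norm_num)
        (fun a _ b _ e => ?_) fun a ha b _ e => ?_ :)
      · simp only [G3, Prod.mk.injEq] at e
        exact wk.fW k le_rfl a b e.1 (c.X_eq_of_le hku e.2.1)
      · simp only [G3, Prod.mk.injEq] at e
        have h1 : fl ((k + 1) * u) (c.e a.1) = fl ((k + 1) * u) (c.e b.1) :=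
          congrArg Prod.snd e.2.1
        refine Bd.in_one.2 ((wk.wb a ha k k.le_succ).1 (mem_bot.2 ?_))
        rw [fr_eq, fr_eq, fl_eq_of_le hku h1, sub_sub_sub_cancel_right, ← smul_sub, nrm, ← pw k u]
        exact mul_lt_mul_of_pos_left (norm_sub_lt_of_fl_eq h1) hp
    · refine ch_fl_near (x := y) (n := 2) (by norm_num) fun a ha b _ e => ?_
      simp only [G3, Prod.mk.injEq] at e
      rw [zsub c (c.X_eq_of_le hku e.2.1) e.2.2.1, nrm, ← pw k u, mul_left_comm, Nat.cast_two]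
      exact mul_le_mul_of_nonneg_left (psub c hE.box (mem a ha) e.2.1 e.2.2.1) hp.le
  have c3 := ch_symm (P := Q) (p (K + 1)) D G3
  have c4 : ch Q D G3 ≤ _ := hL N c u K k (k + 1) s Λ hE hk k.le_succ
  have c5 : ch Q D (fun x => (c.ln x.1, c.z x.1)) ≤ ch Q D fun x => (p (K + 1) x, G3 x) :=
    ch_anti fun a _ b _ e => by
      simp only [Cfg.ln, Prod.mk.injEq] at e
      simp only [p, G3, Cfg.pt, Cfg.X, e.1.1, e.1.2.1, e.1.2.2, e.2]
  have c6 : _ ≤ ch Q (p (K + 1)) G3 :=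
    ((hE.low (k + 1) (K + 1) (by omega) le_rfl).trans (base _ _).ge :)
  have hb := hE.big
  have hN : (0 : ℝ) ≤ N := N.cast_nonneg
  have hK : (0 : ℝ) ≤ K := K.cast_nonneg
  have hΛ : 0 ≤ Λ := by linarith
  have d1 : (N : ℝ) * (2 * N + 6) ≤ N * Λ := mul_le_mul_of_nonneg_left (by linarith) hN
  have d2 := mul_nonneg hK hΛ
  have d3 := mul_nonneg hN hΛ
  have d4 := mul_nonneg hK d3
  rw [ch_chain]
  push_cast at a5 b5 c6
  rw [add_sub_cancel_left, mul_one] at a5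
  change _ + ch Q F G1 ≤ _
  linarith

end Pool.Agent.MP_5168f5_an.H17S
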