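import Pool.Agent.MP_5168f5_an.H17S.BeApi

/-! One graded piece of the lattice inequality. -/

namespace Pool.Agent.MP_5168f5_an.H17S

open H19 MeasureTheory

namespace SIX

theorem pick {m : ℕ} (hm : 5 ≤ m) (S : Fin m → Fin m → Fin m → ℝ) (k : Fin m → ℝ) :
    ∃ a b c p q : Fin m, p ≠ q ∧ p ∉ ({a, b, c} : Finset (Fin m)) ∧
      q ∉ ({a, b, c} : Finset (Fin m)) ∧ (∀ x y w, S x y w ≤ S a b c) ∧
      ∀ j, j ∉ ({a, b, c} : Finset (Fin m)) → j ≠ p → j ≠ q → k j ≤ k p ∧ k j ≤ k q := by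
  have : Nonempty (Fin m) := ⟨⟨0, by omega⟩⟩
  obtain ⟨⟨a, b, c⟩, h1⟩ := Finite.exists_max fun x : Fin m × Fin m × Fin m => S x.1 x.2.1 x.2.2
  have h2 : 2 ≤ (({a, b, c} : Finset (Fin m))ᶜ).card := by
    have := Finset.card_le_three (a := a) (b := b) (c := c)
    rw [Finset.card_compl, Fintype.card_fin]
    omega
  obtain ⟨p, p1, p2⟩ := Finset.exists_max_image _ k (Finset.card_pos.1 (by omega) :
    (({a, b, c} : Finset (Fin m))ᶜ).Nonempty)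
  obtain ⟨q, q1, q2⟩ := Finset.exists_max_image _ k (Finset.card_pos.1 (by
    rw [Finset.card_erase_of_mem p1]; omega) :
    ((({a, b, c} : Finset (Fin m))ᶜ).erase p).Nonempty)
  rw [Finset.mem_erase] at q1
  exact ⟨a, b, c, p, q, q1.1.symm, Finset.mem_compl.1 p1, Finset.mem_compl.1 q1.2,
    fun x y w => h1 (x, y, w), fun j j1 j2 _ => ⟨p2 j (Finset.mem_compl.2 j1),
      q2 j (Finset.mem_erase.2 ⟨j2, Finset.mem_compl.2 j1⟩)⟩⟩

section Gen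

variable {E : Type} [NormedAddCommGroup E] [NormedSpace ℝ E] {A B C : Bd E} {c c' : ℝ}

theorem sub_inf (h : A.Sub B c) (h' : A.Sub C c) : A.Sub (B ⊓ C) c :=
  fun x hx => Bd.in_inf.2 ⟨h x hx, h' x hx⟩

theorem sub_sup (h : A.Sub C c) (h' : B.Sub C c') (hc : 0 < c) (hc' : 0 < c') :
    (A ⊔ B).Sub C (c + c') := fun x hx => by
  obtain ⟨a, ha, b, hb, rfl⟩ := Bd.mem_sup_elim hx
  exact (h a ha).add (h' b hb) hc hc'

theorem sub_left (h : B.Sub C c) (hA : A ≤ B) : A.Sub C c := fun x hx => h x (hA hx)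

variable [MeasureSpace E] {d : ℝ}

theorem sub_le (hV : Vol E d) (h : A.Sub B c) (hc : 0 < c) (hcc : c ≤ c') :
    A.lv ≤ B.lv + d * Real.log c' := hV.sub A B c' (hc.trans_le hcc) (h.mono hc hcc)

theorem cut (hV : Vol E d) (G W U : Bd E) :
    (W ⊓ G).lv + (G ⊓ U).lv ≤ G.lv + (W ⊓ U).lv + 3 * d := by
  have h1 := hV.mod2 (W ⊓ G) (G ⊓ U)
  have h2 : ((W ⊓ G) ⊔ (G ⊓ U)).lv ≤ G.lv := hV.mono (sup_le inf_le_right inf_le_left)
  have h3 : ((W ⊓ G) ⊓ (G ⊓ U)).lv ≤ (W ⊓ U).lv :=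
    hV.mono (inf_le_inf inf_le_left inf_le_right)
  linarith

theorem two1 (hV : Vol E d) (G W P Q : Bd E) (h : (P ⊓ Q).Sub G c) (hc : 1 ≤ c) (hcc : c ≤ c') :
    2 * (W ⊓ G).lv ≤ (W ⊓ (P ⊓ Q)).lv + (W ⊓ (P ⊔ Q)).lv + G.lv - (P ⊓ Q).lv - (P ⊔ Q).lv +
      (G ⊔ (P ⊔ Q)).lv + (d * Real.log c' + 9 * d) := by
  have h1 := cut hV G W (P ⊓ Q)
  have h2 := cut hV G W (P ⊔ Q)
  have h3 := hV.mod2 G (P ⊔ Q)
  have h4 := sub_le hV (sub_inf h (Bd.Sub.of_le le_rfl hc)) (one_pos.trans_le hc) hcc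
  linarith

theorem two2 (hV : Vol E d) (G W P Q : Bd E) (h : G.Sub (P ⊔ Q) c) (hc : 1 ≤ c) (hcc : c ≤ c') :
    2 * (W ⊓ G).lv ≤ (W ⊓ (P ⊓ Q)).lv + (W ⊓ (P ⊔ Q)).lv + G.lv - (G ⊓ (P ⊓ Q)).lv +
      (d * Real.log c' + 3 * d) := by
  have h1 := cut hV G W (P ⊓ Q)
  have h4 := sub_le hV (sub_inf (Bd.Sub.of_le (inf_le_left : W ⊓ G ≤ W) hc)
    (sub_left h inf_le_right)) (one_pos.trans_le hc) hcc
  linarith

end Gen

section One

variable {N : ℕ} {Tm Tp W : Bd (V N)} {A K : Bd (V N × V N)} {z c : ℝ}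

theorem up1 (hV : Vol (V N × V N) (2 * N)) (h2 : Vol2 N) (hI : Inc Tm Tp A) (hz : |z| ≤ 1)
    (hW : Tm ≤ W) (hK : K.Sub (cyl z W Tp) 4) (hc : 8 ≤ c) :
    (K ⊓ A).lv ≤ (Fd A z Tm Tp).lv + (W ⊓ Yd A z Tp).lv + 2 * (N * Real.log c + 3 * N) := by
  have a1 := hV.mod2 (K ⊓ A) (cyl z Tm Tp)
  have a2 := hV.mono (hI.u1 z K)
  have a3 := sub_le hV (hI.u2 z W K hz hW hK) (by norm_num) (c' := c) (by linarith)
  rw [h2.cyl] at a1 a2 a3
  linarith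

theorem up2 (hV : Vol (V N × V N) (2 * N)) (h2 : Vol2 N) (hI : Inc Tm Tp A)
    (hK : K.Sub (cyl z Tm W) 4) (hc : 8 ≤ c) :
    (K ⊓ A).lv ≤ Tm.lv + (W ⊓ Fd A z Tm Tp).lv + 2 * (N * Real.log c) := by
  have a3 := sub_le hV (hI.u3 z W K hK) (by norm_num) (c' := c) (by linarith)
  rw [h2.cyl] at a3
  linarith

theorem low (hV : Vol (V N × V N) (2 * N)) (h2 : Vol2 N) (hI : Inc Tm Tp A) (z : ℝ) (hc : 8 ≤ c) :
    (Fd A z Tm Tp).lv + (Yd A z Tp).lv ≤ A.lv + (4 * (N * Real.log c) + 6 * N) := by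
  have a1 := hV.mod1 A (cyl z Tm Tp)
  have a2 := sub_le hV (hI.l1 z) (by norm_num) (c' := c) (by linarith)
  have a3 := sub_le hV (hI.l2 z) (by norm_num) (c' := c) (by linarith)
  rw [h2.cyl] at a1 a2 a3
  linarith

end One

end SIX

open SIX in
theorem rowSIX : SSix := by
  intro h1 h2 h3 N m z s μ β Λ Tm Tp W K M A hm s0 s1 hz hs μ0 μ1 hΛ hT hW hK hM hU A1 A2
  obtain ⟨hV, hV'⟩ := h1 N
  have hI := h3 N Tm Tp A hT A1 A2
  have c8 : 8 ≤ 8 / s := by rw [le_div_iff₀ s0]; linarith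
  have cs : ∀ x : ℝ, 1 ≤ x → x ≤ 8 → 1 ≤ x / s ∧ x / s ≤ 8 / s := fun x a b =>
    ⟨by rw [le_div_iff₀ s0]; linarith, by gcongr⟩
  have n0 : (0 : ℝ) ≤ N := N.cast_nonneg
  have l0 : 0 ≤ N * Real.log (8 / s) := mul_nonneg n0 (Real.log_nonneg (by linarith))
  have z1 : ∀ i, |z i| ≤ 1 := fun i => abs_le.2 ⟨by linarith [(hz i).1], (hz i).2⟩
  rw [mul_add] at hΛ
  let F : Fin m → Bd (V N) := fun j => Fd A (z j) Tm Tp
  let Y : Fin m → Bd (V N) := fun j => Yd A (z j) Tp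
  have fb : ∀ j, Tm ≤ F j ∧ F j ≤ Tp := fun j => hI.fb _ (z1 j)
  have yb : ∀ j, Tm ≤ Y j ∧ Y j ≤ Tp := fun j => hI.yb _
  have L1 : ∀ j, (F j).lv + (Y j).lv ≤ A.lv + 4 * Λ := fun j =>
    (low hV' (h2 N) hI (z j) c8).trans (by linarith)
  obtain ⟨a, b, c, p, q, hpq, hp, hq, hS, hk⟩ :=
    pick hm (fun x y w => (F x ⊔ (F y ⊔ F w)).lv) fun j => (F j).lv
  have R0 : 0 ≤ Tp.lv - Tm.lv := sub_nonneg.2 (hV.mono hT)
  have bad : ∀ j, 2 * (F j).lv - (F p).lv - (F q).lv +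
      ((F j ⊔ (F p ⊔ F q)).lv - (Y j ⊓ (Y p ⊓ Y q)).lv) ≤
      Λ + if j ∈ ({a, b, c} ∪ {p, q} : Finset (Fin m)) then 3 * (Tp.lv - Tm.lv) else 0 := by
    intro j
    split_ifs with hj
    · have e1 := hV.mono (fb j).2
      have e2 := hV.mono (fb p).1
      have e3 := hV.mono (fb q).1
      have e4 := hV.mono (sup_le (fb j).2 (sup_le (fb p).2 (fb q).2))
      have e5 := hV.mono (le_inf (yb j).1 (le_inf (yb p).1 (yb q).1))
      linarith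
    · rw [Finset.mem_union, not_or] at hj
      obtain ⟨e1, e2⟩ := hk j hj.1 (fun e => hj.2 (by simp [e])) fun e => hj.2 (by simp [e])
      have e3 : ∀ x ∈ ({a, b, c} : Finset (Fin m)), (F x).Sub (Y j ⊓ (Y p ⊓ Y q)) (2 / s) := by
        intro x hx
        have e : ∀ y, y ∉ ({a, b, c} : Finset (Fin m)) → (F x).Sub (Y y) (2 / s) := fun y hy =>
          hI.s3 s _ _ s0 (hs x y fun e => hy (e ▸ hx)) (hz x) (hz y)
        exact sub_inf (e j hj.1) (sub_inf (e p hp) (e q hq))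
      have e4 : 0 < 2 / s := by positivity
      have e5 := sub_le hV (sub_sup (e3 a (by simp)) (sub_sup (e3 b (by simp)) (e3 c (by simp))
        e4 e4) e4 (add_pos e4 e4)) (by positivity) (c' := 8 / s) (by
          rw [← add_div, ← add_div]; gcongr; norm_num)
      have e6 := hS j p q
      linarith
  have key : ∀ j, 2 * (((K j ⊓ A).lv - (sq Tm).lv) + ((M j ⊓ A).lv - (sq Tm).lv)) ≤
      ((W j ⊓ (F p ⊓ F q)).lv - Tm.lv) + ((W j ⊓ (F p ⊔ F q)).lv - Tm.lv) +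
      ((W j ⊓ (Y p ⊓ Y q)).lv - Tm.lv) + ((W j ⊓ (Y p ⊔ Y q)).lv - Tm.lv) +
      (A.lv - 2 * Tm.lv + (F p).lv + (F q).lv - (F p ⊓ F q).lv - (F p ⊔ F q).lv + 17 * Λ) +
      if j ∈ ({a, b, c} ∪ {p, q} : Finset (Fin m)) then 3 * (Tp.lv - Tm.lv) else 0 := by
    intro j
    have e1 := up1 hV' (h2 N) hI (z1 j) (hW j).1 (hK j) c8
    have e2 := up2 hV' (h2 N) hI (hM j) c8
    have e3 := two1 hV (F j) (W j) (F p) (F q) (hI.s1 s _ _ _ s0 (hs p q hpq) (hz p) (hz q) (hz j))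
      (cs 6 (by norm_num) (by norm_num)).1 (cs 6 (by norm_num) (by norm_num)).2
    have e4 := two2 hV (Y j) (W j) (Y p) (Y q) (hI.s2 s _ _ _ s0 (hs p q hpq) (hz p) (hz q) (hz j))
      (cs 4 (by norm_num) (by norm_num)).1 (cs 4 (by norm_num) (by norm_num)).2
    have e5 := L1 j
    have e6 := bad j
    have e7 : (sq Tm).lv = Tm.lv + Tm.lv := (h2 N).cyl 0 Tm Tm
    simp only [F, Y] at *
    linarith
  have k1 := Finset.sum_le_sum fun j (_ : j ∈ Finset.univ) => key j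
  have k2 : ∑ j, (if j ∈ ({a, b, c} ∪ {p, q} : Finset (Fin m)) then 3 * (Tp.lv - Tm.lv) else 0) ≤
      5 * (3 * (Tp.lv - Tm.lv)) := by
    rw [Finset.sum_ite_mem, Finset.univ_inter, Finset.sum_const, nsmul_eq_mul]
    refine mul_le_mul_of_nonneg_right ?_ (by linarith)
    have := Finset.card_union_le ({a, b, c} : Finset (Fin m)) {p, q}
    have := Finset.card_le_three (a := a) (b := b) (c := c)
    have := Finset.card_le_two (a := p) (b := q)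
    exact_mod_cast (by omega : ({a, b, c} ∪ {p, q} : Finset (Fin m)).card ≤ 5)
  have u1 := hU _ (le_inf (fb p).1 (fb q).1) (inf_le_left.trans (fb p).2)
  have u2 := hU _ ((fb p).1.trans le_sup_left) (sup_le (fb p).2 (fb q).2)
  have u3 := hU _ (le_inf (yb p).1 (yb q).1) (inf_le_left.trans (yb p).2)
  have u4 := hU _ ((yb p).1.trans le_sup_left) (sup_le (yb p).2 (yb q).2)
  rw [← Finset.mul_sum, Finset.sum_add_distrib, Finset.sum_add_distrib, Finset.sum_add_distrib,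
    Finset.sum_add_distrib, Finset.sum_add_distrib, Finset.sum_add_distrib, Finset.sum_const,
    Finset.card_univ, Fintype.card_fin, nsmul_eq_mul, ← Finset.sum_add_distrib] at k1
  have v1 := mul_le_mul_of_nonneg_left (hV.mod2 (F p) (F q)) (sub_nonneg.2 μ1)
  have v2 := mul_le_mul_of_nonneg_left (hV.mod1 (Y p) (Y q)) μ0
  have v3 := mul_le_mul_of_nonneg_left (add_le_add (L1 p) (L1 q)) μ0
  have v4 : μ * Λ ≤ Λ := mul_le_of_le_one_left (by linarith) μ1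
  have e7 : (sq Tm).lv = Tm.lv + Tm.lv := (h2 N).cyl 0 Tm Tm
  have v5 : (μ * ((F p ⊓ F q).lv - Tm.lv) + β) + (μ * ((F p ⊔ F q).lv - Tm.lv) + β) +
      (μ * ((Y p ⊓ Y q).lv - Tm.lv) + β) + (μ * ((Y p ⊔ Y q).lv - Tm.lv) + β) +
      (A.lv - 2 * Tm.lv + (F p).lv + (F q).lv - (F p ⊓ F q).lv - (F p ⊔ F q).lv + 17 * Λ) ≤
      2 * ((1 / 2 + μ) * (A.lv - (sq Tm).lv) + (2 * β + 30 * Λ)) := by
    rw [e7]
    linarith
  have v6 := mul_le_mul_of_nonneg_left v5 (m.cast_nonneg (α := ℝ))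
  linarith

end Pool.Agent.MP_5168f5_an.H17S
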