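import Pool.Agent.MP_5168f5_an.H17S.BeApi

/-! Conditionally independent copies: the basic formulas. -/

namespace Pool.Agent.MP_5168f5_an.H17S

open H19 MeasureTheory

namespace STAR1

open Finset Function

variable {Ω β J : Type} [Fintype J] [DecidableEq J]

/-- expectation under a product law -/
noncomputable def PE (q : J → FP Ω) (F : (J → Ω) → ℝ) : ℝ :=
  ∑ g ∈ Fintype.piFinset fun j => (q j).S, (∏ j, (q j).p (g j)) * F g

theorem PE_const (q : J → FP Ω) (c : ℝ) : PE q (fun _ => c) = c := by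
  rw [PE, ← sum_mul, ← prod_univ_sum (fun j => (q j).S) fun j a => (q j).p a]
  simp [FP.sum_one]

theorem E_star (P : FP Ω) (φ : J → Ω → β) (F : Ω × (J → Ω) → ℝ) :
    (star P φ).E F = P.E fun ω => PE (fun j => cnd P (φ j) ω) fun g => F (ω, g) := by
  simp only [FP.E, star, PE]
  rw [sum_map, sum_sigma]
  refine sum_congr rfl fun ω _ => ?_
  rw [mul_sum]
  exact sum_congr (ext fun g => by simp only [Fintype.mem_piFinset]) fun g _ => mul_assoc _ _ _

theorem prod_upd (q : J → FP Ω) (g : J → Ω) (j : J) (a : Ω) :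
    ∏ i, (q i).p (update g j a i) = (q j).p a * ∏ i ∈ univ.erase j, (q i).p (g i) := by
  rw [← mul_prod_erase _ _ (mem_univ j), update_self]
  exact congrArg _ (prod_congr rfl fun i hi => by rw [update_of_ne (ne_of_mem_erase hi)])

theorem PE_res (q : J → FP Ω) (j : J) (F : (J → Ω) → ℝ) :
    PE q F = PE q fun g => (q j).E fun a => F (update g j a) := by
  have e : PE q F = PE q fun g => (q j).E fun _ => F g := by simp only [FP.E_const]
  have m : ∀ x : (J → Ω) × Ω, x ∈ (Fintype.piFinset fun j => (q j).S) ×ˢ (q j).S →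
      (update x.1 j x.2, x.1 j) ∈ (Fintype.piFinset fun j => (q j).S) ×ˢ (q j).S := by
    simp only [mem_product, Fintype.mem_piFinset]
    exact fun x h => ⟨fun i => by
      rcases eq_or_ne i j with rfl | hi
      · rw [update_self]
        exact h.2
      · rw [update_of_ne hi]
        exact h.1 i, h.1 j⟩
  rw [e]
  simp only [PE, FP.E, mul_sum]
  rw [← sum_product', ← sum_product']
  refine sum_nbij' (fun x => (update x.1 j x.2, x.1 j)) (fun x => (update x.1 j x.2, x.1 j)) m m
    (fun x _ => by simp) (fun x _ => by simp) fun x _ => ?_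
  simp only [update_idem, update_eq_self]
  rw [prod_upd, ← mul_prod_erase _ _ (mem_univ j)]
  ring

open Classical in
theorem PE_dep (q q' : J → FP Ω) (I : Set J) (F : (J → Ω) → ℝ) (h : ∀ j ∈ I, q j = q' j)
    (hF : ∀ g g', (∀ j ∈ I, g j = g' j) → F g = F g') : PE q F = PE q' F := by
  have e : PE q F = PE q fun g => PE q' fun _ => F g := by simp only [PE_const]
  have m : ∀ x : (J → Ω) × (J → Ω),
      x ∈ (Fintype.piFinset fun j => (q j).S) ×ˢ (Fintype.piFinset fun j => (q' j).S) →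
      (fun j => if j ∈ I then x.2 j else x.1 j, fun j => if j ∈ I then x.1 j else x.2 j) ∈
        (Fintype.piFinset fun j => (q j).S) ×ˢ (Fintype.piFinset fun j => (q' j).S) := by
    simp only [mem_product, Fintype.mem_piFinset]
    refine fun x hx => ⟨fun i => ?_, fun i => ?_⟩ <;> split_ifs with hi
    exacts [h i hi ▸ hx.2 i, hx.1 i, h i hi ▸ hx.1 i, hx.2 i]
  rw [e, ← PE_const q (PE q' F)]
  simp only [PE, mul_sum]
  rw [← sum_product', ← sum_product']
  refine sum_nbij'
    (fun x => (fun j => if j ∈ I then x.2 j else x.1 j, fun j => if j ∈ I then x.1 j else x.2 j))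
    (fun x => (fun j => if j ∈ I then x.2 j else x.1 j, fun j => if j ∈ I then x.1 j else x.2 j))
    m m (fun x _ => ?_) (fun x _ => ?_) fun x _ => ?_
  · ext j <;> by_cases hj : j ∈ I <;> simp [hj]
  · ext j <;> by_cases hj : j ∈ I <;> simp [hj]
  · rw [← mul_assoc, ← mul_assoc, ← prod_mul_distrib, ← prod_mul_distrib,
      hF x.1 _ fun j hj => (if_pos hj).symm]
    refine congrArg (· * _) (prod_congr rfl fun j _ => ?_)
    by_cases hj : j ∈ I
    · simp only [if_pos hj, h j hj, mul_comm]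
    · simp only [if_neg hj]

omit [DecidableEq J] in
theorem mem_star (h : Cnd) (P : FP Ω) (φ : J → Ω → β) (x : Ω × (J → Ω)) :
    x ∈ (star P φ).S ↔ x.1 ∈ P.S ∧ ∀ j, x.2 j ∈ P.S ∧ φ j (x.2 j) = φ j x.1 := by
  simp only [star, mem_map, mem_sigma, Fintype.mem_piFinset]
  constructor
  · rintro ⟨y, hy, rfl⟩
    exact ⟨hy.1, fun j => (h.mem P _ _ _ hy.1).1 (hy.2 j)⟩
  · exact fun hx => ⟨⟨x.1, x.2⟩, ⟨hx.1, fun j => (h.mem P _ _ _ hx.1).2 (hx.2 j)⟩, rfl⟩

theorem cnd_p (P : FP Ω) (φ : Ω → β) {ω : Ω} (h : ω ∈ P.S) (a : Ω) :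
    (cnd P φ ω).p a = P.p a / P.pr (Setoid.ker φ) ω := by
  rw [cnd, dif_pos h]

theorem swap (h : Cnd) (P : FP Ω) (φ : J → Ω → β) (j : J) (F : Ω × (J → Ω) → ℝ)
    (hφ : ∀ i, Fn P (φ i) (φ j)) :
    (star P φ).E F = (star P φ).E fun x => F (x.2 j, update x.2 j x.1) := by
  have m : ∀ x ∈ (star P φ).S, (x.2 j, update x.2 j x.1) ∈ (star P φ).S := fun x hx => by
    rw [mem_star h] at hx ⊢
    refine ⟨(hx.2 j).1, fun i => ?_⟩
    rcases eq_or_ne i j with rfl | hi
    · simpa only [update_self] using ⟨hx.1, (hx.2 i).2.symm⟩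
    · simpa only [update_of_ne hi] using
        ⟨(hx.2 i).1, (hx.2 i).2.trans (hφ i _ hx.1 _ (hx.2 j).1 (hx.2 j).2.symm)⟩
  refine sum_nbij' (fun x => (x.2 j, update x.2 j x.1)) (fun x => (x.2 j, update x.2 j x.1)) m m
    (fun x _ => by simp) (fun x _ => by simp) fun x hx => ?_
  rw [mem_star h] at hx
  have e : ∀ i, cnd P (φ i) (x.2 j) = cnd P (φ i) x.1 := fun i =>
    h.cong P _ _ _ (hx.2 j).1 hx.1 (hφ i _ (hx.2 j).1 _ hx.1 (hx.2 j).2)
  simp only [star, e, update_idem, update_eq_self, update_self]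
  rw [prod_upd fun i => cnd P (φ i) x.1, ← mul_prod_erase _ _ (mem_univ j), cnd_p P _ hx.1,
    cnd_p P _ hx.1]
  ring

end STAR1

open STAR1

theorem rowSTAR1 : SStar1 := fun h =>
  { mem := mem_star h
    base := fun P φ F => by
      classical
      simp only [E_star, PE_const]
    res := fun P φ j F => by
      rw [E_star, E_star]
      exact P.E_congr fun ω _ => PE_res _ j _
    dep := fun P φ φ' I F h1 h2 => by
      classical
      rw [E_star, E_star]
      exact P.E_congr fun ω _ => PE_dep _ _ I _ (fun j hj => by rw [h1 j hj]) (h2 ω)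
    swap := swap h }

end Pool.Agent.MP_5168f5_an.H17S
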