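import Pool.Agent.MP_5168f5_an.H17S.BeApi

/-! Entropy identities for conditionally independent copies. -/

namespace Pool.Agent.MP_5168f5_an.H17S

open H19 MeasureTheory

namespace STAR2

variable {Ω β J α γ δ : Type} [Fintype J] [DecidableEq J]

/-- The joint class probability factors. -/
theorem pr_eq (hC : Cnd) (hS : Star1) (P : FP Ω) (φ : J → Ω → β) (j : J)
    (F : Ω → γ → α) (W : Ω × (J → Ω) → γ) (G : Ω × (J → Ω) → δ)
    (hW : ∀ x a, W (x.1, Function.update x.2 j a) = W x)
    (hG : ∀ x a, G (x.1, Function.update x.2 j a) = G x)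
    (h1 : Fn (star P φ) W G) (h2 : Fn (star P φ) (fun x => φ j x.1) G)
    {x : Ω × (J → Ω)} (hx : x ∈ (star P φ).S) :
    (star P φ).pr (Setoid.ker fun y => (F (y.2 j) (W y), G y)) x =
      (cnd P (φ j) x.1).pr (Setoid.ker fun a => F a (W x)) (x.2 j) *
        (star P φ).pr (Setoid.ker G) x := by
  classical
  set c := (cnd P (φ j) x.1).pr (Setoid.ker fun a => F a (W x)) (x.2 j) with hc
  unfold FP.pr
  rw [hS.res P φ j, ← FP.E_mul]
  refine FP.E_congr _ fun y hy => ?_
  have hx1 := ((hS.mem P φ x).1 hx).1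
  have hy1 := ((hS.mem P φ y).1 hy).1
  by_cases h : G y = G x
  · have e1 : W y = W x := h1 y hy x hx h
    have e2 : cnd P (φ j) y.1 = cnd P (φ j) x.1 := hC.cong P (φ j) _ _ hy1 hx1 (h2 y hy x hx h)
    have e3 : (Setoid.ker G) y x := h
    rw [if_pos e3, mul_one, e2, hc]
    unfold FP.pr
    refine FP.E_congr _ fun a _ => ?_
    by_cases h3 : F a (W x) = F (x.2 j) (W x)
    · have e4 : (Setoid.ker fun a => F a (W x)) a (x.2 j) := h3
      have e5 : (Setoid.ker fun y : Ω × (J → Ω) => (F (y.2 j) (W y), G y))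
          (y.1, Function.update y.2 j a) x := by
        rw [Setoid.ker_def]
        simp only [Function.update_self, hW, hG, e1, h, h3]
      rw [if_pos e4, if_pos e5]
    · have e4 : ¬ (Setoid.ker fun a => F a (W x)) a (x.2 j) := h3
      have e5 : ¬ (Setoid.ker fun y : Ω × (J → Ω) => (F (y.2 j) (W y), G y))
          (y.1, Function.update y.2 j a) x := by
        rw [Setoid.ker_def]
        simp only [Function.update_self, hW, hG, e1, Prod.mk.injEq]
        exact fun h4 => h3 h4.1
      rw [if_neg e4, if_neg e5]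
  · have e3 : ¬ (Setoid.ker G) y x := h
    rw [if_neg e3, mul_zero]
    refine (FP.E_congr _ fun a _ => ?_).trans (FP.E_const _ 0)
    have e5 : ¬ (Setoid.ker fun y : Ω × (J → Ω) => (F (y.2 j) (W y), G y))
        (y.1, Function.update y.2 j a) x := by
      rw [Setoid.ker_def]
      simp only [hG, Prod.mk.injEq]
      exact fun h4 => h h4.2
    rw [if_neg e5]

theorem mkv (hC : Cnd) (hS : Star1) (P : FP Ω) (φ : J → Ω → β) (j : J)
    (F : Ω → γ → α) (W : Ω × (J → Ω) → γ) (G : Ω × (J → Ω) → δ)
    (hW : ∀ x a, W (x.1, Function.update x.2 j a) = W x)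
    (hG : ∀ x a, G (x.1, Function.update x.2 j a) = G x)
    (h1 : Fn (star P φ) W G) (h2 : Fn (star P φ) (fun x => φ j x.1) G) :
    ch (star P φ) (fun x => F (x.2 j) (W x)) G =
      (star P φ).E fun x => hh (cnd P (φ j) x.1) fun a => F a (W x) := by
  have e1 : ch (star P φ) (fun x => F (x.2 j) (W x)) G = (star P φ).E fun x =>
      -Real.log ((cnd P (φ j) x.1).pr (Setoid.ker fun a => F a (W x)) (x.2 j)) := by
    unfold ch hh FP.H
    rw [← FP.E_sub]
    refine FP.E_congr _ fun x hx => ?_
    have hx' := (hS.mem P φ x).1 hx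
    have hm : x.2 j ∈ (cnd P (φ j) x.1).S := (hC.mem P (φ j) _ _ hx'.1).2 (hx'.2 j)
    rw [pr_eq hC hS P φ j F W G hW hG h1 h2 hx,
      Real.log_mul (FP.pr_pos _ _ hm).ne' (FP.pr_pos _ _ hx).ne']
    ring
  rw [e1, hS.res P φ j]
  refine FP.E_congr _ fun x _ => ?_
  unfold hh FP.H
  refine FP.E_congr _ fun a _ => ?_
  simp only [Function.update_self, hW]

theorem mk1 (hC : Cnd) (hS : Star1) (P : FP Ω) (φ : J → Ω → β) (j : J)
    (f : Ω → α) (G : Ω × (J → Ω) → δ) (hG : ∀ x a, G (x.1, Function.update x.2 j a) = G x)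
    (h2 : Fn (star P φ) (fun x => φ j x.1) G) :
    ch (star P φ) (fun x => f (x.2 j)) G = ch P f (φ j) := by
  have e1 := mkv hC hS P φ j (fun a (_ : Unit) => f a) (fun _ => ()) G (fun _ _ => rfl) hG
    (fun _ _ _ _ _ => rfl) h2
  have e2 := hS.base P φ fun ω => hh (cnd P (φ j) ω) f
  have e3 := hC.ent P (φ j) (fun _ => f) fun _ _ _ _ _ => rfl
  exact e1.trans (e2.trans e3.symm)

omit [DecidableEq J] in
theorem fn_base (hS : Star1) {P : FP Ω} (φ : J → Ω → β) {f : Ω → α} {G : Ω → δ}
    (h : Fn P f G) : Fn (star P φ) (fun x => f x.1) fun x => G x.1 :=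
  fun a ha b hb e => h _ ((hS.mem P φ a).1 ha).1 _ ((hS.mem P φ b).1 hb).1 e

omit [DecidableEq J] in
theorem pair (hC : Cnd) (hS : Star1) (P : FP Ω) (φ : J → Ω → β) (j : J) :
    Pair P (φ j) (star P φ) Prod.fst fun x => x.2 j where
  mem := fun x hx => by
    have h := (hS.mem P φ x).1 hx
    exact ⟨h.1, (h.2 j).1, (h.2 j).2⟩
  base := hS.base P φ
  swap := fun F => by
    classical
    have hd : ∀ K : Ω → Ω → ℝ, (star P φ).E (fun x => K x.1 (x.2 j)) =
        (star P fun _ : J => φ j).E fun x => K x.1 (x.2 j) := by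
      intro K
      refine hS.dep P φ (fun _ => φ j) {j} _ (fun i hi => ?_) fun ω g g' h => ?_
      · rw [Set.mem_singleton_iff.1 hi]
      · show K ω (g j) = K ω (g' j)
        rw [h j rfl]
    rw [hd F, hd fun a b => F b a,
      hS.swap P (fun _ : J => φ j) j _ fun _ => Fn.rfl (φ j)]
    refine FP.E_congr _ fun x _ => ?_
    simp only [Function.update_self]
  mkv := fun f G h => by
    classical
    exact mk1 hC hS P φ j f (fun x => G x.1) (fun _ _ => rfl) (fn_base hS φ h)

theorem ind (hC : Cnd) (hS : Star1) (P : FP Ω) (φ : J → Ω → β)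
    (I : Finset J) (f : J → Ω → α) (d : α) (G : Ω → δ) (h : ∀ j ∈ I, Fn P (φ j) G) :
    ∑ j ∈ I, ch P (f j) (φ j) ≤
      ch (star P φ) (fun x j => if j ∈ I then f j (x.2 j) else d) fun x => G x.1 := by
  induction I using Finset.induction_on with
  | empty => rw [Finset.sum_empty]; exact ch_nonneg _ _
  | insert i I hi ih =>
    rw [Finset.sum_insert hi]
    have e1 := ih fun j hj => h j (Finset.mem_insert_of_mem hj)
    have e2 := ch_chain (P := star P φ) (fun x j => if j ∈ I then f j (x.2 j) else d)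
      (fun x => f i (x.2 i)) fun x => G x.1
    have e3 := mk1 hC hS P φ i (f i)
      (fun x => ((fun j => if j ∈ I then f j (x.2 j) else d), G x.1)) (fun x a => by
        refine Prod.ext (funext fun k => ?_) rfl
        by_cases hk : k ∈ I
        · have : k ≠ i := fun e => hi (e ▸ hk)
          simp only [hk, if_true, Function.update_of_ne this]
        · simp only [hk, if_false])
      ((fn_base hS φ (h i (Finset.mem_insert_self i I))).right _)
    have e4 : ch (star P φ) (fun x => ((fun j => if j ∈ I then f j (x.2 j) else d), f i (x.2 i)))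
        (fun x => G x.1) ≤ ch (star P φ)
          (fun x j => if j ∈ insert i I then f j (x.2 j) else d) fun x => G x.1 := by
      refine ch_mono fun a _ b _ e => ?_
      have e5 := congrArg Prod.fst e
      refine Prod.ext (funext fun k => ?_) ?_
      · by_cases hk : k ∈ I
        · have := congrFun e5 k
          simpa only [Finset.mem_insert, hk, or_true, if_true] using this
        · simp only [hk, if_false]
      · have := congrFun e5 i
        simpa only [Finset.mem_insert, true_or, if_true] using this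
    linarith

end STAR2

theorem rowSTAR2 : SStar2 := fun hC hS =>
  { mkv := fun P φ j F W G h1 h2 h3 h4 => STAR2.mkv hC hS P φ j F W G h1 h2 h3 h4
    mk1 := fun P φ j f G h1 h2 => STAR2.mk1 hC hS P φ j f G h1 h2
    pair := fun P φ j => STAR2.pair hC hS P φ j
    ind := fun P φ I f d G h => STAR2.ind hC hS P φ I f d G h }

end Pool.Agent.MP_5168f5_an.H17S
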