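import Pool.Agent.MP_5168f5_an.H17S.BeApi

/-! Volumes of the concrete bodies. -/

namespace Pool.Agent.MP_5168f5_an.H17S

open H19 MeasureTheory

namespace VOL2

variable {N : ℕ}

theorem fin (A : Bd (V N)) : volume A.s ≠ ⊤ := A.bd.measure_lt_top.ne

theorem pos (A : Bd (V N)) : 0 < (volume A.s).toReal :=
  ENNReal.toReal_pos (A.op.measure_pos volume ⟨0, A.z0⟩).ne' (fin A)

/-- A translate of a dilate. -/
def D (A : Bd (V N)) (c : ℝ) (x : V N) : Set (V N) := {y | A.In c (y - x)}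

theorem D_meas (A : Bd (V N)) (c : ℝ) (x : V N) : MeasurableSet (D A c x) :=
  (A.op.preimage (f := fun y : V N => c⁻¹ • (y - x)) (by fun_prop)).measurableSet

theorem D_vol (A : Bd (V N)) {c : ℝ} (hc : 0 < c) (x : V N) :
    volume (D A c x) = ENNReal.ofReal (c ^ N) * volume A.s := by
  have e : D A c x = (fun y => y + -x) ⁻¹' ((fun y => c⁻¹ • y) ⁻¹' A.s) := by
    ext y
    simp only [D, Bd.In, Set.mem_ofPred_eq, Set.mem_preimage, sub_eq_add_neg]
  rw [e, measure_preimage_add_right, Measure.addHaar_preimage_smul _ (inv_ne_zero hc.ne'), inv_pow,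
    inv_inv, Module.finrank_fin_fun, abs_of_pos (pow_pos hc N)]

theorem D_fin (A : Bd (V N)) {c : ℝ} (hc : 0 < c) (x : V N) : volume (D A c x) ≠ ⊤ := by
  rw [D_vol A hc]
  exact ENNReal.mul_ne_top ENNReal.ofReal_ne_top (fin A)

theorem D_real (A : Bd (V N)) {c : ℝ} (hc : 0 < c) (x : V N) :
    volume.real (D A c x) = c ^ N * (volume A.s).toReal := by
  rw [Measure.real, D_vol A hc, ENNReal.toReal_mul, ENNReal.toReal_ofReal (pow_pos hc N).le]

theorem lg_le : Real.log 2 ≤ 1 := by linarith [Real.log_two_lt_d9]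

theorem cyl_lv (z : ℝ) (U U' : Bd (V N)) : (cyl z U U').lv = U.lv + U'.lv := by
  have e : volume (cyl z U U').s = volume U.s * volume U'.s := by
    rw [Measure.volume_eq_prod, Measure.prod_apply_symm (cyl z U U').op.measurableSet,
      ← lintegral_indicator_const U'.op.measurableSet]
    refine lintegral_congr fun y => ?_
    by_cases h : y ∈ U'.s
    · rw [Set.indicator_of_mem h, ← measure_preimage_add_right volume (z • y) U.s]
      exact congrArg _ (Set.ext fun x => ⟨fun k => k.1, fun k => ⟨k, h⟩⟩)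
    · rw [Set.indicator_of_notMem h]
      exact measure_mono_null (fun x k => h (mem_cyl.1 k).2) measure_empty
  rw [Bd.lv, e, ENNReal.toReal_mul, Real.log_mul (pos U).ne' (pos U').ne']
  rfl

theorem ball_lv {r : ℝ} (hr : 0 < r) : (Bd.ball r hr : Bd (V N)).lv = N * Real.log (2 * r) := by
  rw [Bd.lv, show (Bd.ball r hr : Bd (V N)).s = Metric.ball 0 r from rfl, Real.volume_pi_ball _ hr,
    ENNReal.toReal_ofReal (by positivity), Real.log_pow, Fintype.card_fin]

theorem tb (u : ℕ) : (top N).lv - (bot N u).lv = N * (u + 1) * lg := by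
  rw [top, bot, ball_lv, ball_lv, Real.log_mul two_ne_zero two_ne_zero,
    Real.log_mul two_ne_zero (by positivity), Real.log_inv, Real.log_pow, lg]
  ring

theorem segU (u ν : ℕ) (v : V N) (hv : ‖v‖ ≤ 2 ^ ν * ((2 : ℝ) ^ u)⁻¹) :
    (seg u v).lv ≤ (bot N u).lv + ν * lg + (N + 2) := by
  have h2 : (0 : ℝ) < 2 ^ ν := by positivity
  have hs : (seg u v).s ⊆ ⋃ i ∈ Finset.range (2 ^ (ν + 2)),
      D (bot N u) 2 (((i : ℝ) / 2 ^ ν - 1) • v) := by
    rintro y ⟨t, ht, hy⟩
    obtain ⟨t0, t1⟩ := abs_le.1 ht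
    have p : 0 ≤ (t + 1) * 2 ^ ν := mul_nonneg (by linarith) h2.le
    have f1 := Nat.floor_le p
    have f2 := Nat.lt_floor_add_one ((t + 1) * 2 ^ ν)
    refine Set.mem_iUnion₂.2 ⟨⌊(t + 1) * 2 ^ ν⌋₊, Finset.mem_range.2 ((Nat.floor_lt p).2 ?_), ?_⟩
    · push_cast
      rw [pow_add]
      nlinarith
    · set i := ⌊(t + 1) * 2 ^ ν⌋₊
      have e : y - ((i : ℝ) / 2 ^ ν - 1) • v = (y - t • v) + (((t + 1) * 2 ^ ν - i) / 2 ^ ν) • v := by
        rw [sub_div, mul_div_cancel_right₀ _ h2.ne']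
        module
      refine (in_bot two_pos).2 ?_
      rw [e]
      refine (norm_add_le _ _).trans_lt ?_
      have k : ‖(((t + 1) * 2 ^ ν - i) / 2 ^ ν) • v‖ ≤ ((2 : ℝ) ^ u)⁻¹ := by
        rw [norm_smul, Real.norm_eq_abs, abs_of_nonneg (div_nonneg (by linarith) h2.le),
          div_mul_eq_mul_div, div_le_iff₀ h2]
        exact (mul_le_of_le_one_left (norm_nonneg v) (by linarith)).trans (hv.trans_eq (mul_comm _ _))
      linarith [mem_bot.1 hy]
  have h3 := (measureReal_mono hs (measure_biUnion_lt_top (Finset.finite_toSet _)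
    fun i _ => (D_fin _ two_pos _).lt_top).ne).trans (measureReal_biUnion_finset_le _ _)
  simp only [D_real _ two_pos, Finset.sum_const, Finset.card_range, nsmul_eq_mul] at h3
  have h4 := Real.log_le_log (pos (seg u v)) h3
  have p := pos (bot N u)
  push_cast at h4
  rw [Real.log_mul (by positivity) (by positivity), Real.log_mul (by positivity) p.ne',
    Real.log_pow, Real.log_pow] at h4
  push_cast at h4
  have h5 := mul_le_of_le_one_right (Nat.cast_nonneg (α := ℝ) N) lg_le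
  unfold Bd.lv lg
  linarith [lg_le]

theorem segL (u ι : ℕ) (v : V N) (W : Bd (V N)) (h : ¬ W.In (2 ^ ι) v) :
    W.lv + ι * lg ≤ (W ⊔ seg u v).lv + 2 * N := by
  have h2 : (0 : ℝ) < 2 ^ ι := by positivity
  have hh : (0 : ℝ) < 2⁻¹ := by norm_num
  have hs : ⋃ i ∈ Finset.range (2 ^ ι), D W 2⁻¹ (((i : ℝ) / 2 ^ ι) • v) ⊆ D (W ⊔ seg u v) 2 0 := by
    intro y hy
    obtain ⟨i, hi, hy⟩ := Set.mem_iUnion₂.1 hy
    have i1 : (i : ℝ) ≤ 2 ^ ι := by exact_mod_cast (Finset.mem_range.1 hi).le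
    have k := Bd.In.sup_add hy (Bd.in_one.2 (Bd.smul_mem (self_mem_seg u v) (t := (i : ℝ) / 2 ^ ι)
      (by rw [abs_of_nonneg (by positivity)]; exact (div_le_one h2).2 i1))) hh one_pos
    rw [sub_add_cancel] at k
    change (W ⊔ seg u v).In 2 (y - 0)
    rw [sub_zero]
    exact k.mono (by norm_num) (by norm_num)
  have hd : ((Finset.range (2 ^ ι) : Finset ℕ) : Set ℕ).PairwiseDisjoint
      fun i => D W 2⁻¹ (((i : ℝ) / 2 ^ ι) • v) := fun i _ j _ hij => by
    refine Set.disjoint_left.2 fun y k1 k2 => h ?_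
    have k := Bd.In.sub k2 k1 hh hh
    rw [show (2⁻¹ + 2⁻¹ : ℝ) = 1 by norm_num, Bd.in_one] at k
    have a1 : (1 : ℝ) ≤ |(i : ℝ) - j| := by
      have : (1 : ℤ) ≤ |(i : ℤ) - j| := Int.one_le_abs (sub_ne_zero.2 (by exact_mod_cast hij))
      exact_mod_cast this
    have a0 : (i : ℝ) - j ≠ 0 := abs_pos.1 (by linarith)
    have k' := Bd.smul_mem k (t := ((i : ℝ) - j)⁻¹) (by rw [abs_inv]; exact inv_le_one_of_one_le₀ a1)
    rw [sub_sub_sub_cancel_left, ← sub_smul, smul_smul, ← sub_div, ← mul_div_assoc,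
      inv_mul_cancel₀ a0, one_div] at k'
    exact k'
  have h3 := measureReal_mono hs (D_fin _ two_pos _)
  rw [measureReal_biUnion_finset hd (fun i _ => D_meas _ _ _) fun i _ => D_fin _ hh _] at h3
  simp only [D_real _ two_pos, D_real _ hh, Finset.sum_const, Finset.card_range, nsmul_eq_mul] at h3
  have p := pos W
  have p' := pos (W ⊔ seg u v)
  push_cast at h3
  have h4 := Real.log_le_log (by positivity) h3
  rw [Real.log_mul (by positivity) (by positivity), Real.log_mul (by positivity) p.ne',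
    Real.log_mul (by positivity) p'.ne', Real.log_pow, Real.log_pow, Real.log_pow, Real.log_inv] at h4
  have h5 := mul_le_of_le_one_right (Nat.cast_nonneg (α := ℝ) N) lg_le
  unfold Bd.lv lg
  linarith

end VOL2

theorem rowVOL2 : SVol2 := fun _ => ⟨VOL2.cyl_lv, VOL2.tb, VOL2.segU, VOL2.segL⟩

end Pool.Agent.MP_5168f5_an.H17S
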