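import Pool.Agent.MP_5168f5_an.H17S.BeApi

/-! Elementary facts on the bodies spanned by the copies. -/

namespace Pool.Agent.MP_5168f5_an.H17S

open H19 MeasureTheory

theorem rowWKA : SWkA := by
  intro h N c u K k hk
  have dv1 : ∀ x ∈ (c.St u K k).S, ∀ j ≤ k, ‖c.dv u j x.1 (c.cp K j x)‖ ≤ 1 := fun x hx j hj => by
    have hj' : j < K + 1 := by omega
    have h1 := (((h.mem _ _ x).1 hx).2 ⟨j, hj'⟩).2
    rw [show min ((⟨j, hj'⟩ : Fin (K + 1)) : ℕ) k = j from min_eq_left hj] at h1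
    rw [Cfg.cp, dif_pos hj']
    exact c.dv_le_one u j (congrArg (fun y => y.2.2.1.2) h1)
  have fd : ∀ j < k, ∀ x y, c.Dk u K k x = c.Dk u K k y → c.X (k * u) x.1 = c.X (k * u) y.1 →
      c.dv u j x.1 (c.cp K j x) = c.dv u j y.1 (c.cp K j y) := fun j hj x y h1 h2 => by
    have hj' : j < K + 1 := by omega
    have h3 := congrFun h1 ⟨j, hj'⟩
    simp only [Cfg.Dk, if_pos hj] at h3
    have h4 : fl ((j + 1) * u) (c.e (x.2 ⟨j, hj'⟩)) = fl ((j + 1) * u) (c.e (y.2 ⟨j, hj'⟩)) :=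
      congrArg Prod.snd h3
    have h5 : fl ((j + 1) * u) (c.e x.1) = fl ((j + 1) * u) (c.e y.1) :=
      congrArg Prod.snd (c.X_eq_of_le (Nat.mul_le_mul_right u hj) h2)
    rw [Cfg.cp, Cfg.cp, dif_pos hj', dif_pos hj']
    funext i
    simp only [Cfg.dv, h4, h5]
  refine ⟨dv1, fun x hx j => ?_, fun j => ?_, fd⟩
  · induction j with
    | zero => exact fun _ => ⟨le_rfl, bot_le_top N u⟩
    | succ j ih =>
      exact fun hj => ⟨(ih (by omega)).1.trans le_sup_left,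
        sup_le (ih (by omega)).2 (seg_le_top u (dv1 x hx j (by omega)))⟩
  · induction j with
    | zero => exact fun _ _ _ _ _ => rfl
    | succ j ih =>
      intro hj x y h1 h2
      rw [Cfg.Wk, Cfg.Wk, ih (by omega) x y h1 h2, fd j hj x y h1 h2]

end Pool.Agent.MP_5168f5_an.H17S
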