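import Pool.Agent.MP_5168f5_an.H17S.BeApi

/-! Rescaling a sticky configuration. -/

namespace Pool.Agent.MP_5168f5_an.H17S

open H19 MeasureTheory

namespace ZOOM

variable {N : ℕ} {c : Cfg N} {M : ℕ} {η : ℝ}

theorem err_nonneg (h : c.OK M η) : 0 ≤ η * M * lg := by
  have h1 := h.inf
  have h2 : ch c.P c.z c.ln ≤ ch c.P c.z c.θ := ch_anti c.fn_θ_ln
  linarith

theorem dir_le (h : c.OK M η) {k : ℕ} (hk : k ≤ M) :
    N * k * lg - η * M * lg ≤ ch c.P (fun ω => fl k (c.e ω)) c.θ := by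
  obtain ⟨r, rfl⟩ := Nat.exists_eq_add_of_le hk
  have h1 := h.dir
  have h2 := ch_tri (P := c.P) (fun ω => fl (k + r) (c.e ω)) (fun ω => fl k (c.e ω)) c.θ
  have h3 := ch_fl_refine (P := c.P) (x := c.e) (j := k) (i := r)
    (G := fun ω => (fl k (c.e ω), c.θ ω)) (Fn.fst _ _)
  push_cast at h1 ⊢
  linarith

theorem hgt_le (h : c.OK M η) {k : ℕ} (hk : k ≤ M) :
    k * lg - η * M * lg ≤ ch c.P (fun ω => fl1 k (c.z ω)) c.θ := by
  obtain ⟨r, rfl⟩ := Nat.exists_eq_add_of_le hk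
  have h1 := h.hgt
  have h2 := ch_tri (P := c.P) (fun ω => fl1 (k + r) (c.z ω)) (fun ω => fl1 k (c.z ω)) c.θ
  have h3 := ch_fl1_refine (P := c.P) (x := c.z) (j := fun _ => k) (i := fun _ => r)
    (G := fun ω => (fl1 k (c.z ω), c.θ ω)) (fun _ _ _ _ _ => rfl) (fun _ _ _ _ _ => rfl)
    (Fn.fst _ _)
  rw [FP.E_const] at h3
  push_cast at h1 ⊢
  linarith

theorem fl_up {i j : ℕ} {x y : V N} (h : fl i (fr j x) = fl i (fr j y)) (h' : fl j x = fl j y) :
    fl (j + i) x = fl (j + i) y := by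
  rw [fl_fr, fl_fr, h'] at h
  funext t
  have := congrFun h t
  linarith

theorem fl_down {i j : ℕ} {x y : V N} (h : fl (j + i) x = fl (j + i) y) :
    fl i (fr j x) = fl i (fr j y) := by
  rw [fl_fr, fl_fr, h, fl_eq_of_le (Nat.le_add_right j i) h]

end ZOOM

open ZOOM in
theorem rowZOOM : Zoom := by
  intro N c M i j η η' h hM hη
  have hD := err_nonneg h
  have hE : 2 * η * M * lg ≤ η' * i * lg := mul_le_mul_of_nonneg_right hη lg_pos.le
  have hj : j ≤ M := le_trans (Nat.le_add_right j i) hM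
  have hi : i ≤ M := le_trans (Nat.le_add_left i j) hM
  have hθ : Fn c.P (fun ω => (c.θ ω, c.X j ω)) c.ln := c.fn_θ_ln.pair (c.fn_X_ln j)
  refine ⟨c.zoom_box h.box j, ?_, ?_, ?_, ?_⟩
  · change (N - η') * i * lg ≤
      ch c.P (fun ω => fl i (fr j (c.e ω))) (fun ω => (c.θ ω, c.X j ω))
    have h1 := dir_le h hM
    have h2 := ch_tri' (P := c.P) (fun ω => fl (j + i) (c.e ω)) c.θ (fun ω => (c.θ ω, c.X j ω))
    have h3 : ch c.P (fun ω => (c.θ ω, c.X j ω)) c.θ ≤ ch c.P (c.X j) c.θ :=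
      ch_mono ((Fn.snd _ _).pair (Fn.fst _ _))
    have h4 := h.stk j hj
    have h5 : ch c.P (fun ω => fl (j + i) (c.e ω)) (fun ω => (c.θ ω, c.X j ω)) ≤
        ch c.P (fun ω => fl i (fr j (c.e ω))) (fun ω => (c.θ ω, c.X j ω)) :=
      ch_mono fun a _ b _ e =>
        fl_up (congrArg Prod.fst e) (congrArg (fun p => p.2.2.2) e)
    push_cast at h1
    linarith
  · intro k hk
    change ch c.P (fun ω => (fl k (fr j (c.a ω)), fl k (fr j (c.e ω))))
      (fun ω => (c.θ ω, c.X j ω)) ≤ (N * k + η' * i) * lg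
    have h1 : ch c.P (fun ω => (fl k (fr j (c.a ω)), fl k (fr j (c.e ω))))
        (fun ω => (c.θ ω, c.X j ω)) ≤ ch c.P (c.X (j + k)) (fun ω => (c.X j ω, c.θ ω)) :=
      ch_le (fun a _ b _ e => Prod.ext (fl_down (congrArg (fun p => p.1.1) e))
        (fl_down (congrArg (fun p => p.1.2) e))) ((Fn.snd _ _).pair (Fn.fst _ _))
    have h2 := ch_chain (P := c.P) (c.X j) (c.X (j + k)) c.θ
    have h3 : ch c.P (fun ω => (c.X j ω, c.X (j + k) ω)) c.θ ≤ ch c.P (c.X (j + k)) c.θ :=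
      ch_mono fun a _ b _ e =>
        Prod.ext (c.X_eq_of_le (Nat.le_add_right j k) (congrArg Prod.fst e)) (congrArg Prod.fst e)
    have h4 := h.stk (j + k) (le_trans (Nat.add_le_add_left hk j) hM)
    have h5 := dir_le h hj
    have h6 : ch c.P (fun ω => fl j (c.e ω)) c.θ ≤ ch c.P (c.X j) c.θ :=
      ch_mono fun a _ b _ e => congrArg (fun p => p.1.2) e
    push_cast at h4
    linarith
  · change ch c.P c.z (fun ω => (c.θ ω, c.X j ω)) ≤ ch c.P c.z (c.zoom j).ln + η' * i * lg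
    have h1 : ch c.P c.z (fun ω => (c.θ ω, c.X j ω)) ≤ ch c.P c.z c.θ := ch_anti (Fn.fst _ _)
    have h2 := h.inf
    have h3 : ch c.P c.z c.ln ≤ ch c.P c.z (c.zoom j).ln :=
      ch_anti fun a _ b _ e => (c.zoom_ln_iff j a b).2 e
    linarith
  · change (1 - η') * i * lg ≤ ch c.P (fun ω => fl1 i (c.z ω)) (fun ω => (c.θ ω, c.X j ω))
    have h1 : ch c.P (fun ω => fl1 i (c.z ω)) c.ln ≤
        ch c.P (fun ω => fl1 i (c.z ω)) (fun ω => (c.θ ω, c.X j ω)) := ch_anti hθ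
    have h2 := ch_info' (P := c.P) (ξ := c.z) (L := c.ln) (G := c.θ)
      (f := fun ω => fl1 i (c.z ω)) c.fn_θ_ln ((Fn.comp (fl1 i) c.z).left _)
    have h3 := h.inf
    have h4 := hgt_le h hi
    linarith

end Pool.Agent.MP_5168f5_an.H17S
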