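import Pool.Agent.MP_5168f5_an.H17S.VOL
import Pool.Agent.MP_5168f5_an.H17S.VOL2
import Pool.Agent.MP_5168f5_an.H17S.HN
import Pool.Agent.MP_5168f5_an.H17S.BL
import Pool.Agent.MP_5168f5_an.H17S.INC
import Pool.Agent.MP_5168f5_an.H17S.SIX
import Pool.Agent.MP_5168f5_an.H17S.LAT
import Pool.Agent.MP_5168f5_an.H17S.CND
import Pool.Agent.MP_5168f5_an.H17S.STAR1
import Pool.Agent.MP_5168f5_an.H17S.STAR2
import Pool.Agent.MP_5168f5_an.H17S.SEP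
import Pool.Agent.MP_5168f5_an.H17S.INFO
import Pool.Agent.MP_5168f5_an.H17S.FIB
import Pool.Agent.MP_5168f5_an.H17S.MULTI
import Pool.Agent.MP_5168f5_an.H17S.COPY
import Pool.Agent.MP_5168f5_an.H17S.FULL1
import Pool.Agent.MP_5168f5_an.H17S.FULL2
import Pool.Agent.MP_5168f5_an.H17S.FULL
import Pool.Agent.MP_5168f5_an.H17S.LVA
import Pool.Agent.MP_5168f5_an.H17S.WKA
import Pool.Agent.MP_5168f5_an.H17S.GRAIN
import Pool.Agent.MP_5168f5_an.H17S.PLANE1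
import Pool.Agent.MP_5168f5_an.H17S.PLANE
import Pool.Agent.MP_5168f5_an.H17S.PIGEON
import Pool.Agent.MP_5168f5_an.H17S.PACKA
import Pool.Agent.MP_5168f5_an.H17S.CORE
import Pool.Agent.MP_5168f5_an.H17S.ZOOM
import Pool.Agent.MP_5168f5_an.H17S.EXTA
import Pool.Agent.MP_5168f5_an.H17S.GOODA
import Pool.Agent.MP_5168f5_an.H17S.DISC
import Pool.Agent.MP_5168f5_an.H17S.COV
import Pool.Agent.MP_5168f5_an.H17S.PICK
import Pool.Agent.MP_5168f5_an.H17S.MEAS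
import Pool.Agent.MP_5168f5_an.H17S.UBMAP
import Pool.Agent.MP_5168f5_an.H17S.FINAL

/-! Sticky Kakeya sets have Hausdorff dimension at least `(3 n + 1) / 4`. -/

namespace Pool.Agent.MP_5168f5_an.H17S

theorem meas (N : ℕ) : Meas N (N / 4) := by
  have s1 := rowSTAR1 rowCND
  have s2 := rowSTAR2 rowCND s1
  have lat := rowLAT rowVOL rowVOL2 rowHN (rowBL rowHN) (rowSIX rowVOL rowVOL2 rowINC)
  have mu := rowMULTI rowCND s1 s2 (rowSEP s1 s2) (rowINFO s1 s2) (rowFIB rowVOL rowVOL2 lat)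
  have wk := rowWKA s1
  have lv := rowLVA s1 s2 rowCOPY
  have fu := rowFULL rowVOL rowVOL2 rowFULL1 (rowFULL2 rowCOPY)
  have pk := rowPACKA s1 wk lv (rowGRAIN rowVOL s1 s2 wk fu lv)
    (rowPLANE rowVOL s1 wk lv (rowPLANE1 rowVOL rowVOL2 s1 s2 wk))
  have go := rowGOODA (rowCORE mu (rowPIGEON rowVOL rowVOL2 s1 wk) pk) (rowEXTA rowZOOM)
  exact rowMEAS rowCOV rowPICK N _ (rowDISC N _ (go N))

open MeasureTheory FINAL in
theorem robust (N : ℕ) (ε : ℝ) (hε : 0 < ε) : ∃ η : ℝ, 0 < η ∧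
    ∀ (K : Set (E N)) (L : Set (E N × E N)), IsCompact K →
      (∀ l ∈ L, ‖l.1‖ = 1 ∧ inner ℝ l.1 l.2 = (0 : ℝ) ∧
        ∃ t₀ : ℝ, ∀ t ∈ Set.Icc t₀ (t₀ + 1), l.2 + t • l.1 ∈ K) →
      (∀ v, ‖v‖ = 1 → ∃ p, (v, p) ∈ L) → PackLE (N + η) L →
      ENNReal.ofReal (N + 1 - N / 4 - ε) ≤ dimH K := by
  obtain ⟨η, η0, h⟩ := meas N ε hε
  refine ⟨η / 2, by positivity, fun K L hK hL hdir hP => ?_⟩
  obtain ⟨R, R0, hR⟩ := hK.isBounded.exists_pos_norm_lt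
  obtain ⟨B, hB, hB'⟩ := hP (N + η) (by linarith)
  let A : ℕ × Z N → Set (E N × E N) := fun j => {l | l ∈ B j.1 ∧ l ∈ S N R ∧ l ∈ L ∧
    (∀ i, 0 ≤ (Ψ R j.2 l).1 i ∧ (Ψ R j.2 l).1 i < 1) ∧ ∀ i, 0 ≤ (Ψ R j.2 l).2 i ∧ (Ψ R j.2 l).2 i < 1}
  have h1 : (Set.univ.pi fun _ : Fin N => Set.Ico (0 : ℝ) 1) ⊆
      ⋃ j, Prod.snd '' (Ψ R j.2 '' A j) := by
    intro e he
    have he' : ∀ i, 0 ≤ e i ∧ e i < 1 := fun i => he i trivial
    obtain ⟨v, v1, v2, v3⟩ := dir e he'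
    obtain ⟨p, hp⟩ := hdir v v1
    obtain ⟨k, hk⟩ := Set.mem_iUnion.1 (hB hp)
    obtain ⟨-, a2, t₀, a3⟩ := hL _ hp
    refine Set.mem_iUnion.2 ⟨(k, fun i => ⌊(p i.succ - (p 0 + R) * (v i.succ / v 0)) / (2 * R)⌋),
      _, ⟨(v, p), ⟨hk, ⟨⟨mem_closedBall_zero_iff.2 v1.le, v2⟩, mem_closedBall_zero_iff.2 ?_⟩, hp,
        fun i => ⟨Int.fract_nonneg _, Int.fract_lt_one _⟩, fun i => ?_⟩, rfl⟩, funext v3⟩
    · exact (norm_le a2 t₀).trans (hR _ (a3 t₀ ⟨le_rfl, by linarith⟩)).le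
    · have := he' i
      rwa [← v3] at this
  obtain ⟨j, hj⟩ : ∃ j, volume (Prod.snd '' (Ψ R j.2 '' A j)) ≠ 0 := by
    by_contra h2
    push Not at h2
    have h3 := measure_mono_null h1 (measure_iUnion_null h2)
    rw [Real.volume_pi_Ico] at h3
    simp at h3
  obtain ⟨C, hC⟩ := lip R j.2
  have h2 := h (Φ R j.2 '' K) (Ψ R j.2 '' A j) (1 / (N + 1 : ℝ) / (2 * R)) (by positivity)
    (rowUBMAP _ (B j.1) (A j) _ C (by positivity) (hB' _) (fun l hl => hl.1)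
      (hC.mono fun l hl => hl.2.1)) hj (by
    rintro _ ⟨l, ⟨-, a1, a2, a3, a4⟩, rfl⟩
    obtain ⟨-, -, t₀, a5⟩ := hL l a2
    exact ⟨a3, a4, line R0 hR j.2 a1 a5⟩)
  exact h2.trans (dim_le R j.2 K)

end Pool.Agent.MP_5168f5_an.H17S
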