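import Pool.Agent.MP_5168f5_an.H17S.BeApi

/-! The direction modulo the body spanned by the coarser copies. -/

namespace Pool.Agent.MP_5168f5_an.H17S

open H19 MeasureTheory

namespace PLANE1

theorem ch_eq_on {Ω α β : Type} {P : FP Ω} {F F' : Ω → α} {G G' : Ω → β}
    (hF : ∀ x ∈ P.S, F x = F' x) (hG : ∀ x ∈ P.S, G x = G' x) : ch P F G = ch P F' G' :=
  ch_congr (fun a ha b hb e => by rw [hF a ha, hF b hb]; exact congrArg Prod.fst e)
    (fun a ha b hb e => by rw [← hF a ha, ← hF b hb]; exact congrArg Prod.fst e)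
    (fun a ha b hb e => by rw [hG a ha, hG b hb]; exact e)
    fun a ha b hb e => by rw [← hG a ha, ← hG b hb]; exact e

variable {N : ℕ}

open Classical in
/-- The scale at which `v` enters the dilates of `W`. -/
noncomputable def io (u : ℕ) (W : Bd (V N)) (v : V N) : ℕ :=
  Nat.find (⟨u + 1, Or.inl (Nat.lt_succ_self u)⟩ : ∃ ι : ℕ, u < ι ∨ W.In (2 ^ ι) v)

theorem io_le (u : ℕ) (W : Bd (V N)) (v : V N) : io u W v ≤ u + 1 := by
  classical
  exact Nat.find_le (Or.inl (Nat.lt_succ_self u))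

theorem in_io {u : ℕ} {W : Bd (V N)} {v : V N} (hW : bot N u ≤ W) (hv : ‖v‖ ≤ 1) :
    W.In (2 ^ io u W v) v := by
  classical
  rcases Nat.find_spec (⟨u + 1, Or.inl (Nat.lt_succ_self u)⟩ :
    ∃ ι : ℕ, u < ι ∨ W.In (2 ^ ι) v) with h | h
  · rw [show io u W v = u + 1 from le_antisymm (io_le u W v) h]
    refine ((in_bot (by positivity)).2 ?_).of_le hW
    rw [pow_succ', mul_assoc, mul_inv_cancel₀ (by positivity)]
    linarith
  · exact h

theorem io_lv (h1 : Vol (V N) N) (h2 : Vol2 N) (u : ℕ) (W : Bd (V N)) (v : V N) :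
    io u W v * lg ≤ (W ⊔ seg u v).lv - W.lv + (2 * N + 1) := by
  classical
  have hN : (0 : ℝ) ≤ N := Nat.cast_nonneg N
  rcases Nat.eq_zero_or_eq_succ_pred (io u W v) with e | e
  · have := h1.mono (le_sup_left : W ≤ W ⊔ seg u v)
    rw [e, Nat.cast_zero, zero_mul]
    linarith
  · have := h2.segL u _ v W fun k => Nat.find_min (⟨u + 1, Or.inl (Nat.lt_succ_self u)⟩ :
      ∃ ι : ℕ, u < ι ∨ W.In (2 ^ ι) v) (m := (io u W v).pred) ((Nat.lt_succ_self _).trans_eq e.symm) (Or.inr k)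
    rw [e, Nat.cast_succ]
    linarith [lg_lt_one]

theorem log_le (N ι : ℕ) :
    Real.log (Real.exp (N * Real.log (6 * 2 ^ (ι + 1)))) ≤ N * (ι * lg + 3) := by
  rw [Real.log_exp, pow_succ', ← mul_assoc, Real.log_mul (by norm_num) (by positivity), log_two_pow]
  exact mul_le_mul_of_nonneg_left (by linarith [log_twelve_le]) (Nat.cast_nonneg N)

end PLANE1

open PLANE1 in
theorem rowPLANE1 : SPlane1 := by
  intro hV hV2 s1 s2 wk N c u K k hk
  have w := wk N c u K k hk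
  let kk : Fin (K + 1) := ⟨k, Nat.lt_succ_of_le hk⟩
  let Φ : Fin (K + 1) → c.Ω → Z N × ℝ × (Z N × Z N) × c.T := fun j => c.φ u K (min j k)
  have eΦ : Φ kk = c.φ u K k := congrArg (c.φ u K) (min_self k)
  have ecp : ∀ x, c.cp K k x = x.2 kk := fun x => dif_pos kk.2
  have hD : ∀ (x : c.Ω × (Fin (K + 1) → c.Ω)) (a b : c.Ω),
      c.Dk u K k (b, Function.update x.2 kk a) = c.Dk u K k x := fun x a b => funext fun j => by
    unfold Cfg.Dk
    by_cases h : (j : ℕ) < k
    · rw [if_pos h, if_pos h]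
      exact congrArg _ (Function.update_of_ne (fun e => h.ne (congrArg Fin.val e)) _ _)
    · rw [if_neg h, if_neg h]
  have hφ : ∀ x ∈ (c.St u K k).S, c.φ u K k (x.2 kk) = c.φ u K k x.1 := fun x hx =>
    eΦ ▸ (((s1.mem c.P Φ x).1 hx).2 kk).2
  have hX : ∀ a b, c.φ u K k a = c.φ u K k b → c.X (k * u) a = c.X (k * u) b := fun _ _ e =>
    congrArg (·.2.2.1) e
  have hW : ∀ (x : c.Ω × (Fin (K + 1) → c.Ω)) (a : c.Ω),
      c.Wk u K (x.1, Function.update x.2 kk a) k = c.Wk u K x k := fun x a =>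
    w.fW k le_rfl _ _ (hD x a _) rfl
  have e1 := ch_law (Q₁ := c.St u K k) (Q₂ := c.St u K k) id
    (fun x => (x.2 kk, Function.update x.2 kk x.1))
    (fun F => s1.swap c.P Φ kk F fun i => eΦ ▸ c.φ_fn u K (min_le_right _ _))
    (fun x => (c.Wk u K x k).kap (fr (k * u) (c.e x.1))) fun x => (c.φ u K k x.1, c.Dk u K k x)
  have e2 := s2.mkv c.P Φ kk (fun a (W : Bd (V N)) => W.kap (fr (k * u) (c.e a)))
    (fun x => c.Wk u K x k) (fun x => (c.φ u K k x.1, c.Dk u K k x)) hW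
    (fun x a => Prod.ext rfl (hD x a _))
    (fun a _ b _ e => w.fW k le_rfl _ _ (congrArg Prod.snd e) (hX _ _ (congrArg Prod.fst e)))
    fun a _ b _ e => eΦ ▸ congrArg Prod.fst e
  have e3 := s2.mkv c.P Φ kk (fun a (W : Bd (V N)) => W.kap (fr (k * u) (c.e a)))
    (fun x => c.Wk u K x k) (fun x => (x.1, c.Dk u K k x)) hW
    (fun x a => Prod.ext rfl (hD x a _))
    (fun a _ b _ e => w.fW k le_rfl _ _ (congrArg Prod.snd e) (congrArg _ (Prod.mk.inj e).1))
    fun a _ b _ e => congrArg (Φ kk) (Prod.mk.inj e).1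
  have e4 := ch_scale (P := c.St u K k)
    (F := fun x => (c.Wk u K x k).kap (fr (k * u) (c.e (x.2 kk)))) (G := fun x => (x.1, c.Dk u K k x))
    (ι := fun x => io u (c.Wk u K x k) (c.dv u k x.1 (c.cp K k x))) (fun x _ => io_le u _ _)
    (fun ι => Real.exp (N * Real.log (6 * 2 ^ (ι + 1)))) fun a _ => by
      have c1 : (1 : ℝ) ≤ 2 ^ (io u (c.Wk u K a k) (c.dv u k a.1 (c.cp K k a)) + 1) :=
        one_le_pow₀ one_le_two
      obtain ⟨T, t1, t2⟩ := (hV N).1.count (c.Wk u K a k) (c.Wk u K a k) _ (fr (k * u) (c.e a.1)) c1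
        (Bd.Sub.of_le le_rfl c1)
      rw [sub_self, zero_add] at t1
      refine ⟨T, t1, fun b hb e e' => ?_⟩
      have b1 : b.1 = a.1 := (Prod.mk.inj e).1
      have b2 := w.fW k le_rfl b a (congrArg Prod.snd e) (congrArg _ b1)
      have b3 := (w.wb b hb k k.le_succ).1
      have b4 := (in_io b3 (w.dv1 b hb k le_rfl)).sub
        (Bd.in_one.2 (b3 (mem_bot.2 (c.dv_approx u k b.1 (c.cp K k b))))) (by positivity) one_pos
      have b5 : fl (k * u) (c.e (b.2 kk)) = fl (k * u) (c.e b.1) :=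
        congrArg Prod.snd (hX _ _ (hφ b hb))
      rw [← e', ← b2, ← b1] at t2
      refine t2 _ ?_
      rw [fr_eq, fr_eq, b5, sub_sub_sub_cancel_right, ← smul_sub, ← ecp]
      rw [sub_sub_cancel] at b4
      refine b4.mono (by positivity) ?_
      rw [pow_succ]
      linarith [one_le_pow₀ (n := io u (c.Wk u K b k) (c.dv u k b.1 (c.cp K k b))) (one_le_two (α := ℝ))]
  have e5 := (c.St u K k).E_mono (G := fun x => N * ((c.Wk u K x (k + 1)).lv - (c.Wk u K x k).lv) +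
      N * (2 * N + 4)) fun x _ => (log_le N (io u (c.Wk u K x k) (c.dv u k x.1 (c.cp K k x)))).trans
    (by
      rw [← mul_add]
      refine mul_le_mul_of_nonneg_left ?_ (Nat.cast_nonneg N)
      have := io_lv (hV N).1 (hV2 N) u (c.Wk u K x k) (c.dv u k x.1 (c.cp K k x))
      rw [Cfg.Wk]
      linarith)
  rw [FP.E_add, FP.E_mul, FP.E_const] at e5
  refine (e1.trans ((ch_eq_on (fun x hx => ?_) fun x hx => Prod.ext (hφ x hx) (hD x _ _)).trans
    (e2.trans e3.symm))).trans_le (e4.trans ?_)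
  · rw [w.fW k le_rfl _ x (hD x _ _) (hX _ _ (hφ x hx))]
  · rw [show ((u + 1 : ℕ) : ℝ) + 1 = u + 2 by push_cast; ring]
    nlinarith [Nat.cast_nonneg (α := ℝ) N]

end Pool.Agent.MP_5168f5_an.H17S
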