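import Pool.Agent.MP_5168f5_an.H17S.BeApi

/-! Two heights on one line are well separated on average. -/

namespace Pool.Agent.MP_5168f5_an.H17S

open H19 MeasureTheory

namespace SEP

/-- A number in `(-1, 1)` is at most twice the scale given by `sc`. -/
theorem abs_le_sc (u : ℕ) {x : ℝ} (hx : |x| ≤ 1) : |x| ≤ 2 * ((2 : ℝ) ^ sc u x)⁻¹ := by
  rcases Nat.eq_zero_or_pos (sc u x) with h | h
  · rw [h]; norm_num; linarith
  · obtain ⟨k, hk⟩ : ∃ k, sc u x = k + 1 := ⟨sc u x - 1, by omega⟩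
    have h1 := abs_lt_of_lt_sc (u := u) (i := k) (x := x) (by omega)
    have e : 2 * ((2 : ℝ) ^ (k + 1))⁻¹ = ((2 : ℝ) ^ k)⁻¹ := by
      rw [pow_succ]; field_simp
    rw [hk, e]; exact h1.le

/-- The counting step. -/
theorem count (u k : ℕ) (hk : k ≤ u + 1) (y : ℝ) : ∃ T : Finset ℤ,
    (T.card : ℝ) ≤ 2 ^ (u + 5) / 2 ^ k ∧
      ∀ y' : ℝ, |y' - y| ≤ 4 * ((2 : ℝ) ^ k)⁻¹ → fl1 u y' ∈ T := by
  obtain ⟨r, hr⟩ : ∃ r, u + 1 = k + r := ⟨u + 1 - k, by omega⟩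
  have h2 : (0 : ℝ) < 2 ^ k := by positivity
  have h3 : (0 : ℝ) < 2 ^ u := by positivity
  have h4 : (2 : ℝ) ^ u * 2 = 2 ^ k * 2 ^ r := by rw [← pow_succ, hr, pow_add]
  have h5 : (1 : ℝ) ≤ 2 ^ r := one_le_pow₀ (by norm_num)
  refine ⟨Finset.Icc (fl1 u y - (2 * 2 ^ r : ℕ)) (fl1 u y + (2 * 2 ^ r : ℕ)), ?_, fun y' h => ?_⟩
  · rw [Int.card_Icc]
    have e : (fl1 u y + (2 * 2 ^ r : ℕ) + 1 - (fl1 u y - (2 * 2 ^ r : ℕ))).toNat =
        2 * (2 * 2 ^ r) + 1 := by omega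
    rw [e, le_div_iff₀ h2]
    push_cast
    have e2 : (2 : ℝ) ^ (u + 5) = 16 * (2 ^ k * 2 ^ r) := by rw [← h4]; ring
    rw [e2]; nlinarith
  · refine fl1_mem_Icc (h.trans (le_of_eq ?_))
    push_cast
    field_simp
    linarith

end SEP

theorem rowSEP : SSep := by
  intro S1 S2 N c δ ξ W u m A Λ i j hP hij
  have hz : ∀ x ∈ (c.Hs m).S, ∀ k, 0 ≤ c.z (x.2 k) ∧ c.z (x.2 k) < 1 := fun x hx k =>
    (hP.box _ (((S1.mem _ _ x).1 hx).2 k).1).2.2
  have h1 := S2.mk1 c.P (fun _ : Fin m => c.ln) j (fun ω => fl1 u (c.z ω))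
    (fun x => (x.2 i, c.ln x.1)) (fun x a => by simp only [Function.update_of_ne hij])
    (fun a _ b _ e => congrArg Prod.snd e)
  have h2 := ch_scale (P := c.Hs m) (F := fun x => fl1 u (c.z (x.2 j)))
    (G := fun x => (x.2 i, c.ln x.1)) (ι := fun x => sc u (c.z (x.2 i) - c.z (x.2 j)))
    (I := u + 1) (fun _ _ => sc_le _ _) (fun k => 2 ^ (u + 5) / 2 ^ k) fun a ha => by
      obtain ⟨T, hT, hT'⟩ := SEP.count u _ (sc_le u (c.z (a.2 i) - c.z (a.2 j))) (c.z (a.2 j))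
      refine ⟨T, hT, fun b hb e e' => hT' _ ?_⟩
      have e1 : b.2 i = a.2 i := congrArg Prod.fst e
      have ha' := SEP.abs_le_sc u (x := c.z (a.2 i) - c.z (a.2 j)) (by
        rw [abs_le]; constructor <;> linarith [hz a ha i, hz a ha j, (hz a ha i).1,
          (hz a ha i).2, (hz a ha j).1, (hz a ha j).2])
      have hb' := SEP.abs_le_sc u (x := c.z (b.2 i) - c.z (b.2 j)) (by
        rw [abs_le]; constructor <;> linarith [(hz b hb i).1,
          (hz b hb i).2, (hz b hb j).1, (hz b hb j).2])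
      rw [e', e1] at hb'
      rw [abs_le] at ha' hb' ⊢
      constructor <;> linarith [ha'.1, ha'.2, hb'.1, hb'.2]
  have h3 : (c.Hs m).E (fun x => Real.log ((2 : ℝ) ^ (u + 5) /
      2 ^ sc u (c.z (x.2 i) - c.z (x.2 j)))) = (u + 5) * lg -
      (c.Hs m).E (fun x => (sc u (c.z (x.2 i) - c.z (x.2 j)) : ℝ)) * lg := by
    rw [mul_comm _ lg, mul_comm _ lg, ← FP.E_mul, ← (c.Hs m).E_const (lg * (u + 5)), ← FP.E_sub]
    refine FP.E_congr _ fun x _ => ?_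
    rw [Real.log_div (by positivity) (by positivity), log_two_pow, log_two_pow]
    push_cast; ring
  have h4 := hP.hgt
  have h5 : lg < 0.7 := lt_trans Real.log_two_lt_d9 (by norm_num)
  have h6 : ch (c.Hs m) (fun x => fl1 u (c.z (x.2 j))) (fun x => (x.2 i, c.ln x.1)) =
      ch c.P (fun ω => fl1 u (c.z ω)) c.ln := h1
  have h7 : ((u + 1 : ℕ) : ℝ) + 1 = u + 2 := by push_cast; ring
  rw [h3, h6, h7] at h2
  linarith

end Pool.Agent.MP_5168f5_an.H17S
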