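import Mathlib

/-! Packing dimension through countable unions of sets of bounded upper box dimension. -/

namespace Pool.Agent.MP_5168f5_an.H17S

/-- For all `r ≤ 1` the set `A` is covered by at most `C r^{-s}` balls of radius `r`. -/
def UB {X : Type} [PseudoMetricSpace X] (s : ℝ) (A : Set X) : Prop :=
  ∃ C : ℝ, ∀ r : ℝ, 0 < r → r ≤ 1 → ∃ F : Finset X,
    (F.card : ℝ) ≤ C * r ^ (-s) ∧ A ⊆ ⋃ x ∈ F, Metric.ball x r

/-- The packing dimension (modified upper box dimension) of `A` is at most `s`. -/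
def PackLE {X : Type} [PseudoMetricSpace X] (s : ℝ) (A : Set X) : Prop :=
  ∀ t : ℝ, s < t → ∃ B : ℕ → Set X, A ⊆ ⋃ i, B i ∧ ∀ i, UB t (B i)

end Pool.Agent.MP_5168f5_an.H17S
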