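import Pool.Agent.MP_5168f5_an.H17S.FlApi
import Pool.Agent.MP_5168f5_an.H17S.Stmt

/-! Sticky Kakeya sets: the statements of the steps. -/

namespace Pool.Agent.MP_5168f5_an.H17S

open H19 MeasureTheory

/-! ### Volumes -/

/-- Volume facts for bodies in a space of dimension `d`. -/
structure Vol (E : Type) [NormedAddCommGroup E] [NormedSpace ℝ E] [MeasureSpace E] (d : ℝ) :
    Prop where
  d0 : 0 ≤ d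
  sub : ∀ (A B : Bd E) (c : ℝ), 0 < c → A.Sub B c → A.lv ≤ B.lv + d * Real.log c
  count : ∀ (A B : Bd E) (c : ℝ) (x₀ : E), 1 ≤ c → A.Sub B c → ∃ T : Finset E,
    (T.card : ℝ) ≤ Real.exp (B.lv - A.lv + d * Real.log (6 * c)) ∧
      ∀ x, B.In c (x - x₀) → A.kap x ∈ T
  mod1 : ∀ A B : Bd E, (A ⊔ B).lv + (A ⊓ B).lv ≤ A.lv + B.lv + 3 * d
  mod2 : ∀ A B : Bd E, A.lv + B.lv ≤ (A ⊔ B).lv + (A ⊓ B).lv + 3 * d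

def SVol : Prop := ∀ N : ℕ, Vol (V N) N ∧ Vol (V N × V N) (2 * N)

/-- Volumes of the concrete bodies. -/
structure Vol2 (N : ℕ) : Prop where
  cyl : ∀ (z : ℝ) (U U' : Bd (V N)), (cyl z U U').lv = U.lv + U'.lv
  tb : ∀ u : ℕ, (top N).lv - (bot N u).lv = N * (u + 1) * lg
  segU : ∀ (u ν : ℕ) (v : V N), ‖v‖ ≤ 2 ^ ν * ((2 : ℝ) ^ u)⁻¹ →
    (seg u v).lv ≤ (bot N u).lv + ν * lg + (N + 2)
  segL : ∀ (u ι : ℕ) (v : V N) (W : Bd (V N)), ¬ W.In (2 ^ ι) v →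
    W.lv + ι * lg ≤ (W ⊔ seg u v).lv + 2 * N

def SVol2 : Prop := ∀ N : ℕ, Vol2 N

/-! ### Chains in a lattice -/

def SHN : Prop := ∀ {α : Type} [Lattice α] (v c : α → ℝ) (lo hi : α) (Λ : ℝ) (L : ℕ),
  0 < L → lo ≤ hi → 0 ≤ Λ → (∀ a b, a ≤ b → v a ≤ v b) →
  (∀ a b, lo ≤ a → a ≤ b → b ≤ hi → c b - c a ≤ v b - v a + Λ) →
  (∀ a b, lo ≤ a → a ≤ b → b ≤ hi → c a ≤ c b + Λ) →
  ∃ T : ℕ → α, T 0 = lo ∧ T L = hi ∧ (∀ l, T l ≤ T (l + 1)) ∧ (∀ l, lo ≤ T l ∧ T l ≤ hi) ∧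
    (∀ l < L, ∀ b, T l ≤ b → b ≤ hi →
      c b - c (T l) ≤ (1 - (l : ℝ) / L) * (v b - v (T l)) + (Λ + 1)) ∧
    (∀ l < L, (1 - (l + 1 : ℝ) / L) * (v (T (l + 1)) - v (T l)) - (Λ + 1) ≤
      c (T (l + 1)) - c (T l))

def SBL : Prop := ∀ {α ι : Type} [Lattice α] (v c : α → ℝ) (lo hi : α) (Λ : ℝ) (L : ℕ)
  (s : Finset ι) (B : ι → α) (τ β : ℝ),
  0 < L → lo ≤ hi → 0 ≤ Λ → 0 ≤ τ → (∀ a b, a ≤ b → v a ≤ v b) →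
  (∀ a b, lo ≤ a → a ≤ b → b ≤ hi → c b - c a ≤ v b - v a + Λ) →
  (∀ a b, lo ≤ a → a ≤ b → b ≤ hi → c a ≤ c b + Λ) →
  (∀ a b, v (a ⊔ b) + v (a ⊓ b) ≤ v a + v b + Λ) →
  (∀ a b, c a + c b ≤ c (a ⊔ b) + c (a ⊓ b) + Λ) →
  (∀ i ∈ s, lo ≤ B i ∧ B i ≤ hi) →
  (∀ A, lo ≤ A → A ≤ hi → ∑ i ∈ s, (v (B i ⊓ A) - v lo) ≤ τ * (v A - v lo) + β) →
  ∑ i ∈ s, (c (B i) - c lo) ≤
    τ * (c hi - c lo) + τ * (v hi - v lo) / L + β + (3 * s.card + τ) * L * (Λ + 1)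

/-! ### The lattice inequality -/

/-- Inclusions between the bodies attached to `A` with `Tm × Tm ≤ A ≤ Tp × Tp`. -/
structure Inc {N : ℕ} (Tm Tp : Bd (V N)) (A : Bd (V N × V N)) : Prop where
  fb : ∀ z : ℝ, |z| ≤ 1 → Tm ≤ Fd A z Tm Tp ∧ Fd A z Tm Tp ≤ Tp
  yb : ∀ z : ℝ, Tm ≤ Yd A z Tp ∧ Yd A z Tp ≤ Tp
  l1 : ∀ z : ℝ, (cyl z Tm (Fd A z Tm Tp)).Sub (A ⊓ cyl z Tm Tp) 3
  l2 : ∀ z : ℝ, (cyl z (Yd A z Tp) Tp).Sub (A ⊔ cyl z Tm Tp) 3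
  u1 : ∀ (z : ℝ) (K : Bd (V N × V N)), (K ⊓ A) ⊓ cyl z Tm Tp ≤ cyl z Tm (Fd A z Tm Tp)
  u2 : ∀ (z : ℝ) (W : Bd (V N)) (K : Bd (V N × V N)), |z| ≤ 1 → Tm ≤ W →
    K.Sub (cyl z W Tp) 4 → ((K ⊓ A) ⊔ cyl z Tm Tp).Sub (cyl z (W ⊓ Yd A z Tp) Tp) 5
  u3 : ∀ (z : ℝ) (W : Bd (V N)) (M : Bd (V N × V N)),
    M.Sub (cyl z Tm W) 4 → (M ⊓ A).Sub (cyl z Tm (W ⊓ Fd A z Tm Tp)) 4
  s1 : ∀ s a b c : ℝ, 0 < s → s ≤ |a - b| → a ∈ Set.Icc (0 : ℝ) 1 → b ∈ Set.Icc (0 : ℝ) 1 →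
    c ∈ Set.Icc (0 : ℝ) 1 → (Fd A a Tm Tp ⊓ Fd A b Tm Tp).Sub (Fd A c Tm Tp) (6 / s)
  s2 : ∀ s a b c : ℝ, 0 < s → s ≤ |a - b| → a ∈ Set.Icc (0 : ℝ) 1 → b ∈ Set.Icc (0 : ℝ) 1 →
    c ∈ Set.Icc (0 : ℝ) 1 → (Yd A c Tp).Sub (Yd A a Tp ⊔ Yd A b Tp) (4 / s)
  s3 : ∀ s a b : ℝ, 0 < s → s ≤ |a - b| → a ∈ Set.Icc (0 : ℝ) 1 → b ∈ Set.Icc (0 : ℝ) 1 →
    (Fd A a Tm Tp).Sub (Yd A b Tp) (2 / s)

def SInc : Prop := ∀ (N : ℕ) (Tm Tp : Bd (V N)) (A : Bd (V N × V N)),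
  Tm ≤ Tp → sq Tm ≤ A → A ≤ sq Tp → Inc Tm Tp A

/-- One graded piece: a semistable family of bodies `W j`. -/
def Six : Prop := ∀ (N m : ℕ) (z : Fin m → ℝ) (s μ β Λ : ℝ) (Tm Tp : Bd (V N))
  (W : Fin m → Bd (V N)) (K M : Fin m → Bd (V N × V N)) (A : Bd (V N × V N)),
  5 ≤ m → 0 < s → s ≤ 1 → (∀ i, z i ∈ Set.Icc (0 : ℝ) 1) → (∀ i j, i ≠ j → s ≤ |z i - z j|) →
  0 ≤ μ → μ ≤ 1 → N * (Real.log (8 / s) + 3) ≤ Λ → Tm ≤ Tp → (∀ i, Tm ≤ W i ∧ W i ≤ Tp) →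
  (∀ i, (K i).Sub (cyl (z i) (W i) Tp) 4) → (∀ i, (M i).Sub (cyl (z i) Tm (W i)) 4) →
  (∀ U, Tm ≤ U → U ≤ Tp → ∑ i, ((W i ⊓ U).lv - Tm.lv) ≤ m * (μ * (U.lv - Tm.lv) + β)) →
  sq Tm ≤ A → A ≤ sq Tp →
  ∑ i, (((K i ⊓ A).lv - (sq Tm).lv) + ((M i ⊓ A).lv - (sq Tm).lv)) ≤
    m * (1 / 2 + μ) * (A.lv - (sq Tm).lv) + m * (2 * β + 30 * Λ) + 8 * (Tp.lv - Tm.lv)

def SSix : Prop := SVol → SVol2 → SInc → Six

/-- The lattice inequality for an abstract entropy function `h`. -/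
def Lat : Prop := ∀ (N m L : ℕ) (z : Fin m → ℝ) (s η Λ : ℝ) (T₀ T₁ : Bd (V N))
  (W : Fin m → Bd (V N)) (h : Bd (V N × V N) → ℝ),
  5 ≤ m → 0 < L → 0 < s → s ≤ 1 → (∀ i, z i ∈ Set.Icc (0 : ℝ) 1) →
  (∀ i j, i ≠ j → s ≤ |z i - z j|) → 1 ≤ Λ → N * (Real.log (8 / s) + 3) ≤ Λ →
  (∀ i, T₀ ≤ W i ∧ W i ≤ T₁) → (∀ A, 0 ≤ h A) →
  (∀ A B, A.Sub B 2 → h B ≤ h A + Λ) →
  (∀ A B, A ≤ B → h A ≤ h B + (B.lv - A.lv) + Λ) →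
  (∀ A B, h (A ⊔ B) + h (A ⊓ B) ≤ h A + h B + Λ) →
  (∀ T, T₀ ≤ T → T ≤ T₁ → η ≤ h (sq T) + (T.lv - T₀.lv) + Λ) →
  3 / 2 * η * m ≤ ∑ i, (h (cyl (z i) (W i) T₁) + h (cyl (z i) T₀ (W i)) + ((W i).lv - T₀.lv)) +
    (4 * m / L + 8) * (T₁.lv - T₀.lv) + 100 * m * L ^ 2 * Λ

def SLat : Prop := SVol → SVol2 → SHN → SBL → Six → Lat

/-! ### Conditional laws and copies -/

structure Cnd : Prop where
  mem : ∀ {Ω β : Type} (P : FP Ω) (φ : Ω → β) (ω a : Ω), ω ∈ P.S →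
    (a ∈ (cnd P φ ω).S ↔ a ∈ P.S ∧ φ a = φ ω)
  cong : ∀ {Ω β : Type} (P : FP Ω) (φ : Ω → β) (ω ω' : Ω), ω ∈ P.S → ω' ∈ P.S → φ ω = φ ω' →
    cnd P φ ω = cnd P φ ω'
  exp : ∀ {Ω β : Type} (P : FP Ω) (φ : Ω → β) (F : Ω → Ω → ℝ),
    (∀ a ∈ P.S, ∀ b ∈ P.S, φ a = φ b → F a = F b) →
    P.E (fun ω => F ω ω) = P.E fun ω => (cnd P φ ω).E (F ω)
  ent : ∀ {Ω α β : Type} (P : FP Ω) (φ : Ω → β) (F : Ω → Ω → α),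
    (∀ a ∈ P.S, ∀ b ∈ P.S, φ a = φ b → F a = F b) →
    ch P (fun ω => F ω ω) φ = P.E fun ω => hh (cnd P φ ω) (F ω)

structure Star1 : Prop where
  mem : ∀ {Ω β J : Type} [Fintype J] (P : FP Ω) (φ : J → Ω → β) (x : Ω × (J → Ω)),
    x ∈ (star P φ).S ↔ x.1 ∈ P.S ∧ ∀ j, x.2 j ∈ P.S ∧ φ j (x.2 j) = φ j x.1
  base : ∀ {Ω β J : Type} [Fintype J] (P : FP Ω) (φ : J → Ω → β) (F : Ω → ℝ),
    (star P φ).E (fun x => F x.1) = P.E F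
  res : ∀ {Ω β J : Type} [Fintype J] [DecidableEq J] (P : FP Ω) (φ : J → Ω → β) (j : J)
    (F : Ω × (J → Ω) → ℝ), (star P φ).E F =
      (star P φ).E fun x => (cnd P (φ j) x.1).E fun a => F (x.1, Function.update x.2 j a)
  dep : ∀ {Ω β J : Type} [Fintype J] (P : FP Ω) (φ φ' : J → Ω → β) (I : Set J)
    (F : Ω × (J → Ω) → ℝ), (∀ j ∈ I, φ j = φ' j) →
    (∀ ω g g', (∀ j ∈ I, g j = g' j) → F (ω, g) = F (ω, g')) → (star P φ).E F = (star P φ').E F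
  swap : ∀ {Ω β J : Type} [Fintype J] [DecidableEq J] (P : FP Ω) (φ : J → Ω → β) (j : J)
    (F : Ω × (J → Ω) → ℝ), (∀ i, Fn P (φ i) (φ j)) →
    (star P φ).E F = (star P φ).E fun x => F (x.2 j, Function.update x.2 j x.1)

def SStar1 : Prop := Cnd → Star1

structure Star2 : Prop where
  mkv : ∀ {Ω β J α γ δ : Type} [Fintype J] [DecidableEq J] (P : FP Ω) (φ : J → Ω → β) (j : J)
    (F : Ω → γ → α) (W : Ω × (J → Ω) → γ) (G : Ω × (J → Ω) → δ),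
    (∀ x a, W (x.1, Function.update x.2 j a) = W x) →
    (∀ x a, G (x.1, Function.update x.2 j a) = G x) →
    Fn (star P φ) W G → Fn (star P φ) (fun x => φ j x.1) G →
    ch (star P φ) (fun x => F (x.2 j) (W x)) G =
      (star P φ).E fun x => hh (cnd P (φ j) x.1) fun a => F a (W x)
  mk1 : ∀ {Ω β J α δ : Type} [Fintype J] [DecidableEq J] (P : FP Ω) (φ : J → Ω → β) (j : J)
    (f : Ω → α) (G : Ω × (J → Ω) → δ), (∀ x a, G (x.1, Function.update x.2 j a) = G x) →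
    Fn (star P φ) (fun x => φ j x.1) G → ch (star P φ) (fun x => f (x.2 j)) G = ch P f (φ j)
  pair : ∀ {Ω β J : Type} [Fintype J] (P : FP Ω) (φ : J → Ω → β) (j : J),
    Pair P (φ j) (star P φ) Prod.fst fun x => x.2 j
  ind : ∀ {Ω β J α δ : Type} [Fintype J] [DecidableEq J] (P : FP Ω) (φ : J → Ω → β)
    (I : Finset J) (f : J → Ω → α) (d : α) (G : Ω → δ), (∀ j ∈ I, Fn P (φ j) G) →
    ∑ j ∈ I, ch P (f j) (φ j) ≤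
      ch (star P φ) (fun x j => if j ∈ I then f j (x.2 j) else d) fun x => G x.1

def SStar2 : Prop := Cnd → Star1 → Star2

/-! ### Many heights -/

open Classical in
/-- The number of binary digits up to which `x` vanishes, cut at `u + 1`. -/
noncomputable def sc (u : ℕ) (x : ℝ) : ℕ :=
  Nat.find (⟨u + 1, Or.inl (Nat.lt_succ_self u)⟩ : ∃ ι : ℕ, u < ι ∨ ((2 : ℝ) ^ ι)⁻¹ ≤ |x|)

/-- `m` heights on one line. -/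
noncomputable def Cfg.Hs {N : ℕ} (c : Cfg N) (m : ℕ) : FP (c.Ω × (Fin m → c.Ω)) :=
  star c.P fun _ : Fin m => c.ln

def Sep : Prop := ∀ (N : ℕ) (c : Cfg N) (δ : Type) (ξ : c.Ω → δ) (W : c.Ω → Bd (V N)) (u m : ℕ)
  (A Λ : ℝ) (i j : Fin m), c.Pack ξ W u A Λ → i ≠ j →
  (c.Hs m).E (fun x => (sc u (c.z (x.2 i) - c.z (x.2 j)) : ℝ)) * lg ≤ Λ + Real.log (u + 2) + 4

def SSep : Prop := Star1 → Star2 → Sep

def Info : Prop := ∀ (N : ℕ) (c : Cfg N) (δ : Type) (ξ : c.Ω → δ) (W : c.Ω → Bd (V N)) (u m : ℕ)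
  (A Λ : ℝ), c.Pack ξ W u A Λ → N * u * lg - (m + 2) * Λ ≤
    ch (c.Hs m) (fun x => (bot N u).kap (c.e x.1)) fun x => (c.θ x.1, fun i => ξ (x.2 i))

def SInfo : Prop := Star1 → Star2 → Info

/-- The lattice inequality for a random line. -/
def Fib : Prop := ∀ (N m L u : ℕ) (Ω : Type) (P : FP Ω) (a e : Ω → V N) (z : Fin m → ℝ)
  (W : Fin m → Bd (V N)), 5 ≤ m → 0 < L → (∀ ω ∈ P.S, ∀ i, 0 ≤ e ω i ∧ e ω i < 1) →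
  (∀ i, z i ∈ Set.Icc (0 : ℝ) 1) → (∀ i, bot N u ≤ W i ∧ W i ≤ top N) →
  3 / 2 * hh P (fun ω => (bot N u).kap (e ω)) * m ≤
    ∑ i, (hh P (fun ω => (W i).kap (a ω + z i • e ω)) +
      hh P (fun ω => (fl u (a ω + z i • e ω), (W i).kap (e ω))) + ((W i).lv - (bot N u).lv)) +
    (4 * m / L + 8) * (N * (u + 1) * lg) +
    2100 * m * L ^ 2 * (N + 1) * (1 + ∑ i, ∑ j ∈ Finset.univ.erase i, (sc u (z i - z j) : ℝ))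

def SFib : Prop := SVol → SVol2 → Lat → Fib

def Multi : Prop := ∀ (N : ℕ) (ε : ℝ), 0 < ε → ∃ C : ℝ, 0 < C ∧ ∀ (c : Cfg N) (δ : Type)
  (ξ : c.Ω → δ) (W : c.Ω → Bd (V N)) (u : ℕ) (A Λ : ℝ), c.Pack ξ W u A Λ →
  3 / 2 * (N * u * lg) ≤ 2 * A + ε * u + C * (Λ + Real.log (u + 2))

def SMulti : Prop := Cnd → Star1 → Star2 → Sep → Info → Fib → Multi

/-! ### One height -/

/-- Position of the line at the left end point of the dyadic interval of the height. -/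
noncomputable def Cfg.bp {N : ℕ} (c : Cfg N) (j : ℕ) (ω : c.Ω) : V N :=
  c.a ω + (((2 : ℝ) ^ j)⁻¹ * fl1 j (c.z ω)) • c.e ω

def Copy : Prop := ∀ (N : ℕ) (c : Cfg N) (u K j : ℕ) (s Λ : ℝ) (Ω' : Type) (Q : FP Ω')
  (π π' : Ω' → c.Ω), c.Ext u K s Λ → j ≤ K → Pair c.P (c.φ u K j) Q π π' →
  ch Q (fun x => c.X ((j + 1) * u) (π' x))
      (fun x => (c.X ((j + 1) * u) (π x), fl1 u (c.z (π x)), c.θ (π x))) ≤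
    ch c.P (c.X ((j + 1) * u)) (c.φ u K j) + 6 * Λ

def Full1 : Prop := ∀ (N : ℕ) (c : Cfg N) (u K j k : ℕ) (s Λ : ℝ) (Ω' : Type) (Q : FP Ω')
  (π π' : Ω' → c.Ω), c.Ext u K s Λ → j < k → k ≤ K → Pair c.P (c.φ u K j) Q π π' →
  ch Q (fun x => fl ((k + 1) * u) (c.bp ((k - j) * u) (π' x)))
      (fun x => (c.θ (π x), c.X (k * u) (π x), c.X ((j + 1) * u) (π' x),
        fl1 ((k - j) * u) (c.z (π x)))) ≤ (N - s) * u * lg + 5 * Λ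

def Full2 : Prop := ∀ (N : ℕ) (c : Cfg N) (u K j k : ℕ) (s Λ : ℝ) (Ω' : Type) (Q : FP Ω')
  (π π' : Ω' → c.Ω), c.Ext u K s Λ → j < k → k ≤ K → Pair c.P (c.φ u K j) Q π π' →
  u * lg - 9 * Λ ≤ ch Q (fun x => fl1 ((k - j + 1) * u) (c.z (π x)))
    fun x => (c.ln (π x), c.X ((j + 1) * u) (π' x), fl1 ((k - j) * u) (c.z (π x)))

def SFull2 : Prop := Copy → Full2

/-- The direction of a copy of lower level is a grain direction. -/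
def Full : Prop := ∀ (N : ℕ) (c : Cfg N) (u K j k : ℕ) (s Λ : ℝ) (Ω' : Type) (Q : FP Ω')
  (π π' : Ω' → c.Ω), c.Ext u K s Λ → j < k → k ≤ K → Pair c.P (c.φ u K j) Q π π' →
  ch Q (fun x => (seg u (c.dv u j (π x) (π' x))).kap ((c.zoom (k * u)).pt (π x)))
      (fun x => (c.z (π x), c.X ((j + 1) * u) (π' x), (c.zoom (k * u)).θ (π x))) +
    Q.E (fun x => (seg u (c.dv u j (π x) (π' x))).lv - (bot N u).lv) ≤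
    (N - s) * u * lg + 20 * Λ

def SFull : Prop := SVol → SVol2 → Full1 → Full2 → Full

/-- The coarse copies say little about the line; `l = k` or `l = k + 1` are the cases used. -/
def LvA : Prop := ∀ (N : ℕ) (c : Cfg N) (u K k l : ℕ) (s Λ : ℝ), c.Ext u K s Λ → k ≤ K → k ≤ l →
  ch (c.St u K k) (c.Dk u K k) (fun x => (c.X (l * u) x.1, c.z x.1, c.θ x.1)) ≤
    ch (c.St u K k) (c.Dk u K k) (fun x => (c.ln x.1, c.z x.1)) + 6 * (K + 1) * Λ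

def SLvA : Prop := Star1 → Star2 → Copy → LvA

/-- Elementary facts on the bodies `Wk`. -/
structure WkF {N : ℕ} (c : Cfg N) (u K k : ℕ) : Prop where
  dv1 : ∀ x ∈ (c.St u K k).S, ∀ j ≤ k, ‖c.dv u j x.1 (c.cp K j x)‖ ≤ 1
  wb : ∀ x ∈ (c.St u K k).S, ∀ j ≤ k + 1, bot N u ≤ c.Wk u K x j ∧ c.Wk u K x j ≤ top N
  fW : ∀ j ≤ k, ∀ x y, c.Dk u K k x = c.Dk u K k y → c.X (k * u) x.1 = c.X (k * u) y.1 →
    c.Wk u K x j = c.Wk u K y j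
  fd : ∀ j < k, ∀ x y, c.Dk u K k x = c.Dk u K k y → c.X (k * u) x.1 = c.X (k * u) y.1 →
    c.dv u j x.1 (c.cp K j x) = c.dv u j y.1 (c.cp K j y)

def WkA : Prop := ∀ (N : ℕ) (c : Cfg N) (u K k : ℕ), k ≤ K → WkF c u K k

def SWkA : Prop := Star1 → WkA

def Grain : Prop := ∀ (N : ℕ) (c : Cfg N) (u K k : ℕ) (s Λ : ℝ), c.Ext u K s Λ → k ≤ K →
  ch (c.St u K k) (fun x => (c.Wk u K x k).kap ((c.zoom (k * u)).pt x.1))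
      (fun x => ((c.z x.1, c.Dk u K k x), (c.zoom (k * u)).θ x.1)) +
    (c.St u K k).E (fun x => (c.Wk u K x k).lv - (bot N u).lv) ≤
    (N - s) * u * lg + 40 * (K + 1) ^ 2 * Λ

def SGrain : Prop := SVol → Star1 → Star2 → WkA → Full → LvA → Grain

def Plane1 : Prop := ∀ (N : ℕ) (c : Cfg N) (u K k : ℕ), k ≤ K →
  ch (c.St u K k) (fun x => (c.Wk u K x k).kap (fr (k * u) (c.e x.1)))
      (fun x => (c.φ u K k x.1, c.Dk u K k x)) ≤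
    N * (c.St u K k).E (fun x => (c.Wk u K x (k + 1)).lv - (c.Wk u K x k).lv) +
      Real.log (u + 2) + N * (2 * N + 6)

def SPlane1 : Prop := SVol → SVol2 → Star1 → Star2 → WkA → Plane1

def Plane : Prop := ∀ (N : ℕ) (c : Cfg N) (u K k : ℕ) (s Λ : ℝ), c.Ext u K s Λ → k ≤ K →
  ch (c.St u K k)
      (fun x => (fl u ((c.zoom (k * u)).pt x.1), (c.Wk u K x k).kap (fr (k * u) (c.e x.1))))
      (fun x => ((c.z x.1, c.Dk u K k x), (c.zoom (k * u)).θ x.1)) ≤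
    (N - s) * u * lg +
      N * (c.St u K k).E (fun x => (c.Wk u K x (k + 1)).lv - (c.Wk u K x k).lv) +
      Real.log (u + 2) + 20 * (K + 1) * (N + 1) * Λ

def SPlane : Prop := SVol → Star1 → WkA → LvA → Plane1 → Plane

def Pigeon : Prop := ∀ (N : ℕ) (c : Cfg N) (u K : ℕ), ∃ k ≤ K,
  (c.St u K k).E (fun x => (c.Wk u K x (k + 1)).lv - (c.Wk u K x k).lv) ≤
    N * (u + 1) * lg / (K + 1)

def SPigeon : Prop := SVol → SVol2 → Star1 → WkA → Pigeon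

def PackA : Prop := ∀ (N : ℕ) (c : Cfg N) (u K k : ℕ) (s Λ : ℝ), c.Ext u K s Λ → k ≤ K →
  (c.St u K k).E (fun x => (c.Wk u K x (k + 1)).lv - (c.Wk u K x k).lv) ≤
    N * (u + 1) * lg / (K + 1) →
  (c.Lv u K k).Pack (fun x => (c.z x.1, c.Dk u K k x)) (fun x => c.Wk u K x k) u
    ((N - s) * u * lg + N * (N * (u + 1) * lg / (K + 1)) + Real.log (u + 2) +
      40 * (K + 1) ^ 2 * (N + 1) * Λ) (7 * (K + 1) * Λ)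

def SPackA : Prop := Star1 → WkA → LvA → Grain → Plane → PackA

/-- An extremal configuration has `s ≤ N / 4` up to errors. -/
def Core : Prop := ∀ (N : ℕ) (ε : ℝ), 0 < ε → ∃ (K : ℕ) (C : ℝ), 0 < C ∧
  ∀ (c : Cfg N) (u : ℕ) (s Λ : ℝ), c.Ext u K s Λ →
    (s - N / 4 - ε) * u ≤ C * (Λ + Real.log (u + 2))

def SCore : Prop := Multi → Pigeon → PackA → Core

/-! ### Induction on scales -/

def Zoom : Prop := ∀ (N : ℕ) (c : Cfg N) (M i j : ℕ) (η η' : ℝ), c.OK M η → j + i ≤ M →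
  2 * η * M ≤ η' * i → (c.zoom j).OK i η'

def ExtA : Prop := ∀ (N K : ℕ) (s ε : ℝ), 0 ≤ s → s ≤ N → Good N s → 0 < ε →
  ∃ η : ℝ, 0 < η ∧ ∃ M₀ : ℕ, ∀ M, M₀ ≤ M → ∀ (c : Cfg N) (γ : ℝ), 0 ≤ γ → c.OK M η →
    ch c.P (fun ω => fl M (c.pt ω)) (fun ω => (c.z ω, c.θ ω)) ≤ (N - s + γ) * M * lg →
    c.Ext (M / (K + 1)) K s ((γ + ε) * M)

def SExtA : Prop := Zoom → ExtA

def GoodA : Prop := ∀ N : ℕ, Good N (N / 4)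

def SGoodA : Prop := Core → ExtA → GoodA

/-! ### Hausdorff dimension -/

/-- The discretised theorem. -/
def Disc (N : ℕ) (s : ℝ) : Prop := ∀ ε : ℝ, 0 < ε → ∃ η : ℝ, 0 < η ∧ ∃ M₀ : ℕ, ∀ M, M₀ ≤ M →
  ∀ (G : Finset (V N × V N)) (Y : V N × V N → Finset ℕ) (E : Finset (Z N × ℕ)),
    (∀ g ∈ G, (∀ i, 0 ≤ g.1 i ∧ g.1 i < 1) ∧ ∀ i, 0 ≤ g.2 i ∧ g.2 i < 1) →
    Set.InjOn (fun g : V N × V N => fl M g.2) G → (2 : ℝ) ^ ((N - η) * M) ≤ G.card →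
    (∀ j ≤ M, ∃ T : Finset (Z N × Z N), (T.card : ℝ) ≤ (2 : ℝ) ^ (N * j + η * M) ∧
      ∀ g ∈ G, (fl j g.1, fl j g.2) ∈ T) →
    (∀ g ∈ G, Y g ⊆ Finset.range (2 ^ M) ∧ (2 : ℝ) ^ ((1 - η) * M) ≤ (Y g).card) →
    (∀ g ∈ G, ∀ t ∈ Y g, (fl M (g.1 + (((2 : ℝ) ^ M)⁻¹ * t) • g.2), t) ∈ E) →
    (2 : ℝ) ^ ((N + 1 - s - ε) * M) ≤ E.card

def SDisc : Prop := ∀ (N : ℕ) (s : ℝ), Good N s → Disc N s

/-- Scales for a set of small Hausdorff dimension. -/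
def Cov : Prop := ∀ (N : ℕ) (K : Set (V N × ℝ)) (d : ℝ) (M₀ : ℕ), 0 < d →
  dimH K < ENNReal.ofReal d → ∃ C : ℕ → Finset (V N × ℝ),
    (∀ M, ((C M).card : ℝ) ≤ (2 : ℝ) ^ (d * (M + 1))) ∧
      ∀ x ∈ K, ∃ M, M₀ ≤ M ∧ ∃ y ∈ C M, dist x y ≤ ((2 : ℝ) ^ M)⁻¹

/-- The dimension bound in graph coordinates. -/
def Meas (N : ℕ) (s : ℝ) : Prop := ∀ ε : ℝ, 0 < ε → ∃ η : ℝ, 0 < η ∧
  ∀ (K : Set (V N × ℝ)) (A : Set (V N × V N)) (c : ℝ), 0 < c → UB (N + η) A →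
    volume (Prod.snd '' A) ≠ 0 →
    (∀ l ∈ A, (∀ i, 0 ≤ l.1 i ∧ l.1 i < 1) ∧ (∀ i, 0 ≤ l.2 i ∧ l.2 i < 1) ∧
      ∃ z₀ : ℝ, 0 ≤ z₀ ∧ z₀ + c < 1 ∧ ∀ z ∈ Set.Icc z₀ (z₀ + c), (l.1 + z • l.2, z) ∈ K) →
    ENNReal.ofReal (N + 1 - s - ε) ≤ dimH K

/-- Choice of one scale that sees many directions and many heights. -/
def Pick : Prop := ∀ (N : ℕ) (K : Set (V N × ℝ)) (A : Set (V N × V N)) (c : ℝ),
  0 < c → volume (Prod.snd '' A) ≠ 0 →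
  (∀ l ∈ A, (∀ i, 0 ≤ l.2 i ∧ l.2 i < 1) ∧
    ∃ z₀ : ℝ, 0 ≤ z₀ ∧ z₀ + c < 1 ∧ ∀ z ∈ Set.Icc z₀ (z₀ + c), (l.1 + z • l.2, z) ∈ K) →
  ∃ b : ℝ, 0 < b ∧ ∀ (M₀ : ℕ) (C : ℕ → Finset (V N × ℝ)),
    (∀ x ∈ K, ∃ M, M₀ ≤ M ∧ ∃ y ∈ C M, dist x y ≤ ((2 : ℝ) ^ M)⁻¹) →
    ∃ M, M₀ ≤ M ∧ ∃ (G : Finset (V N × V N)) (Y : V N × V N → Finset ℕ),
      (∀ g ∈ G, g ∈ A) ∧ Set.InjOn (fun g : V N × V N => fl M g.2) G ∧
      b * 2 ^ (N * M) ≤ G.card * (M + 2 : ℝ) ^ 2 ∧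
      ∀ g ∈ G, Y g ⊆ Finset.range (2 ^ M) ∧ b * 2 ^ M ≤ (Y g).card * (M + 2 : ℝ) ^ 2 ∧
        ∀ t ∈ Y g, ∃ y ∈ C M, dist (g.1 + (((2 : ℝ) ^ M)⁻¹ * t) • g.2,
          ((2 : ℝ) ^ M)⁻¹ * t) y ≤ 2 * ((2 : ℝ) ^ M)⁻¹

def SMeas : Prop := Cov → Pick → ∀ (N : ℕ) (s : ℝ), Disc N s → Meas N s

def UBmap : Prop := ∀ {X Y : Type} [PseudoMetricSpace X] [PseudoMetricSpace Y] (s : ℝ)
  (A B : Set X) (f : X → Y) (L : NNReal), 0 ≤ s → UB s A → B ⊆ A → LipschitzOnWith L f B →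
  UB s (f '' B)

/-- The theorem. -/
def Final : Prop := ∀ (n : ℕ) (K : Set (EuclideanSpace ℝ (Fin n)))
  (L : Set (EuclideanSpace ℝ (Fin n) × EuclideanSpace ℝ (Fin n))), 1 ≤ n → IsCompact K →
  (∀ l ∈ L, ‖l.1‖ = 1 ∧ inner ℝ l.1 l.2 = 0 ∧
    ∃ t₀ : ℝ, ∀ t ∈ Set.Icc t₀ (t₀ + 1), l.2 + t • l.1 ∈ K) →
  (∀ v, ‖v‖ = 1 → ∃ p, (v, p) ∈ L) → PackLE ((n : ℝ) - 1) L →
  ENNReal.ofReal ((3 * n + 1) / 4) ≤ dimH K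

def SFinal : Prop := UBmap → (∀ N : ℕ, Meas N (N / 4)) → Final

theorem final_of (h1 : SVol) (h2 : SVol2) (h3 : SHN) (h4 : SHN → SBL) (h5 : SInc) (h6 : SSix)
    (h7 : SLat) (h8 : Cnd) (h9 : SStar1) (h10 : SStar2) (h11 : SSep) (h12 : SInfo) (h13 : SFib)
    (h14 : SMulti) (h15 : Copy) (h16 : Full1) (h17 : SFull2) (h18 : SFull) (h19 : SLvA)
    (h20 : SWkA) (h21 : SGrain) (h22 : SPlane1) (h23 : SPlane) (h24 : SPigeon) (h25 : SPackA)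
    (h26 : SCore) (h27 : Zoom) (h28 : SExtA) (h29 : SGoodA) (h30 : SDisc) (h31 : Cov)
    (h32 : Pick) (h33 : SMeas) (h34 : UBmap) (h35 : SFinal) : Final := by
  have s1 := h9 h8
  have s2 := h10 h8 s1
  have lat := h7 h1 h2 h3 (h4 h3) (h6 h1 h2 h5)
  have mu := h14 h8 s1 s2 (h11 s1 s2) (h12 s1 s2) (h13 h1 h2 lat)
  have wk := h20 s1
  have lv := h19 s1 s2 h15
  have fu := h18 h1 h2 h16 (h17 h15)
  have pk := h25 s1 wk lv (h21 h1 s1 s2 wk fu lv) (h23 h1 s1 wk lv (h22 h1 h2 s1 s2 wk))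
  have go := h29 (h26 mu (h24 h1 h2 s1 wk) pk) (h28 h27)
  exact h35 h34 fun N => h33 h31 h32 N _ (h30 N _ (go N))

end Pool.Agent.MP_5168f5_an.H17S
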