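import Pool.Agent.MP_5168f5_an.H17S.BeApi

/-! Volume facts for symmetric convex bodies. -/

namespace Pool.Agent.MP_5168f5_an.H17S

open H19 MeasureTheory

namespace VOL

variable {E : Type} [NormedAddCommGroup E] [NormedSpace ℝ E] [FiniteDimensional ℝ E]
  [MeasureSpace E] [BorelSpace E] [(volume : Measure E).IsAddHaarMeasure]

omit [BorelSpace E] in
theorem fin (A : Bd E) : volume A.s ≠ ⊤ := A.bd.measure_lt_top.ne

omit [BorelSpace E] in
theorem ex (A : Bd E) : volume.real A.s = Real.exp A.lv :=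
  (Real.exp_log (ENNReal.toReal_pos (A.op.measure_ne_zero _ ⟨0, A.z0⟩) (fin A))).symm

theorem vol (A : Bd E) {c : ℝ} (hc : 0 < c) (y : E) : volume {x | A.In c (x - y)} ≠ ⊤ ∧
    volume.real {x | A.In c (x - y)} = Real.exp (A.lv + Module.finrank ℝ E * Real.log c) := by
  have h : volume {x | A.In c (x - y)} = ENNReal.ofReal (c ^ Module.finrank ℝ E) * volume A.s := by
    have h1 := Measure.addHaar_preimage_smul (volume : Measure E) (inv_ne_zero hc.ne') A.s
    rw [inv_pow, inv_inv, abs_of_pos (pow_pos hc _), ← measure_preimage_add_right _ (-y)] at h1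
    simp only [sub_eq_add_neg]
    exact h1
  refine ⟨h ▸ ENNReal.mul_ne_top ENNReal.ofReal_ne_top (fin A), ?_⟩
  rw [Real.exp_add, ← ex, Real.exp_nat_mul, Real.exp_log hc, Measure.real, h, ENNReal.toReal_mul,
    ENNReal.toReal_ofReal (pow_pos hc _).le, mul_comm]
  rfl

theorem count (A B : Bd E) (c : ℝ) (x₀ : E) (hc : 1 ≤ c) (h : A.Sub B c) : ∃ T : Finset E,
    (T.card : ℝ) ≤ Real.exp (B.lv - A.lv + Module.finrank ℝ E * Real.log (6 * c)) ∧
      ∀ x, B.In c (x - x₀) → A.kap x ∈ T := by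
  have c0 : 0 < c := by linarith
  have h2 : (0 : ℝ) < 1 / 2 := by norm_num
  have key : ∀ T : Finset E, ↑T ⊆ A.kap '' {x | B.In c (x - x₀)} →
      (T.card : ℝ) ≤ Real.exp (B.lv - A.lv + Module.finrank ℝ E * Real.log (6 * c)) := by
    intro T hT
    have h1 := measureReal_biUnion_finset (μ := volume) (s := T)
      (f := fun y => {x | A.In (1 / 2) (x - y)})
      (fun a ha b hb hab => Set.disjoint_left.2 fun y h3 h4 => hab (by
        obtain ⟨a, -, rfl⟩ := hT ha
        obtain ⟨b, -, rfl⟩ := hT hb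
        have := Bd.In.sub h4 h3 h2 h2
        rw [add_halves, Bd.in_one, sub_sub_sub_cancel_left] at this
        exact A.kap_sep _ _ this))
      (fun y _ => (A.op.preimage (f := fun x => (1 / 2 : ℝ)⁻¹ • (x - y)) (by fun_prop)).measurableSet)
      fun y _ => (vol A h2 y).1
    have h3 := measureReal_mono (μ := volume) (s₁ := ⋃ y ∈ T, {x | A.In (1 / 2) (x - y)})
      (s₂ := {x | B.In (3 * c) (x - x₀)})
      (Set.iUnion₂_subset fun a ha y hy => by
        obtain ⟨a, h4, rfl⟩ := hT ha
        have := ((Bd.In.of_sub hy h).add (Bd.In.sub h4 (h _ (A.sub_kap a)) c0 c0) (by positivity)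
          (by positivity)).mono (c' := 3 * c) (by positivity) (by linarith)
        rwa [show y - A.kap a + (a - x₀ - (a - A.kap a)) = y - x₀ by abel] at this)
      (vol B (by positivity) x₀).1
    rw [h1, (vol B (by positivity) x₀).2] at h3
    simp only [(vol A h2 _).2, Finset.sum_const, nsmul_eq_mul] at h3
    rw [← le_div_iff₀ (Real.exp_pos _), ← Real.exp_sub] at h3
    refine h3.trans_eq (congrArg _ ?_)
    rw [show 6 * c = 3 * c / (1 / 2) by ring, Real.log_div (by positivity) h2.ne']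
    ring
  have hf : (A.kap '' {x | B.In c (x - x₀)}).Finite := by
    by_contra hi
    obtain ⟨T, h3, h4⟩ := Set.Infinite.exists_subset_card_eq hi
      (⌊Real.exp (B.lv - A.lv + Module.finrank ℝ E * Real.log (6 * c))⌋₊ + 1)
    have := key T h3
    rw [h4] at this
    push_cast at this
    exact this.not_gt (Nat.lt_floor_add_one _)
  exact ⟨hf.toFinset, key _ hf.coe_toFinset.le, fun x hx => hf.mem_toFinset.2 ⟨x, hx, rfl⟩⟩

theorem cover (S A : Bd E) (T : Finset E) (R : ℝ) (f : E → E)
    (hT : (T.card : ℝ) ≤ Real.exp (R + Module.finrank ℝ E * Real.log (6 * 1)))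
    (h : ∀ x ∈ S.s, ∃ y ∈ T, A.In 2 (x - f y)) : S.lv ≤ R + A.lv + 3 * Module.finrank ℝ E := by
  have h1 := (measureReal_mono (μ := volume) (s₂ := ⋃ y ∈ T, {x | A.In 2 (x - f y)})
    (fun x hx => by simpa using h x hx) (measure_biUnion_ne_top T.finite_toSet
      fun y _ => (vol A two_pos _).1)).trans (measureReal_biUnion_finset_le _ _)
  simp only [(vol A two_pos _).2, Finset.sum_const, nsmul_eq_mul] at h1
  have h2 := h1.trans (mul_le_mul_of_nonneg_right hT (Real.exp_pos _).le)
  rw [ex, ← Real.exp_add, Real.exp_le_exp, mul_one] at h2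
  have h3 := mul_le_mul_of_nonneg_left log_twelve_le (Nat.cast_nonneg (Module.finrank ℝ E))
  rw [Real.log_mul (by norm_num) (by norm_num)] at h3
  linarith

theorem main : Vol E (Module.finrank ℝ E) := by
  refine ⟨Nat.cast_nonneg _, fun A B c hc h => ?_, count, fun A B => ?_, fun A B => ?_⟩
  · have := measureReal_mono (μ := volume) (s₁ := A.s) (fun x hx => by simpa using h x hx)
      (vol B hc 0).1
    rwa [(vol B hc 0).2, ex, Real.exp_le_exp] at this
  · obtain ⟨T, h1, h2⟩ := count (A ⊓ B) B 1 0 le_rfl (.of_le inf_le_right le_rfl)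
    have := cover (A ⊔ B) A T _ id h1 fun x hx => by
      obtain ⟨a, ha, b, hb, rfl⟩ := Bd.mem_sup_elim hx
      refine ⟨_, h2 b (by rwa [sub_zero, Bd.in_one]), ?_⟩
      have := (Bd.in_one.2 ha).add (Bd.in_one.2 ((A ⊓ B).sub_kap b).1) one_pos one_pos
      rwa [one_add_one_eq_two, ← add_sub_assoc] at this
    linarith
  · obtain ⟨T, h1, h2⟩ := count B (A ⊔ B) 1 0 le_rfl (.of_le le_sup_right le_rfl)
    have h3 : ∀ y, ∃ z, ∀ x ∈ A.s, B.kap x = y → (A ⊓ B).In 2 (x - z) := fun y => by
      by_cases h : ∃ z ∈ A.s, B.kap z = y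
      · obtain ⟨z, hz, rfl⟩ := h
        refine ⟨z, fun x hx e => Bd.in_inf.2 ⟨?_, Bd.in_of_kap_eq e⟩⟩
        have := (Bd.in_one.2 hx).sub (Bd.in_one.2 hz) one_pos one_pos
        rwa [one_add_one_eq_two] at this
      · exact ⟨0, fun x hx e => (h ⟨x, hx, e⟩).elim⟩
    choose f hf using h3
    have := cover A (A ⊓ B) T _ f h1 fun x hx =>
      ⟨_, h2 x (by rw [sub_zero]; exact (Bd.in_one.2 hx).of_le le_sup_left), hf _ x hx rfl⟩
    linarith

end VOL

theorem rowVOL : SVol := fun N => by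
  have : (volume : Measure (V N × V N)).IsAddHaarMeasure :=
    Measure.prod.instIsAddHaarMeasure volume volume
  exact ⟨by simpa using VOL.main (E := V N), by simpa [two_mul] using VOL.main (E := V N × V N)⟩

end Pool.Agent.MP_5168f5_an.H17S
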